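import Pool.Agent.Lib.MP_64d6f1_an.HostAlg

/-! Matrix amplifications and approximate solutions. -/

open scoped ComplexConjugate
open Filter Topology

namespace Pool.Agent.Lib.MP_64d6f1_an

open TAlg

/-- Matrix amplification, as an opaque copy of `mat`. -/
noncomputable def amp (m : Type) [Fintype m] [DecidableEq m] (B : TAlg) : TAlg := mat m B

section kr

variable {m : Type} [Fintype m] [DecidableEq m] {B : TAlg}

/-- Elementary tensors in the amplification. -/
def kr (E : Matrix m m ℂ) (x : B) : amp m B := kron E x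

lemma kr_mul (E F : Matrix m m ℂ) (x y : B) : kr E x * kr F y = kr (E * F) (x * y) :=
  kron_mul E F x y

lemma star_kr (E : Matrix m m ℂ) (x : B) : star (kr E x) = kr (star E) (star x) := star_kron E x

lemma kr_add_left (E F : Matrix m m ℂ) (x : B) : kr (E + F) x = kr E x + kr F x :=
  kron_add_left E F x

lemma kr_add_right (E : Matrix m m ℂ) (x y : B) : kr E (x + y) = kr E x + kr E y :=
  kron_add_right E x y

lemma kr_smul_left (c : ℂ) (E : Matrix m m ℂ) (x : B) : kr (c • E) x = c • kr E x :=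
  kron_smul_left c E x

lemma kr_smul_right (c : ℂ) (E : Matrix m m ℂ) (x : B) : kr E (c • x) = c • kr E x :=
  kron_smul_right c E x

lemma kr_zero_left (x : B) : kr (0 : Matrix m m ℂ) x = 0 := kron_zero_left x

lemma kr_zero_right (E : Matrix m m ℂ) : kr E (0 : B) = 0 := kron_zero_right E

lemma kr_one_one : kr (1 : Matrix m m ℂ) (1 : B) = 1 := kron_one_one

lemma kr_sum_left {ι : Type*} (s : Finset ι) (E : ι → Matrix m m ℂ) (x : B) :
    kr (∑ i ∈ s, E i) x = ∑ i ∈ s, kr (E i) x := kron_sum_left s E x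

lemma kr_sum_right {ι : Type*} (s : Finset ι) (E : Matrix m m ℂ) (x : ι → B) :
    kr E (∑ i ∈ s, x i) = ∑ i ∈ s, kr E (x i) := kron_sum_right s E x

lemma τ_kr (E : Matrix m m ℂ) (x : B) :
    (amp m B).τ (kr E x) = (Fintype.card m : ℂ)⁻¹ * E.trace * B.τ x := τ_kron E x

lemma kr_sub_right (E : Matrix m m ℂ) (x y : B) : kr E (x - y) = kr E x - kr E y := by
  rw [eq_sub_iff_add_eq, ← kr_add_right, sub_add_cancel]

lemma kr_neg_left (E : Matrix m m ℂ) (x : B) : kr (-E) x = - kr E x := by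
  rw [← neg_one_smul ℂ E, kr_smul_left, neg_one_smul]

/-- The corner embedding. -/
def krHom (B : TAlg) (E : Matrix m m ℂ) (h1 : star E = E) (h2 : E * E = E) :
    B →⋆ₙₐ[ℂ] amp m B := kronHom B E h1 h2

lemma krHom_apply (E : Matrix m m ℂ) (h1 : star E = E) (h2 : E * E = E) (x : B) :
    krHom B E h1 h2 x = kr E x := rfl

lemma emb_amp (h : Emb B) (m : Type) [Fintype m] [DecidableEq m] [Nonempty m] : Emb (amp m B) :=
  h.mat m

lemma nrm_kr (E : Matrix m m ℂ) (x : B) : nrm (kr E x) = nrm (kr (B := cplx) E 1) * nrm x := by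
  rw [← sq_eq_sq₀ (nrm_nonneg _) (mul_nonneg (nrm_nonneg _) (nrm_nonneg _)), mul_pow,
    nrm_sq (kr E x), nrm_sq (kr E _), star_kr, star_kr, kr_mul, kr_mul, τ_kr, τ_kr,
    nrm_sq', star_one, mul_one, mul_comm _ (((nrm x ^ 2 : ℝ)) : ℂ), Complex.re_ofReal_mul, mul_comm]
  simp

lemma null_kr {B : ℕ → TAlg} {l : Filter ℕ} (E : Matrix m m ℂ) {x : ∀ n, B n} (h : Null l x) :
    Null (B := fun n => amp m (B n)) l fun n => kr E (x n) := by
  simpa [Null, nrm_kr E (x _)] using Tendsto.const_mul (nrm (kr (B := cplx) E 1)) h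

lemma IsPVM.kr {R O : Type} [Fintype R] [Fintype O] {E : R → Matrix m m ℂ} (hE : IsPVM 1 E)
    {X : R → O → B} (hX : ∀ r, IsPVM 1 (X r)) :
    IsPVM (1 : amp m B) fun p : R × O => kr (E p.1) (X p.1 p.2) where
  sa p := by rw [star_kr, hE.sa, (hX _).sa]
  idem p := by rw [kr_mul, hE.idem, (hX _).idem]
  orth := by
    rintro ⟨r, a⟩ ⟨s, b⟩ h
    rw [kr_mul]
    by_cases hrs : r = s
    · subst hrs
      rw [(hX r).orth a b (by simpa using h), kr_zero_right]
    · rw [hE.orth r s hrs, kr_zero_left]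
  sum := by
    simp only [Fintype.sum_prod_type, ← kr_sum_right, (hX _).sum, ← kr_sum_left, hE.sum,
      kr_one_one]

end kr

lemma IsPVM.coarse {A R O : Type*} [Ring A] [StarRing A] [Fintype R] [Fintype O] {e : A}
    {p : R × O → A} (h : IsPVM e p) : IsPVM e fun r => ∑ a, p (r, a) where
  sa r := by simp only [star_sum, h.sa]
  idem r := by
    rw [Finset.sum_mul]
    refine Finset.sum_congr rfl fun a _ => ?_
    rw [Finset.mul_sum, Finset.sum_eq_single a (fun b _ hb => h.orth _ _ (by simp [hb.symm]))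
      (by simp), h.idem]
  orth r s hrs := by
    rw [Finset.sum_mul_sum]
    exact Finset.sum_eq_zero fun a _ => Finset.sum_eq_zero fun b _ => h.orth _ _ (by simp [hrs])
  sum := by rw [← h.sum, Fintype.sum_prod_type]

lemma IsPVM.fine_mul {A R O : Type*} [Ring A] [StarRing A] [Fintype R] [Fintype O] {e : A}
    {p : R × O → A} (h : IsPVM e p) (r : R) (a : O) : p (r, a) * ∑ b, p (r, b) = p (r, a) := by
  rw [Finset.mul_sum, Finset.sum_eq_single a (fun b _ hb => h.orth _ _ (by simp [hb.symm]))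
    (by simp), h.idem]

lemma IsPVM.mul_fine {A R O : Type*} [Ring A] [StarRing A] [Fintype R] [Fintype O] {e : A}
    {p : R × O → A} (h : IsPVM e p) (r : R) (a : O) : (∑ b, p (r, b)) * p (r, a) = p (r, a) := by
  rw [Finset.sum_mul, Finset.sum_eq_single a (fun b _ hb => h.orth _ _ (by simp [hb]))
    (by simp), h.idem]

section ap

variable {l : Filter ℕ} {B : ℕ → TAlg} {A : TAlg}

/-- Approximation by the image of a model sequence. -/
def Ap (l : Filter ℕ) (π : ∀ n, B n →⋆ₙₐ[ℂ] A) (a : ℕ → A) (x : ∀ n, B n) : Prop :=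
  NB (B := fun _ => A) l a fun n => π n (x n)

variable {π : ∀ n, B n →⋆ₙₐ[ℂ] A} {a b : ℕ → A} {x y : ∀ n, B n}

lemma Ap.mul (h : Ap l π a x) (h' : Ap l π b y) :
    Ap l π (fun n => a n * b n) fun n => x n * y n := by
  simpa only [Ap, map_mul] using NB.mul h h'

lemma Ap.add (h : Ap l π a x) (h' : Ap l π b y) :
    Ap l π (fun n => a n + b n) fun n => x n + y n := by
  simpa only [Ap, map_add] using NB.add h h'

lemma Ap.smul (h : Ap l π a x) (c : ℂ) : Ap l π (fun n => c • a n) fun n => c • x n := by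
  simpa only [Ap, map_smul] using NB.smul h c

lemma Ap.sum {ι : Type*} (s : Finset ι) {a : ι → ℕ → A} {x : ι → ∀ n, B n}
    (h : ∀ i ∈ s, Ap l π (a i) (x i)) :
    Ap l π (fun n => ∑ i ∈ s, a i n) fun n => ∑ i ∈ s, x i n := by
  simpa only [Ap, map_sum] using NB.sum s h

lemma Ap.congr (h : Ap l π a x) (e : ∀ n, x n = y n) : Ap l π a y := by
  rwa [show x = y from funext e] at h

lemma Ap.of_proj (h : Null (B := fun _ => A) l fun n => a n - π n (x n))
    (ha : ∀ᶠ n in l, star (a n) = a n ∧ a n * a n = a n)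
    (hx : ∀ n, star (x n) = x n ∧ x n * x n = x n) : Ap l π a x :=
  ⟨h, ⟨1, ha.mono fun _ hn => bd_of_proj hn.1 hn.2⟩, ⟨1, Eventually.of_forall fun n =>
    bd_of_proj (by rw [← map_star, (hx n).1]) (by rw [← map_mul, (hx n).2])⟩⟩

end ap

/-- No exact solution of the zero pattern, in a corner, close to the given family. -/
def NonLift (l : Filter ℕ) (B : ℕ → TAlg) {I O : Type} [Fintype O] (X : ∀ n, I → O → B n) :
    Prop :=
  ∀ (A : TAlg) (_ : ∀ a : A, nrm a = 0 → a = 0) (c : ℝ) (_ : 0 < c) (π : ∀ n, B n →⋆ₙₐ[ℂ] A)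
    (_ : ∀ n x, A.τ (π n x) = c * (B n).τ x) (e : ℕ → A) (Y : ℕ → I → O → A),
    (∀ᶠ n in l, ∀ i, IsPVM (e n) (Y n i)) →
    (∀ i a, Null (B := fun _ => A) l fun n => Y n i a - π n (X n i a)) →
    (∀ i a j b, Null l (fun n => X n i a * X n j b) → ∀ᶠ n in l, Y n i a * Y n j b = 0) → False

/-- The same for two projection valued measures. -/
def NonLift2 (l : Filter ℕ) (B : ℕ → TAlg) {R C : Type} [Fintype R] [Fintype C]
    (P : ∀ n, R → B n) (Q : ∀ n, C → B n) : Prop :=
  ∀ (A : TAlg) (_ : ∀ a : A, nrm a = 0 → a = 0) (c : ℝ) (_ : 0 < c) (π : ∀ n, B n →⋆ₙₐ[ℂ] A)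
    (_ : ∀ n x, A.τ (π n x) = c * (B n).τ x) (e : ℕ → A) (P' : ℕ → R → A) (Q' : ℕ → C → A),
    (∀ᶠ n in l, IsPVM (e n) (P' n) ∧ IsPVM (e n) (Q' n)) →
    (∀ r, Null (B := fun _ => A) l fun n => P' n r - π n (P n r)) →
    (∀ s, Null (B := fun _ => A) l fun n => Q' n s - π n (Q n s)) →
    (∀ r s, Null l (fun n => P n r * Q n s) → ∀ᶠ n in l, P' n r * Q' n s = 0) → False

end Pool.Agent.Lib.MP_64d6f1_an
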