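import Pool.Agent.Lib.MP_64d6f1_an.Obs

/-! Functional calculus on the circle in a tracial algebra. -/

open scoped ComplexConjugate
open Filter Topology

namespace Pool.Agent.Lib.MP_64d6f1_an

open TAlg

/-- The circle. -/
abbrev X1 : Type := AddCircle (1 : ℝ)

/-- Continuous functions on the circle. -/
abbrev CX : Type := C(X1, ℂ)

lemma fourier_succ (e : ℤ) : (fourier (e + 1) : CX) = fourier e * fourier 1 := by
  ext x; exact fourier_add

lemma fourier_pred (e : ℤ) : (fourier (e - 1) : CX) = fourier e * star (fourier 1) := by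
  ext x; rw [sub_eq_add_neg, fourier_add, fourier_neg]; rfl

lemma fourier_zero_eq : (fourier 0 : CX) = 1 := by ext x; exact fourier_zero

lemma fourier_unitary : (fourier 1 : CX) ∈ unitary CX := by
  have : star (fourier 1 : CX) * fourier 1 = 1 := by
    rw [mul_comm, ← fourier_pred, sub_self, fourier_zero_eq]
  exact ⟨this, by rwa [mul_comm]⟩

lemma fc_zpow {R : Type*} [Ring R] [StarRing R] [Algebra ℂ R] (Φ : CX →⋆ₐ[ℂ] R) (u : unitary R)
    (h : Φ (fourier 1) = u) (e : ℤ) : Φ (fourier e) = (u ^ e : unitary R) := by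
  induction e using Int.induction_on with
  | zero => simp [fourier_zero_eq]
  | succ e ih => rw [fourier_succ, map_mul, ih, h, zpow_add_one]; rfl
  | pred e ih => rw [fourier_pred, map_mul, ih, map_star, h, zpow_sub_one]; rfl

theorem lin_ind {l : Filter ℕ} {B : ℕ → TAlg} (T : ∀ n, CX →ₗ[ℂ] B n) (C : ℝ)
    (hT : ∀ n f, nrm (T n f) ≤ C * ‖f‖) (h : ∀ e, Null l fun n => T n (fourier e)) (f : CX) :
    Null l fun n => T n f := by
  let S : Submodule ℂ CX :=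
    { carrier := {f | Null l fun n => T n f}
      add_mem' := fun ha hb => by simpa using Null.add ha hb
      zero_mem' := by simpa using null_zero
      smul_mem' := fun c f hf => by simpa using Null.smul hf c }
  have hS : IsClosed (S : Set CX) := by
    refine isClosed_of_closure_subset fun f hf => ?_
    refine Metric.tendsto_nhds.mpr fun ε hε => ?_
    obtain ⟨g, hg, hfg⟩ := Metric.mem_closure_iff.mp hf (ε / 2 / (|C| + 1)) (by positivity)
    filter_upwards [Metric.tendsto_nhds.mp hg (ε / 2) (by positivity)] with n hn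
    rw [dist_zero_right, Real.norm_of_nonneg (nrm_nonneg _)] at hn ⊢
    have h1 := nrm_add_le (T n (f - g)) (T n g)
    rw [← map_add, sub_add_cancel] at h1
    rw [dist_eq_norm, lt_div_iff₀ (by positivity)] at hfg
    have h2 := hT n (f - g)
    nlinarith [le_abs_self C, norm_nonneg (f - g)]
  have : (Submodule.span ℂ (Set.range (@fourier 1))).topologicalClosure ≤ S :=
    Submodule.topologicalClosure_minimal _ (Submodule.span_le.mpr (by
      rintro _ ⟨e, rfl⟩; exact h e)) hS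
  rw [span_fourier_closure_eq_top] at this
  exact this trivial

theorem lin_ind0 {A : TAlg} (hA : ∀ a : A, nrm a = 0 → a = 0) (T : CX →ₗ[ℂ] A) (C : ℝ)
    (hT : ∀ f, nrm (T f) ≤ C * ‖f‖) (h : ∀ e, T (fourier e) = 0) (f : CX) : T f = 0 :=
  hA _ (tendsto_const_nhds_iff.mp (lin_ind (l := atTop) (B := fun _ => A) (fun _ => T) C
    (fun _ => hT) (fun e => by simpa [h] using null_zero) f))

lemma nrm_cplx (z : ℂ) : nrm (A := cplx) z = ‖z‖ := by
  rw [← sq_eq_sq₀ (nrm_nonneg _) (norm_nonneg _), nrm_sq]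
  change (conj z * z).re = _
  rw [Complex.conj_mul']
  norm_cast

/-- Faithful normalised trace with contractive functional calculus. -/
structure VN (A : TAlg) : Prop where
  faith : ∀ a : A, nrm a = 0 → a = 0
  one : A.τ 1 = 1
  bd : ∀ (Φ : CX →⋆ₐ[ℂ] A) (f : CX), Bd (Φ f) ‖f‖

namespace VN

variable {A : TAlg} (hA : VN A)
include hA

lemma nrm_one : nrm (1 : A) = 1 := by
  have := nrm_sq (1 : A)
  rw [star_one, one_mul, hA.one, Complex.one_re] at this
  nlinarith [nrm_nonneg (1 : A)]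

lemma nrm_le (Φ : CX →⋆ₐ[ℂ] A) (f : CX) : nrm (Φ f) ≤ ‖f‖ := by
  simpa [hA.nrm_one] using ((hA.bd Φ f).2 1).1

lemma null_fc {l : Filter ℕ} {Φ Φ' : ℕ → CX →⋆ₐ[ℂ] A}
    (h : Null (B := fun _ => A) l fun n => Φ' n (fourier 1) - Φ n (fourier 1)) (f : CX) :
    Null (B := fun _ => A) l fun n => Φ' n f - Φ n f := by
  have hb : ∀ (Φ : ℕ → CX →⋆ₐ[ℂ] A) f, Bdd (B := fun _ => A) l fun n => Φ n f := fun Φ f =>
    ⟨_, Eventually.of_forall fun n => hA.bd (Φ n) f⟩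
  have h1 : NB (B := fun _ => A) l (fun n => Φ' n (fourier 1)) fun n => Φ n (fourier 1) :=
    ⟨h, hb _ _, hb _ _⟩
  have h2 : ∀ e, NB (B := fun _ => A) l (fun n => Φ' n (fourier e)) fun n => Φ n (fourier e) := by
    intro e
    induction e using Int.induction_on with
    | zero => simpa [fourier_zero_eq] using NB.refl (hb Φ 1)
    | succ e ih => simpa only [fourier_succ, map_mul] using ih.mul h1
    | pred e ih => simpa only [fourier_pred, map_mul, map_star] using ih.mul h1.star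
  refine lin_ind (B := fun _ => A) (fun n => (Φ' n).toAlgHom.toLinearMap -
    (Φ n).toAlgHom.toLinearMap) 2 (fun n f => ?_) (fun e => (h2 e).null) f
  change nrm (Φ' n f - Φ n f) ≤ _
  have := nrm_add_le (Φ' n f) (-Φ n f)
  rw [nrm_neg, ← sub_eq_add_neg] at this
  linarith [hA.nrm_le (Φ' n) f, hA.nrm_le (Φ n) f]

lemma indep_aux (Φ : CX →⋆ₐ[ℂ] A) (y : A)
    (h : ∀ e, A.τ (Φ (fourier e) * y) = A.τ (Φ (fourier e)) * A.τ y) (f : CX) :
    A.τ (Φ f * y) = A.τ (Φ f) * A.τ y := by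
  have := lin_ind0 (A := cplx) (fun a ha => by rwa [nrm_cplx, norm_eq_zero] at ha)
    (A.τ ∘ₗ LinearMap.mulRight ℂ (y - A.τ y • 1) ∘ₗ Φ.toAlgHom.toLinearMap)
    (nrm (y - A.τ y • 1)) (fun f => ?_) (fun e => ?_) f
  · change A.τ (Φ f * (y - A.τ y • 1)) = 0 at this
    rwa [mul_sub, mul_smul_comm, mul_one, map_sub, map_smul, smul_eq_mul, mul_comm (A.τ y),
      sub_eq_zero] at this
  · rw [nrm_cplx, mul_comm]
    refine (norm_τ_le' _).trans ?_
    rw [hA.nrm_one, one_mul]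
    exact ((hA.bd Φ f).2 _).1
  · change A.τ (Φ (fourier e) * (y - A.τ y • 1)) = 0
    rw [mul_sub, mul_smul_comm, mul_one, map_sub, map_smul, smul_eq_mul, h, mul_comm, sub_self]

lemma indep {Φ Ψ : CX →⋆ₐ[ℂ] A} (h : ∀ e f, A.τ (Φ (fourier e) * Ψ (fourier f)) =
    A.τ (Φ (fourier e)) * A.τ (Ψ (fourier f))) (f g : CX) :
    A.τ (Φ f * Ψ g) = A.τ (Φ f) * A.τ (Ψ g) := by
  refine hA.indep_aux Φ _ (fun e => ?_) f
  rw [A.comm, mul_comm (A.τ _)]
  exact hA.indep_aux Ψ _ (fun e' => by rw [A.comm, h, mul_comm]) g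

lemma atom_char (Φ : CX →⋆ₐ[ℂ] A) {a : A} (ha : nrm a ≠ 0) (h : ∀ x, ∃ c : ℂ, x * a = c • a) :
    ∃ c : X1, ∀ f, Φ f * a = f c • a := by
  obtain ⟨γ, hγ⟩ := h (Φ (fourier 1))
  have hu : star (Φ (fourier 1)) * Φ (fourier 1) = 1 := by
    rw [← map_star, ← map_mul, fourier_unitary.1, map_one]
  have h1 : ‖γ‖ = 1 := by
    have := nrm_mul_unitary hu a
    rwa [hγ, nrm_smul, mul_eq_right₀ ha] at this
  let z : Circle := ⟨γ, by simpa [Submonoid.unitSphere] using h1⟩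
  let c : X1 := (AddCircle.homeomorphCircle one_ne_zero).symm z
  have hc : fourier 1 c = γ := by
    rw [fourier_one, ← AddCircle.homeomorphCircle_apply one_ne_zero, Homeomorph.apply_symm_apply]
  have h2 : star (Φ (fourier 1)) * a = star γ • a := by
    have e : star γ * γ = 1 := by
      change conj γ * γ = 1
      rw [Complex.conj_mul', h1]; simp
    calc _ = star γ • (star (Φ (fourier 1)) * (Φ (fourier 1) * a)) := by
          rw [hγ, mul_smul_comm, smul_smul, e, one_smul]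
      _ = _ := by rw [← mul_assoc, hu, one_mul]
  have h3 : ∀ e, Φ (fourier e) * a = fourier e c • a := by
    intro e
    induction e using Int.induction_on with
    | zero => simp [fourier_zero_eq]
    | succ e ih =>
      rw [fourier_succ, map_mul, mul_assoc, hγ, mul_smul_comm, ih, smul_smul,
        ContinuousMap.mul_apply, hc, mul_comm]
    | pred e ih =>
      rw [fourier_pred, map_mul, mul_assoc, map_star, h2, mul_smul_comm, ih, smul_smul,
        ContinuousMap.mul_apply, ContinuousMap.star_apply, hc, mul_comm]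
  refine ⟨c, fun f => sub_eq_zero.mp (lin_ind0 hA.faith
    (LinearMap.mulRight ℂ a ∘ₗ Φ.toAlgHom.toLinearMap -
      (ContinuousMap.evalCLM ℂ c).toLinearMap.smulRight a) (2 * nrm a) (fun f => ?_)
    (fun e => sub_eq_zero.mpr (h3 e)) f)⟩
  change nrm (Φ f * a - f c • a) ≤ _
  have := nrm_add_le (Φ f * a) (-(f c • a))
  rw [nrm_neg, ← sub_eq_add_neg, nrm_smul] at this
  nlinarith [((hA.bd Φ f).2 a).1, f.norm_coe_le_norm c, nrm_nonneg a]

lemma atom_fix {l : Filter ℕ} {Φ Φ' : ℕ → CX →⋆ₐ[ℂ] A}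
    (h : Null (B := fun _ => A) l fun n => Φ' n (fourier 1) - Φ n (fourier 1)) {a : A}
    (ha : nrm a ≠ 0) (hb : Bd a 1) (hm : ∀ x, ∃ c : ℂ, x * a = c • a) {θ : X1}
    (hθ : ∀ n, Φ n (fourier 1) * a = fourier 1 θ • a) {f : CX} {c : ℂ}
    (hf : ∀ᶠ x in 𝓝 θ, f x = c) : ∀ᶠ n in l, Φ' n f * a = c • a := by
  choose x hx using fun n => hA.atom_char (Φ' n) ha hm
  have h1 := h.mul_right (b := fun _ => a) ⟨1, Eventually.of_forall fun _ => hb⟩
  simp only [Null, sub_mul, hx, hθ, ← sub_smul, nrm_smul] at h1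
  have h2 : Tendsto (fun n => fourier 1 (x n)) l (𝓝 (fourier 1 θ)) := by
    rw [tendsto_iff_norm_sub_tendsto_zero]
    simpa [mul_assoc, ha] using h1.mul_const (nrm a)⁻¹
  have h3 : Tendsto x l (𝓝 θ) := by
    have e : Topology.IsEmbedding fun z : Circle => (z : ℂ) := Topology.IsEmbedding.subtypeVal
    rw [(AddCircle.homeomorphCircle one_ne_zero).isEmbedding.tendsto_nhds_iff, e.tendsto_nhds_iff]
    simpa only [Function.comp_def, AddCircle.homeomorphCircle_apply, fourier_one] using h2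
  filter_upwards [h3.eventually hf] with n hn
  rw [hx, hn]

end VN

/-- Complexification of a real function. -/
def cc (g : C(X1, ℝ)) : CX := ⟨fun x => g x, by fun_prop⟩

@[simp] lemma cc_apply (g : C(X1, ℝ)) (x : X1) : cc g x = g x := rfl

lemma exists_bumps {K : Type} [Fintype K] {θ : K → X1} (hθ : Function.Injective θ) :
    ∃ b : K → C(X1, ℝ), (∀ i x, 0 ≤ b i x ∧ b i x ≤ 1) ∧
      (∀ i j, i ≠ j → ∀ x, b i x = 0 ∨ b j x = 0) ∧ ∀ i, ∀ᶠ x in 𝓝 (θ i), b i x = 1 := by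
  obtain ⟨U, hU, hd⟩ := (Set.finite_range θ).t2_separation
  have : ∀ i, ∃ b : C(X1, ℝ), (∀ x, 0 ≤ b x ∧ b x ≤ 1) ∧ (∀ x, x ∉ U (θ i) → b x = 0) ∧
      ∀ᶠ x in 𝓝 (θ i), b x = 1 := by
    intro i
    obtain ⟨t, ht, hc, hs⟩ := exists_mem_nhds_isClosed_subset ((hU _).2.mem_nhds (hU (θ i)).1)
    obtain ⟨b, h0, h1, h2⟩ := exists_continuous_zero_one_of_isClosed (hU (θ i)).2.isClosed_compl hc
      (Set.disjoint_compl_left_iff_subset.mpr hs)
    exact ⟨b, h2, h0, mem_of_superset ht h1⟩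
  choose b h1 h2 h3 using this
  refine ⟨b, h1, fun i j hij x => ?_, h3⟩
  by_cases hx : x ∈ U (θ i)
  · exact Or.inr (h2 j x fun hx' => Set.disjoint_left.mp
      (hd ⟨i, rfl⟩ ⟨j, rfl⟩ fun e => hij (hθ e)) hx hx')
  · exact Or.inl (h2 i x hx)

lemma amgm {K : Type} [Fintype K] [Nonempty K] {x y : K → ℝ} (hx : ∀ k, 0 ≤ x k)
    (hy : ∀ k, 0 ≤ y k) (sx : ∑ k, x k ≤ 1) (sy : ∑ k, y k ≤ 1)
    (h : ∀ k, (Fintype.card K : ℝ)⁻¹ ^ 2 ≤ x k * y k) (k : K) :
    x k = (Fintype.card K : ℝ)⁻¹ ∧ y k = (Fintype.card K : ℝ)⁻¹ := by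
  set m : ℝ := (Fintype.card K : ℝ)⁻¹ with hm
  have hm0 : 0 < m := by rw [hm]; exact inv_pos.mpr (by exact_mod_cast Fintype.card_pos)
  have h1 : ∀ k, 0 ≤ x k + y k - 2 * m := fun k => by
    have : (2 * m) ^ 2 ≤ (x k + y k) ^ 2 := by nlinarith [h k, sq_nonneg (x k - y k)]
    have := (sq_le_sq₀ (by positivity) (add_nonneg (hx k) (hy k))).mp this
    linarith
  have h2 : ∑ k, (x k + y k - 2 * m) ≤ 0 := by
    have : (Fintype.card K : ℝ) * m = 1 := mul_inv_cancel₀ (by exact_mod_cast Fintype.card_ne_zero)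
    simp only [Finset.sum_sub_distrib, Finset.sum_add_distrib, Finset.sum_const, Finset.card_univ,
      nsmul_eq_mul]
    linarith
  have h3 := (Finset.sum_eq_zero_iff_of_nonneg fun k _ => h1 k).mp
    (le_antisymm h2 (Finset.sum_nonneg fun k _ => h1 k)) k (Finset.mem_univ k)
  have h4 : (x k - m) ^ 2 ≤ 0 := by
    have h6 := h k
    rw [show y k = 2 * m - x k by linarith] at h6
    nlinarith
  have h5 : x k = m := by nlinarith [sq_nonneg (x k - m)]
  exact ⟨h5, by linarith⟩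

lemma fc_pos {A : TAlg} (Φ : CX →⋆ₐ[ℂ] A) {g : C(X1, ℝ)} (hg : ∀ x, 0 ≤ g x) :
    ∃ c : A, star c = c ∧ Φ (cc g) = c * c := by
  refine ⟨Φ (cc ⟨fun x => √(g x), by fun_prop⟩), ?_, ?_⟩
  · rw [← map_star]; congr 1; ext x; simp
  · rw [← map_mul]; congr 1; ext x
    simp [← Complex.ofReal_mul, Real.mul_self_sqrt (hg x)]

lemma fc_tr {A : TAlg} (Φ : CX →⋆ₐ[ℂ] A) {g : C(X1, ℝ)} (hg : ∀ x, 0 ≤ g x) :
    ∃ r : ℝ, 0 ≤ r ∧ A.τ (Φ (cc g)) = r := by
  obtain ⟨c, h1, h2⟩ := fc_pos Φ hg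
  exact ⟨nrm c ^ 2, sq_nonneg _, by rw [← nrm_sq', h1, h2]⟩

lemma VN.fc_zero {A : TAlg} (hA : VN A) (Φ : CX →⋆ₐ[ℂ] A) {g : C(X1, ℝ)} (hg : ∀ x, 0 ≤ g x)
    (h : A.τ (Φ (cc g)) = 0) : Φ (cc g) = 0 := by
  obtain ⟨c, h1, h2⟩ := fc_pos Φ hg
  have := nrm_sq' c
  rw [h1, ← h2, h] at this
  rw [h2, hA.faith c (pow_eq_zero_iff two_ne_zero |>.mp (by exact_mod_cast this.symm)), mul_zero]

lemma VN.tr_eq {A : TAlg} (hA : VN A) {K : Type} [Fintype K] [Nonempty K] {Φ Ψ : CX →⋆ₐ[ℂ] A}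
    (hi : ∀ f g, A.τ (Φ f * Ψ g) = A.τ (Φ f) * A.τ (Ψ g)) {a : K → A} (ha : ∀ k, Bd (a k) 1)
    (ha1 : ∀ k, star (a k) = a k) (ha2 : ∀ k, a k * a k = a k)
    (hc : ∀ k x, x * a k = a k * x) (ht : ∀ k, A.τ (a k) = ((Fintype.card K : ℝ)⁻¹ ^ 2 : ℝ))
    {g : K → C(X1, ℝ)} (h0 : ∀ k x, 0 ≤ g k x) (h1 : ∀ x, ∑ k, g k x ≤ 1)
    (hΦ : ∀ k, Φ (cc (g k)) * a k = a k) (hΨ : ∀ k, Ψ (cc (g k)) * a k = a k) (k : K) :
    A.τ (Φ (cc (g k))) = ((Fintype.card K : ℝ)⁻¹ : ℝ) ∧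
      A.τ (Ψ (cc (g k))) = ((Fintype.card K : ℝ)⁻¹ : ℝ) := by
  choose x hx0 hx using fun k => fc_tr Φ (h0 k)
  choose y hy0 hy using fun k => fc_tr Ψ (h0 k)
  have s : ∀ (Φ : CX →⋆ₐ[ℂ] A) (x : K → ℝ), (∀ k, A.τ (Φ (cc (g k))) = x k) → ∑ k, x k ≤ 1 := by
    intro Φ x hx
    obtain ⟨r, hr, h⟩ := fc_tr Φ (g := 1 - ∑ k, g k) fun z => by simpa using h1 z
    have e : cc (1 - ∑ k, g k) = 1 - ∑ k, cc (g k) := by ext z; simp
    rw [e, map_sub, map_one, map_sum, map_sub, map_sum, hA.one] at h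
    simp only [hx] at h
    have : 1 - ∑ k, x k = r := by exact_mod_cast h
    linarith
  have := amgm hx0 hy0 (s Φ x hx) (s Ψ y hy) (fun k => ?_) k
  · rw [hx, hy, this.1, this.2]; exact ⟨rfl, rfl⟩
  obtain ⟨c, c1, c2⟩ := fc_pos Φ (h0 k)
  obtain ⟨d, d1, d2⟩ := fc_pos Ψ (h0 k)
  have e1 : nrm (d * c) ^ 2 = x k * y k := by
    have := nrm_sq' (d * c)
    rw [star_mul, c1, d1, mul_assoc, A.comm, mul_assoc, mul_assoc, ← c2, ← mul_assoc, ← d2, A.comm,
      hi, hx, hy] at this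
    exact_mod_cast this.symm
  have e2 : nrm (d * c * a k) ^ 2 = (Fintype.card K : ℝ)⁻¹ ^ 2 := by
    have := nrm_sq' (d * c * a k)
    rw [star_mul, star_mul, c1, d1, ha1, ← hc, mul_assoc, ← mul_assoc (a k), ← hc, mul_assoc,
      mul_assoc _ (a k), ha2, A.comm, mul_assoc, mul_assoc, mul_assoc, ← hc, ← mul_assoc c, ← c2,
      hΦ, ← mul_assoc, ← d2, hΨ, ht] at this
    exact_mod_cast this.symm
  rw [← e1, ← e2]
  exact pow_le_pow_left₀ (nrm_nonneg _) (by simpa using ((ha k).2 (d * c)).2) 2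

lemma VN.pvm_of_tr {A : TAlg} (hA : VN A) {K : Type} [Fintype K] [Nonempty K] (Φ : CX →⋆ₐ[ℂ] A)
    {b : K → C(X1, ℝ)} (h0 : ∀ i x, 0 ≤ b i x ∧ b i x ≤ 1)
    (h1 : ∀ i j, i ≠ j → ∀ x, b i x = 0 ∨ b j x = 0) (h2 : ∀ x, ∑ k, b k x ≤ 1)
    (h3 : ∀ k, A.τ (Φ (cc (b k))) = ((Fintype.card K : ℝ)⁻¹ : ℝ))
    (h4 : ∀ k, A.τ (Φ (cc (b k * b k))) = ((Fintype.card K : ℝ)⁻¹ : ℝ)) :
    IsPVM 1 fun k => Φ (cc (b k)) := by
  refine ⟨fun k => ?_, fun k => ?_, fun i j hij => ?_, ?_⟩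
  · rw [← map_star]; congr 1; ext x; simp
  · have e : cc (b k - b k * b k) = cc (b k) - cc (b k * b k) := by ext x; simp
    have := hA.fc_zero Φ (g := b k - b k * b k) (fun x => by
      have := h0 k x
      simp only [ContinuousMap.sub_apply, ContinuousMap.mul_apply]
      nlinarith) (by rw [e, map_sub, map_sub, h3, h4, sub_self])
    rw [e, map_sub, sub_eq_zero] at this
    rw [← map_mul, this]; congr 1; ext x; simp
  · rw [← map_mul, ← map_zero Φ]; congr 1; ext x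
    simpa using h1 i j hij x
  · have e : cc (1 - ∑ k, b k) = 1 - ∑ k, cc (b k) := by ext z; simp
    have := hA.fc_zero Φ (g := 1 - ∑ k, b k) (fun x => by simpa using h2 x) (by
      rw [e, map_sub, map_one, map_sum, map_sub, map_sum, hA.one]
      simp [h3])
    rw [e, map_sub, map_one, map_sum, sub_eq_zero] at this
    exact this.symm

end Pool.Agent.Lib.MP_64d6f1_an
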