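import Pool.Agent.Lib.MP_64d6f1_an.TAlg

/-! The GNS space of a tracial algebra and its von Neumann envelope. -/

open scoped InnerProductSpace ComplexConjugate
open Filter Topology UniformSpace

namespace Pool.Agent.Lib.MP_64d6f1_an

namespace TAlg

variable (A : TAlg)

/-- The GNS Hilbert space. -/
abbrev H : Type := Completion A.L2

variable {A}

/-- The canonical vector of an element. -/
noncomputable def vec (a : A) : A.H := (A.toL2 a : A.L2)

lemma inner_vec (a b : A) : ⟪vec a, vec b⟫_ℂ = A.τ (star a * b) := by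
  simp [vec, inner_toL2]

lemma norm_vec (a : A) : ‖vec a‖ = nrm a := by simp [vec, nrm]

lemma vec_zero : vec (0 : A) = 0 := by simp [vec, Completion.coe_zero]

lemma vec_add (a b : A) : vec (a + b) = vec a + vec b := by simp [vec, Completion.coe_add]

lemma vec_sub (a b : A) : vec (a - b) = vec a - vec b := by simp [vec, Completion.coe_sub]

lemma vec_smul (c : ℂ) (a : A) : vec (c • a) = c • vec a := by simp [vec, Completion.coe_smul]

lemma vec_induction {p : A.H → Prop} (hp : IsClosed {v | p v}) (h : ∀ a, p (vec a)) (v : A.H) :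
    p v :=
  Completion.induction_on v hp fun a => h (A.toL2.symm a)

lemma clm_ext {S T : A.H →L[ℂ] A.H} (h : ∀ a, S (vec a) = T (vec a)) : S = T := by
  ext v
  exact vec_induction (p := fun v => S v = T v) (isClosed_eq S.continuous T.continuous) h v

lemma eq_of_inner_vec {v w : A.H} (h : ∀ a, ⟪v, vec a⟫_ℂ = ⟪w, vec a⟫_ℂ) : v = w := by
  apply ext_inner_right ℂ
  intro u
  exact vec_induction (p := fun u => ⟪v, u⟫_ℂ = ⟪w, u⟫_ℂ)
    (isClosed_eq (by fun_prop) (by fun_prop)) h u

/-- Left multiplication. -/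
noncomputable def lam (a : A) (h : ∃ C, Bd a C) : A.H →L[ℂ] A.H :=
  (LinearMap.mkContinuousOfExistsBound
    (A.toL2.toLinearMap ∘ₗ LinearMap.mulLeft ℂ a ∘ₗ A.toL2.symm.toLinearMap)
    (by obtain ⟨C, hC⟩ := h; exact ⟨C, fun x => (hC.2 (A.toL2.symm x)).1⟩)).completion

/-- Right multiplication. -/
noncomputable def rho (a : A) (h : ∃ C, Bd a C) : A.H →L[ℂ] A.H :=
  (LinearMap.mkContinuousOfExistsBound
    (A.toL2.toLinearMap ∘ₗ LinearMap.mulRight ℂ a ∘ₗ A.toL2.symm.toLinearMap)
    (by obtain ⟨C, hC⟩ := h; exact ⟨C, fun x => (hC.2 (A.toL2.symm x)).2⟩)).completion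

@[simp] lemma lam_vec (a : A) (h : ∃ C, Bd a C) (x : A) : lam a h (vec x) = vec (a * x) := by
  simp [lam, vec]

@[simp] lemma rho_vec (a : A) (h : ∃ C, Bd a C) (x : A) : rho a h (vec x) = vec (x * a) := by
  simp [rho, vec]

lemma star_eq_of_inner {S T : A.H →L[ℂ] A.H}
    (h : ∀ x y : A, ⟪S (vec x), vec y⟫_ℂ = ⟪vec x, T (vec y)⟫_ℂ) : star T = S := by
  symm
  rw [ContinuousLinearMap.star_eq_adjoint, ContinuousLinearMap.eq_adjoint_iff]
  intro v w
  refine vec_induction (p := fun v => ⟪S v, w⟫_ℂ = ⟪v, T w⟫_ℂ)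
    (isClosed_eq (by fun_prop) (by fun_prop)) (fun x => ?_) v
  exact vec_induction (p := fun w => ⟪S (vec x), w⟫_ℂ = ⟪vec x, T w⟫_ℂ)
    (isClosed_eq (by fun_prop) (by fun_prop)) (h x) w

lemma star_lam (a : A) (h : ∃ C, Bd a C) (h' : ∃ C, Bd (star a) C) :
    star (lam a h) = lam (star a) h' :=
  star_eq_of_inner fun x y => by simp [inner_vec, mul_assoc]

lemma star_rho (a : A) (h : ∃ C, Bd a C) (h' : ∃ C, Bd (star a) C) :
    star (rho a h) = rho (star a) h' :=
  star_eq_of_inner fun x y => by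
    simp only [rho_vec, inner_vec, star_mul, star_star]
    rw [mul_assoc, A.comm, mul_assoc]

/-- The conjugation `a ↦ a*` on the GNS space. -/
noncomputable def J (A : TAlg) : A.H →SL[starRingEnd ℂ] A.H :=
  (LinearMap.mkContinuous (σ := starRingEnd ℂ)
    { toFun := fun x : A.L2 => A.toL2 (star (A.toL2.symm x))
      map_add' := fun x y => by rw [map_add, star_add, map_add]
      map_smul' := fun c x => by rw [map_smul, star_smul, map_smul]; rfl } 1
    (fun x => by
      rw [one_mul]; exact (nrm_star (A.toL2.symm x)).le)).completion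

lemma J_vec (a : A) : A.J (vec a) = vec (star a) := by simp [J, vec]

lemma inner_J (v w : A.H) : ⟪A.J v, A.J w⟫_ℂ = ⟪w, v⟫_ℂ := by
  refine vec_induction (p := fun v => ⟪A.J v, A.J w⟫_ℂ = ⟪w, v⟫_ℂ)
    (isClosed_eq (by fun_prop) (by fun_prop)) (fun x => ?_) v
  refine vec_induction (p := fun w => ⟪A.J (vec x), A.J w⟫_ℂ = ⟪w, vec x⟫_ℂ)
    (isClosed_eq (by fun_prop) (by fun_prop)) (fun y => ?_) w
  rw [J_vec, J_vec, inner_vec, inner_vec, star_star, A.comm]

theorem envelope (A : TAlg) (hb : ∀ a : A, ∃ C, Bd a C) :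
    ∃ (N : VonNeumannAlgebra A.H) (ξ : A.H) (L : A →⋆ₐ[ℂ] (A.H →L[ℂ] A.H)),
      (∀ a, L a ∈ N) ∧ (∀ a, ⟪ξ, L a ξ⟫_ℂ = A.τ a) ∧
      (∀ x ∈ N, ∀ y ∈ N, ⟪ξ, (x * y) ξ⟫_ℂ = ⟪ξ, (y * x) ξ⟫_ℂ) ∧
      (∀ x ∈ N, x ξ = 0 → x = 0) ∧
      (∀ a : A, a * a = a → (∀ b, ∃ c : ℂ, a * b = c • a ∧ b * a = c • a) →
        ∀ x ∈ N, ∃ c : ℂ, x * L a = c • L a ∧ L a * x = c • L a) := by
  let R : Set (A.H →L[ℂ] A.H) := Set.range fun a => rho a (hb a)
  let N : VonNeumannAlgebra A.H :=
    { toStarSubalgebra := StarSubalgebra.centralizer ℂ R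
      centralizer_centralizer' := by
        change Set.centralizer (Set.centralizer
          (StarSubalgebra.centralizer ℂ R : Set (A.H →L[ℂ] A.H))) = _
        rw [StarSubalgebra.coe_centralizer, Set.centralizer_centralizer_centralizer]
        rfl }
  have hN : ∀ x, x ∈ N ↔ ∀ a, rho a (hb a) * x = x * rho a (hb a) := by
    intro x
    change x ∈ StarSubalgebra.centralizer ℂ R ↔ _
    rw [StarSubalgebra.mem_centralizer_iff]
    constructor
    · intro h a
      exact (h _ ⟨a, rfl⟩).1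
    · rintro h _ ⟨a, rfl⟩
      exact ⟨h a, by rw [star_rho a (hb a) (hb _)]; exact h _⟩
  let L : A →⋆ₐ[ℂ] (A.H →L[ℂ] A.H) :=
    { toFun := fun a => lam a (hb a)
      map_one' := clm_ext fun x => by simp
      map_mul' := fun a b => clm_ext fun x => by simp [mul_assoc]
      map_zero' := clm_ext fun x => by simp [vec_zero]
      map_add' := fun a b => clm_ext fun x => by simp [add_mul, vec_add]
      commutes' := fun c => clm_ext fun x => by
        simp [Algebra.algebraMap_eq_smul_one, vec_smul]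
      map_star' := fun a => (star_lam a (hb a) (hb _)).symm }
  have hL : ∀ a x, L a (vec x) = vec (a * x) := fun a x => lam_vec a (hb a) x
  have hcomm : ∀ x ∈ N, ∀ a, x (vec a) = rho a (hb a) (x (vec 1)) := by
    intro x hx a
    have := congrArg (fun T : A.H →L[ℂ] A.H => T (vec 1)) ((hN x).mp hx a)
    simpa using this.symm
  have hJ : ∀ x ∈ N, star x (vec 1) = A.J (x (vec 1)) := by
    intro x hx
    apply eq_of_inner_vec
    intro a
    rw [ContinuousLinearMap.star_eq_adjoint, ContinuousLinearMap.adjoint_inner_left, hcomm x hx,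
      ← ContinuousLinearMap.adjoint_inner_left, ← ContinuousLinearMap.star_eq_adjoint,
      star_rho a (hb a) (hb _), rho_vec, one_mul, ← inner_J, J_vec, star_star]
  refine ⟨N, vec 1, L, fun a => (hN _).mpr fun b => clm_ext fun x => ?_, fun a => ?_, ?_, ?_, ?_⟩
  · simp [hL, mul_assoc]
  · rw [hL, inner_vec, star_one, one_mul, mul_one]
  · intro x hx y hy
    have key : ∀ x ∈ N, ∀ y ∈ N, ⟪vec 1, (x * y) (vec 1)⟫_ℂ =
        ⟪star x (vec 1), y (vec 1)⟫_ℂ := by
      intro x _ y _
      rw [ContinuousLinearMap.star_eq_adjoint, ContinuousLinearMap.adjoint_inner_left]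
      rfl
    rw [key x hx y hy, key y hy x hx, hJ x hx, ← inner_J (x (vec 1)), ← hJ _ (star_mem hy),
      star_star]
  · intro x hx h0
    exact clm_ext fun a => by rw [hcomm x hx, h0]; simp
  · intro a haa ha x hx
    have hLR : L a = rho a (hb a) := clm_ext fun b => by
      obtain ⟨c, h1, h2⟩ := ha b
      rw [hL, rho_vec, h1, h2]
    have hxa : L a * x = x * L a := by rw [hLR]; exact (hN x).mp hx a
    have hr : ∀ v, L a v ∈ Submodule.span ℂ {vec a} := by
      refine vec_induction ?_ fun b => ?_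
      · exact (Submodule.closed_of_finiteDimensional _).preimage (L a).continuous
      · obtain ⟨c, h1, -⟩ := ha b
        rw [hL, h1, vec_smul]
        exact Submodule.smul_mem _ _ (Submodule.mem_span_singleton_self _)
    obtain ⟨c, hc⟩ := Submodule.mem_span_singleton.mp (hr (x (vec a)))
    have h1 : x (vec a) = c • vec a := by
      have := congrArg (fun T : A.H →L[ℂ] A.H => T (vec a)) hxa
      simp only [mul_apply_eq_comp, hL, haa] at this
      rw [hc, this]
    have h2 : x * L a = c • L a := clm_ext fun b => by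
      obtain ⟨d, h3, -⟩ := ha b
      simp only [mul_apply_eq_comp, smul_apply, hL, h3, vec_smul, map_smul, h1]
      rw [smul_comm]
    exact ⟨c, h2, hxa.trans h2⟩

end TAlg

end Pool.Agent.Lib.MP_64d6f1_an
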