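import Mathlib

/-! Joint continuous functional calculus for two commuting unitaries. -/

open scoped InnerProductSpace

namespace Pool.Agent.Lib.MP_64d6f1_an

/-- The two-torus. -/
abbrev T2 := Circle × Circle

/-- First coordinate function. -/
noncomputable def c1 : C(T2, ℂ) := ⟨fun p => (p.1 : ℂ), by fun_prop⟩

/-- Second coordinate function. -/
noncomputable def c2 : C(T2, ℂ) := ⟨fun p => (p.2 : ℂ), by fun_prop⟩

@[simp] lemma c1_apply (p : T2) : c1 p = (p.1 : ℂ) := rfl
@[simp] lemma c2_apply (p : T2) : c2 p = (p.2 : ℂ) := rfl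

lemma adjoin_closure_top :
    (StarAlgebra.adjoin ℂ ({c1, c2} : Set C(T2, ℂ))).topologicalClosure = ⊤ := by
  apply ContinuousMap.starSubalgebra_topologicalClosure_eq_top_of_separatesPoints
  intro p q hpq
  by_cases h : p.1 = q.1
  · have h2 : p.2 ≠ q.2 := fun h2 => hpq (Prod.ext h h2)
    refine ⟨c2, ⟨c2, StarAlgebra.subset_adjoin ℂ _ (by simp), rfl⟩, ?_⟩
    exact fun e => h2 (Circle.ext e)
  · refine ⟨c1, ⟨c1, StarAlgebra.subset_adjoin ℂ _ (by simp), rfl⟩, ?_⟩
    exact fun e => h (Circle.ext e)

theorem exists_jointCFC {A : Type*} [CStarAlgebra A] (X Y : A) (hX : X ∈ unitary A)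
    (hY : Y ∈ unitary A) (h : X * Y = Y * X) :
    ∃ Φ : C(T2, ℂ) →⋆ₐ[ℂ] A, Φ c1 = X ∧ Φ c2 = Y := by
  have hXX : X * star X = star X * X := by rw [hX.1, hX.2]
  have hYY : Y * star Y = star Y * Y := by rw [hY.1, hY.2]
  have hXY : X * star Y = star Y * X := by
    calc X * star Y = (star Y * Y) * X * star Y := by rw [hY.1, one_mul]
      _ = star Y * (X * Y) * star Y := by rw [h]; simp only [mul_assoc]
      _ = star Y * X * (Y * star Y) := by simp only [mul_assoc]
      _ = star Y * X := by rw [hY.2, mul_one]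
  have hYX : Y * star X = star X * Y := by
    have := congrArg star hXY
    simpa using this
  let S := StarAlgebra.adjoin ℂ ({X, Y} : Set A)
  have hS : IsMulCommutative S := by
    apply StarAlgebra.isMulCommutative_adjoin
    · intro a ha b hb
      rcases ha with rfl | rfl <;> rcases hb with rfl | rfl <;> first | rfl | exact h | exact h.symm
    · intro a ha b hb
      rcases ha with rfl | rfl <;> rcases hb with rfl | rfl <;> assumption
  let B := S.topologicalClosure
  have hBc : IsClosed (B : Set A) := S.isClosed_topologicalClosure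
  have hcomm : ∀ a b : B, a * b = b * a := by
    intro a b
    apply Subtype.ext
    have h1 : ∀ x ∈ S, ∀ y ∈ B, x * y = y * x := by
      intro x hx y hy
      refine closure_minimal (s := (S : Set A)) (t := {y | x * y = y * x}) ?_ ?_ hy
      · intro y hy
        exact setLike_mul_comm hx hy
      · exact (isClosed_eq (by fun_prop) (by fun_prop))
    refine closure_minimal (s := (S : Set A)) (t := {x | x * (b : A) = b * x}) ?_ ?_ a.2
    · intro x hx
      exact h1 x hx b b.2
    · exact (isClosed_eq (by fun_prop) (by fun_prop))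
  let : CommCStarAlgebra B :=
    { (StarSubalgebra.cstarAlgebra B : CStarAlgebra B) with mul_comm := hcomm }
  have hXB : X ∈ B := S.le_topologicalClosure (StarAlgebra.subset_adjoin ℂ _ (by simp))
  have hYB : Y ∈ B := S.le_topologicalClosure (StarAlgebra.subset_adjoin ℂ _ (by simp))
  have hn : ∀ (u : B), (u : A) ∈ unitary A → ∀ χ : WeakDual.characterSpace ℂ B,
      χ u ∈ Submonoid.unitSphere ℂ := by
    intro u hu χ
    have h1 : star u * u = 1 := Subtype.ext hu.1
    have h2 := congrArg χ h1
    rw [map_mul, map_star, map_one] at h2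
    have h3 : ‖χ u‖ * ‖χ u‖ = 1 := by
      have := congrArg norm h2
      simpa using this
    have h4 : ‖χ u‖ = 1 := by nlinarith [norm_nonneg (χ u)]
    simpa [Submonoid.unitSphere] using h4
  have hcont : ∀ u : B, Continuous fun χ : WeakDual.characterSpace ℂ B => χ u := fun u =>
    (WeakDual.eval_continuous u).comp continuous_subtype_val
  let ev : C(WeakDual.characterSpace ℂ B, T2) :=
    ⟨fun χ => (⟨χ ⟨X, hXB⟩, hn _ hX χ⟩, ⟨χ ⟨Y, hYB⟩, hn _ hY χ⟩),
      ((hcont _).subtype_mk _).prodMk ((hcont _).subtype_mk _)⟩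
  refine ⟨B.subtype.comp (((gelfandStarTransform B).symm : _ →⋆ₐ[ℂ] B).comp
    (ContinuousMap.compStarAlgHom' ℂ ℂ ev)), ?_, ?_⟩
  · have : ContinuousMap.compStarAlgHom' ℂ ℂ ev c1 = gelfandStarTransform B ⟨X, hXB⟩ := by
      ext χ; rfl
    simp [this]
  · have : ContinuousMap.compStarAlgHom' ℂ ℂ ev c2 = gelfandStarTransform B ⟨Y, hYB⟩ := by
      ext χ; rfl
    simp [this]

lemma norm_starAlgHom_le {A B : Type*} [CStarAlgebra A] [CStarAlgebra B] (Φ : A →⋆ₐ[ℂ] B)
    (a : A) : ‖Φ a‖ ≤ ‖a‖ := NonUnitalStarAlgHom.norm_apply_le Φ a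

lemma continuous_starAlgHom {A B : Type*} [CStarAlgebra A] [CStarAlgebra B] (Φ : A →⋆ₐ[ℂ] B) :
    Continuous Φ :=
  AddMonoidHomClass.continuous_of_bound Φ 1 (fun a => by simpa using norm_starAlgHom_le Φ a)

theorem jointCFC_intertwine {A : Type*} [CStarAlgebra A] (Φ : C(T2, ℂ) →⋆ₐ[ℂ] A) (G : A)
    (hG : G ∈ unitary A) (T : C(T2, T2)) (h1 : G * Φ c1 = Φ (c1.comp T) * G)
    (h2 : G * Φ c2 = Φ (c2.comp T) * G) (f : C(T2, ℂ)) : G * Φ f = Φ (f.comp T) * G := by
  have hf : f ∈ (StarAlgebra.adjoin ℂ ({c1, c2} : Set C(T2, ℂ))).topologicalClosure := by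
    rw [adjoin_closure_top]; trivial
  have hΦ : Continuous Φ := continuous_starAlgHom Φ
  refine closure_minimal (t := {f | G * Φ f = Φ (f.comp T) * G}) ?_ ?_ hf
  swap
  · exact isClosed_eq (by fun_prop)
      ((hΦ.comp (ContinuousMap.continuous_precomp T)).mul continuous_const)
  · intro f hf
    change G * Φ f = Φ (f.comp T) * G
    induction hf using StarAlgebra.adjoin_induction with
    | mem x hx => rcases hx with rfl | rfl <;> assumption
    | algebraMap r =>
      have : (algebraMap ℂ C(T2, ℂ) r).comp T = algebraMap ℂ C(T2, ℂ) r := rfl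
      rw [this, AlgHomClass.commutes, Algebra.commutes]
    | add x y _ _ hx hy => simp only [ContinuousMap.add_comp, map_add, mul_add, add_mul, hx, hy]
    | mul x y _ _ hx hy =>
      simp only [ContinuousMap.mul_comp, map_mul]
      rw [← mul_assoc, hx, mul_assoc, hy, mul_assoc]
    | star x _ hx =>
      have e : (star x).comp T = star (x.comp T) := rfl
      rw [e, map_star, map_star]
      have := congrArg star hx
      rw [star_mul, star_mul] at this
      calc G * star (Φ x) = G * (star (Φ x) * star G) * G := by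
            simp only [mul_assoc]; rw [hG.1, mul_one]
        _ = (G * star G) * star (Φ (x.comp T)) * G := by rw [this]; simp only [mul_assoc]
        _ = _ := by rw [hG.2, one_mul]

end Pool.Agent.Lib.MP_64d6f1_an
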