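import Pool.Agent.Lib.MP_64d6f1_an.Calc
import Pool.Agent.Lib.MP_64d6f1_an.GNS
import Pool.Agent.Lib.MP_64d6f1_an.JointCFC

/-! From the lifting statement to a property of the von Neumann envelope. -/

open scoped InnerProductSpace ComplexConjugate
open Filter Topology

namespace Pool.Agent.Lib.MP_64d6f1_an

open TAlg

/-- The lifting statement. -/
def Claim : Prop :=
    ∀ (H : Type) [NormedAddCommGroup H] [InnerProductSpace ℂ H] [CompleteSpace H]
    (N : VonNeumannAlgebra H) (ξ : ℕ → H) (τ : (H →L[ℂ] H) → ℂ),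
    Summable (fun i => ‖ξ i‖ ^ 2) →
    (∀ x : H →L[ℂ] H, τ x = ∑' i, ⟪ξ i, x (ξ i)⟫_ℂ) →
    τ (1 : H →L[ℂ] H) = 1 →
    (∀ x ∈ N, ∀ y ∈ N, τ (x * y) = τ (y * x)) →
    (∀ x ∈ N, τ (star x * x) = 0 → x = 0) →
    ∀ (𝒰 : Ultrafilter ℕ), (↑𝒰 : Filter ℕ) ≤ Filter.cofinite →
    ∀ (k : ℕ), 2 ≤ k →
    ∀ (u v : ℕ → unitary (H →L[ℂ] H)),
      (∀ n, (u n : H →L[ℂ] H) ∈ N) → (∀ n, (v n : H →L[ℂ] H) ∈ N) →
      (∀ m : ℕ, 1 ≤ m → m ≤ k → ∀ (s : ℕ) (e : Fin m → ℤ),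
        Filter.Tendsto
          (fun n => τ (List.prod (List.ofFn (fun i : Fin m =>
            (((if (i.val + s) % 2 = 0 then u n else v n) ^ (e i) : unitary (H →L[ℂ] H)) : H →L[ℂ] H)
            - algebraMap ℂ (H →L[ℂ] H) (τ
                (((if (i.val + s) % 2 = 0 then u n else v n) ^ (e i) : unitary (H →L[ℂ] H)) : H →L[ℂ] H))))))
          (↑𝒰 : Filter ℕ) (nhds 0)) →
      ∃ (u' v' : ℕ → unitary (H →L[ℂ] H)),
        (∀ n, (u' n : H →L[ℂ] H) ∈ N) ∧ (∀ n, (v' n : H →L[ℂ] H) ∈ N) ∧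
        Filter.Tendsto
          (fun n => τ (star ((u' n : H →L[ℂ] H) - (u n : H →L[ℂ] H))
            * ((u' n : H →L[ℂ] H) - (u n : H →L[ℂ] H)))) (↑𝒰 : Filter ℕ) (nhds 0) ∧
        Filter.Tendsto
          (fun n => τ (star ((v' n : H →L[ℂ] H) - (v n : H →L[ℂ] H))
            * ((v' n : H →L[ℂ] H) - (v n : H →L[ℂ] H)))) (↑𝒰 : Filter ℕ) (nhds 0) ∧
        ∀ n : ℕ, ∀ m : ℕ, 1 ≤ m → m ≤ k - 1 → ∀ (s : ℕ) (e : Fin m → ℤ),
          τ (List.prod (List.ofFn (fun i : Fin m =>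
            (((if (i.val + s) % 2 = 0 then u' n else v' n) ^ (e i) : unitary (H →L[ℂ] H)) : H →L[ℂ] H)
            - algebraMap ℂ (H →L[ℂ] H) (τ
                (((if (i.val + s) % 2 = 0 then u' n else v' n) ^ (e i) : unitary (H →L[ℂ] H)) : H →L[ℂ] H))))) = 0

/-- Centering. -/
def cen {A : TAlg} (x : A) : A := x - algebraMap ℂ A (A.τ x)

/-- Asymptotically three-independent pairs can be corrected to independent pairs. -/
def Lifts (A : TAlg) (l : Filter ℕ) : Prop :=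
  ∀ Φ Ψ : ℕ → CX →⋆ₐ[ℂ] A,
    (∀ e f, Tendsto (fun n => A.τ (cen (Φ n (fourier e)) * cen (Ψ n (fourier f)))) l (𝓝 0)) →
    (∀ e f g, Tendsto (fun n => A.τ (cen (Φ n (fourier e)) *
      (cen (Ψ n (fourier f)) * cen (Φ n (fourier g))))) l (𝓝 0)) →
    (∀ e f g, Tendsto (fun n => A.τ (cen (Ψ n (fourier e)) *
      (cen (Φ n (fourier f)) * cen (Ψ n (fourier g))))) l (𝓝 0)) →
    ∃ Φ' Ψ' : ℕ → CX →⋆ₐ[ℂ] A,
      Null (B := fun _ => A) l (fun n => Φ' n (fourier 1) - Φ n (fourier 1)) ∧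
      Null (B := fun _ => A) l (fun n => Ψ' n (fourier 1) - Ψ n (fourier 1)) ∧
      ∀ n e f, A.τ (cen (Φ' n (fourier e)) * cen (Ψ' n (fourier f))) = 0

section vn

variable {H : Type} [NormedAddCommGroup H] [InnerProductSpace ℂ H] [CompleteSpace H]

/-- A von Neumann algebra with a trace vector, as a tracial algebra. -/
noncomputable def vnT (N : VonNeumannAlgebra H) (ξ : H)
    (h : ∀ x ∈ N, ∀ y ∈ N, ⟪ξ, (x * y) ξ⟫_ℂ = ⟪ξ, (y * x) ξ⟫_ℂ) : TAlg where
  carrier := N.toStarSubalgebra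
  τ :=
    { toFun := fun x => ⟪ξ, x.1 ξ⟫_ℂ
      map_add' := fun x y => by simp [inner_add_right]
      map_smul' := fun c x => by simp }
  comm a b := h _ a.2 _ b.2
  herm a := by
    change ⟪ξ, star a.1 ξ⟫_ℂ = conj ⟪ξ, a.1 ξ⟫_ℂ
    rw [ContinuousLinearMap.star_eq_adjoint, ContinuousLinearMap.adjoint_inner_right,
      inner_conj_symm]
  pos a := by
    change 0 ≤ (⟪ξ, star a.1 (a.1 ξ)⟫_ℂ).re
    rw [ContinuousLinearMap.star_eq_adjoint, ContinuousLinearMap.adjoint_inner_right]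
    exact inner_self_nonneg (𝕜 := ℂ)

lemma vnT_nrm {N : VonNeumannAlgebra H} {ξ : H}
    {h : ∀ x ∈ N, ∀ y ∈ N, ⟪ξ, (x * y) ξ⟫_ℂ = ⟪ξ, (y * x) ξ⟫_ℂ} (x : vnT N ξ h) :
    nrm x = ‖x.1 ξ‖ := by
  rw [← sq_eq_sq₀ (nrm_nonneg _) (norm_nonneg _), nrm_sq]
  change (⟪ξ, star x.1 (x.1 ξ)⟫_ℂ).re = _
  rw [ContinuousLinearMap.star_eq_adjoint, ContinuousLinearMap.adjoint_inner_right]
  exact inner_self_eq_norm_sq (𝕜 := ℂ) _

lemma vnT_bd {N : VonNeumannAlgebra H} {ξ : H}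
    {h : ∀ x ∈ N, ∀ y ∈ N, ⟪ξ, (x * y) ξ⟫_ℂ = ⟪ξ, (y * x) ξ⟫_ℂ} (x : vnT N ξ h) :
    Bd x ‖x.1‖ := by
  have k : ∀ x y : vnT N ξ h, nrm (x * y) ≤ ‖x.1‖ * nrm y := fun x y => by
    rw [vnT_nrm, vnT_nrm]
    exact x.1.le_opNorm _
  refine ⟨norm_nonneg _, fun y => ⟨k x y, ?_⟩⟩
  rw [← nrm_star, star_mul, ← nrm_star y, ← norm_star x.1]
  exact k _ _

lemma exists_fc (N : VonNeumannAlgebra H) (u : unitary (H →L[ℂ] H)) (hu : u.1 ∈ N) :
    ∃ Φ : CX →⋆ₐ[ℂ] N.toStarSubalgebra, (Φ (fourier 1)).1 = u := by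
  obtain ⟨Φ, h1, -⟩ := exists_jointCFC u.1 u.1 u.2 u.2 rfl
  let p : C(T2, X1) := ⟨fun z => (AddCircle.homeomorphCircle one_ne_zero).symm z.1, by fun_prop⟩
  let Ψ : CX →⋆ₐ[ℂ] (H →L[ℂ] H) := Φ.comp (ContinuousMap.compStarAlgHom' ℂ ℂ p)
  have h2 : Ψ (fourier 1) = u := by
    rw [← h1]
    change Φ _ = _
    congr 1
    ext z
    change fourier 1 ((AddCircle.homeomorphCircle one_ne_zero).symm z.1) = z.1
    rw [fourier_one, ← AddCircle.homeomorphCircle_apply one_ne_zero, Homeomorph.apply_symm_apply]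
  have hc : IsClosed (N : Set (H →L[ℂ] H)) := by
    rw [← N.centralizer_centralizer]
    exact Set.isClosed_centralizer _
  have h3 : ∀ e, Ψ (fourier e) ∈ N := by
    intro e
    induction e using Int.induction_on with
    | zero => rw [fourier_zero_eq, map_one]; exact one_mem _
    | succ e ih => rw [fourier_succ, map_mul, h2]; exact mul_mem ih hu
    | pred e ih => rw [fourier_pred, map_mul, map_star, h2]; exact mul_mem ih (star_mem hu)
  have h4 : (Submodule.span ℂ (Set.range (@fourier 1))).topologicalClosure ≤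
      N.toStarSubalgebra.toSubalgebra.toSubmodule.comap Ψ.toAlgHom.toLinearMap :=
    Submodule.topologicalClosure_minimal _ (Submodule.span_le.mpr (by
      rintro _ ⟨e, rfl⟩; exact h3 e)) (hc.preimage (continuous_starAlgHom Ψ))
  rw [span_fourier_closure_eq_top] at h4
  exact ⟨Ψ.codRestrict _ fun f => h4 trivial, h2⟩

end vn

theorem bridge (h : Claim) (A0 : TAlg) (hb : ∀ a : A0, ∃ C, Bd a C) (h1 : A0.τ 1 = 1)
    (l : Ultrafilter ℕ) (hl : (l : Filter ℕ) ≤ cofinite) :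
    ∃ (A : TAlg) (L : A0 →⋆ₐ[ℂ] A), VN A ∧ (∀ x, A.τ (L x) = A0.τ x) ∧
      (∀ a : A0, a * a = a → (∀ b, ∃ c : ℂ, a * b = c • a ∧ b * a = c • a) →
        ∀ x : A, ∃ c : ℂ, x * L a = c • L a ∧ L a * x = c • L a) ∧ Lifts A l := by
  obtain ⟨N, ξ, L, hLN, hLτ, htr, hf, hat⟩ := envelope A0 hb
  let A := vnT N ξ htr
  have hA1 : ⟪ξ, (1 : A0.H →L[ℂ] A0.H) ξ⟫_ℂ = 1 := by rw [← map_one L, hLτ, h1]
  refine ⟨A, L.codRestrict N.toStarSubalgebra hLN, ⟨fun a ha => ?_, hA1, fun Φ f => ?_⟩, hLτ,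
    fun a h2 h3 x => ?_, fun Φ Ψ H2 H3 H3' => ?_⟩
  · rw [vnT_nrm, norm_eq_zero] at ha
    exact Subtype.ext (hf _ a.2 ha)
  · exact (vnT_bd (Φ f)).mono (norm_starAlgHom_le (N.toStarSubalgebra.subtype.comp Φ) f)
  · obtain ⟨c, h4, h5⟩ := hat a h2 h3 x.1 x.2
    exact ⟨c, Subtype.ext h4, Subtype.ext h5⟩
  let U : (CX →⋆ₐ[ℂ] A) → unitary (A0.H →L[ℂ] A0.H) := fun Φ =>
    ⟨_, Unitary.map_mem (N.toStarSubalgebra.subtype.comp Φ) fourier_unitary⟩
  have key : ∀ (Φ : CX →⋆ₐ[ℂ] A) (u : unitary (A0.H →L[ℂ] A0.H)), (Φ (fourier 1)).1 = u → ∀ e : ℤ,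
      (u ^ e).1 - algebraMap ℂ _ ⟪ξ, (u ^ e).1 ξ⟫_ℂ = (cen (Φ (fourier e))).1 := by
    intro Φ u hu e
    rw [← fc_zpow (N.toStarSubalgebra.subtype.comp Φ) u hu e]
    rfl
  obtain ⟨u', v', hu', hv', c1, c2, c3⟩ := h A0.H N (Pi.single 0 ξ) (fun x => ⟪ξ, x ξ⟫_ℂ)
    (summable_of_ne_finset_zero (s := {0}) fun i hi => by
      simp [Pi.single_eq_of_ne (Finset.notMem_singleton.mp hi)])
    (fun x => by
      rw [tsum_eq_single 0 fun i hi => by simp [Pi.single_eq_of_ne hi]]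
      simp)
    hA1 htr (fun x hx h0 => hf x hx (by
      rw [ContinuousLinearMap.star_eq_adjoint, mul_apply_eq_comp,
        ContinuousLinearMap.adjoint_inner_right, inner_self_eq_zero] at h0
      exact h0)) l hl 3 (by norm_num) (fun n => U (Φ n)) (fun n => U (Ψ n))
    (fun n => (Φ n _).2) (fun n => (Ψ n _).2) (by
      intro m hm1 hm3 s e
      have hs : (s % 2 = 0 ∧ (1 + s) % 2 ≠ 0 ∧ (2 + s) % 2 = 0) ∨
          (s % 2 ≠ 0 ∧ (1 + s) % 2 = 0 ∧ (2 + s) % 2 ≠ 0) := by omega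
      have k0 : ∀ x : A, ⟪ξ, (cen x).1 ξ⟫_ℂ = 0 := fun x => by
        change A.τ (cen x) = 0
        have : A.τ 1 = 1 := hA1
        rw [cen, map_sub, Algebra.algebraMap_eq_smul_one, map_smul, this, smul_eq_mul, mul_one,
          sub_self]
      interval_cases m
      · rcases hs with ⟨h0, -, -⟩ | ⟨h0, -, -⟩
        · simp only [List.ofFn_succ, List.ofFn_zero, List.prod_cons, List.prod_nil, mul_one,
            Fin.val_zero, zero_add, h0, if_true, key _ (U _) rfl, k0]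
          exact tendsto_const_nhds
        · simp only [List.ofFn_succ, List.ofFn_zero, List.prod_cons, List.prod_nil, mul_one,
            Fin.val_zero, zero_add, h0, if_false, key _ (U _) rfl, k0]
          exact tendsto_const_nhds
      · rcases hs with ⟨h0, h1, -⟩ | ⟨h0, h1, -⟩
        · simp only [List.ofFn_succ, List.ofFn_zero, List.prod_cons, List.prod_nil, mul_one,
            Fin.val_zero, Fin.val_succ, zero_add, h0, h1, if_true, if_false, key _ (U _) rfl]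
          exact H2 _ _
        · simp only [List.ofFn_succ, List.ofFn_zero, List.prod_cons, List.prod_nil, mul_one,
            Fin.val_zero, Fin.val_succ, zero_add, h0, h1, if_true, if_false, key _ (U _) rfl]
          exact (H2 _ _).congr fun n => A.comm _ _
      · rcases hs with ⟨h0, h1, h2⟩ | ⟨h0, h1, h2⟩
        · simp only [List.ofFn_succ, List.ofFn_zero, List.prod_cons, List.prod_nil, mul_one,
            Fin.val_zero, Fin.val_succ, zero_add, Nat.reduceAdd, h0, h1, h2, if_true, if_false,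
            key _ (U _) rfl]
          exact H3 _ _ _
        · simp only [List.ofFn_succ, List.ofFn_zero, List.prod_cons, List.prod_nil, mul_one,
            Fin.val_zero, Fin.val_succ, zero_add, Nat.reduceAdd, h0, h1, h2, if_true, if_false,
            key _ (U _) rfl]
          exact H3' _ _ _)
  choose Φ' hΦ' using fun n => exists_fc N (u' n) (hu' n)
  choose Ψ' hΨ' using fun n => exists_fc N (v' n) (hv' n)
  have nl : ∀ x : ℕ → A, Tendsto (fun n => A.τ (star (x n) * x n)) l (𝓝 0) →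
      Null (B := fun _ => A) l x := by
    intro x hx
    have := ((Complex.continuous_re.tendsto _).comp hx).sqrt
    simpa [Null, Function.comp_def, ← nrm_sq, Real.sqrt_sq (nrm_nonneg _)] using this
  refine ⟨Φ', Ψ', nl _ (c1.congr fun n => ?_), nl _ (c2.congr fun n => ?_), fun n e f => ?_⟩
  · rw [← hΦ']; rfl
  · rw [← hΨ']; rfl
  · have := c3 n 2 (by norm_num) (by norm_num) 0 ![e, f]
    simp only [List.ofFn_succ, List.ofFn_zero, List.prod_cons, List.prod_nil, mul_one,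
      Fin.val_zero, Fin.val_succ, zero_add, add_zero, Nat.zero_mod, Nat.one_mod, one_ne_zero,
      if_true, if_false, key (Φ' n) _ (hΦ' n), key (Ψ' n) _ (hΨ' n)] at this
    exact this

end Pool.Agent.Lib.MP_64d6f1_an
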