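import Pool.Agent.Lib.MP_64d6f1_an.Final

/-! The obstruction along an arbitrary free ultrafilter. -/

open scoped ComplexConjugate
open Filter Topology

namespace Pool.Agent.Lib.MP_64d6f1_an

open TAlg

theorem fb_core (l : Ultrafilter ℕ) (hl : (l : Filter ℕ) ≤ atTop) :
    ∃ A0 : TAlg, (∀ a : A0, ∃ C, Bd a C) ∧ A0.τ 1 = 1 ∧
      ∀ (A : TAlg) (L : A0 →⋆ₐ[ℂ] A), VN A → (∀ x, A.τ (L x) = A0.τ x) →
        (∀ a : A0, a * a = a → (∀ b, ∃ c : ℂ, a * b = c • a ∧ b * a = c • a) →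
          ∀ x : A, ∃ c : ℂ, x * L a = c • L a ∧ L a * x = c • L a) → ¬ Lifts A l := by
  classical
  obtain ⟨B, R, C, _, _, P, Q, hE, hP, hQ, hN⟩ := target l hl
  have : Nonempty (R ⊕ C) := by
    by_contra hR
    have : IsEmpty R := ⟨fun r => hR ⟨.inl r⟩⟩
    have h1 := (hE 0).τ_one
    rw [← (hP 0).sum] at h1
    simp at h1
  let p : ∀ n, R ⊕ C → B n := fun n => Sum.elim (P n) 0
  let q : ∀ n, R ⊕ C → B n := fun n => Sum.elim 0 (Q n)
  have hp : ∀ n, IsPVM 1 (p n) := fun n => (hP n).inl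
  have hq : ∀ n, IsPVM 1 (q n) := fun n => (hQ n).inr
  have : ∀ i : (R ⊕ C) × (R ⊕ C), ∃ m : ℝ, m ≤ 1 ∧
      Tendsto (fun n => (B n).τ (p n i.1 * q n i.2)) l (𝓝 m) := by
    intro i
    obtain ⟨m, hm, h1⟩ := (isCompact_Icc (a := (0 : ℝ)) (b := 1)).ultrafilter_le_nhds
      (l.map fun n => nrm (p n i.1 * q n i.2) ^ 2) (by
        rw [le_principal_iff]
        refine Ultrafilter.mem_map.mpr (univ_mem' (f := (l : Filter ℕ)) fun n =>
          Set.mem_preimage.mpr ⟨sq_nonneg _, pow_le_one₀ (nrm_nonneg _) ?_⟩)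
        simpa [(hE n).nrm_one] using (((bd_of_proj ((hp n).sa i.1) ((hp n).idem _)).mul
          (bd_of_proj ((hq n).sa i.2) ((hq n).idem _))).2 1).1)
    refine ⟨m, hm.2, ((Complex.continuous_ofReal.tendsto m).comp h1).congr fun n => ?_⟩
    exact (tr_proj ((hp n).sa _) ((hp n).idem _) ((hq n).sa _) ((hq n).idem _)).symm
  choose m m1 hm using this
  have mz : ∀ i, (∀ n, p n i.1 * q n i.2 = 0) → m i = 0 := fun i hi => by
    have := hm i
    simp only [hi, map_zero, tendsto_const_nhds_iff] at this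
    exact_mod_cast this.symm
  have ms : ∑ i, m i = 1 := by
    have h1 := tendsto_finsetSum Finset.univ fun i _ => hm i
    simp only [← map_sum, Fintype.sum_prod_type, ← Finset.mul_sum, (hp _).sum,
      (hq _).sum, mul_one, (hE _).τ_one, tendsto_const_nhds_iff] at h1
    rw [Fintype.sum_prod_type]
    exact_mod_cast h1.symm
  set μ : ℝ := (Fintype.card (R ⊕ C) : ℝ)⁻¹ with hμ
  have hK : (0 : ℝ) < Fintype.card (R ⊕ C) := by exact_mod_cast Fintype.card_pos
  have hμ0 : 0 < μ := inv_pos.mpr hK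
  have ht : ∀ i, 0 < μ ^ 2 - μ ^ 2 / 2 * m i := fun i => by nlinarith [m1 i, pow_pos hμ0 2]
  have hsum : ∑ i, (μ ^ 2 - μ ^ 2 / 2 * m i) + μ ^ 2 / 2 = 1 := by
    rw [Finset.sum_sub_distrib, ← Finset.mul_sum, ms, Finset.sum_const, Finset.card_univ,
      Fintype.card_prod, nsmul_eq_mul, Nat.cast_mul, hμ]
    field_simp
    ring
  obtain ⟨A0, a0, hb, h1, a1, a2, a3, a4, hφ⟩ := exists_atoms (fun i => μ ^ 2 - μ ^ 2 / 2 * m i)
    (fun i => (ht i).le) (μ ^ 2 / 2) (by positivity)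
  choose φ hφ1 hφ2 using fun n => hφ (B n) (hE n)
  refine ⟨A0, hb, by rw [h1]; exact_mod_cast hsum, fun A L hA hτ hat hL => ?_⟩
  let π : ∀ n, B n →⋆ₙₐ[ℂ] A := fun n => (L : A0 →⋆ₙₐ[ℂ] A).comp (φ n)
  have hπ : ∀ n x, A.τ (π n x) = (μ ^ 2 / 2 : ℝ) * (B n).τ x := fun n x => (hτ _).trans (hφ1 n x)
  have ha : IsPVM (∑ i, L (a0 i)) fun i => L (a0 i) :=
    ⟨fun i => by rw [← map_star, a1], fun i => by rw [← map_mul, a2, if_pos rfl],
      fun i j hij => by rw [← map_mul, a2, if_neg hij, map_zero], rfl⟩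
  have hπ1 : ∀ n, π n 1 = 1 - ∑ i, L (a0 i) := by
    intro n
    have k1 : π n 1 * ∑ i, L (a0 i) = 0 := by
      rw [Finset.mul_sum]
      exact Finset.sum_eq_zero fun i _ => (map_mul L (φ n 1) _).symm.trans (by rw [hφ2, map_zero])
    have k2 : star (π n 1) = π n 1 := by rw [← map_star, star_one]
    have k3 : π n 1 * π n 1 = π n 1 := by rw [← map_mul, one_mul]
    have k4 : (∑ i, L (a0 i)) * π n 1 = 0 := by
      rw [← k2, ← ha.unit_sa, ← star_mul, k1, star_zero]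
    rw [eq_comm, ← sub_eq_zero]
    apply hA.faith
    have := nrm_sq' (1 - ∑ i, L (a0 i) - π n 1)
    simp only [star_sub, star_one, k2, ha.unit_sa, sub_mul, mul_sub, one_mul, mul_one, k1, k3, k4,
      ha.unit_idem, sub_self, sub_zero, map_sub, hπ, map_sum, hτ, a3, hA.one,
      (hE n).τ_one] at this
    have h2 : (1 : ℝ) - ∑ i, (μ ^ 2 - μ ^ 2 / 2 * m i) - μ ^ 2 / 2 =
        nrm (1 - ∑ i, L (a0 i) - π n 1) ^ 2 := by exact_mod_cast this
    exact pow_eq_zero_iff two_ne_zero |>.mp (by linarith)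
  obtain ⟨p', q', e1, e2, e3⟩ := core hA hL ha
    (fun i => hat _ (by rw [a2, if_pos rfl]) (a4 i))
    (fun i hi => by
      have := nrm_sq' (L (a0 i))
      rw [ha.sa, ha.idem, hτ, a3, hi] at this
      exact (ht i).ne' (by simpa using Complex.ofReal_injective this))
    (fun k => by
      rw [hτ, a3, mz (k, k) (by rcases k with k | k <;> simp [p, q]), mul_zero, sub_zero])
    (p := fun n i => π n (p n i)) (q := fun n i => π n (q n i))
    (fun n => hπ1 n ▸ (hp n).map (π n)) (fun n => hπ1 n ▸ (hq n).map (π n)) (fun i j => by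
      simp only [← map_mul, hπ, hτ, a3]
      convert ((hm (i, j)).const_mul ((μ ^ 2 / 2 : ℝ) : ℂ)).const_add _ using 2
      rw [hμ]; push_cast; ring)
  have z : ∀ᶠ n in (l : Filter ℕ), ∀ i j, m (i, j) = 0 → p' n i * q' n j = 0 := by
    filter_upwards [e1] with n hn i j h0
    have := hn.2.2 i j
    rw [hτ, a3, h0, tr_proj (hn.1.sa _) (hn.1.idem _) (hn.2.1.sa _) (hn.2.1.idem _)] at this
    have h2 : μ ^ 2 - μ ^ 2 / 2 * 0 + nrm (p' n i * q' n j) ^ 2 = μ ^ 2 := by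
      apply Complex.ofReal_injective
      rw [Complex.ofReal_add, this, hμ]
      push_cast
      rfl
    exact hA.faith _ (pow_eq_zero_iff two_ne_zero |>.mp (by linarith))
  refine hN A hA.faith (μ ^ 2 / 2) (by positivity) π hπ (fun _ => 1 - ∑ i, L (a0 i))
    (fun n r => p' n (.inl r)) (fun n s => q' n (.inr s)) ?_ (fun r => e2 (.inl r))
    (fun s => e3 (.inr s)) fun r s hn => z.mono fun n hz => hz _ _ ?_
  · filter_upwards [e1, z] with n hn hz
    refine ⟨hn.1.comp Sum.inl_injective ?_, hn.2.1.comp Sum.inr_injective ?_⟩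
    · rintro (k | k) hk
      · exact absurd ⟨k, rfl⟩ hk
      · rw [← hn.1.mul_unit (.inr k), ← hn.2.1.sum, Finset.mul_sum]
        exact Finset.sum_eq_zero fun j _ => hz _ _ (mz _ (by simp [p]))
    · rintro (k | k) hk
      · rw [← hn.2.1.unit_mul (.inl k), ← hn.1.sum, Finset.sum_mul]
        exact Finset.sum_eq_zero fun j _ => hz _ _ (mz _ (by simp [q]))
      · exact absurd ⟨k, rfl⟩ hk
  · have := tendsto_nhds_unique (hm (.inl r, .inr s)) (hn.tendsto_τ fun n => (hE n).nrm_one.le)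
    exact_mod_cast this

end Pool.Agent.Lib.MP_64d6f1_an
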