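import Pool.Agent.Lib.MP_64d6f1_an.FbCore

/-! Asymptotic independence passes from monomials to trace norm limits; separable subalgebras. -/

open scoped InnerProductSpace ComplexConjugate
open Filter Topology

namespace Pool.Agent.Lib.MP_64d6f1_an

open TAlg

section cov

variable {A : TAlg}

/-- Covariance. -/
def fbCov (x y : A) : ℂ := A.τ (x * y) - A.τ x * A.τ y

lemma fbCov_comm (x y : A) : fbCov x y = fbCov y x := by
  rw [fbCov, fbCov, A.comm, mul_comm]

lemma fbCov_cen (hA : VN A) (x y : A) : A.τ (cen x * cen y) = fbCov x y := by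
  simp only [fbCov, cen, Algebra.algebraMap_eq_smul_one, sub_mul, mul_sub, smul_mul_assoc,
    mul_smul_comm, one_mul, mul_one, map_sub, map_smul, hA.one, smul_eq_mul]
  ring

lemma fb_τ_le (hA : VN A) (x : A) : ‖A.τ x‖ ≤ nrm x := by
  simpa [hA.nrm_one] using norm_τ_le' x

lemma fbCov_le (hA : VN A) (x y : A) : ‖fbCov x y‖ ≤ 2 * nrm y * nrm x := by
  have h1 := norm_τ_le (star x) y
  rw [star_star, nrm_star] at h1
  have h2 : ‖A.τ x * A.τ y‖ ≤ nrm x * nrm y := by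
    rw [norm_mul]
    exact mul_le_mul (fb_τ_le hA x) (fb_τ_le hA y) (norm_nonneg _) (nrm_nonneg _)
  have h3 := norm_sub_le (A.τ (x * y)) (A.τ x * A.τ y)
  rw [fbCov]
  linarith

lemma fbCov_fc (hA : VN A) {l : Filter ℕ} {Φ : ℕ → CX →⋆ₐ[ℂ] A} {y : ℕ → A} {D : ℝ}
    (hD : ∀ n, nrm (y n) ≤ D)
    (h : ∀ e, Tendsto (fun n => fbCov (Φ n (fourier e)) (y n)) l (𝓝 0)) (f : CX) :
    Tendsto (fun n => fbCov (Φ n f) (y n)) l (𝓝 0) := by
  have k : ∀ n g, (A.τ ∘ₗ LinearMap.mulRight ℂ (y n - A.τ (y n) • 1) ∘ₗ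
      (Φ n).toAlgHom.toLinearMap) g = fbCov (Φ n g) (y n) := by
    intro n g
    change A.τ (Φ n g * (y n - A.τ (y n) • 1)) = _
    rw [mul_sub, mul_smul_comm, mul_one, map_sub, map_smul, smul_eq_mul, mul_comm (A.τ (y n)),
      fbCov]
  have := lin_ind (l := l) (B := fun _ => cplx) (fun n => A.τ ∘ₗ
    LinearMap.mulRight ℂ (y n - A.τ (y n) • 1) ∘ₗ (Φ n).toAlgHom.toLinearMap) (2 * D)
    (fun n g => by
      rw [nrm_cplx, k]
      refine (fbCov_le hA _ _).trans (mul_le_mul (by linarith [hD n]) (hA.nrm_le _ _)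
        (nrm_nonneg _) (by linarith [hD n, nrm_nonneg (y n)])))
    (fun e => by
      simp only [Null, nrm_cplx, k]
      exact tendsto_zero_iff_norm_tendsto_zero.1 (h e)) f
  simp only [Null, nrm_cplx, k] at this
  exact tendsto_zero_iff_norm_tendsto_zero.2 this

/-- Approximable by the functional calculus. -/
def FbAp (l : Filter ℕ) (Φ : ℕ → CX →⋆ₐ[ℂ] A) (x : ℕ → A) : Prop :=
  ∀ ε : ℝ, 0 < ε → ∃ f : CX, ∀ᶠ n in l, nrm (x n - Φ n f) < ε

lemma fbCov_ap (hA : VN A) {l : Filter ℕ} {Φ : ℕ → CX →⋆ₐ[ℂ] A} {x y : ℕ → A} {D : ℝ}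
    (hD : ∀ n, nrm (y n) ≤ D) (hx : FbAp l Φ x)
    (h : ∀ f, Tendsto (fun n => fbCov (Φ n f) (y n)) l (𝓝 0)) :
    Tendsto (fun n => fbCov (x n) (y n)) l (𝓝 0) := by
  have hD0 : 0 ≤ D := (nrm_nonneg _).trans (hD 0)
  refine Metric.tendsto_nhds.mpr fun ε hε => ?_
  obtain ⟨f, hf⟩ := hx (ε / 2 / (2 * D + 1)) (by positivity)
  filter_upwards [hf, Metric.tendsto_nhds.mp (h f) (ε / 2) (by positivity)] with n h1 h2
  rw [dist_zero_right] at h2 ⊢
  have e : fbCov (x n) (y n) = fbCov (x n - Φ n f) (y n) + fbCov (Φ n f) (y n) := by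
    simp only [fbCov, sub_mul, map_sub]
    ring
  rw [lt_div_iff₀ (by positivity)] at h1
  have h3 := fbCov_le hA (x n - Φ n f) (y n)
  have h4 := norm_add_le (fbCov (x n - Φ n f) (y n)) (fbCov (Φ n f) (y n))
  have h5 := mul_le_mul_of_nonneg_right (hD n) (nrm_nonneg (x n - Φ n f))
  have h6 := nrm_nonneg (x n - Φ n f)
  rw [e]
  linarith

lemma fb_indep (hA : VN A) {l : Filter ℕ} {Φ Ψ : ℕ → CX →⋆ₐ[ℂ] A}
    (H2 : ∀ e f, Tendsto (fun n => A.τ (cen (Φ n (fourier e)) * cen (Ψ n (fourier f)))) l (𝓝 0))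
    {x y : ℕ → A} {D : ℝ} (hD : ∀ n, nrm (y n) ≤ D) (hx : FbAp l Φ x) (hy : FbAp l Ψ y) :
    Tendsto (fun n => fbCov (x n) (y n)) l (𝓝 0) := by
  refine fbCov_ap hA hD hx fun f => ?_
  simp only [fbCov_comm (Φ _ f)]
  refine fbCov_ap hA (fun n => hA.nrm_le (Φ n) f) hy fun g => ?_
  refine fbCov_fc hA (fun n => hA.nrm_le (Φ n) f) (fun e => ?_) g
  simp only [fbCov_comm (Ψ _ _)]
  refine fbCov_fc hA (fun n => hA.nrm_le (Ψ n) _) (fun e' => ?_) f
  simpa only [fbCov_cen hA] using H2 e' e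

lemma FbAp.mul (hA : VN A) {l : Filter ℕ} {Φ : ℕ → CX →⋆ₐ[ℂ] A} {c a : ℕ → A} {C : ℝ}
    (hC : ∀ n, Bd (a n) C) (hc : FbAp l Φ c) (ha : FbAp l Φ a) :
    FbAp l Φ fun n => c n * a n := by
  intro ε hε
  have hC0 : 0 ≤ C := (hC 0).1
  obtain ⟨f, hf⟩ := hc (ε / 2 / (C + 1)) (by positivity)
  obtain ⟨g, hg⟩ := ha (ε / 2 / (‖f‖ + 1)) (by positivity)
  refine ⟨f * g, ?_⟩
  filter_upwards [hf, hg] with n h1 h2
  have e : c n * a n - Φ n (f * g) = (c n - Φ n f) * a n + Φ n f * (a n - Φ n g) := by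
    rw [map_mul, sub_mul, mul_sub, sub_add_sub_cancel]
  rw [lt_div_iff₀ (by positivity)] at h1 h2
  have h3 := nrm_add_le ((c n - Φ n f) * a n) (Φ n f * (a n - Φ n g))
  have h4 := ((hC n).2 (c n - Φ n f)).2
  have h5 := ((hA.bd (Φ n) f).2 (a n - Φ n g)).1
  have h6 := nrm_nonneg (c n - Φ n f)
  have h7 := nrm_nonneg (a n - Φ n g)
  rw [e]
  linarith

lemma fb_word (hA : VN A) {l : Filter ℕ} {Φ Ψ : ℕ → CX →⋆ₐ[ℂ] A}
    (H2 : ∀ e f, Tendsto (fun n => A.τ (cen (Φ n (fourier e)) * cen (Ψ n (fourier f)))) l (𝓝 0))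
    {x y : ℕ → A} {C D : ℝ} (hC : ∀ n, nrm (x n) ≤ C) (hD : ∀ n, nrm (y n) ≤ D)
    (hx : FbAp l Φ x) (hy : FbAp l Ψ y) (h0 : Tendsto (fun n => A.τ (y n)) l (𝓝 0)) :
    Tendsto (fun n => A.τ (x n * y n)) l (𝓝 0) := by
  have h1 : Tendsto (fun n => A.τ (x n) * A.τ (y n)) l (𝓝 0) := by
    refine squeeze_zero_norm (a := fun n => C * ‖A.τ (y n)‖) (fun n => ?_) ?_
    · rw [norm_mul]
      exact mul_le_mul_of_nonneg_right ((fb_τ_le hA _).trans (hC n)) (norm_nonneg _)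
    · simpa using h0.norm.const_mul C
  have := (fb_indep hA H2 hD hx hy).add h1
  simpa [fbCov] using this

end cov

theorem fb_sep {H : Type} [NormedAddCommGroup H] [InnerProductSpace ℂ H] [CompleteSpace H]
    (N : VonNeumannAlgebra H) (ξ : H) {ι : Type} [Countable ι] (g : ι → H →L[ℂ] H)
    (hg : ∀ i, g i ∈ N) :
    ∃ N₀ : VonNeumannAlgebra H, (∀ x ∈ N₀, x ∈ N) ∧ (∀ i, g i ∈ N₀) ∧
      TopologicalSpace.IsSeparable ((fun x : H →L[ℂ] H => x ξ) '' N₀) := by
  let g' : ι × Bool → H →L[ℂ] H := fun p => if p.2 then g p.1 else star (g p.1)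
  let W : Set H := Set.range fun w : List (ι × Bool) => (w.map g').prod ξ
  let K : Submodule ℂ H := (Submodule.span ℂ W).topologicalClosure
  have hK : ∀ p, ∀ z ∈ K, g' p z ∈ K := by
    intro p
    have : K ≤ K.comap (g' p : H →ₗ[ℂ] H) := by
      refine Submodule.topologicalClosure_minimal _ (Submodule.span_le.2 ?_)
        ((Submodule.isClosed_topologicalClosure _).preimage (g' p).continuous)
      rintro _ ⟨w, rfl⟩
      exact Submodule.le_topologicalClosure _ (Submodule.subset_span ⟨p :: w, rfl⟩)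
    exact fun z hz => this hz
  have hξ : ξ ∈ K := Submodule.le_topologicalClosure _ (Submodule.subset_span ⟨[], rfl⟩)
  have : CompleteSpace K := (Submodule.isClosed_topologicalClosure _).completeSpace_coe
  let P : H →L[ℂ] H := K.starProjection
  have hP : star P = P := (isStarProjection_starProjection (U := K)).isSelfAdjoint.star_eq
  have h1 : ∀ p, P * g' p * P = g' p * P := fun p => ContinuousLinearMap.ext fun z =>
    Submodule.starProjection_eq_self_iff.2 (hK p _ (K.starProjection_apply_mem z))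
  have h2 : ∀ i, P * g i = g i * P := by
    intro i
    have a := congrArg star (h1 (i, false))
    have b := h1 (i, true)
    simp only [g', if_true, Bool.false_eq_true, if_false, star_mul, star_star, hP] at a b
    rw [← a, ← mul_assoc, b]
  let R : Set (H →L[ℂ] H) := insert P N.commutant
  let N₀ : VonNeumannAlgebra H :=
    { toStarSubalgebra := StarSubalgebra.centralizer ℂ R
      centralizer_centralizer' := by
        change Set.centralizer (Set.centralizer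
          (StarSubalgebra.centralizer ℂ R : Set (H →L[ℂ] H))) = _
        rw [StarSubalgebra.coe_centralizer, Set.centralizer_centralizer_centralizer]
        rfl }
  have hN : ∀ x, x ∈ N₀ ↔ ∀ r ∈ R, r * x = x * r ∧ star r * x = x * star r := fun x =>
    StarSubalgebra.mem_centralizer_iff ℂ
  refine ⟨N₀, fun x hx => ?_, fun i => (hN _).2 ?_, ?_⟩
  · rw [← N.commutant_commutant, VonNeumannAlgebra.mem_commutant_iff]
    exact fun r hr => ((hN x).1 hx r (Or.inr hr)).1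
  · rintro r (rfl | hr)
    · exact ⟨h2 i, by rw [hP]; exact h2 i⟩
    · exact ⟨(VonNeumannAlgebra.mem_commutant_iff.1 hr _ (hg i)).symm,
        (VonNeumannAlgebra.mem_commutant_iff.1 (star_mem hr) _ (hg i)).symm⟩
  · have hW : W.Countable := Set.countable_range _
    refine (hW.isSeparable.span (R := ℂ)).closure.mono ?_
    rintro _ ⟨x, hx, rfl⟩
    have a : P (x ξ) = x (P ξ) := congrArg (fun T : H →L[ℂ] H => T ξ) ((hN x).1 hx P (Or.inl rfl)).1
    rw [Submodule.starProjection_eq_self_iff.2 hξ] at a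
    exact Submodule.starProjection_eq_self_iff.1 a

end Pool.Agent.Lib.MP_64d6f1_an
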