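import Mathlib

/-! Independence in a tracial ultrapower, in terms of representing sequences. -/

open scoped InnerProductSpace
open Filter Topology

namespace Pool.Agent.Lib.MP_64d6f1_an

section generic

variable {A : Type} [NormedRing A] [StarRing A] [Module ℂ A]

/-- The power `u ^ e` of a unitary `u`, for an integer `e`. -/
def upow (u : A) (e : ℤ) : A := u ^ e.toNat * star u ^ (-e).toNat

/-- The trace norm. -/
noncomputable def nrm2 (τ : A → ℂ) (x : A) : ℝ := √(τ (star x * x)).re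

/-- `u` is a unitary element of `N`. -/
def IsUni (N : Set A) (u : A) : Prop := u ∈ N ∧ star u * u = 1 ∧ u * star u = 1

/-- `τ` is normalised, tracial and faithful on `N`. -/
def FaithfulTrace (N : Set A) (τ : A → ℂ) : Prop :=
  τ 1 = 1 ∧ (∀ x ∈ N, ∀ y ∈ N, τ (x * y) = τ (y * x)) ∧ ∀ x ∈ N, τ (star x * x) = 0 → x = 0

/-- `x` is a bounded sequence in `N` whose class in the ultrapower along `𝒰` has trace zero and is
a limit, in the trace norm of the ultrapower, of Laurent polynomials in the class of `u`. -/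
def CenW (N : Set A) (τ : A → ℂ) (𝒰 : Ultrafilter ℕ) (u x : ℕ → A) : Prop :=
  (∀ n, x n ∈ N) ∧ (∃ C : ℝ, ∀ n, ‖x n‖ ≤ C) ∧ Tendsto (fun n => τ (x n)) 𝒰 (𝓝 0) ∧
    ∀ ε : ℝ, 0 < ε → ∃ c : ℤ →₀ ℂ, ∀ᶠ n in (𝒰 : Filter ℕ),
      nrm2 τ (x n - ∑ e ∈ c.support, c e • upow (u n) e) < ε

/-- The classes of `u` and `v` in the ultrapower are three-independent. -/
def ThreeIndep (N : Set A) (τ : A → ℂ) (𝒰 : Ultrafilter ℕ) (u v : ℕ → A) : Prop :=
  ∀ a a' b b' : ℕ → A, CenW N τ 𝒰 u a → CenW N τ 𝒰 u a' → CenW N τ 𝒰 v b → CenW N τ 𝒰 v b' →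
    Tendsto (fun n => τ (a n * b n)) 𝒰 (𝓝 0) ∧ Tendsto (fun n => τ (b n * a n)) 𝒰 (𝓝 0) ∧
    Tendsto (fun n => τ (a n * b n * a' n)) 𝒰 (𝓝 0) ∧
    Tendsto (fun n => τ (b n * a n * b' n)) 𝒰 (𝓝 0)

/-- `u'` is a sequence of unitaries of `N` with the same class as `u` in the ultrapower. -/
def IsLift (N : Set A) (τ : A → ℂ) (𝒰 : Ultrafilter ℕ) (u u' : ℕ → A) : Prop :=
  (∀ n, IsUni N (u' n)) ∧ Tendsto (fun n => nrm2 τ (u' n - u n)) 𝒰 (𝓝 0)

/-- Some power of `a` and some power of `b` are correlated. -/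
def Correlated (τ : A → ℂ) (a b : A) : Prop :=
  ∃ e f : ℤ, τ (upow a e * upow b f) ≠ τ (upow a e) * τ (upow b f)

/-- There are three-independent unitaries of the ultrapower all of whose lifts are correlated at
almost every index. -/
def NoIndepLift (N : Set A) (τ : A → ℂ) (𝒰 : Ultrafilter ℕ) : Prop :=
  ∃ u v : ℕ → A, (∀ n, IsUni N (u n) ∧ IsUni N (v n)) ∧ ThreeIndep N τ 𝒰 u v ∧
    ∀ u' v' : ℕ → A, IsLift N τ 𝒰 u u' → IsLift N τ 𝒰 v v' →
      ∀ᶠ n in (𝒰 : Filter ℕ), Correlated τ (u' n) (v' n)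

end generic

variable {H : Type} [NormedAddCommGroup H] [InnerProductSpace ℂ H]

/-- The vector functional of `ξ`. -/
noncomputable def vtr (ξ : H) (x : H →L[ℂ] H) : ℂ := ⟪ξ, x ξ⟫_ℂ

/-- The set of vectors `x ξ` with `x` in `N` is separable. -/
def SepOrbit (N : Set (H →L[ℂ] H)) (ξ : H) : Prop :=
  TopologicalSpace.IsSeparable ((fun x : H →L[ℂ] H => x ξ) '' N)

end Pool.Agent.Lib.MP_64d6f1_an
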