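import Pool.Agent.Lib.MP_64d6f1_an.PingPong

/-! Relative property (T) for the pair `(ℤ² ⋊ F₂, ℤ²)`, in a uniform quantitative form. -/

open MeasureTheory Real CompactlySupported
open scoped InnerProductSpace

namespace Pool.Agent.Lib.MP_64d6f1_an

variable {K : Type*} [NormedAddCommGroup K] [InnerProductSpace ℂ K] [CompleteSpace K]

/-- Complexification of a real function. -/
noncomputable def ofR (f : C(T2, ℝ)) : C(T2, ℂ) := ⟨fun x => (f x : ℂ), by fun_prop⟩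

@[simp] lemma ofR_apply (f : C(T2, ℝ)) (x : T2) : ofR f x = (f x : ℂ) := rfl

lemma inner_star_mul (Φ : C(T2, ℂ) →⋆ₐ[ℂ] (K →L[ℂ] K)) (ξ : K) (g : C(T2, ℂ)) :
    (⟪ξ, Φ (star g * g) ξ⟫_ℂ).re = ‖Φ g ξ‖ ^ 2 := by
  rw [map_mul, map_star, mul_apply_eq_comp, ContinuousLinearMap.star_eq_adjoint,
    ContinuousLinearMap.adjoint_inner_right, inner_self_eq_norm_sq_to_K]
  norm_cast

lemma exists_measure (Φ : C(T2, ℂ) →⋆ₐ[ℂ] (K →L[ℂ] K)) (ξ : K) :
    ∃ μ : Measure T2, IsFiniteMeasure μ ∧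
      ∀ f : C(T2, ℝ), ∫ x, f x ∂μ = (⟪ξ, Φ (ofR f) ξ⟫_ℂ).re := by
  let L : C_c(T2, ℝ) →ₗ[ℝ] ℝ :=
    { toFun := fun f => (⟪ξ, Φ (ofR f.toContinuousMap) ξ⟫_ℂ).re
      map_add' := fun f g => by
        have : ofR (f + g).toContinuousMap = ofR f.toContinuousMap + ofR g.toContinuousMap := by
          ext x; simp
        rw [this, map_add, add_apply, inner_add_right, Complex.add_re]
      map_smul' := fun c f => by
        have : ofR (c • f).toContinuousMap = (c : ℂ) • ofR f.toContinuousMap := by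
          ext x; simp
        rw [this, map_smul, smul_apply, inner_smul_right]
        simp }
  have hL : ∀ f : C_c(T2, ℝ), 0 ≤ f → 0 ≤ L f := by
    intro f hf
    let g : C(T2, ℝ) := ⟨fun x => √(f x), by fun_prop⟩
    have : ofR f.toContinuousMap = star (ofR g) * ofR g := by
      ext x
      have := Real.mul_self_sqrt (hf x)
      simp only [ofR_apply, ContinuousMap.mul_apply, ContinuousMap.star_apply, Complex.star_def,
        Complex.conj_ofReal, g, ContinuousMap.coe_mk]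
      rw [← Complex.ofReal_mul, Real.mul_self_sqrt (hf x)]
      rfl
    change 0 ≤ (⟪ξ, Φ (ofR f.toContinuousMap) ξ⟫_ℂ).re
    rw [this, inner_star_mul]
    positivity
  let Λ : C_c(T2, ℝ) →ₚ[ℝ] ℝ := PositiveLinearMap.mk₀ L hL
  refine ⟨RealRMK.rieszMeasure Λ, inferInstance, fun f => ?_⟩
  exact RealRMK.integral_rieszMeasure Λ (CompactlySupportedContinuousMap.continuousMapEquiv f)

lemma integral_normSq (Φ : C(T2, ℂ) →⋆ₐ[ℂ] (K →L[ℂ] K)) (ξ : K) (μ : Measure T2)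
    (hμ : ∀ f : C(T2, ℝ), ∫ x, f x ∂μ = (⟪ξ, Φ (ofR f) ξ⟫_ℂ).re) (g : C(T2, ℂ)) :
    ∫ x, ‖g x‖ ^ 2 ∂μ = ‖Φ g ξ‖ ^ 2 := by
  let f : C(T2, ℝ) := ⟨fun x => ‖g x‖ ^ 2, by fun_prop⟩
  have : ofR f = star g * g := by
    ext x
    simp [f, Complex.conj_mul']
  rw [← inner_star_mul, ← this, ← hμ]
  rfl

lemma norm_star_sub {G : K →L[ℂ] K} (hG : G ∈ unitary (K →L[ℂ] K)) (ξ : K) :
    ‖star G ξ - ξ‖ = ‖G ξ - ξ‖ := by
  have h1 : G (star G ξ - ξ) = -(G ξ - ξ) := by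
    rw [map_sub, ← mul_apply_eq_comp, hG.2]; simp
  rw [← (ContinuousLinearMap.norm_map_of_mem_unitary hG (star G ξ - ξ)), h1, norm_neg]

lemma almost_invariant (Φ : C(T2, ℂ) →⋆ₐ[ℂ] (K →L[ℂ] K)) (ξ : K) (μ : Measure T2)
    (hμ : ∀ f : C(T2, ℝ), ∫ x, f x ∂μ = (⟪ξ, Φ (ofR f) ξ⟫_ℂ).re)
    (G : K →L[ℂ] K) (hG : G ∈ unitary (K →L[ℂ] K)) (T : C(T2, T2))
    (h1 : G * Φ c1 = Φ (c1.comp T) * G) (h2 : G * Φ c2 = Φ (c2.comp T) * G) {ε : ℝ}
    (hε : ‖G ξ - ξ‖ ≤ ε) (f : C(T2, ℝ)) (hf : ∀ x, 0 ≤ f x ∧ f x ≤ 1) :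
    ∫ x, f (T x) ∂μ ≤ ∫ x, f x ∂μ + 2 * ε * ‖ξ‖ := by
  have e1 : ∫ x, f (T x) ∂μ = (⟪ξ, Φ ((ofR f).comp T) ξ⟫_ℂ).re := hμ (f.comp T)
  have e2 : Φ ((ofR f).comp T) = G * Φ (ofR f) * star G := by
    rw [jointCFC_intertwine Φ G hG T h1 h2, mul_assoc, hG.2, mul_one]
  set η := star G ξ with hη
  have e3 : ⟪ξ, Φ ((ofR f).comp T) ξ⟫_ℂ = ⟪η, Φ (ofR f) η⟫_ℂ := by
    rw [e2, hη, ContinuousLinearMap.star_eq_adjoint, ContinuousLinearMap.adjoint_inner_left]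
    rfl
  have hn : ‖Φ (ofR f)‖ ≤ 1 := by
    refine (norm_starAlgHom_le Φ _).trans ?_
    rw [ContinuousMap.norm_le _ zero_le_one]
    intro x
    simp only [ofR_apply, Complex.norm_real, Real.norm_eq_abs]
    exact abs_le.mpr ⟨by linarith [(hf x).1], (hf x).2⟩
  have hF : ∀ v, ‖Φ (ofR f) v‖ ≤ ‖v‖ := fun v =>
    ((Φ (ofR f)).le_opNorm v).trans (by nlinarith [norm_nonneg v])
  have hηn : ‖η‖ = ‖ξ‖ := ContinuousLinearMap.norm_map_of_mem_unitary (Unitary.star_mem hG) ξ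
  have hd : ‖η - ξ‖ ≤ ε := by rw [hη, norm_star_sub hG]; exact hε
  have e4 : ⟪η, Φ (ofR f) η⟫_ℂ - ⟪ξ, Φ (ofR f) ξ⟫_ℂ =
      ⟪η - ξ, Φ (ofR f) η⟫_ℂ + ⟪ξ, Φ (ofR f) (η - ξ)⟫_ℂ := by
    rw [map_sub, inner_sub_left, inner_sub_right]; ring
  have b1 : ‖⟪η - ξ, Φ (ofR f) η⟫_ℂ‖ ≤ ε * ‖ξ‖ :=
    (norm_inner_le_norm _ _).trans (mul_le_mul hd ((hF η).trans hηn.le) (norm_nonneg _)
      ((norm_nonneg _).trans hd))
  have b2 : ‖⟪ξ, Φ (ofR f) (η - ξ)⟫_ℂ‖ ≤ ‖ξ‖ * ε :=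
    (norm_inner_le_norm _ _).trans (mul_le_mul_of_nonneg_left ((hF _).trans hd) (norm_nonneg _))
  have b3 := (Complex.re_le_norm _).trans ((norm_add_le _ _).trans (add_le_add b1 b2))
  rw [← e4, Complex.sub_re] at b3
  rw [e1, e3, hμ]
  linarith

theorem relT (X Y G1 G2 : K →L[ℂ] K) (hX : X ∈ unitary (K →L[ℂ] K))
    (hY : Y ∈ unitary (K →L[ℂ] K)) (hG1 : G1 ∈ unitary (K →L[ℂ] K))
    (hG2 : G2 ∈ unitary (K →L[ℂ] K)) (hXY : X * Y = Y * X) (r1 : G1 * X = X * G1)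
    (r2 : G1 * Y = X * Y * G1) (r3 : G2 * Y = Y * G2) (r4 : G2 * X = X * Y * G2) (ξ : K) {ε : ℝ}
    (a1 : ‖X ξ - ξ‖ ≤ ε) (a2 : ‖Y ξ - ξ‖ ≤ ε) (a3 : ‖G1 ξ - ξ‖ ≤ ε) (a4 : ‖G2 ξ - ξ‖ ≤ ε)
    (j : ℕ) : ‖(X ^ j) ξ - ξ‖ ^ 2 ≤ 12 * ε ^ 2 + 32 * ε * ‖ξ‖ := by
  obtain ⟨Φ, rfl, rfl⟩ := exists_jointCFC X Y hX hY hXY
  obtain ⟨μ, hfin, hμ⟩ := exists_measure Φ ξ
  have hs : ∀ {G a b : K →L[ℂ] K}, G ∈ unitary (K →L[ℂ] K) → G * a = b * G →
      star G * b = a * star G := by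
    intro G a b hG h
    calc star G * b = star G * (b * G) * star G := by
          simp only [mul_assoc]; rw [hG.2, mul_one]
      _ = (star G * G) * a * star G := by rw [← h]; simp only [mul_assoc]
      _ = _ := by rw [hG.1, one_mul]
  have hinv : ∀ T ∈ ({TA, TA', TB, TB'} : Set C(T2, T2)), ∀ S : Set T2, MeasurableSet S →
      μ.real (T ⁻¹' S) ≤ μ.real S + 2 * ε * ‖ξ‖ := by
    rintro T (rfl | rfl | rfl | rfl) S hS
    · refine real_preimage_le μ _ _ (almost_invariant Φ ξ μ hμ G1 hG1 TA r1 ?_ a3) hS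
      rw [r2, ← map_mul]; rfl
    · refine real_preimage_le μ _ _ (almost_invariant Φ ξ μ hμ (star G1) (Unitary.star_mem hG1) TA'
        (hs hG1 r1) ?_ (by rw [norm_star_sub hG1]; exact a3)) hS
      have e : c2.comp TA' = star c1 * c2 := by
        ext p; simp [TA', ← Circle.coe_inv_eq_conj]
      rw [e, map_mul, map_star]
      apply hs hG1
      rw [← mul_assoc, ← star_star G1, ← star_mul, ← hs hG1 r1, star_mul, star_star, mul_assoc,
        r2, ← mul_assoc, ← mul_assoc, hX.1, one_mul]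
    · refine real_preimage_le μ _ _ (almost_invariant Φ ξ μ hμ G2 hG2 TB ?_ r3 a4) hS
      rw [r4, ← map_mul]; rfl
    · refine real_preimage_le μ _ _ (almost_invariant Φ ξ μ hμ (star G2) (Unitary.star_mem hG2) TB'
        ?_ (hs hG2 r3) (by rw [norm_star_sub hG2]; exact a4)) hS
      have e : c1.comp TB' = star c2 * c1 := by
        ext p; simp [TB', ← Circle.coe_inv_eq_conj, mul_comm]
      rw [e, map_mul, map_star]
      apply hs hG2
      rw [← mul_assoc, ← star_star G2, ← star_mul, ← hs hG2 r3, star_mul, star_star, mul_assoc,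
        r4, hXY, ← mul_assoc, ← mul_assoc, hY.1, one_mul]
  have hpp := pingpong μ _ hinv
  have hint : ∀ g : C(T2, ℂ), Integrable (fun x => ‖g x‖ ^ 2) μ := fun g =>
    (by fun_prop : Continuous fun x => ‖g x‖ ^ 2).integrable_of_hasCompactSupport
      (HasCompactSupport.of_compactSpace _)
  have hε : 0 ≤ ε := (norm_nonneg _).trans a1
  set D := {p : T2 | |ar p.1| < π / 2 ∧ |ar p.2| < π / 2} with hD
  have mD : MeasurableSet D :=
    (measurableSet_lt (measurable_ar.comp measurable_fst).abs measurable_const).inter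
      (measurableSet_lt (measurable_ar.comp measurable_snd).abs measurable_const)
  have hz : ∀ z : Circle, ¬ |ar z| < π / 2 → 2 ≤ ‖(z : ℂ) - 1‖ ^ 2 := by
    intro z hz
    rw [ar, Complex.abs_arg_lt_pi_div_two_iff, not_or, not_lt] at hz
    have h1 : Complex.normSq z = 1 := Circle.normSq_coe z
    rw [Complex.sq_norm, Complex.normSq_sub, h1]
    simp only [map_one, mul_one]
    linarith [hz.1]
  have hDc : 2 * μ.real Dᶜ ≤ 2 * ε ^ 2 := by
    have e1 := integral_normSq Φ ξ μ hμ (c1 - 1)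
    have e2 := integral_normSq Φ ξ μ hμ (c2 - 1)
    rw [map_sub, map_one, sub_apply, one_apply_eq_self] at e1 e2
    have b1 : ‖Φ c1 ξ - ξ‖ ^ 2 ≤ ε ^ 2 := by gcongr
    have b2 : ‖Φ c2 ξ - ξ‖ ^ 2 ≤ ε ^ 2 := by gcongr
    have b3 : ∫ x, 2 * Dᶜ.indicator (1 : T2 → ℝ) x ∂μ ≤
        ∫ x, (‖(c1 - 1) x‖ ^ 2 + ‖(c2 - 1) x‖ ^ 2) ∂μ := by
      refine integral_mono (((integrable_const _).indicator mD.compl).const_mul 2)
        ((hint _).add (hint _)) fun x => ?_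
      by_cases hx : x ∈ D
      · simp only [Set.mem_compl_iff, hx, not_true_eq_false, not_false_eq_true,
          Set.indicator_of_notMem, mul_zero]
        positivity
      · have hx' : x ∈ Dᶜ := hx
        simp only [Set.indicator_of_mem hx', Pi.one_apply, mul_one, ContinuousMap.sub_apply,
          c1_apply, c2_apply, ContinuousMap.one_apply]
        rcases not_and_or.mp hx with h | h
        · linarith [hz _ h, sq_nonneg ‖(x.2 : ℂ) - 1‖]
        · linarith [hz _ h, sq_nonneg ‖(x.1 : ℂ) - 1‖]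
    rw [integral_const_mul, integral_indicator_one mD.compl, integral_add (hint _) (hint _)] at b3
    linarith
  have e := integral_normSq Φ ξ μ hμ (c1 ^ j - 1)
  rw [map_sub, map_one, map_pow, sub_apply,
    one_apply_eq_self] at e
  have mP : MeasurableSet {p : T2 | p ≠ (1, 1)} := (measurableSet_singleton _).compl
  have b : ∫ x, ‖(c1 ^ j - 1) x‖ ^ 2 ∂μ ≤
      ∫ x, 4 * {p : T2 | p ≠ (1, 1)}.indicator (1 : T2 → ℝ) x ∂μ := by
    refine integral_mono (hint _) (((integrable_const _).indicator mP).const_mul 4) fun x => ?_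
    by_cases hx : x = (1, 1)
    · simp [hx]
    · have hx' : x ∈ {p : T2 | p ≠ (1, 1)} := hx
      simp only [Set.indicator_of_mem hx', Pi.one_apply, mul_one, ContinuousMap.sub_apply,
        ContinuousMap.pow_apply, c1_apply, ContinuousMap.one_apply]
      have : ‖(x.1 : ℂ) ^ j - 1‖ ≤ 2 := (norm_sub_le _ _).trans (by rw [norm_pow, Circle.norm_coe]; norm_num)
      nlinarith [norm_nonneg ((x.1 : ℂ) ^ j - 1)]
  rw [integral_const_mul, integral_indicator_one mP, e] at b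
  linarith

end Pool.Agent.Lib.MP_64d6f1_an
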