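import Pool.Agent.Lib.MP_64d6f1_an.GNS
import Pool.Agent.Lib.MP_64d6f1_an.RelT

/-! A finite family of almost-relations between unitaries that cannot be corrected. -/

open scoped InnerProductSpace ComplexConjugate
open Filter Topology

namespace Pool.Agent.Lib.MP_64d6f1_an

open TAlg

/-- No exact solution, in a corner, close to the given approximate solution. -/
def GNonLift (l : Filter ℕ) (B : ℕ → TAlg) {G : Type} (one : G) (w : ∀ n, G → B n) : Prop :=
  ∀ (A : TAlg) (c : ℝ) (_ : 0 < c) (π : ∀ n, B n →⋆ₙₐ[ℂ] A)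
    (_ : ∀ n x, A.τ (π n x) = c * (B n).τ x) (f : ℕ → A) (w' : ℕ → G → A),
    (∀ᶠ n in l, star (f n) = f n ∧ (∀ g, star (w' n g) * w' n g = f n ∧
      w' n g * star (w' n g) = f n ∧ f n * w' n g = w' n g ∧ w' n g * f n = w' n g) ∧
      w' n one = f n) →
    (∀ g, Null (B := fun _ => A) l fun n => w' n g - π n (w n g)) →
    (∀ a b c d, Null l (fun n => w n a * w n b - w n c * w n d) →
      ∀ᶠ n in l, w' n a * w' n b = w' n c * w' n d) → False

variable {A : TAlg}

lemma bd_unitary {u : A} (hu : u ∈ unitary A) : ∃ C, Bd u C :=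
  ⟨1, bd_of_pi (by rw [hu.2, one_mul])⟩

/-- The operator `z ↦ a z b*`. -/
noncomputable def lr (a b : unitary A) : A.H →L[ℂ] A.H :=
  lam (a : A) (bd_unitary a.2) * rho (star (b : A)) (bd_unitary (Unitary.star_mem b.2))

lemma lr_vec (a b : unitary A) (z : A) : lr a b (vec z) = vec (a.1 * z * star b.1) := by
  simp [lr, mul_assoc]

lemma lr_mul (a b c d : unitary A) : lr a b * lr c d = lr (a * c) (b * d) :=
  clm_ext fun z => by simp [lr_vec, mul_assoc]

lemma lr_one : lr (1 : unitary A) 1 = 1 := clm_ext fun z => by simp [lr_vec]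

lemma star_lr (a b : unitary A) : star (lr a b) = lr (star a) (star b) :=
  star_eq_of_inner fun x y => by
    simp only [lr_vec, inner_vec, star_mul, Unitary.coe_star, star_star]
    rw [mul_assoc, A.comm]
    simp only [mul_assoc]

lemma lr_unitary (a b : unitary A) : lr a b ∈ unitary (A.H →L[ℂ] A.H) :=
  ⟨by rw [star_lr, lr_mul]; simpa using lr_one, by rw [star_lr, lr_mul]; simpa using lr_one⟩

lemma lr_pow (a b : unitary A) (j : ℕ) : lr a b ^ j = lr (a ^ j) (b ^ j) := by
  induction j with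
  | zero => simpa using lr_one.symm
  | succ j ih => rw [pow_succ, ih, lr_mul, pow_succ, pow_succ]

lemma norm_lr (a b : unitary A) : ‖lr a b (vec 1) - vec 1‖ = nrm (a.1 - b.1) := by
  rw [lr_vec, ← vec_sub, norm_vec, ← nrm_mul_unitary' (u := (b : A)) b.2.2, sub_mul, mul_one,
    mul_assoc, b.2.1, mul_one, one_mul]

lemma core_ineq (x y g h s x0 y0 g0 h0 s0 : unitary A) (r0 : x * y = y * x) (r1 : g * x = x * g)
    (r2 : g * y = x * y * g) (r3 : h * y = y * h) (r4 : h * x = x * y * h) (r5 : s * x = x * s)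
    (q0 : x0 * y0 = y0 * x0) (q1 : g0 * x0 = x0 * g0)
    (q2 : g0 * y0 = x0 * y0 * g0) (q3 : h0 * y0 = y0 * h0) (q4 : h0 * x0 = x0 * y0 * h0) {ε : ℝ}
    (a1 : nrm (x.1 - x0.1) ≤ ε) (a2 : nrm (y.1 - y0.1) ≤ ε) (a3 : nrm (g.1 - g0.1) ≤ ε)
    (a4 : nrm (h.1 - h0.1) ≤ ε) (a5 : nrm (s.1 - s0.1) ≤ ε) (j : ℕ) :
    nrm (s0.1 * x0.1 ^ j - x0.1 ^ j * s0.1) ≤
      2 * ε + 2 * √(12 * ε ^ 2 + 32 * ε * nrm (1 : A)) := by
  have h1 := relT (lr x x0) (lr y y0) (lr g g0) (lr h h0) (lr_unitary _ _) (lr_unitary _ _)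
    (lr_unitary _ _) (lr_unitary _ _) (by simp only [lr_mul, r0, q0])
    (by simp only [lr_mul, r1, q1]) (by simp only [lr_mul, r2, q2])
    (by simp only [lr_mul, r3, q3]) (by simp only [lr_mul, r4, q4]) (vec 1) (ε := ε)
    (by rwa [norm_lr]) (by rwa [norm_lr]) (by rwa [norm_lr]) (by rwa [norm_lr]) j
  rw [lr_pow, norm_lr, norm_vec] at h1
  have h2 := Real.le_sqrt_of_sq_le h1
  have hc : s.1 * x.1 ^ j = x.1 ^ j * s.1 := by
    have : Commute s x := r5
    have := congrArg (fun u : unitary A => (u : A)) (this.pow_right j).eq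
    simpa using this
  have e : s0.1 * x0.1 ^ j - x0.1 ^ j * s0.1 = (-((s.1 - s0.1) * (x0 ^ j).1) +
      -(s.1 * ((x ^ j).1 - (x0 ^ j).1))) +
      ((((x ^ j).1 - (x0 ^ j).1) * s.1) + (x0 ^ j).1 * (s.1 - s0.1)) := by
    simp only [SubmonoidClass.coe_pow, sub_mul, mul_sub, hc]
    abel
  rw [e]
  refine (nrm_add_le _ _).trans ((add_le_add (nrm_add_le _ _) (nrm_add_le _ _)).trans ?_)
  rw [nrm_neg, nrm_neg, nrm_mul_unitary' (x0 ^ j).2.2, nrm_mul_unitary s.2.1,
    nrm_mul_unitary' s.2.2, nrm_mul_unitary (x0 ^ j).2.1]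
  linarith

/-- Extension of a unitary of a corner to a unitary. -/
def extU (f u : A) (hf : star f = f) (hff : f * f = f) (h1 : star u * u = f) (h2 : u * star u = f)
    (h3 : f * u = u) (h4 : u * f = u) : unitary A :=
  ⟨u + (1 - f), by
    have h5 : star u * f = star u := by rw [← hf, ← star_mul, h3]
    have h6 : f * star u = star u := by rw [← hf, ← star_mul, h4]
    constructor
    · simp only [star_add, star_sub, star_one, hf, add_mul, mul_add, sub_mul, mul_sub, h1, h3, h5,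
        hff, one_mul, mul_one]
      abel
    · simp only [star_add, star_sub, star_one, hf, add_mul, mul_add, sub_mul, mul_sub, h2, h4, h6,
        hff, one_mul, mul_one]
      abel⟩

lemma ext_mul {f u v : A} (hff : f * f = f) (h3 : f * v = v) (h4 : u * f = u) :
    (u + (1 - f)) * (v + (1 - f)) = u * v + (1 - f) := by
  simp only [add_mul, mul_add, sub_mul, mul_sub, h3, h4, hff, one_mul, mul_one]
  abel

theorem gNonLift_of (l : Filter ℕ) [l.NeBot] (B : ℕ → TAlg) (w : ∀ n, Fin 7 → B n)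
    (hu : ∀ n g, w n g ∈ unitary (B n)) (h0 : ∀ n, w n 0 = 1) (hτ : ∀ n, (B n).τ 1 = 1)
    (q0 : ∀ n, w n 1 * w n 2 = w n 3 * w n 0) (q0' : ∀ n, w n 2 * w n 1 = w n 3 * w n 0)
    (q1 : ∀ n, w n 4 * w n 1 = w n 1 * w n 4) (q2 : ∀ n, w n 4 * w n 2 = w n 3 * w n 4)
    (q3 : ∀ n, w n 5 * w n 2 = w n 2 * w n 5) (q4 : ∀ n, w n 5 * w n 1 = w n 3 * w n 5)
    (q5 : Null l fun n => w n 6 * w n 1 - w n 1 * w n 6)
    (q6 : ∀ n, ∃ j, w n 6 * w n 1 ^ j = - (w n 1 ^ j * w n 6)) : GNonLift l B 0 w := by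
  intro A c hc π hπ f w' hf hnear hrel
  have ex : ∀ a b c d, (∀ n, w n a * w n b = w n c * w n d) →
      ∀ᶠ n in l, w' n a * w' n b = w' n c * w' n d := fun a b c d h =>
    hrel a b c d (null_zero.congr (Eventually.of_forall fun n => by rw [h n, sub_self]))
  let ε : ℕ → ℝ := fun n => ∑ g, nrm (w' n g - π n (w n g)) + nrm (w' n 0 - π n (w n 0))
  have hε : Tendsto ε l (𝓝 0) := by
    have := (tendsto_finsetSum Finset.univ fun g _ => hnear g).add (hnear 0)
    simpa using this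
  have hlim : Tendsto (fun n => 2 * ε n + 2 * √(12 * ε n ^ 2 + 32 * ε n * nrm (1 : A))) l
      (𝓝 0) := by
    have : Continuous fun e : ℝ => 2 * e + 2 * √(12 * e ^ 2 + 32 * e * nrm (1 : A)) := by
      fun_prop
    simpa [Function.comp_def] using (this.tendsto 0).comp hε
  have hpos : 0 < 2 * √c := by positivity
  obtain ⟨n, ⟨⟨⟨⟨⟨⟨⟨⟨hf1, hf2, hf3⟩, r0⟩, r0'⟩, r1⟩, r2⟩, r3⟩, r4⟩, r5⟩, hn⟩ :=
    ((((((((hf.and (ex _ _ _ _ q0)).and (ex _ _ _ _ q0')).and (ex _ _ _ _ q1)).and
      (ex _ _ _ _ q2)).and (ex _ _ _ _ q3)).and (ex _ _ _ _ q4)).and (hrel _ _ _ _ q5)).and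
      (hlim.eventually (gt_mem_nhds hpos))).exists
  have hff : f n * f n = f n := by have := (hf2 0).2.2.1; rwa [hf3] at this
  set p := π n 1 with hp
  have hp1 : star p = p := by rw [hp, ← map_star, star_one]
  have hpp : p * p = p := by rw [hp, ← map_mul, one_mul]
  have hpl : ∀ x, p * π n x = π n x := fun x => by rw [hp, ← map_mul, one_mul]
  have hpr : ∀ x, π n x * p = π n x := fun x => by rw [hp, ← map_mul, mul_one]
  let u : Fin 7 → unitary A := fun g =>
    extU (f n) (w' n g) hf1 hff (hf2 g).1 (hf2 g).2.1 (hf2 g).2.2.1 (hf2 g).2.2.2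
  let v : Fin 7 → unitary A := fun g =>
    extU p (π n (w n g)) hp1 hpp (by rw [← map_star, ← map_mul, (hu n g).1])
      (by rw [← map_star, ← map_mul, (hu n g).2]) (hpl _) (hpr _)
  have hu0 : u 0 = 1 := Subtype.ext (by simp [u, extU, hf3])
  have hv0 : v 0 = 1 := Subtype.ext (by simp [v, extU, h0, hp])
  have U : ∀ a b c d, w' n a * w' n b = w' n c * w' n d → u a * u b = u c * u d := by
    intro a b c d h
    apply Subtype.ext
    change (w' n a + (1 - f n)) * (w' n b + (1 - f n)) =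
      (w' n c + (1 - f n)) * (w' n d + (1 - f n))
    rw [ext_mul hff (hf2 b).2.2.1 (hf2 a).2.2.2, ext_mul hff (hf2 d).2.2.1 (hf2 c).2.2.2, h]
  have V : ∀ a b c d, w n a * w n b = w n c * w n d → v a * v b = v c * v d := by
    intro a b c d h
    apply Subtype.ext
    change (π n (w n a) + (1 - p)) * (π n (w n b) + (1 - p)) =
      (π n (w n c) + (1 - p)) * (π n (w n d) + (1 - p))
    rw [ext_mul hpp (hpl _) (hpr _), ext_mul hpp (hpl _) (hpr _), ← map_mul, ← map_mul, h]
  have hd : ∀ g, nrm ((u g).1 - (v g).1) ≤ ε n := by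
    intro g
    have e : (u g).1 - (v g).1 = (w' n g - π n (w n g)) + -(w' n 0 - π n (w n 0)) := by
      simp only [u, v, extU, hf3, h0, hp]; abel
    rw [e]
    refine (nrm_add_le _ _).trans ?_
    rw [nrm_neg]
    exact add_le_add (Finset.single_le_sum (f := fun g => nrm (w' n g - π n (w n g)))
      (fun _ _ => nrm_nonneg _) (Finset.mem_univ g)) le_rfl
  have z1 : u 1 * u 2 = u 3 := by rw [U _ _ _ _ r0, hu0, mul_one]
  have z2 : v 1 * v 2 = v 3 := by rw [V _ _ _ _ (q0 n), hv0, mul_one]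
  obtain ⟨j, hj⟩ := q6 n
  have key := core_ineq (u 1) (u 2) (u 4) (u 5) (u 6) (v 1) (v 2) (v 4) (v 5) (v 6)
    (by rw [U _ _ _ _ r0, U _ _ _ _ r0']) (U _ _ _ _ r1) (by rw [z1, U _ _ _ _ r2])
    (U _ _ _ _ r3) (by rw [z1, U _ _ _ _ r4]) (U _ _ _ _ r5)
    (by rw [V _ _ _ _ (q0 n), V _ _ _ _ (q0' n)]) (V _ _ _ _ (q1 n))
    (by rw [z2, V _ _ _ _ (q2 n)]) (V _ _ _ _ (q3 n)) (by rw [z2, V _ _ _ _ (q4 n)])
    (hd 1) (hd 2) (hd 4) (hd 5) (hd 6) j
  have hpow : ∀ j : ℕ, (v 1).1 ^ j = π n (w n 1 ^ j) + (1 - p) := by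
    intro j
    induction j with
    | zero => simp [hp]
    | succ j ih =>
      rw [pow_succ, ih, pow_succ, map_mul]
      exact ext_mul hpp (hpl _) (hpr _)
  have e : (v 6).1 * (v 1).1 ^ j - (v 1).1 ^ j * (v 6).1 = (-2 : ℂ) • π n (w n 1 ^ j * w n 6) := by
    rw [hpow]
    simp only [v, extU]
    rw [ext_mul hpp (hpl _) (hpr _), ext_mul hpp (hpl _) (hpr _), ← map_mul, ← map_mul, hj,
      map_neg, neg_smul, two_smul]
    abel
  have hn2 : nrm (π n (w n 1 ^ j * w n 6)) = √c := by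
    have hU : w n 1 ^ j * w n 6 ∈ unitary (B n) := mul_mem (pow_mem (hu n 1) j) (hu n 6)
    rw [← sq_eq_sq₀ (nrm_nonneg _) (by positivity), nrm_sq, ← map_star, ← map_mul, hU.1, hπ, hτ,
      Real.sq_sqrt hc.le]
    simp
  rw [e, nrm_smul, hn2] at key
  simp only [norm_neg, Complex.norm_ofNat] at key
  linarith

section model

variable {ι : Type} [Fintype ι] [DecidableEq ι]

/-- Permutation matrices. -/
def pm (σ : Equiv.Perm ι) : Matrix ι ι ℂ := Matrix.of fun i j => if σ i = j then 1 else 0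

lemma pm_unitary (σ : Equiv.Perm ι) : pm σ ∈ unitary (Matrix ι ι ℂ) := by
  have h : pm σ * star (pm σ) = 1 := by
    ext i j
    simp [pm, Matrix.mul_apply, Matrix.one_apply, eq_comm]
  exact ⟨mul_eq_one_comm.mp h, h⟩

lemma pm_mul_diag (σ : Equiv.Perm ι) (d : ι → ℂ) :
    pm σ * Matrix.diagonal d = Matrix.diagonal (fun i => d (σ i)) * pm σ := by
  ext i j
  simp only [pm, Matrix.mul_diagonal, Matrix.diagonal_mul, Matrix.of_apply]
  split_ifs with h
  · simp [h]
  · simp

lemma diag_unitary (d : ι → Circle) :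
    Matrix.diagonal (fun i => (d i : ℂ)) ∈ unitary (Matrix ι ι ℂ) := by
  have h : Matrix.diagonal (fun i => (d i : ℂ)) * star (Matrix.diagonal fun i => (d i : ℂ)) = 1 := by
    rw [Matrix.star_eq_conjTranspose, Matrix.diagonal_conjTranspose, Matrix.diagonal_mul_diagonal,
      ← Matrix.diagonal_one]
    congr 1
    ext i
    simp [Complex.mul_conj]
  exact ⟨mul_eq_one_comm.mp h, h⟩

end model

/-- Index set of the clock and shift model. -/
abbrev Idx (n : ℕ) : Type := ZMod (2 * (n + 1)) × ZMod (2 * (n + 1))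

/-- The clock and shift model. -/
noncomputable def model (n : ℕ) : Fin 7 → mat (Idx n) cplx :=
  ![1, Matrix.diagonal fun p => (ZMod.toCircle p.1 : ℂ),
    Matrix.diagonal fun p => (ZMod.toCircle p.2 : ℂ),
    Matrix.diagonal fun p => (ZMod.toCircle (p.1 + p.2) : ℂ),
    pm ⟨fun p => (p.1, p.1 + p.2), fun p => (p.1, p.2 - p.1), fun p => by simp, fun p => by simp⟩,
    pm ⟨fun p => (p.1 + p.2, p.2), fun p => (p.1 - p.2, p.2), fun p => by simp, fun p => by simp⟩,
    pm ⟨fun p => (p.1 + 1, p.2), fun p => (p.1 - 1, p.2), fun p => by simp, fun p => by simp⟩]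

lemma model_unitary (n : ℕ) (g : Fin 7) : model n g ∈ unitary (mat (Idx n) cplx) := by
  fin_cases g
  · exact one_mem _
  · exact diag_unitary _
  · exact diag_unitary _
  · exact diag_unitary _
  · exact pm_unitary _
  · exact pm_unitary _
  · exact pm_unitary _

lemma model_shift (n : ℕ) :
    model n 6 * model n 1 = (ZMod.toCircle (1 : ZMod (2 * (n + 1))) : ℂ) •
      (model n 1 * model n 6) := by
  simp only [model, Matrix.cons_val]
  rw [pm_mul_diag, ← smul_mul_assoc, ← Matrix.diagonal_smul]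
  congr 2
  ext p
  simp [AddChar.map_add_eq_mul, mul_comm]

theorem model_gNonLift (l : Filter ℕ) [l.NeBot] (hl : l ≤ atTop) :
    GNonLift l (fun n => mat (Idx n) cplx) 0 model := by
  apply gNonLift_of l _ _ model_unitary (fun _ => rfl) (fun n => (emb_mat_cplx _).τ_one)
  · intro n
    simp only [model, Matrix.cons_val, Matrix.diagonal_mul_diagonal, mul_one,
      AddChar.map_add_eq_mul, Circle.coe_mul]
  · intro n
    simp only [model, Matrix.cons_val, Matrix.diagonal_mul_diagonal, mul_one,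
      AddChar.map_add_eq_mul, Circle.coe_mul, mul_comm]
  · intro n
    simp only [model, Matrix.cons_val]
    exact pm_mul_diag _ _
  · intro n
    simp only [model, Matrix.cons_val]
    exact pm_mul_diag _ _
  · intro n
    simp only [model, Matrix.cons_val]
    exact pm_mul_diag _ _
  · intro n
    simp only [model, Matrix.cons_val]
    exact pm_mul_diag _ _
  · have e : ∀ n, nrm (A := mat (Idx n) cplx) (model n 6 * model n 1 - model n 1 * model n 6) =
        ‖(ZMod.toCircle (1 : ZMod (2 * (n + 1))) : ℂ) - 1‖ := by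
      intro n
      have hU := mul_mem (model_unitary n 1) (model_unitary n 6)
      rw [model_shift, ← one_smul ℂ (model n 1 * model n 6), smul_smul, mul_one, ← sub_smul,
        nrm_smul, ← mul_one (model n 1 * model n 6), nrm_mul_unitary hU.1,
        (emb_mat_cplx _).nrm_one, mul_one]
    unfold Null
    simp only [e]
    refine Tendsto.mono_left ?_ hl
    have h1 : ∀ n : ℕ, (ZMod.toCircle (1 : ZMod (2 * (n + 1))) : ℂ) =
        Complex.exp (Real.pi * Complex.I * ((1 / ((n : ℝ) + 1) : ℝ) : ℂ)) := by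
      intro n
      have := ZMod.toCircle_natCast (N := 2 * (n + 1)) 1
      rw [Nat.cast_one] at this
      rw [this]
      congr 1
      push_cast
      have : (n : ℂ) + 1 ≠ 0 := by exact_mod_cast n.succ_ne_zero
      field_simp
    simp only [h1]
    have hc : Continuous fun t : ℝ => ‖Complex.exp (Real.pi * Complex.I * (t : ℂ)) - 1‖ := by
      fun_prop
    simpa [Function.comp_def] using (hc.tendsto 0).comp tendsto_one_div_add_atTop_nhds_zero_nat
  · intro n
    refine ⟨n + 1, ?_⟩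
    have h : ∀ j : ℕ, model n 6 * model n 1 ^ j =
        (ZMod.toCircle (j : ZMod (2 * (n + 1))) : ℂ) • (model n 1 ^ j * model n 6) := by
      intro j
      induction j with
      | zero => simp
      | succ j ih =>
        rw [pow_succ, ← mul_assoc, ih, smul_mul_assoc, mul_assoc, model_shift, mul_smul_comm,
          smul_smul, mul_assoc]
        simp [AddChar.map_add_eq_mul]
    rw [h, ZMod.toCircle_natCast, ← neg_one_smul ℂ (model n 1 ^ (n + 1) * model n 6),
      ← Complex.exp_pi_mul_I]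
    congr 2
    push_cast
    have : (n : ℂ) + 1 ≠ 0 := by exact_mod_cast n.succ_ne_zero
    field_simp

end Pool.Agent.Lib.MP_64d6f1_an
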