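import Pool.Agent.Lib.MP_64d6f1_an.HostModel
import Pool.Agent.Lib.MP_64d6f1_an.Amp

/-! Reduction of a finite family of projection valued measures to two of them. -/

open scoped ComplexConjugate
open Filter Topology

namespace Pool.Agent.Lib.MP_64d6f1_an

open TAlg

theorem host_aux {E : Type} [AddCommGroup E] [DecidableEq E] [Fintype E] (h2 : ∀ x : E, x + x = 0)
    {I O : Type} [Fintype O] (ρ : E → I) (hρ : Function.Surjective ρ)
    (hm : ∀ x, ∃ d d', x ≠ d ∧ x ≠ d' ∧ d ≠ d' ∧ ρ d = ρ x ∧ ρ d' = ρ x)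
    {l : Filter ℕ} {B : ℕ → TAlg} {X : ∀ n, I → O → B n} (hX : ∀ n i, IsPVM 1 (X n i))
    (hN : NonLift l B X) :
    NonLift2 l (fun n => amp (Row E) (B n))
      (fun n (p : Row E × O) => kr (PM p.1) (X n (ρ (p.1.elim id fun _ => 0)) p.2))
      (fun n (p : Col E × O) => kr (QM h2 p.1)
        (X n (ρ (p.1.elim (fun _ => 0) fun s => s.out.1)) p.2)) := by
  intro A hA c hc π hπ e p q hpq hp hq hz
  have h3 : ∀ x y : E, ∃ w, x ≠ w ∧ y ≠ w := by
    intro x y
    obtain ⟨d, d', h1, h4, h5, -⟩ := hm x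
    by_cases h : y = d
    · exact ⟨d', h4, h ▸ h5⟩
    · exact ⟨d, h1, h⟩
  choose h hh using hρ
  let P : ℕ → Row E → A := fun n r => ∑ a, p n (r, a)
  let Q : ℕ → Col E → A := fun n s => ∑ a, q n (s, a)
  let K : ℕ → E → O → A := fun n x a => Q n (.inl true) * p n (.inl x, a) * Q n (.inl true)
  have hsol : ∀ᶠ n in l, Sol (e n) (P n) (Q n) := by
    have : ∀ᶠ n in l, ∀ (r : Row E × O) (s : Col E × O), ¬ adj r.1 s.1 → p n r * q n s = 0 := by
      simp only [eventually_all]
      intro r s hrs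
      apply hz
      simp only [kr_mul, PM_QM h2 _ _ hrs, kr_zero_left]
      exact null_zero
    filter_upwards [this, hpq] with n h0 hn
    refine ⟨h2, hn.1.coarse, hn.2.coarse, fun r s hrs => ?_⟩
    simp only [P, Q, Finset.sum_mul_sum]
    exact Finset.sum_eq_zero fun a _ => Finset.sum_eq_zero fun b _ => h0 _ _ hrs
  have hK : ∀ x y a b, x ≠ y → Null l (fun n => X n (ρ x) a * X n (ρ y) b) →
      ∀ᶠ n in l, K n x a * K n y b = 0 := by
    intro x y a b hxy hn
    have : ∀ᶠ n in l, ∀ a', p n (.inl x, a) * q n (.inr s(x, y), a') = 0 ∨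
        q n (.inr s(x, y), a') * p n (.inl y, b) = 0 := by
      rw [eventually_all]
      intro a'
      have k1 : Null l (fun n => X n (ρ x) a * X n (ρ s(x, y).out.1) a') →
          ∀ᶠ n in l, p n (.inl x, a) * q n (.inr s(x, y), a') = 0 := fun hn =>
        hz _ _ (by simpa only [kr_mul, Sum.elim_inl, Sum.elim_inr, id] using null_kr _ hn)
      have k2 : Null l (fun n => X n (ρ y) b * X n (ρ s(x, y).out.1) a') →
          ∀ᶠ n in l, q n (.inr s(x, y), a') * p n (.inl y, b) = 0 := fun hn => by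
        filter_upwards [hz (.inl y, b) (.inr s(x, y), a')
          (by simpa only [kr_mul, Sum.elim_inl, Sum.elim_inr, id] using null_kr _ hn), hpq] with n h1 h4
        rw [← h4.1.sa, ← h4.2.sa, ← star_mul, h1, star_zero]
      rcases Sym2.mem_iff.mp (Sym2.out_fst_mem s(x, y)) with ho | ho
      · rw [ho] at k1 k2
        by_cases ha : a = a'
        · subst ha
          refine (k2 (hn.star.congr (Eventually.of_forall fun n => ?_))).mono fun _ => Or.inr
          rw [star_mul, (hX _ _).sa, (hX _ _).sa]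
        · refine (k1 (null_zero.congr (Eventually.of_forall fun n => ?_))).mono fun _ => Or.inl
          rw [(hX _ _).orth _ _ ha]
      · rw [ho] at k1 k2
        by_cases hb : b = a'
        · subst hb
          exact (k1 hn).mono fun _ => Or.inl
        · refine (k2 (null_zero.congr (Eventually.of_forall fun n => ?_))).mono fun _ => Or.inr
          rw [(hX _ _).orth _ _ hb]
    filter_upwards [this, hsol, hpq] with n h0 hs hn
    exact hs.fine_zero hxy (hn.1.fine_mul _ _) (hn.1.mul_fine _ _) rfl h0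
  have hF : ∀ᶠ n in l, ∀ x d, x ≠ d → ρ d = ρ x →
      (∀ a, K n x a * zz (P n) (Q n) = K n d a * zz (P n) (Q n)) ∧
      (∀ a, zz (P n) (Q n) * (K n x a * zz (P n) (Q n)) = K n x a * zz (P n) (Q n)) ∧
      IsPVM (zz (P n) (Q n)) fun a => (Fintype.card E : ℂ) • (K n x a * zz (P n) (Q n)) := by
    have : ∀ᶠ n in l, ∀ u v a b, u ≠ v → ρ u = ρ v → a ≠ b → K n u a * K n v b = 0 := by
      simp only [eventually_all]
      intro u v a b huv hr hab
      refine hK u v a b huv (null_zero.congr (Eventually.of_forall fun n => ?_))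
      rw [hr, (hX _ _).orth _ _ hab]
    filter_upwards [this, hsol, hpq] with n h0 hs hn x d hxd hd
    obtain ⟨d', h4, h5, h6⟩ : ∃ d', x ≠ d' ∧ d ≠ d' ∧ ρ d' = ρ x := by
      obtain ⟨d1, d2, k1, k2, k3, k4, k5⟩ := hm x
      by_cases h : d = d1
      · exact ⟨d2, k2, h ▸ k3, k5⟩
      · exact ⟨d1, k1, h, k4⟩
    refine hs.fine_pvm h3 hA (K n) (fun x a => ?_) (fun x => ?_) (fun x a => ?_) hxd h4 h5
      {u | ρ u = ρ x} rfl hd h6 fun u hu v hv huv a b hab => h0 u v a b huv (hu.trans hv.symm) hab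
    · simp only [K, star_mul, hs.hQ.sa, hn.1.sa, mul_assoc]
    · simp only [K, modB, P, Finset.mul_sum, Finset.sum_mul]
    · simp only [K, ← mul_assoc, hs.hQ.idem]
  have a0 : star (rk (w0 : Row E → ℂ)) = rk w0 := rk_sa conj_w0
  have hcard : (0 : ℝ) < Fintype.card (Row E) := by exact_mod_cast Fintype.card_pos
  have ap : ∀ r, Ap l π (fun n => p n r) _ := fun r => Ap.of_proj (hp r)
    (hpq.mono fun n hn => ⟨hn.1.sa r, hn.1.idem r⟩) fun n =>
      ⟨(PM_pvm.kr fun r => hX n _).sa r, (PM_pvm.kr fun r => hX n _).idem r⟩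
  have aq : ∀ r, Ap l π (fun n => q n r) _ := fun r => Ap.of_proj (hq r)
    (hpq.mono fun n hn => ⟨hn.2.sa r, hn.2.idem r⟩) fun n =>
      ⟨((QM_pvm h2).kr fun r => hX n _).sa r, ((QM_pvm h2).kr fun r => hX n _).idem r⟩
  have aQ : Ap l π (fun n => Q n (.inl true)) fun n => kr (rk w0) 1 :=
    (Ap.sum Finset.univ fun a _ => aq (.inl true, a)).congr fun n => by
      simp only [← kr_sum_right, (hX _ _).sum, QM]
  have aK : ∀ x a, Ap l π (fun n => K n x a)
      fun n => (Fintype.card E : ℂ)⁻¹ • kr (rk w0) (X n (ρ x) a) := fun x a =>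
    ((aQ.mul (ap (.inl x, a))).mul aQ).congr fun n => by
      simp only [kr_mul, base_PM, kr_smul_left, one_mul, mul_one, Sum.elim_inl, id]
  have aB : ∀ x, Ap l π (fun n => modB (P n) (Q n) x)
      fun n => (Fintype.card E : ℂ)⁻¹ • kr (rk w0) 1 := fun x => by
    have := (Ap.sum Finset.univ fun a _ => aK x a).congr
      (y := fun n => (Fintype.card E : ℂ)⁻¹ • kr (rk w0) 1) fun n => by
        simp only [← Finset.smul_sum, ← kr_sum_right, (hX _ _).sum]
    simpa only [K, modB, P, Finset.mul_sum, Finset.sum_mul] using this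
  have ablk : ∀ t, Ap l π (fun n => blk (P n) (Q n) t) fun n => kr (rk w0) 1 := fun t =>
    ((((aB t.1).mul (aB t.2.1)).mul (aB t.2.2)).smul _).congr fun n => by
      simp only [smul_mul_smul_comm, kr_mul, base_idem, mul_one, smul_smul]
      rw [show (Fintype.card E : ℂ) ^ 3 * ((Fintype.card E : ℂ)⁻¹ * (Fintype.card E : ℂ)⁻¹ *
        (Fintype.card E : ℂ)⁻¹) = 1 by have := card_ne (E := E); field_simp, one_smul]
  have az : Ap l π (fun n => zz (P n) (Q n)) fun n => kr (rk w0) 1 := by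
    unfold zz
    induction (Finset.univ : Finset (E × E × E)).toList with
    | nil => simpa using aQ
    | cons t L ih =>
      simp only [List.map_cons, List.prod_cons, mul_assoc]
      exact ((ablk t).mul ih).congr fun n => by rw [kr_mul, base_idem, mul_one]
  refine hN A hA (c / Fintype.card (Row E)) (by positivity)
    (fun n => (π n).comp (krHom (B n) (rk w0) a0 base_idem)) (fun n x => ?_)
    (fun n => zz (P n) (Q n))
    (fun n i a => (Fintype.card E : ℂ) • (K n (h i) a * zz (P n) (Q n))) ?_ (fun i a => ?_)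
    (fun i a j b hn => ?_)
  · change A.τ (π n (kr _ x)) = _
    rw [hπ, τ_kr, trace_base]
    push_cast
    ring
  · filter_upwards [hF] with n hn i
    obtain ⟨d, -, h1, -, -, h4, -⟩ := hm (h i)
    exact (hn _ d h1 h4).2.2
  · exact ((((aK (h i) a).mul az).smul (Fintype.card E : ℂ)).congr
      (y := fun n => kr (rk w0) (X n i a)) fun n => by
        rw [smul_mul_assoc, smul_smul, mul_inv_cancel₀ card_ne, one_smul, kr_mul, base_idem,
          mul_one, hh]).null
  · obtain ⟨y, hy1, hy2, hy3⟩ : ∃ y, h i ≠ y ∧ h j ≠ y ∧ ρ y = j := by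
      obtain ⟨d1, d2, k1, k2, k3, k4, k5⟩ := hm (h j)
      by_cases h : h i = d1
      · exact ⟨d2, h ▸ k3, k2, k5.trans (hh j)⟩
      · exact ⟨d1, h, k1, k4.trans (hh j)⟩
    filter_upwards [hF, hK (h i) y a b hy1 (by rwa [hh, hy3])] with n hn h0
    have := hn (h j) y hy2 (by rw [hh, hy3])
    rw [smul_mul_smul_comm, mul_assoc, this.2.1, this.1, ← mul_assoc, h0, zero_mul, smul_zero]

/-- There is a pair of projection valued measures in matrix algebras that cannot be corrected. -/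
def Target (l : Filter ℕ) : Prop :=
  ∃ (B : ℕ → TAlg) (R C : Type) (_ : Fintype R) (_ : Fintype C) (P : ∀ n, R → B n)
    (Q : ∀ n, C → B n), (∀ n, Emb (B n)) ∧ (∀ n, IsPVM 1 (P n)) ∧ (∀ n, IsPVM 1 (Q n)) ∧
    NonLift2 l B P Q

theorem host_of {E : Type} [AddCommGroup E] [DecidableEq E] [Fintype E] (h2 : ∀ x : E, x + x = 0)
    {I O : Type} [Fintype O] (ρ : E → I) (hρ : Function.Surjective ρ)
    (hm : ∀ x, ∃ d d', x ≠ d ∧ x ≠ d' ∧ d ≠ d' ∧ ρ d = ρ x ∧ ρ d' = ρ x)
    {l : Filter ℕ} {B : ℕ → TAlg} (hB : ∀ n, Emb (B n)) {X : ∀ n, I → O → B n}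
    (hX : ∀ n i, IsPVM 1 (X n i)) (hN : NonLift l B X) : Target l := by
  refine ⟨fun n => amp (Row E) (B n), Row E × O, Col E × O, inferInstance, inferInstance,
    fun n p => kr (PM p.1) (X n (ρ (p.1.elim id fun _ => 0)) p.2),
    fun n p => kr (QM h2 p.1) (X n (ρ (p.1.elim (fun _ => 0) fun s => s.out.1)) p.2),
    fun n => ?_, fun n => ?_, fun n => ?_, ?_⟩
  · exact emb_amp (hB n) _
  · exact PM_pvm.kr (X := fun r => X n (ρ (r.elim id fun _ => 0))) fun _ => hX n _
  · exact (QM_pvm h2).kr (X := fun r => X n (ρ (r.elim (fun _ => 0) fun s => s.out.1)))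
      fun _ => hX n _
  · exact host_aux h2 ρ hρ hm hX hN

theorem host {I O : Type} [Fintype I] [Nonempty I] [Fintype O] {l : Filter ℕ} {B : ℕ → TAlg}
    (hB : ∀ n, Emb (B n)) {X : ∀ n, I → O → B n} (hX : ∀ n i, IsPVM 1 (X n i))
    (hN : NonLift l B X) : Target l := by
  classical
  have h2 : ∀ x : (I → ZMod 2) × ZMod 2 × ZMod 2, x + x = 0 := fun x => by
    rw [← two_smul (ZMod 2) x, show (2 : ZMod 2) = 0 from rfl, zero_smul]
  let s : I → I → ZMod 2 := fun i => Pi.single i 1
  have hs : Function.Injective s := fun i j h => by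
    by_contra hij
    have := congrFun h i
    simp [s, hij] at this
  refine host_of h2 (fun x => Function.invFun s x.1) (fun i => ⟨(s i, 0), ?_⟩) (fun x => ?_)
    hB hX hN
  · exact Function.leftInverse_invFun hs i
  · refine ⟨x + (0, 1, 0), x + (0, 0, 1), ?_, ?_, ?_, ?_, ?_⟩ <;> simp [Prod.ext_iff]

end Pool.Agent.Lib.MP_64d6f1_an
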