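import Pool.Agent.Lib.MP_64d6f1_an.Obs
import Pool.Agent.Lib.MP_64d6f1_an.Group
import Pool.Agent.Lib.MP_64d6f1_an.Host

/-! Encoding unitaries and their relations by commuting symmetries. -/

open scoped ComplexConjugate
open Filter Topology

namespace Pool.Agent.Lib.MP_64d6f1_an

open TAlg

section exact

variable {A : Type*} [Ring A] [StarRing A] [Algebra ℂ A] [StarModule ℂ A] {G : Type*}

/-- A symmetry of the corner cut by `e`. -/
def Sy (e a : A) : Prop := star a = a ∧ a * a = e ∧ e * a = a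

omit [Algebra ℂ A] [StarModule ℂ A] in
lemma Sy.mul_e {e a : A} (h : Sy e a) : a * e = a := by
  rw [← h.2.1, ← mul_assoc, h.2.1, h.2.2]

omit [Algebra ℂ A] [StarModule ℂ A] in
lemma Sy.e_idem {e a : A} (h : Sy e a) : e * e = e := by
  conv_lhs => rhs; rw [← h.2.1]
  rw [← mul_assoc, h.2.2, h.2.1]

omit [Algebra ℂ A] [StarModule ℂ A] in
lemma Sy.e_sa {e a : A} (h : Sy e a) : star e = e := by
  rw [← h.2.1, star_mul, h.1]

/-- The relations of two qubits with off-diagonal symmetries. -/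
structure MS (e z1 z2 : A) (t t' : G → A) (one : G) : Prop where
  y1 : Sy e z1
  y2 : Sy e z2
  yt : ∀ g, Sy e (t g)
  yt' : ∀ g, Sy e (t' g)
  c1 : ∀ g, t g * z2 = z2 * t g
  c2 : ∀ g, t' g * z1 = z1 * t' g
  c3 : z1 * z2 = z2 * z1
  c4 : ∀ g, t g * t' one = t' one * t g
  c5 : ∀ g, t' g * t one = t one * t' g
  c6 : ∀ g, t g * z2 * (t' one * z1) = t' one * z1 * (t g * z2)
  c7 : ∀ g, t' g * z1 * (t one * z2) = t one * z2 * (t' g * z1)
  m : t one * t' one * (z1 * z2) = -(t one * z2 * (t' one * z1))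

/-- The corner projection. -/
noncomputable def cf (e z1 z2 : A) : A := (4 : ℂ)⁻¹ • ((e + z1) * (e + z2))

namespace MS

variable {e z1 z2 : A} {t t' : G → A} {one : G} (h : MS e z1 z2 t t' one)
include h

omit [Algebra ℂ A] [StarModule ℂ A] in
lemma a0 : t' one * z2 = -(z2 * t' one) := by
  have := congrArg (fun x => t one * x * z1) h.m
  simp only [h.c3, mul_neg, neg_mul, mul_assoc, h.y1.2.1] at this
  simp only [← mul_assoc, (h.yt one).2.1, (h.yt' one).2.2, h.y2.2.2] at this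
  rwa [mul_assoc, h.y2.mul_e, mul_assoc, (h.yt' one).mul_e] at this

omit [Algebra ℂ A] [StarModule ℂ A] in
lemma a1 (g : G) : t g * z1 = -(z1 * t g) := by
  have e1 : t g * z2 * (t' one * z1) = -(t' one * z2 * (t g * z1)) := by
    rw [h.a0, h.c1, mul_assoc, ← mul_assoc (t g), h.c4]
    simp only [neg_mul, neg_neg, mul_assoc]
  have e2 : t' one * z1 * (t g * z2) = t' one * z2 * (z1 * t g) := by
    rw [h.c1, mul_assoc, ← mul_assoc z1, h.c3]
    simp only [mul_assoc]
  have := congrArg (fun x => z2 * (t' one * x)) (e1.symm.trans ((h.c6 g).trans e2))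
  simp only [mul_neg, ← mul_assoc] at this
  rw [mul_assoc z2 (t' one), (h.yt' one).2.1, h.y2.mul_e, h.y2.2.1, (h.yt g).2.2, h.y1.2.2] at this
  rw [← this, neg_neg]

omit [Algebra ℂ A] [StarModule ℂ A] in
lemma a2 (g : G) : t' g * z2 = -(z2 * t' g) := by
  have e1 : t' g * z1 * (t one * z2) = -(t one * z1 * (t' g * z2)) := by
    rw [h.a1, h.c2, mul_assoc, ← mul_assoc (t' g), h.c5]
    simp only [neg_mul, neg_neg, mul_assoc]
  have e2 : t one * z2 * (t' g * z1) = t one * z1 * (z2 * t' g) := by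
    rw [h.c2, mul_assoc, ← mul_assoc z2, ← h.c3]
    simp only [mul_assoc]
  have := congrArg (fun x => z1 * (t one * x)) (e1.symm.trans ((h.c7 g).trans e2))
  simp only [mul_neg, ← mul_assoc] at this
  rw [mul_assoc z1 (t one), (h.yt one).2.1, h.y1.mul_e, h.y1.2.1, (h.yt' g).2.2, h.y2.2.2] at this
  rw [← this, neg_neg]

omit [Algebra ℂ A] [StarModule ℂ A] in
lemma EE : (e + z1) * (e + z2) = (e + z2) * (e + z1) := by
  simp only [add_mul, mul_add, h.y1.mul_e, h.y2.mul_e, h.y1.2.2, h.y2.2.2, h.c3]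
  abel

lemma cf_sa : star (cf e z1 z2) = cf e z1 z2 := by
  simp only [cf, star_smul, star_mul, star_add, h.y1.1, h.y2.1, h.y1.e_sa, h.EE, star_inv₀,
    star_ofNat]

omit [StarModule ℂ A] in
lemma cf_e : cf e z1 z2 * e = cf e z1 z2 := by
  rw [cf, smul_mul_assoc, mul_assoc, add_mul e z2, h.y2.mul_e, h.y1.e_idem]

omit [StarModule ℂ A] in
lemma cf_idem : cf e z1 z2 * cf e z1 z2 = cf e z1 z2 := by
  have k : ∀ {z : A}, Sy e z → (e + z) * (e + z) = (2 : ℂ) • (e + z) := fun hz => by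
    simp only [add_mul, mul_add, hz.mul_e, hz.2.2, hz.2.1, hz.e_idem]
    module
  simp only [cf, smul_mul_smul_comm]
  rw [mul_assoc, ← mul_assoc (e + z2), ← h.EE, mul_assoc, k h.y2, ← mul_assoc, k h.y1,
    smul_mul_smul_comm, smul_smul]
  norm_num

omit [StarModule ℂ A] [StarRing A] h in
lemma cf_comm {u : A} (h0 : e * u = u) (h0' : u * e = u) (h1 : u * z1 = z1 * u)
    (h2 : u * z2 = z2 * u) : cf e z1 z2 * u = u * cf e z1 z2 := by
  have k : ∀ {z : A}, u * z = z * u → (e + z) * u = u * (e + z) := fun hz => by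
    rw [add_mul, mul_add, h0, h0', hz]
  rw [cf, smul_mul_assoc, mul_smul_comm, mul_assoc, k h2, ← mul_assoc, k h1, mul_assoc]

omit [StarModule ℂ A] in
lemma cf_u (g : G) : cf e z1 z2 * (t g * t one) = t g * t one * cf e z1 z2 :=
  cf_comm (by rw [← mul_assoc, (h.yt g).2.2]) (by rw [mul_assoc, (h.yt one).mul_e])
    (by rw [mul_assoc, h.a1, mul_neg, ← mul_assoc, h.a1, neg_mul, neg_neg, mul_assoc])
    (by rw [mul_assoc, h.c1, ← mul_assoc, h.c1, mul_assoc])

omit [StarModule ℂ A] in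
lemma cf_v (g : G) : cf e z1 z2 * (t' g * t' one) = t' g * t' one * cf e z1 z2 :=
  cf_comm (by rw [← mul_assoc, (h.yt' g).2.2]) (by rw [mul_assoc, (h.yt' one).mul_e])
    (by rw [mul_assoc, h.c2, ← mul_assoc, h.c2, mul_assoc])
    (by rw [mul_assoc, h.a2, mul_neg, ← mul_assoc, h.a2, neg_mul, neg_neg, mul_assoc])

lemma corner (g : G) :
    star (cf e z1 z2 * (t g * t one)) * (cf e z1 z2 * (t g * t one)) = cf e z1 z2 ∧
    cf e z1 z2 * (t g * t one) * star (cf e z1 z2 * (t g * t one)) = cf e z1 z2 ∧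
    cf e z1 z2 * (cf e z1 z2 * (t g * t one)) = cf e z1 z2 * (t g * t one) ∧
    cf e z1 z2 * (t g * t one) * cf e z1 z2 = cf e z1 z2 * (t g * t one) := by
  have k1 : t g * t one * star (t g * t one) = e := by
    rw [star_mul, (h.yt g).1, (h.yt one).1, mul_assoc, ← mul_assoc (t one), (h.yt one).2.1,
      (h.yt g).2.2, (h.yt g).2.1]
  have k2 : star (t g * t one) * (t g * t one) = e := by
    rw [star_mul, (h.yt g).1, (h.yt one).1, mul_assoc, ← mul_assoc (t g), (h.yt g).2.1,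
      (h.yt one).2.2, (h.yt one).2.1]
  refine ⟨?_, ?_, ?_, ?_⟩
  · rw [h.cf_u, star_mul, h.cf_sa, mul_assoc, ← mul_assoc (star _), k2, ← mul_assoc, h.cf_e,
      h.cf_idem]
  · rw [star_mul, h.cf_sa, mul_assoc, ← mul_assoc (t g * t one), k1, ← mul_assoc, h.cf_e,
      h.cf_idem]
  · rw [← mul_assoc, h.cf_idem]
  · rw [mul_assoc, ← h.cf_u, ← mul_assoc, h.cf_idem]

omit [StarModule ℂ A] in
lemma key {a b c d : G} {s s' : A} (hs : Sy e s) (hs' : Sy e s') (h0 : s * s' = s' * s)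
    (h1 : s * z2 = z2 * s) (h2 : s' * z1 = z1 * s') (h3 : s + s * z2 = t a + t a * z2)
    (h4 : s - s * z2 = t d - t d * z2) (h5 : s' + s' * z1 = t' c + t' c * z1)
    (h6 : s' - s' * z1 = t' b - t' b * z1) :
    cf e z1 z2 * (t a * t' b) = cf e z1 z2 * (t' c * t d) := by
  have p : ∀ {u z : A}, Sy e u → u * z = z * u → (e + z) * u = u + u * z ∧
      (e - z) * u = u - u * z := fun hu hz => by
    rw [add_mul, sub_mul, hu.2.2, hz]; exact ⟨rfl, rfl⟩
  have q : ∀ {u z : A}, Sy e u → u * z = -(z * u) → (e + z) * u = u * (e - z) := fun hu hz => by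
    rw [add_mul, mul_sub, hu.2.2, hu.mul_e, hz, sub_neg_eq_add]
  have e1 : (e + z1) * (e + z2) * (s * s') = (e + z1) * (e + z2) * (t a * t' b) := by
    have l : ∀ {x y : A}, (e + z2) * x = (e + z2) * t a → (e - z1) * y = (e - z1) * t' b →
        (e + z1) * (e + z2) * (x * y) = (e + z2) * t a * ((e - z1) * t' b) := by
      intro x y hx hy
      rw [mul_assoc, ← mul_assoc (e + z2), hx, ← mul_assoc, ← mul_assoc, h.EE, mul_assoc (e + z2),
        q (h.yt a) (h.a1 a), ← hy]
      simp only [mul_assoc]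
    rw [l (by rw [(p hs h1).1, h3, (p (h.yt a) (h.c1 a)).1])
      (by rw [(p hs' h2).2, h6, (p (h.yt' b) (h.c2 b)).2]), l rfl rfl]
  have e2 : (e + z1) * (e + z2) * (s' * s) = (e + z1) * (e + z2) * (t' c * t d) := by
    have l : ∀ {x y : A}, (e + z1) * x = (e + z1) * t' c → (e - z2) * y = (e - z2) * t d →
        (e + z1) * (e + z2) * (x * y) = (e + z1) * t' c * ((e - z2) * t d) := by
      intro x y hx hy
      rw [h.EE, mul_assoc, ← mul_assoc (e + z1), hx, ← mul_assoc, ← mul_assoc, ← h.EE,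
        mul_assoc (e + z1), q (h.yt' c) (h.a2 c), ← hy]
      simp only [mul_assoc]
    rw [l (by rw [(p hs' h2).1, h5, (p (h.yt' c) (h.c2 c)).1])
      (by rw [(p hs h1).2, h4, (p (h.yt d) (h.c1 d)).2]), l rfl rfl]
  rw [cf, smul_mul_assoc, smul_mul_assoc, ← e1, ← e2, h0]

omit [StarModule ℂ A] in
lemma rel (k : ∀ g, cf e z1 z2 * (t g * t' one) = cf e z1 z2 * (t' g * t one)) {a b c d : G}
    (hk : cf e z1 z2 * (t a * t' b) = cf e z1 z2 * (t' c * t d)) :
    cf e z1 z2 * (t a * t one) * (cf e z1 z2 * (t b * t one)) =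
      cf e z1 z2 * (t c * t one) * (cf e z1 z2 * (t d * t one)) := by
  have uv : ∀ g, cf e z1 z2 * (t g * t one) = cf e z1 z2 * (t' g * t' one) := fun g => by
    have := congrArg (fun x => x * (t' one * t one)) (k g)
    simp only [mul_assoc] at this
    rwa [← mul_assoc (t' one), (h.yt' one).2.1, (h.yt one).2.2, h.c5 one, ← mul_assoc (t one),
      (h.yt one).2.1, (h.yt' one).2.2] at this
  rw [uv b, uv c, mul_assoc, ← mul_assoc (t a * t one), ← h.cf_u, mul_assoc (cf e z1 z2) (t' c * _),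
    ← mul_assoc (t' c * t' one), ← h.cf_v]
  simp only [← mul_assoc, h.cf_idem]
  rw [mul_assoc _ (t one) (t' b), ← h.c5, mul_assoc _ (t' one) (t d), ← h.c4, ← mul_assoc,
    ← mul_assoc, mul_assoc _ (t a), hk, mul_assoc _ (t one), h.c4 one]
  simp only [mul_assoc]

end MS

end exact

section mats

variable {R : Type*} [Ring R] [StarRing R]

/-- Controlled flip of the first qubit. -/
def mS (p q : R) : Matrix (Fin 4) (Fin 4) R :=
  !![0, 0, p, 0; 0, 0, 0, q; star p, 0, 0, 0; 0, star q, 0, 0]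

/-- Controlled flip of the second qubit. -/
def mT (p q : R) : Matrix (Fin 4) (Fin 4) R :=
  !![0, p, 0, 0; star p, 0, 0, 0; 0, 0, 0, q; 0, 0, star q, 0]

/-- Diagonal matrices. -/
def mD (a b c d : R) : Matrix (Fin 4) (Fin 4) R :=
  !![a, 0, 0, 0; 0, b, 0, 0; 0, 0, c, 0; 0, 0, 0, d]

lemma mS_sa (p q : R) : star (mS p q) = mS p q := by
  ext i j; fin_cases i <;> fin_cases j <;> simp [mS]

lemma mT_sa (p q : R) : star (mT p q) = mT p q := by
  ext i j; fin_cases i <;> fin_cases j <;> simp [mT]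

lemma mD1_sa : star (mD (1 : R) 1 (-1) (-1)) = mD 1 1 (-1) (-1) := by
  ext i j; fin_cases i <;> fin_cases j <;> simp [mD]

lemma mD2_sa : star (mD (1 : R) (-1) 1 (-1)) = mD 1 (-1) 1 (-1) := by
  ext i j; fin_cases i <;> fin_cases j <;> simp [mD]

lemma mS_sq {p q : R} (hp : p ∈ unitary R) (hq : q ∈ unitary R) : mS p q * mS p q = 1 := by
  ext i j
  fin_cases i <;> fin_cases j <;>
    simp [mS, Matrix.mul_apply, Fin.sum_univ_four, hp.1, hp.2, hq.1, hq.2]

lemma mT_sq {p q : R} (hp : p ∈ unitary R) (hq : q ∈ unitary R) : mT p q * mT p q = 1 := by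
  ext i j
  fin_cases i <;> fin_cases j <;>
    simp [mT, Matrix.mul_apply, Fin.sum_univ_four, hp.1, hp.2, hq.1, hq.2]

omit [StarRing R] in
lemma mD1_sq : mD (1 : R) 1 (-1) (-1) * mD 1 1 (-1) (-1) = 1 := by
  ext i j; fin_cases i <;> fin_cases j <;> simp [mD, Matrix.mul_apply, Fin.sum_univ_four]

omit [StarRing R] in
lemma mD2_sq : mD (1 : R) (-1) 1 (-1) * mD 1 (-1) 1 (-1) = 1 := by
  ext i j; fin_cases i <;> fin_cases j <;> simp [mD, Matrix.mul_apply, Fin.sum_univ_four]

omit [StarRing R] in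
lemma mD_comm : mD (1 : R) 1 (-1) (-1) * mD 1 (-1) 1 (-1) =
    mD 1 (-1) 1 (-1) * mD 1 1 (-1) (-1) := by
  ext i j; fin_cases i <;> fin_cases j <;> simp [mD, Matrix.mul_apply, Fin.sum_univ_four]

lemma mS_D2 (p q : R) : mS p q * mD 1 (-1) 1 (-1) = mS p (-q) := by
  ext i j; fin_cases i <;> fin_cases j <;> simp [mS, mD, Matrix.mul_apply, Fin.sum_univ_four]

lemma D2_mS (p q : R) : mD 1 (-1) 1 (-1) * mS p q = mS p (-q) := by
  ext i j; fin_cases i <;> fin_cases j <;> simp [mS, mD, Matrix.mul_apply, Fin.sum_univ_four]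

lemma mT_D1 (p q : R) : mT p q * mD 1 1 (-1) (-1) = mT p (-q) := by
  ext i j; fin_cases i <;> fin_cases j <;> simp [mT, mD, Matrix.mul_apply, Fin.sum_univ_four]

lemma D1_mT (p q : R) : mD 1 1 (-1) (-1) * mT p q = mT p (-q) := by
  ext i j; fin_cases i <;> fin_cases j <;> simp [mT, mD, Matrix.mul_apply, Fin.sum_univ_four]

lemma mS_mT {p q r s : R} (hp : p ∈ unitary R) (hq : q ∈ unitary R) (hr : r ∈ unitary R)
    (hs : s ∈ unitary R) (h : p * s = r * q) : mS p q * mT r s = mT r s * mS p q := by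
  have h1 : q * star s = star r * p := by
    calc q * star s = star r * (r * q) * star s := by rw [← mul_assoc, hr.1, one_mul]
      _ = star r * p := by rw [← h, mul_assoc, mul_assoc, hs.2, mul_one]
  have h2 : star p * r = s * star q := by
    calc star p * r = star p * (r * q) * star q := by rw [mul_assoc, mul_assoc, hq.2, mul_one]
      _ = s * star q := by rw [← h, ← mul_assoc, hp.1, one_mul]
  have h3 : star q * star r = star s * star p := by rw [← star_mul, ← h, star_mul]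
  ext i j
  fin_cases i <;> fin_cases j <;>
    simp [mS, mT, Matrix.mul_apply, Fin.sum_univ_four, h, h1, h2, h3]

lemma mS_add (p q r s : R) : mS p q + mS r s = mS (p + r) (q + s) := by
  ext i j; fin_cases i <;> fin_cases j <;> simp [mS]

lemma mS_sub (p q r s : R) : mS p q - mS r s = mS (p - r) (q - s) := by
  ext i j; fin_cases i <;> fin_cases j <;> simp [mS]

lemma mT_add (p q r s : R) : mT p q + mT r s = mT (p + r) (q + s) := by
  ext i j; fin_cases i <;> fin_cases j <;> simp [mT]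

lemma mT_sub (p q r s : R) : mT p q - mT r s = mT (p - r) (q - s) := by
  ext i j; fin_cases i <;> fin_cases j <;> simp [mT]

lemma magic_comm : mS (1 : R) 1 * mT 1 1 * (mD 1 1 (-1) (-1) * mD 1 (-1) 1 (-1)) =
    mD 1 1 (-1) (-1) * mD 1 (-1) 1 (-1) * (mS (1 : R) 1 * mT 1 1) := by
  ext i j; fin_cases i <;> fin_cases j <;> simp [mS, mT, mD, Matrix.mul_apply, Fin.sum_univ_four]

lemma magic_neg : mS (1 : R) 1 * mT 1 1 * (mD 1 1 (-1) (-1) * mD 1 (-1) 1 (-1)) =
    - (mS (1 : R) (-1) * mT 1 (-1)) := by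
  ext i j; fin_cases i <;> fin_cases j <;> simp [mS, mT, mD, Matrix.mul_apply, Fin.sum_univ_four]

lemma magic_corner (w : R) : (1 + mD 1 1 (-1) (-1)) * (1 + mD 1 (-1) 1 (-1)) * (mS w w * mS 1 1) =
    mD (w + w + w + w) 0 0 0 := by
  have h : (1 : Matrix (Fin 4) (Fin 4) R) = mD 1 1 1 1 := by
    ext i j; fin_cases i <;> fin_cases j <;> simp [mD]
  rw [h]
  ext i j
  fin_cases i <;> fin_cases j <;> simp [mS, mD, add_mul, add_assoc]

end mats

section amps

variable {B : TAlg}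

/-- Controlled flip of the first qubit. -/
def aS (p q : B) : amp (Fin 4) B := mS p q

/-- Controlled flip of the second qubit. -/
def aT (p q : B) : amp (Fin 4) B := mT p q

/-- First Pauli sign. -/
def aZ1 (B : TAlg) : amp (Fin 4) B := mD (1 : B) 1 (-1) (-1)

/-- Second Pauli sign. -/
def aZ2 (B : TAlg) : amp (Fin 4) B := mD (1 : B) (-1) 1 (-1)

lemma aS_sa (p q : B) : star (aS p q) = aS p q := mS_sa p q
lemma aT_sa (p q : B) : star (aT p q) = aT p q := mT_sa p q
lemma aZ1_sa : star (aZ1 B) = aZ1 B := mD1_sa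
lemma aZ2_sa : star (aZ2 B) = aZ2 B := mD2_sa
lemma aS_sq {p q : B} (hp : p ∈ unitary B) (hq : q ∈ unitary B) : aS p q * aS p q = 1 :=
  mS_sq hp hq
lemma aT_sq {p q : B} (hp : p ∈ unitary B) (hq : q ∈ unitary B) : aT p q * aT p q = 1 :=
  mT_sq hp hq
lemma aZ1_sq : aZ1 B * aZ1 B = 1 := mD1_sq
lemma aZ2_sq : aZ2 B * aZ2 B = 1 := mD2_sq
lemma aZ_comm : aZ1 B * aZ2 B = aZ2 B * aZ1 B := mD_comm
lemma aS_Z2 (p q : B) : aS p q * aZ2 B = aS p (-q) := mS_D2 p q
lemma Z2_aS (p q : B) : aZ2 B * aS p q = aS p (-q) := D2_mS p q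
lemma aT_Z1 (p q : B) : aT p q * aZ1 B = aT p (-q) := mT_D1 p q
lemma Z1_aT (p q : B) : aZ1 B * aT p q = aT p (-q) := D1_mT p q
lemma aS_aT {p q r s : B} (hp : p ∈ unitary B) (hq : q ∈ unitary B) (hr : r ∈ unitary B)
    (hs : s ∈ unitary B) (h : p * s = r * q) : aS p q * aT r s = aT r s * aS p q :=
  mS_mT hp hq hr hs h
lemma aS_add (p q r s : B) : aS p q + aS r s = aS (p + r) (q + s) := mS_add p q r s
lemma aS_sub (p q r s : B) : aS p q - aS r s = aS (p - r) (q - s) := mS_sub p q r s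
lemma aT_add (p q r s : B) : aT p q + aT r s = aT (p + r) (q + s) := mT_add p q r s
lemma aT_sub (p q r s : B) : aT p q - aT r s = aT (p - r) (q - s) := mT_sub p q r s
lemma amagic_comm : aS (1 : B) 1 * aT 1 1 * (aZ1 B * aZ2 B) =
    aZ1 B * aZ2 B * (aS (1 : B) 1 * aT 1 1) := magic_comm
lemma amagic_neg : aS (1 : B) 1 * aT 1 1 * (aZ1 B * aZ2 B) = - (aS (1 : B) (-1) * aT 1 (-1)) :=
  magic_neg

lemma amagic_corner (w : B) : cf 1 (aZ1 B) (aZ2 B) * (aS w w * aS 1 1) =
    kr (Matrix.single 0 0 1) w := by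
  have h1 : (1 + aZ1 B) * (1 + aZ2 B) * (aS w w * aS 1 1) =
      kr (Matrix.single 0 0 1) (w + w + w + w) := by
    refine (magic_corner w).trans ?_
    apply Matrix.ext
    intro i j
    change _ = (Matrix.single 0 0 1 : Matrix (Fin 4) (Fin 4) ℂ) i j • (w + w + w + w)
    fin_cases i <;> fin_cases j <;> simp [mD]
  rw [cf, smul_mul_assoc, h1, ← kr_smul_right]
  congr 1
  module

lemma aS_zero (x : B) :
    aS x 0 = kr (Matrix.single 0 2 1) x + kr (Matrix.single 2 0 1) (star x) := by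
  apply Matrix.ext
  intro i j
  change mS x 0 i j = (Matrix.single 0 2 1 : Matrix (Fin 4) (Fin 4) ℂ) i j • x +
    (Matrix.single 2 0 1 : Matrix (Fin 4) (Fin 4) ℂ) i j • star x
  fin_cases i <;> fin_cases j <;> simp [mS]

end amps

lemma neg_unitary {R : Type*} [Ring R] [StarRing R] {u : R} (h : u ∈ unitary R) :
    -u ∈ unitary R := ⟨by simpa using h.1, by simpa using h.2⟩

/-- The symmetries encoding a family of unitaries. -/
noncomputable def mo {G : Type} {B : TAlg} (w : G → B) (p : (G × G × G × G) × Fin 10) :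
    amp (Fin 4) B :=
  ![aS (w p.1.1) (w p.1.1), aT (w p.1.1) (w p.1.1), aS (w p.1.1) (-w p.1.1),
    aT (w p.1.1) (-w p.1.1), aZ1 B, aZ2 B, aS 1 1 * aT 1 1, aZ1 B * aZ2 B,
    aS (w p.1.2.2.1 * w p.1.2.2.2 * star (w p.1.2.1)) (w p.1.2.2.2),
    aT (w p.1.2.2.1) (w p.1.2.1)] p.2

theorem oNonLift_of_group {l : Filter ℕ} {B : ℕ → TAlg} {G : Type} [Finite G] {one : G}
    {w : ∀ n, G → B n} (hu : ∀ n g, w n g ∈ unitary (B n)) (h1 : ∀ n, w n one = 1)
    (hN : GNonLift l B one w) : ONonLift l (fun n => amp (Fin 4) (B n)) fun n => mo (w n) := by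
  intro A c hc π hπ e o ho hap hcomm hrel
  let q : G → G × G × G × G := fun g => (g, g, g, g)
  let t : ℕ → G → A := fun n g => o n (q g, 0)
  let t' : ℕ → G → A := fun n g => o n (q g, 1)
  let z1 : ℕ → A := fun n => o n (q one, 4)
  let z2 : ℕ → A := fun n => o n (q one, 5)
  have U1 : ∀ n, (1 : B n) ∈ unitary (B n) := fun n => one_mem _
  have prod : ∀ a b c, (∀ n, mo (w n) a * mo (w n) b = mo (w n) b * mo (w n) a) →
      (∀ n, mo (w n) c = mo (w n) a * mo (w n) b) → ∀ᶠ n in l, o n c = o n a * o n b := by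
    intro a b c h h'
    have := hrel c c a b 1 0 0 1 (fun _ => rfl) h (by simpa [h'] using null_zero)
    simpa using this
  have m1 : ∀ n g, mo (w n) (q g, 0) * mo (w n) (q one, 5) =
      mo (w n) (q one, 5) * mo (w n) (q g, 0) := fun n g => (aS_Z2 _ _).trans (Z2_aS _ _).symm
  have m2 : ∀ n g, mo (w n) (q g, 1) * mo (w n) (q one, 4) =
      mo (w n) (q one, 4) * mo (w n) (q g, 1) := fun n g => (aT_Z1 _ _).trans (Z1_aT _ _).symm
  have m4 : ∀ n g, mo (w n) (q g, 0) * mo (w n) (q one, 1) =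
      mo (w n) (q one, 1) * mo (w n) (q g, 0) := fun n g =>
    aS_aT (hu _ _) (hu _ _) (hu _ _) (hu _ _) (by simp [q, h1])
  have m6 : ∀ n g, mo (w n) (q g, 2) * mo (w n) (q one, 3) =
      mo (w n) (q one, 3) * mo (w n) (q g, 2) := fun n g =>
    aS_aT (hu _ _) (neg_unitary (hu _ _)) (hu _ _) (neg_unitary (hu _ _)) (by simp [q, h1])
  have p1 : ∀ᶠ n in l, ∀ g, o n (q g, 2) = t n g * z2 n := eventually_all.mpr fun g =>
    prod _ _ _ (fun n => m1 n g) fun n => (aS_Z2 _ _).symm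
  have p2 : ∀ᶠ n in l, ∀ g, o n (q g, 3) = t' n g * z1 n := eventually_all.mpr fun g =>
    prod _ _ _ (fun n => m2 n g) fun n => (aT_Z1 _ _).symm
  have p3 : ∀ᶠ n in l, o n (q one, 6) = t n one * t' n one :=
    prod _ _ _ (fun n => m4 n one) fun n => by simp [mo, q, h1]
  have p4 : ∀ᶠ n in l, o n (q one, 7) = z1 n * z2 n :=
    prod _ _ _ (fun n => aZ_comm) fun n => rfl
  have hMS : ∀ᶠ n in l, MS (e n) (z1 n) (z2 n) (t n) (t' n) one := by
    have c1 := eventually_all.mpr fun g => hcomm _ _ fun n => m1 n g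
    have c2 := eventually_all.mpr fun g => hcomm _ _ fun n => m2 n g
    have c3 := hcomm (q one, 4) (q one, 5) fun n => aZ_comm
    have c4 := eventually_all.mpr fun g => hcomm _ _ fun n => m4 n g
    have c5 := eventually_all.mpr fun g => hcomm (q g, 1) (q one, 0) fun n =>
      (aS_aT (hu _ _) (hu _ _) (hu _ _) (hu _ _) (by simp [q, h1])).symm
    have c6 := eventually_all.mpr fun g => hcomm _ _ fun n => m6 n g
    have c7 := eventually_all.mpr fun g => hcomm (q g, 3) (q one, 2) fun n =>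
      (aS_aT (hu _ _) (neg_unitary (hu _ _)) (hu _ _) (neg_unitary (hu _ _))
        (by simp [q, h1])).symm
    have c8 := hrel (q one, 6) (q one, 7) (q one, 2) (q one, 3) 0 1 0 (-1) (fun n => amagic_comm)
      (fun n => m6 n one) (null_zero.congr (Eventually.of_forall fun n => by
        simp [mo, q, h1, amagic_neg]))
    filter_upwards [ho, c1, c2, c3, c4, c5, c6, c7, c8, p1, p2, p3, p4] with
      n ho c1 c2 c3 c4 c5 c6 c7 c8 p1 p2 p3 p4
    refine ⟨ho _, ho _, fun g => ho _, fun g => ho _, c1, c2, c3, c4, c5, fun g => ?_,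
      fun g => ?_, ?_⟩
    · rw [← p1, ← p2]; exact c6 g
    · rw [← p1, ← p2]; exact c7 g
    · rw [← p1, ← p2, ← p3, ← p4]; simpa using c8
  have hkey : ∀ a b c d, Null l (fun n => w n a * w n b - w n c * w n d) → ∀ᶠ n in l,
      cf (e n) (z1 n) (z2 n) * (t n a * t' n b) = cf (e n) (z1 n) (z2 n) * (t' n c * t n d) := by
    intro a b c d hn
    have us : ∀ n, w n c * w n d * star (w n b) ∈ unitary (B n) := fun n =>
      mul_mem (mul_mem (hu _ _) (hu _ _)) (Unitary.star_mem (hu _ _))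
    have n1 : ∀ n, mo (w n) ((a, b, c, d), 8) * mo (w n) (q one, 5) =
        mo (w n) (q one, 5) * mo (w n) ((a, b, c, d), 8) := fun n =>
      (aS_Z2 _ _).trans (Z2_aS _ _).symm
    have n2 : ∀ n, mo (w n) ((a, b, c, d), 9) * mo (w n) (q one, 4) =
        mo (w n) (q one, 4) * mo (w n) ((a, b, c, d), 9) := fun n =>
      (aT_Z1 _ _).trans (Z1_aT _ _).symm
    have k0 := hcomm ((a, b, c, d), 8) ((a, b, c, d), 9) fun n =>
      aS_aT (us n) (hu _ _) (hu _ _) (hu _ _) (by rw [mul_assoc, (hu n b).1, mul_one])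
    have hx : Null l fun n => (-2 : ℂ) • ((w n a * w n b - w n c * w n d) * star (w n b)) :=
      (hn.mul_right ⟨1, Eventually.of_forall fun n => bd_of_pi (by
        rw [star_star, (hu n b).1, one_mul])⟩).smul _
    have k3 := hrel _ _ _ _ 1 1 1 1 n1 (fun n => m1 n a) (((null_kr (Matrix.single (0 : Fin 4) 2 1)
      hx).add (null_kr (Matrix.single (2 : Fin 4) 0 1) hx.star)).congr
      (Eventually.of_forall fun n => by
        rw [← aS_zero]
        simp only [mo, q, Matrix.cons_val, one_smul, aS_Z2, aS_add, aS_sub, add_neg_cancel,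
          sub_self, sub_mul, mul_assoc (w n a), (hu n b).2, mul_one]
        congr 1
        module))
    have k4 := hrel _ _ _ _ 1 (-1) 1 (-1) n1 (fun n => m1 n d) (null_zero.congr
      (Eventually.of_forall fun n => by
        simp only [mo, q, Matrix.cons_val, one_smul, aS_Z2, neg_smul, ← sub_eq_add_neg, aS_sub,
          sub_self]))
    have k5 := hrel _ _ _ _ 1 1 1 1 n2 (fun n => m2 n c) (null_zero.congr
      (Eventually.of_forall fun n => by
        simp only [mo, q, Matrix.cons_val, one_smul, aT_Z1, aT_add, add_neg_cancel, sub_self]))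
    have k6 := hrel _ _ _ _ 1 (-1) 1 (-1) n2 (fun n => m2 n b) (null_zero.congr
      (Eventually.of_forall fun n => by
        simp only [mo, q, Matrix.cons_val, one_smul, aT_Z1, neg_smul, ← sub_eq_add_neg]
        rw [aT_sub, aT_sub, sub_self, sub_self, sub_self]))
    filter_upwards [hMS, ho, k0, hcomm _ _ n1, hcomm _ _ n2, k3, k4, k5, k6] with
      n hM ho k0 k1 k2 k3 k4 k5 k6
    exact hM.key (ho _) (ho _) k0 k1 k2 (by simpa using k3) (by simpa [sub_eq_add_neg] using k4)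
      (by simpa using k5) (by simpa [sub_eq_add_neg] using k6)
  have hkk : ∀ᶠ n in l, ∀ g, cf (e n) (z1 n) (z2 n) * (t n g * t' n one) =
      cf (e n) (z1 n) (z2 n) * (t' n g * t n one) := eventually_all.mpr fun g =>
    hkey g one g one (by simpa using null_zero)
  have ae : Ap l π e fun _ => 1 := by
    have := (hap (q one, 4)).mul (hap (q one, 4))
    exact Ap.congr (NB.congr this (ho.mono fun n hn => (hn _).2.1)
      (Eventually.of_forall fun _ => rfl)) fun n => aZ1_sq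
  have E1 : star (Matrix.single 0 0 1 : Matrix (Fin 4) (Fin 4) ℂ) = Matrix.single 0 0 1 := by
    simp [Matrix.star_eq_conjTranspose]
  have E2 : (Matrix.single 0 0 1 : Matrix (Fin 4) (Fin 4) ℂ) * Matrix.single 0 0 1 =
      Matrix.single 0 0 1 := by simp
  refine hN A (c / 4) (by positivity) (fun n => (π n).comp (krHom (B n) _ E1 E2)) (fun n x => ?_)
    (fun n => cf (e n) (z1 n) (z2 n)) (fun n g => cf (e n) (z1 n) (z2 n) * (t n g * t n one))
    ?_ (fun g => ?_) (fun a b c d hn => ?_)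
  · change A.τ (π n (kr _ x)) = _
    rw [hπ, τ_kr]
    simp
    ring
  · filter_upwards [hMS] with n h
    exact ⟨h.cf_sa, h.corner, by rw [(h.yt one).2.1, h.cf_e]⟩
  · exact (((((ae.add (hap (q one, 4))).mul (ae.add (hap (q one, 5)))).smul (4 : ℂ)⁻¹).mul
      ((hap (q g, 0)).mul (hap (q one, 0)))).congr
      (y := fun n => kr (Matrix.single 0 0 1) (w n g)) fun n => by
        rw [← amagic_corner, ← h1]; rfl).null
  · filter_upwards [hMS, hkk, hkey a b c d hn] with n h k1 k2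
    exact h.rel k1 k2

lemma mo_sa {G : Type} {B : TAlg} (w : G → B) (p : (G × G × G × G) × Fin 10) :
    star (mo w p) = mo w p := by
  obtain ⟨p, k⟩ := p
  have U : (1 : B) ∈ unitary B := one_mem _
  fin_cases k
  · exact aS_sa _ _
  · exact aT_sa _ _
  · exact aS_sa _ _
  · exact aT_sa _ _
  · exact aZ1_sa
  · exact aZ2_sa
  · exact (star_mul _ _).trans (by rw [aS_sa, aT_sa, ← aS_aT U U U U rfl]; rfl)
  · exact (star_mul _ _).trans (by rw [aZ1_sa, aZ2_sa, ← aZ_comm]; rfl)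
  · exact aS_sa _ _
  · exact aT_sa _ _

lemma mo_sq {G : Type} {B : TAlg} {w : G → B} (hu : ∀ g, w g ∈ unitary B)
    (p : (G × G × G × G) × Fin 10) : mo w p * mo w p = 1 := by
  obtain ⟨p, k⟩ := p
  have U : (1 : B) ∈ unitary B := one_mem _
  fin_cases k
  · exact aS_sq (hu _) (hu _)
  · exact aT_sq (hu _) (hu _)
  · exact aS_sq (hu _) (neg_unitary (hu _))
  · exact aT_sq (hu _) (neg_unitary (hu _))
  · exact aZ1_sq
  · exact aZ2_sq
  · change aS 1 1 * aT 1 1 * (aS 1 1 * aT 1 1) = 1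
    rw [mul_assoc, ← mul_assoc (aT 1 1), ← aS_aT U U U U rfl, mul_assoc, aT_sq U U, mul_one,
      aS_sq U U]
  · change aZ1 B * aZ2 B * (aZ1 B * aZ2 B) = 1
    rw [mul_assoc, ← mul_assoc (aZ2 B), ← aZ_comm, mul_assoc, aZ2_sq, mul_one, aZ1_sq]
  · exact aS_sq (mul_mem (mul_mem (hu _) (hu _)) (Unitary.star_mem (hu _))) (hu _)
  · exact aT_sq (hu _) (hu _)

theorem target (l : Filter ℕ) [l.NeBot] (hl : l ≤ atTop) : Target l := by
  obtain ⟨X, hX, hN⟩ := nonLift_of_obs (fun n => mo_sa (model n))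
    (fun n => mo_sq (model_unitary n))
    (oNonLift_of_group model_unitary (fun _ => rfl) (model_gNonLift l hl))
  exact host (fun n => emb_amp (emb_mat_cplx _) _) hX hN

end Pool.Agent.Lib.MP_64d6f1_an
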