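import Pool.Agent.Lib.MP_64d6f1_an.Amp

/-! A tracial algebra containing all matrix algebras, and its sum with finitely many atoms. -/

open scoped ComplexConjugate
open Filter Topology

namespace Pool.Agent.Lib.MP_64d6f1_an

open TAlg

/-- Bounded sequences form a star subalgebra. -/
def bddAlg (l : Filter ℕ) (B : ℕ → TAlg) : StarSubalgebra ℂ (∀ n, B n) where
  carrier := {a | Bdd l a}
  mul_mem' ha hb := ha.mul hb
  add_mem' ha hb := ha.add hb
  algebraMap_mem' c := by
    have : Bdd l fun n => c • (1 : B n) :=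
      Bdd.smul ⟨1, Eventually.of_forall fun _ => bd_one⟩ c
    rw [Algebra.algebraMap_eq_smul_one]
    exact this
  star_mem' ha := ha.star

lemma exists_lim (l : Ultrafilter ℕ) {f : ℕ → ℂ} {C : ℝ} (h : ∀ᶠ n in l, ‖f n‖ ≤ C) :
    Tendsto f l (𝓝 (limUnder l f)) := by
  obtain ⟨x, -, hx⟩ := (isCompact_closedBall (0 : ℂ) C).ultrafilter_le_nhds (l.map f)
    (by rw [le_principal_iff]; exact h.mono fun n hn => by simpa using hn)
  exact tendsto_nhds_limUnder ⟨x, hx⟩

lemma bdd_lim (l : Ultrafilter ℕ) {B : ℕ → TAlg} (h1 : ∀ n, nrm (1 : B n) = 1) (a : bddAlg l B) :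
    Tendsto (fun n => (B n).τ (a.1 n)) l (𝓝 (limUnder l fun n => (B n).τ (a.1 n))) := by
  obtain ⟨C, hC⟩ := a.2
  refine exists_lim l (C := C) (hC.mono fun n hn => (norm_τ_le' _).trans ?_)
  simpa [h1] using (hn.2 1).1

/-- The algebra of bounded sequences with the limit trace. -/
noncomputable def ultra (l : Ultrafilter ℕ) (B : ℕ → TAlg) (h1 : ∀ n, nrm (1 : B n) = 1) :
    TAlg where
  carrier := bddAlg l B
  τ :=
    { toFun := fun a => limUnder l fun n => (B n).τ (a.1 n)
      map_add' := fun a b => tendsto_nhds_unique (bdd_lim l h1 (a + b))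
        (by simpa using (bdd_lim l h1 a).add (bdd_lim l h1 b))
      map_smul' := fun c a => tendsto_nhds_unique (bdd_lim l h1 (c • a))
        (by simpa using (bdd_lim l h1 a).const_mul c) }
  comm a b := by
    change (limUnder l fun n => (B n).τ (a.1 n * b.1 n)) = limUnder l fun n => (B n).τ (b.1 n * a.1 n)
    simp only [(B _).comm (a.1 _)]
  herm a := tendsto_nhds_unique (bdd_lim l h1 (star a)) (by
    have := (Complex.continuous_conj.tendsto _).comp (bdd_lim l h1 a)
    simpa [Function.comp_def, (B _).herm] using this)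
  pos a := ge_of_tendsto' ((Complex.continuous_re.tendsto _).comp (bdd_lim l h1 (star a * a)))
    fun n => (B n).pos _

lemma ultra_τ (l : Ultrafilter ℕ) {B : ℕ → TAlg} (h1 : ∀ n, nrm (1 : B n) = 1)
    (a : ultra l B h1) : Tendsto (fun n => (B n).τ (a.1 n)) l (𝓝 ((ultra l B h1).τ a)) :=
  bdd_lim l h1 a

lemma ultra_nrm (l : Ultrafilter ℕ) {B : ℕ → TAlg} (h1 : ∀ n, nrm (1 : B n) = 1)
    (a : ultra l B h1) : Tendsto (fun n => nrm (a.1 n)) l (𝓝 (nrm a)) := by
  have h := (Complex.continuous_re.tendsto _).comp (ultra_τ l h1 (star a * a))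
  rw [← nrm_sq] at h
  have h2 : Tendsto (fun n => nrm (a.1 n) ^ 2) l (𝓝 (nrm a ^ 2)) :=
    h.congr fun n => (nrm_sq (a.1 n)).symm
  simpa [Real.sqrt_sq (nrm_nonneg _)] using h2.sqrt

lemma ultra_bd (l : Ultrafilter ℕ) {B : ℕ → TAlg} (h1 : ∀ n, nrm (1 : B n) = 1)
    (a : ultra l B h1) : ∃ C, Bd a C := by
  obtain ⟨C, hC⟩ := a.2
  refine ⟨C, hC.exists.choose_spec.1, fun x => ⟨?_, ?_⟩⟩
  · exact le_of_tendsto_of_tendsto (ultra_nrm l h1 (a * x)) ((ultra_nrm l h1 x).const_mul C)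
      (hC.mono fun n hn => (hn.2 _).1)
  · exact le_of_tendsto_of_tendsto (ultra_nrm l h1 (x * a)) ((ultra_nrm l h1 x).const_mul C)
      (hC.mono fun n hn => (hn.2 _).2)

lemma exists_amp {ι κ : Type} [Fintype ι] [DecidableEq ι] [Nonempty ι] [Fintype κ] [DecidableEq κ]
    [Nonempty κ] (h : Fintype.card ι ∣ Fintype.card κ) :
    ∃ φ : mat ι cplx →⋆ₙₐ[ℂ] mat κ cplx, ∀ x, (mat κ cplx).τ (φ x) = (mat ι cplx).τ x := by
  obtain ⟨d, hd⟩ := h
  let e : κ ≃ ι × Fin d := Fintype.equivOfCardEq (by simp [hd])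
  refine ⟨{ toFun := fun x => Matrix.of fun i j => if (e i).2 = (e j).2 then x (e i).1 (e j).1 else 0
            map_smul' := fun c x => ?_
            map_zero' := ?_
            map_add' := fun x y => ?_
            map_mul' := fun x y => ?_
            map_star' := fun x => ?_ }, fun x => ?_⟩
  · ext i j; simp
  · ext i j; exact ite_self _
  · ext i j
    simp only [Matrix.of_apply, Matrix.add_apply]
    split_ifs <;> simp
  · ext i j
    simp only [Matrix.of_apply, Matrix.mul_apply]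
    rw [← e.symm.sum_comp, Fintype.sum_prod_type]
    by_cases h : (e i).2 = (e j).2 <;> simp [h]
  · ext i j
    simp only [Matrix.of_apply, Matrix.star_apply, eq_comm (a := (e j).2)]
    split_ifs <;> simp
  · rw [mat_τ, mat_τ]
    change _ * ∑ i, (if (e i).2 = (e i).2 then x (e i).1 (e i).1 else 0) = _ * ∑ i, x i i
    simp only [if_true]
    rw [← e.symm.sum_comp, Fintype.sum_prod_type, hd]
    have h1 : (d : ℂ) ≠ 0 := by
      rintro h0
      have : Fintype.card κ ≠ 0 := Fintype.card_ne_zero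
      simp_all
    simp only [Equiv.apply_symm_apply, Finset.sum_const, Finset.card_univ, Fintype.card_fin,
      nsmul_eq_mul, ← Finset.mul_sum, Nat.cast_mul, mul_inv]
    field_simp

theorem exists_universal : ∃ U : TAlg, (∀ a : U, ∃ C, Bd a C) ∧ U.τ 1 = 1 ∧
    ∀ B, Emb B → ∃ φ : B →⋆ₙₐ[ℂ] U, ∀ x, U.τ (φ x) = B.τ x := by
  have : ∀ k : ℕ, Nonempty (Fin k.factorial) := fun k => ⟨⟨0, k.factorial_pos⟩⟩
  let M : ℕ → TAlg := fun k => mat (Fin k.factorial) cplx
  have h1 : ∀ k, nrm (1 : M k) = 1 := fun k => (emb_mat_cplx _).nrm_one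
  refine ⟨ultra (hyperfilter ℕ) M h1, ultra_bd _ h1, ?_, ?_⟩
  · refine tendsto_nhds_unique (ultra_τ _ h1 1) (tendsto_const_nhds.congr fun k => ?_)
    exact (emb_mat_cplx _).τ_one.symm
  rintro B ⟨ι, _, _, _, φ, hφ⟩
  have : ∀ k, ∃ ψ : mat ι cplx →⋆ₙₐ[ℂ] M k,
      Fintype.card ι ≤ k → ∀ x, (M k).τ (ψ x) = (mat ι cplx).τ x := by
    intro k
    by_cases hk : Fintype.card ι ≤ k
    · obtain ⟨ψ, hψ⟩ := exists_amp (ι := ι) (κ := Fin k.factorial)
        (by simpa using Nat.dvd_factorial Fintype.card_pos hk)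
      exact ⟨ψ, fun _ => hψ⟩
    · exact ⟨0, fun h => absurd h hk⟩
  choose ψ hψ using this
  have hb : ∀ x : mat ι cplx, Bdd (hyperfilter ℕ) fun k => ψ k x := by
    intro x
    have e : x = ∑ i, ∑ j, x i j • Matrix.single i j (1 : ℂ) := by
      conv_lhs => rw [Matrix.matrix_eq_sum_single x]
      simp
    rw [e]
    simp only [map_sum, map_smul]
    refine Bdd.sum _ fun i _ => Bdd.sum _ fun j _ => Bdd.smul ⟨1, Eventually.of_forall fun k =>
      bd_of_pi ?_⟩ _
    rw [← map_star, ← map_mul, ← map_mul]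
    congr 1
    simp [Matrix.star_eq_conjTranspose]
  refine ⟨{ toFun := fun x => ⟨fun k => ψ k (φ x), hb _⟩
            map_smul' := fun c x => Subtype.ext (funext fun k => ?_)
            map_zero' := Subtype.ext (funext fun k => ?_)
            map_add' := fun x y => Subtype.ext (funext fun k => ?_)
            map_mul' := fun x y => Subtype.ext (funext fun k => ?_)
            map_star' := fun x => Subtype.ext (funext fun k => ?_) }, fun x => ?_⟩
  · exact (congrArg (ψ k) (map_smul φ c x)).trans (map_smul (ψ k) c _)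
  · exact (congrArg (ψ k) (map_zero φ)).trans (map_zero (ψ k))
  · exact (congrArg (ψ k) (map_add φ x y)).trans (map_add (ψ k) _ _)
  · exact (congrArg (ψ k) (map_mul φ x y)).trans (map_mul (ψ k) _ _)
  · exact (congrArg (ψ k) (map_star φ x)).trans (map_star (ψ k) _)
  · refine tendsto_nhds_unique (ultra_τ _ h1 _) (tendsto_const_nhds.congr' ?_)
    filter_upwards [Nat.hyperfilter_le_atTop (eventually_ge_atTop (Fintype.card ι))] with k hk
    exact ((hψ k hk _).trans (hφ x)).symm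

/-- Finitely many weighted atoms together with a weighted copy of `U`. -/
noncomputable def wsum {ι : Type} [Fintype ι] (t : ι → ℝ) (ht : ∀ i, 0 ≤ t i) (w : ℝ) (hw : 0 ≤ w)
    (U : TAlg) : TAlg where
  carrier := (ι → ℂ) × U
  τ :=
    { toFun := fun a => ∑ i, t i * a.1 i + w * U.τ a.2
      map_add' := fun a b => by simp [mul_add, Finset.sum_add_distrib]; ring
      map_smul' := fun c a => by simp [mul_add, Finset.mul_sum, mul_left_comm] }
  comm a b := by simp [mul_comm, U.comm a.2]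
  herm a := by simp [U.herm]
  pos a := by
    simp only [LinearMap.coe_mk, AddHom.coe_mk, Complex.add_re, Complex.re_sum,
      Complex.re_ofReal_mul]
    refine add_nonneg (Finset.sum_nonneg fun i _ => mul_nonneg (ht i) (cplx.pos (a.1 i)))
      (mul_nonneg hw (U.pos _))

theorem exists_atoms {ι : Type} [Fintype ι] [DecidableEq ι] (t : ι → ℝ) (ht : ∀ i, 0 ≤ t i) (w : ℝ)
    (hw : 0 ≤ w) : ∃ (A : TAlg) (a : ι → A), (∀ x : A, ∃ C, Bd x C) ∧ A.τ 1 = ∑ i, t i + w ∧
      (∀ i, star (a i) = a i) ∧ (∀ i j, a i * a j = if i = j then a i else 0) ∧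
      (∀ i, A.τ (a i) = t i) ∧ (∀ i b, ∃ c : ℂ, a i * b = c • a i ∧ b * a i = c • a i) ∧
      ∀ B, Emb B → ∃ φ : B →⋆ₙₐ[ℂ] A, (∀ x, A.τ (φ x) = w * B.τ x) ∧ ∀ x i, φ x * a i = 0 := by
  obtain ⟨U, hU, hU1, hE⟩ := exists_universal
  let A := wsum t ht w hw U
  let a : ι → A := fun i => (Pi.single i 1, 0)
  have hτ : ∀ x : A, A.τ x = ∑ i, t i * x.1 i + w * U.τ x.2 := fun _ => rfl
  have a1 : ∀ i, star (a i) = a i := fun i => Prod.ext (by
    change star (Pi.single i 1 : ι → ℂ) = Pi.single i 1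
    simp) (star_zero _)
  have a2 : ∀ i j, a i * a j = if i = j then a i else 0 := fun i j => by
    split_ifs with h
    · subst h
      exact Prod.ext (by
        change (Pi.single i 1 : ι → ℂ) * Pi.single i 1 = Pi.single i 1
        rw [← Pi.single_mul, one_mul]) (zero_mul _)
    · exact Prod.ext (by
        change (Pi.single i 1 : ι → ℂ) * Pi.single j 1 = 0
        ext k
        by_cases hk : k = i
        · subst hk; simp [h]
        · simp [hk]) (zero_mul _)
  refine ⟨A, a, fun x => ?_, ?_, a1, a2, fun i => ?_, fun i b => ⟨b.1 i, ?_, ?_⟩, fun B hB => ?_⟩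
  · let x' : A := (0, x.2)
    have e : x = ∑ i, x.1 i • a i + x' := by
      refine Prod.ext ?_ ?_
      · change x.1 = (∑ i, x.1 i • ((Pi.single i 1, 0) : (ι → ℂ) × U)).1 + 0
        ext k
        simp [Prod.fst_sum, Pi.single_apply]
      · change x.2 = (∑ i, x.1 i • ((Pi.single i 1, 0) : (ι → ℂ) × U)).2 + x.2
        simp [Prod.snd_sum]
    obtain ⟨C, hC⟩ := hU x.2
    have hs : ∀ y : A, nrm y ^ 2 = ∑ i, t i * (star (y.1 i) * y.1 i).re + w * nrm y.2 ^ 2 := by
      intro y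
      rw [nrm_sq, nrm_sq, hτ, Complex.add_re, Complex.re_sum]
      simp only [Complex.re_ofReal_mul]
      rfl
    have k : ∀ y z : A, z.1 = 0 → nrm z.2 ≤ C * nrm y.2 → nrm z ≤ C * nrm y := by
      intro y z h1 h2
      rw [← sq_le_sq₀ (nrm_nonneg _) (mul_nonneg hC.1 (nrm_nonneg _)), mul_pow, hs, hs, h1]
      have h3 : 0 ≤ ∑ i, t i * (star (y.1 i) * y.1 i).re :=
        Finset.sum_nonneg fun i _ => mul_nonneg (ht i) (cplx.pos (y.1 i))
      have h4 := pow_le_pow_left₀ (nrm_nonneg _) h2 2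
      simp only [Pi.zero_apply, mul_zero, Complex.zero_re, Finset.sum_const_zero, zero_add]
      nlinarith [mul_le_mul_of_nonneg_left h4 hw, mul_nonneg (sq_nonneg C) h3]
    have h0 : Bd x' C := ⟨hC.1, fun y =>
      ⟨k y _ (zero_mul _) (hC.2 _).1, k y _ (mul_zero _) (hC.2 _).2⟩⟩
    obtain ⟨D, hD⟩ := (Bdd.sum (B := fun _ => A) (l := ⊤) Finset.univ
      (a := fun i _ => x.1 i • a i) fun i _ => Bdd.smul ⟨1, Eventually.of_forall fun _ =>
        bd_of_proj (a1 i) (by simp [a2])⟩ _)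
    have h5 : Bd (∑ i, x.1 i • a i + x') (D + C) := (eventually_top.mp hD 0).add h0
    exact ⟨_, by rwa [← e] at h5⟩
  · rw [hτ]
    change ∑ i, (t i : ℂ) * 1 + w * U.τ 1 = _
    simp [hU1]
  · rw [hτ]
    change ∑ j, (t j : ℂ) * (Pi.single i (1 : ℂ) : ι → ℂ) j + w * U.τ 0 = _
    simp [Pi.single_apply]
  · refine Prod.ext ?_ ((zero_mul _).trans (smul_zero _).symm)
    change (Pi.single i 1 : ι → ℂ) * b.1 = b.1 i • (Pi.single i 1 : ι → ℂ)
    ext k
    by_cases hk : k = i
    · subst hk; simp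
    · simp [hk]
  · refine Prod.ext ?_ ((mul_zero _).trans (smul_zero _).symm)
    change b.1 * (Pi.single i 1 : ι → ℂ) = b.1 i • (Pi.single i 1 : ι → ℂ)
    ext k
    by_cases hk : k = i
    · subst hk; simp
    · simp [hk]
  · obtain ⟨φ, hφ⟩ := hE B hB
    refine ⟨(NonUnitalStarAlgHom.inr ℂ (ι → ℂ) U).comp φ, fun x => ?_, fun x i => ?_⟩
    · rw [hτ]
      change ∑ j, (t j : ℂ) * 0 + w * U.τ (φ x) = _
      simp [hφ]
    · exact Prod.ext (zero_mul _) (mul_zero _)

end Pool.Agent.Lib.MP_64d6f1_an
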