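import Pool.Agent.Lib.MP_64d6f1_an.Env
import Pool.Agent.Lib.MP_64d6f1_an.Ultra
import Pool.Agent.Lib.MP_64d6f1_an.Magic

/-! Atoms force exact zero patterns; the lifting statement fails for three-independence. -/

open scoped ComplexConjugate
open Filter Topology

namespace Pool.Agent.Lib.MP_64d6f1_an

open TAlg

section pvm

variable {A : Type*} [Ring A] [StarRing A] {K : Type*} [Fintype K]

lemma IsPVM.add {e e' : A} {P P' : K → A} (h : IsPVM e P) (h' : IsPVM e' P')
    (h0 : ∀ i j, P i * P' j = 0) : IsPVM (e + e') fun i => P i + P' i := by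
  have h1 : ∀ i j, P' i * P j = 0 := fun i j => by
    rw [← h.sa, ← h'.sa, ← star_mul, h0, star_zero]
  refine ⟨fun i => ?_, fun i => ?_, fun i j hij => ?_, ?_⟩
  · rw [star_add, h.sa, h'.sa]
  · simp [add_mul, mul_add, h0, h1, h.idem, h'.idem]
  · simp [add_mul, mul_add, h0, h1, h.orth i j hij, h'.orth i j hij]
  · rw [Finset.sum_add_distrib, h.sum, h'.sum]

lemma IsPVM.cut {P : K → A} (h : IsPVM 1 P) {e : A} (h1 : star e = e) (h2 : e * e = e)
    (h3 : ∀ x, x * e = e * x) : IsPVM e fun i => P i * e := by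
  have k : ∀ x y, x * e * (y * e) = x * y * e := fun x y => by
    rw [mul_assoc, ← mul_assoc e, ← h3, mul_assoc, h2, mul_assoc]
  refine ⟨fun i => ?_, fun i => ?_, fun i j hij => ?_, ?_⟩
  · rw [star_mul, h1, h.sa, h3]
  · rw [k, h.idem]
  · rw [k, h.orth i j hij, zero_mul]
  · rw [← Finset.sum_mul, h.sum, one_mul]

lemma IsPVM.comp {K' : Type*} [Fintype K'] {e : A} {P : K → A} (h : IsPVM e P) {f : K' → K}
    (hf : Function.Injective f) (h0 : ∀ k, k ∉ Set.range f → P k = 0) :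
    IsPVM e fun i => P (f i) :=
  ⟨fun _ => h.sa _, fun _ => h.idem _, fun _ _ hij => h.orth _ _ (hf.ne hij),
    (Fintype.sum_of_injective f hf _ _ h0 fun _ => rfl).trans h.sum⟩

lemma IsPVM.inl {R C : Type*} [Fintype R] [Fintype C] {e : A} {P : R → A} (h : IsPVM e P) :
    IsPVM e (Sum.elim P 0 : R ⊕ C → A) := by
  refine ⟨?_, ?_, ?_, by simp [h.sum]⟩
  · rintro (i | i) <;> simp [h.sa]
  · rintro (i | i) <;> simp [h.idem]
  · rintro (i | i) (j | j) hij
    · exact h.orth i j (by simpa using hij)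
    all_goals simp

lemma IsPVM.inr {R C : Type*} [Fintype R] [Fintype C] {e : A} {P : C → A} (h : IsPVM e P) :
    IsPVM e (Sum.elim 0 P : R ⊕ C → A) := by
  refine ⟨?_, ?_, ?_, by simp [h.sum]⟩
  · rintro (i | i) <;> simp [h.sa]
  · rintro (i | i) <;> simp [h.idem]
  · rintro (i | i) (j | j) hij
    swap
    · simp
    all_goals first | exact h.orth i j (by simpa using hij) | simp

end pvm

lemma IsPVM.map {A B : TAlg} {K : Type*} [Fintype K] {e : B} {P : K → B} (h : IsPVM e P)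
    (π : B →⋆ₙₐ[ℂ] A) : IsPVM (π e) fun i => π (P i) :=
  ⟨fun i => by rw [← map_star, h.sa], fun i => by rw [← map_mul, h.idem],
    fun i j hij => by rw [← map_mul, h.orth i j hij, map_zero], by rw [← map_sum, h.sum]⟩

lemma tr_proj {A : TAlg} {p q : A} (hp : star p = p) (hp' : p * p = p) (hq : star q = q)
    (hq' : q * q = q) : A.τ (p * q) = (nrm (p * q) ^ 2 : ℝ) := by
  rw [← nrm_sq', star_mul, hp, hq, mul_assoc, ← mul_assoc p, hp', A.comm q, mul_assoc, hq']

/-- The functional calculus of a unitary with finite spectrum. -/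
noncomputable def evalHom {A : TAlg} {K : Type} [Fintype K] (θ : K → X1) {P : K → A}
    (h : IsPVM 1 P) : CX →⋆ₐ[ℂ] A where
  toFun f := obs (fun i => f (θ i)) P
  map_one' := h.obs_one
  map_mul' f g := (h.obs_mul _ _).symm
  map_zero' := by simp [obs]
  map_add' f g := by simp [obs, add_smul, Finset.sum_add_distrib]
  commutes' c := by simp [obs, Algebra.algebraMap_eq_smul_one, ← Finset.smul_sum, h.sum]
  map_star' f := (h.obs_star _).symm

lemma three_indep {A : TAlg} {l : Filter ℕ} {K : Type} [Fintype K] [Nonempty K]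
    {P Q : ℕ → K → A} (hP : ∀ n, IsPVM 1 (P n)) (hQ : ∀ n, IsPVM 1 (Q n))
    (h : ∀ i j, Tendsto (fun n => A.τ (P n i * Q n j)) l (𝓝 ((Fintype.card K : ℂ)⁻¹ ^ 2)))
    (f g k : K → ℂ) :
    Tendsto (fun n => A.τ (cen (obs f (P n)) * cen (obs g (Q n)))) l (𝓝 0) ∧
    Tendsto (fun n => A.τ (cen (obs f (P n)) * (cen (obs g (Q n)) * cen (obs k (P n))))) l
      (𝓝 0) := by
  have hK : (Fintype.card K : ℂ) ≠ 0 := by exact_mod_cast Fintype.card_ne_zero
  have hc : ∀ {Y : K → A}, IsPVM 1 Y → ∀ f, cen (obs f Y) =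
      obs (fun i => f i - A.τ (obs f Y)) Y := fun {Y} hY f => by
    simp only [cen, obs, sub_smul, Finset.sum_sub_distrib, ← Finset.smul_sum, hY.sum,
      Algebra.algebraMap_eq_smul_one]
  have t : ∀ {α β : ℕ → K → ℂ} {a b : K → ℂ}, (∀ i, Tendsto (fun n => α n i) l (𝓝 (a i))) →
      (∀ i, Tendsto (fun n => β n i) l (𝓝 (b i))) →
      Tendsto (fun n => A.τ (obs (α n) (P n) * obs (β n) (Q n))) l
        (𝓝 ((∑ i, a i) * (∑ i, b i) * (Fintype.card K : ℂ)⁻¹ ^ 2)) := by
    intro α β a b ha hb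
    simp only [obs, Finset.sum_mul_sum]
    simp only [Finset.sum_mul, smul_mul_smul_comm, map_sum, map_smul, smul_eq_mul]
    exact tendsto_finsetSum _ fun i _ => tendsto_finsetSum _ fun j _ =>
      ((ha i).mul (hb j)).mul (h i j)
  have tP : ∀ f i, Tendsto (fun n => f i - A.τ (obs f (P n))) l
      (𝓝 (f i - (∑ i, f i) * (∑ _i : K, 1) * (Fintype.card K : ℂ)⁻¹ ^ 2)) := fun f i =>
    tendsto_const_nhds.sub ((t (α := fun _ => f) (β := fun _ => 1) (fun _ => tendsto_const_nhds)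
      fun _ => tendsto_const_nhds).congr fun n => by rw [(hQ n).obs_one, mul_one])
  have tQ : ∀ i, Tendsto (fun n => g i - A.τ (obs g (Q n))) l
      (𝓝 (g i - (∑ _i : K, 1) * (∑ i, g i) * (Fintype.card K : ℂ)⁻¹ ^ 2)) := fun i =>
    tendsto_const_nhds.sub ((t (α := fun _ => 1) (β := fun _ => g) (fun _ => tendsto_const_nhds)
      fun _ => tendsto_const_nhds).congr fun n => by rw [(hP n).obs_one, one_mul])
  have z : ∑ i, (g i - (∑ _i : K, 1) * (∑ i, g i) * (Fintype.card K : ℂ)⁻¹ ^ 2) = 0 := by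
    simp only [Finset.sum_sub_distrib, Finset.sum_const, Finset.card_univ, nsmul_eq_mul]
    field_simp
    ring
  constructor
  · have := t (tP f) tQ
    rw [z, mul_zero, zero_mul] at this
    exact this.congr fun n => by rw [hc (hP n), hc (hQ n)]
  · have := t (fun i => (tP k i).mul (tP f i)) tQ
    rw [z, mul_zero, zero_mul] at this
    refine this.congr fun n => ?_
    rw [← mul_assoc, A.comm _ (cen _), ← mul_assoc, hc (hP n), hc (hP n), hc (hQ n), (hP n).obs_mul]
    rfl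

lemma exists_points (K : Type) [Fintype K] : ∃ θ : K → X1, Function.Injective θ := by
  let e := Fintype.equivFin K
  refine ⟨fun i => (((e i : ℕ) : ℝ) / Fintype.card K : ℝ), fun i j h => ?_⟩
  have hK : (0 : ℝ) < Fintype.card K := by exact_mod_cast (e i).pos
  have m : ∀ i, ((e i : ℕ) : ℝ) / Fintype.card K ∈ Set.Ico (0 : ℝ) (0 + 1) := fun i =>
    ⟨by positivity, by rw [zero_add, div_lt_one hK]; exact_mod_cast (e i).2⟩
  have := (AddCircle.coe_eq_coe_iff_of_mem_Ico (m i) (m j)).mp h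
  rw [div_left_inj' hK.ne'] at this
  exact e.injective (Fin.ext (by exact_mod_cast this))

theorem core {A : TAlg} (hA : VN A) {l : Filter ℕ} (hL : Lifts A l) {K : Type} [Fintype K]
    [Nonempty K] {a : K × K → A} {s : A} (ha : IsPVM s a)
    (hm : ∀ i x, ∃ c : ℂ, x * a i = c • a i ∧ a i * x = c • a i) (h0 : ∀ i, nrm (a i) ≠ 0)
    (hd : ∀ k, A.τ (a (k, k)) = ((Fintype.card K : ℝ)⁻¹ ^ 2 : ℝ)) {p q : ℕ → K → A}
    (hp : ∀ n, IsPVM (1 - s) (p n)) (hq : ∀ n, IsPVM (1 - s) (q n))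
    (ht : ∀ i j, Tendsto (fun n => A.τ (a (i, j)) + A.τ (p n i * q n j)) l
      (𝓝 ((Fintype.card K : ℂ)⁻¹ ^ 2))) :
    ∃ p' q' : ℕ → K → A, (∀ᶠ n in l, IsPVM (1 - s) (p' n) ∧ IsPVM (1 - s) (q' n) ∧
      ∀ i j, A.τ (a (i, j)) + A.τ (p' n i * q' n j) = (Fintype.card K : ℂ)⁻¹ ^ 2) ∧
      (∀ i, Null (B := fun _ => A) l fun n => p' n i - p n i) ∧
      (∀ i, Null (B := fun _ => A) l fun n => q' n i - q n i) := by
  classical
  have hc : ∀ i x, x * a i = a i * x := fun i x => by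
    obtain ⟨c, h1, h2⟩ := hm i x; rw [h1, h2]
  have hs : ∀ x, x * (1 - s) = (1 - s) * x := fun x => by
    simp only [← ha.sum, mul_sub, sub_mul, mul_one, one_mul, Finset.mul_sum, Finset.sum_mul, hc]
  have e1 : star (1 - s) = 1 - s := (hp 0).unit_sa
  have e2 : (1 - s) * (1 - s) = 1 - s := (hp 0).unit_idem
  have e3 : ∀ i, a i * (1 - s) = 0 := fun i => by rw [mul_sub, mul_one, ha.mul_unit, sub_self]
  have e4 : ∀ {y : K → A}, IsPVM (1 - s) y → ∀ i j, a i * y j = 0 := fun hy i j => by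
    rw [← hy.unit_mul, ← mul_assoc, e3, zero_mul]
  have ha' : IsPVM s fun i : K × K => a i.swap :=
    ha.comp Prod.swap_injective fun k hk => absurd ⟨k.swap, rfl⟩ hk
  have hP : ∀ n, IsPVM 1 fun i => ∑ j, a (i, j) + p n i := fun n => by
    simpa using ha.coarse.add (hp n) fun i j => by simp [Finset.sum_mul, e4 (hp n)]
  have hQ : ∀ n, IsPVM 1 fun j => ∑ i, a (i, j) + q n j := fun n => by
    simpa using ha'.coarse.add (hq n) fun i j => by simp [Finset.sum_mul, e4 (hq n)]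
  have hPa : ∀ n i j, (∑ j, a (i, j) + p n i) * a (i, j) = a (i, j) := fun n i j => by
    rw [add_mul, ha.mul_fine, hc, e4 (hp n), add_zero]
  have hQa : ∀ n i j, (∑ i, a (i, j) + q n j) * a (i, j) = a (i, j) := fun n i j => by
    rw [add_mul, hc _ (q n j), e4 (hq n), add_zero]
    exact ha'.mul_fine j i
  have split : ∀ {P Q : K → A}, IsPVM 1 P → IsPVM 1 Q → (∀ i j, P i * a (i, j) = a (i, j)) →
      (∀ i j, Q j * a (i, j) = a (i, j)) → ∀ i j,
      A.τ (a (i, j)) + A.τ (P i * (1 - s) * (Q j * (1 - s))) = A.τ (P i * Q j) := by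
    intro P Q hP hQ h1 h2 i j
    have : P i * Q j * s = a (i, j) := by
      rw [← ha.sum, Finset.mul_sum, Finset.sum_eq_single (i, j) _ (by simp), mul_assoc, h2, h1]
      rintro ⟨k, r⟩ _ hk
      by_cases hr : r = j
      · subst hr
        rw [mul_assoc, h2, ← h1, ← mul_assoc, hP.orth _ _ fun e => hk (by rw [e]), zero_mul]
      · rw [← h2, mul_assoc, ← mul_assoc (Q j), hQ.orth _ _ (Ne.symm hr), zero_mul, mul_zero]
    rw [← map_add, ← this, mul_assoc (P i) (1 - s), ← mul_assoc (1 - s), ← hs,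
      mul_assoc _ (1 - s), e2, ← mul_assoc, ← mul_add, add_sub_cancel, mul_one]
  have hPe : ∀ n i, (∑ j, a (i, j) + p n i) * (1 - s) = p n i := fun n i => by
    simp only [add_mul, Finset.sum_mul, e3, Finset.sum_const_zero, zero_add, (hp n).mul_unit]
  have hQe : ∀ n j, (∑ i, a (i, j) + q n j) * (1 - s) = q n j := fun n j => by
    simp only [add_mul, Finset.sum_mul, e3, Finset.sum_const_zero, zero_add, (hq n).mul_unit]
  have ht' : ∀ i j, Tendsto (fun n => A.τ ((∑ j, a (i, j) + p n i) * (∑ i, a (i, j) + q n j))) l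
      (𝓝 ((Fintype.card K : ℂ)⁻¹ ^ 2)) := fun i j => (ht i j).congr fun n => by
    rw [← split (hP n) (hQ n) (hPa n) (hQa n), hPe, hQe]
  obtain ⟨θ, hθ⟩ := exists_points K
  obtain ⟨Φ, Ψ, c1, c2, c3⟩ := hL (fun n => evalHom θ (hP n)) (fun n => evalHom θ (hQ n))
    (fun e f => (three_indep hP hQ ht' _ _ 0).1) (fun e f g => (three_indep hP hQ ht' _ _ _).2)
    (fun e f g => (three_indep hQ hP (fun i j => (ht' j i).congr fun n => A.comm _ _) _ _ _).2)
  have hi : ∀ n f g, A.τ (Φ n f * Ψ n g) = A.τ (Φ n f) * A.τ (Ψ n g) := fun n =>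
    hA.indep fun e f => by
      have := c3 n e f
      simp only [cen, Algebra.algebraMap_eq_smul_one, sub_mul, mul_sub, smul_mul_assoc,
        mul_smul_comm, one_mul, mul_one, map_sub, map_smul, hA.one, smul_eq_mul] at this
      linear_combination this
  obtain ⟨b, b0, b1, b2⟩ := exists_bumps hθ
  have b3 : ∀ x, ∑ k, b k x ≤ 1 := fun x => by
    by_cases h : ∃ k, b k x ≠ 0
    · obtain ⟨k, hk⟩ := h
      rw [Finset.sum_eq_single k (fun j _ hj => (b1 j k hj x).resolve_right hk) (by simp)]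
      exact (b0 k x).2
    · simp only [not_exists, not_not] at h
      simp [h]
  have b4 : ∀ k i, b k (θ i) = if i = k then 1 else 0 := fun k i => by
    split_ifs with h
    · rw [h]; exact (b2 k).self_of_nhds
    · exact (b1 k i (Ne.symm h) _).resolve_right (by rw [(b2 i).self_of_nhds]; exact one_ne_zero)
  have hb : ∀ i, Bd (a i) 1 := fun i => bd_of_proj (ha.sa i) (ha.idem i)
  have fix : ∀ {Y : ℕ → K → A} (hY : ∀ n, IsPVM 1 (Y n)) {Φ : ℕ → CX →⋆ₐ[ℂ] A},
      Null (B := fun _ => A) l (fun n => Φ n (fourier 1) - evalHom θ (hY n) (fourier 1)) →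
      ∀ k i, (∀ n, Y n k * a i = a i) → ∀ᶠ n in l, Φ n (cc (b k)) * a i = a i := by
    intro Y hY Φ h k i hk
    have := hA.atom_fix h (h0 i) (hb i) (fun x => (hm i x).imp fun _ h => h.1) (θ := θ k)
      (fun n => by
        rw [← hk n, ← mul_assoc]
        exact (congrArg (· * a i) ((hY n).obs_mul_right _ k)).trans (smul_mul_assoc _ _ _))
      (f := cc (b k)) (c := 1) ((b2 k).mono fun x hx => by simp [hx])
    simpa using this
  have near : ∀ {Y : ℕ → K → A} (hY : ∀ n, IsPVM 1 (Y n)) {Φ : ℕ → CX →⋆ₐ[ℂ] A},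
      Null (B := fun _ => A) l (fun n => Φ n (fourier 1) - evalHom θ (hY n) (fourier 1)) →
      ∀ k, Null (B := fun _ => A) l fun n => Φ n (cc (b k)) * (1 - s) - Y n k * (1 - s) := by
    intro Y hY Φ h k
    refine ((hA.null_fc h (cc (b k))).mul_right (b := fun _ => 1 - s)
      ⟨1, Eventually.of_forall fun _ => bd_of_proj e1 e2⟩).congr
      (Eventually.of_forall fun n => ?_)
    have : evalHom θ (hY n) (cc (b k)) = Y n k := by
      change obs _ _ = _
      simp [obs, b4]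
    rw [this, sub_mul]
  refine ⟨fun n k => Φ n (cc (b k)) * (1 - s), fun n k => Ψ n (cc (b k)) * (1 - s), ?_,
    fun i => by simpa only [hPe] using near hP c1 i, fun i => by simpa only [hQe] using near hQ c2 i⟩
  have f1 : ∀ᶠ n in l, ∀ i j, Φ n (cc (b i)) * a (i, j) = a (i, j) := by
    simp only [eventually_all]
    exact fun i j => fix hP c1 i _ fun n => hPa n i j
  have f2 : ∀ᶠ n in l, ∀ i j, Ψ n (cc (b j)) * a (i, j) = a (i, j) := by
    simp only [eventually_all]
    exact fun i j => fix hQ c2 j _ fun n => hQa n i j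
  filter_upwards [f1, f2] with n f1 f2
  have sq : ∀ k, cc (b k * b k) = cc (b k) * cc (b k) := fun k => by ext x; simp
  have t1 := hA.tr_eq (hi n) (fun k => hb (k, k)) (fun k => ha.sa _) (fun k => ha.idem _)
    (fun k => hc _) hd (fun k x => (b0 k x).1) b3 (fun k => f1 k k) (fun k => f2 k k)
  have t2 := hA.tr_eq (hi n) (fun k => hb (k, k)) (fun k => ha.sa _) (fun k => ha.idem _)
    (fun k => hc _) hd (g := fun k => b k * b k) (fun k x => mul_self_nonneg _)
    (fun x => (Finset.sum_le_sum fun k _ => mul_le_of_le_one_left (b0 k x).1 (b0 k x).2).trans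
      (b3 x)) (fun k => by rw [sq, map_mul, mul_assoc, f1, f1])
    (fun k => by rw [sq, map_mul, mul_assoc, f2, f2])
  have hP' := hA.pvm_of_tr (Φ n) b0 b1 b3 (fun k => (t1 k).1) fun k => (t2 k).1
  have hQ' := hA.pvm_of_tr (Ψ n) b0 b1 b3 (fun k => (t1 k).2) fun k => (t2 k).2
  refine ⟨hP'.cut e1 e2 hs, hQ'.cut e1 e2 hs, fun i j => ?_⟩
  rw [split hP' hQ' f1 f2, hi, (t1 i).1, (t1 j).2]
  push_cast
  ring

theorem not_claim : ¬ Claim := by
  classical
  intro h
  obtain ⟨B, R, C, _, _, P, Q, hE, hP, hQ, hN⟩ :=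
    target (hyperfilter ℕ) Nat.hyperfilter_le_atTop
  have : Nonempty (R ⊕ C) := by
    by_contra hR
    have : IsEmpty R := ⟨fun r => hR ⟨.inl r⟩⟩
    have h1 := (hE 0).τ_one
    rw [← (hP 0).sum] at h1
    simp at h1
  let p : ∀ n, R ⊕ C → B n := fun n => Sum.elim (P n) 0
  let q : ∀ n, R ⊕ C → B n := fun n => Sum.elim 0 (Q n)
  have hp : ∀ n, IsPVM 1 (p n) := fun n => (hP n).inl
  have hq : ∀ n, IsPVM 1 (q n) := fun n => (hQ n).inr
  have : ∀ i : (R ⊕ C) × (R ⊕ C), ∃ m : ℝ, m ≤ 1 ∧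
      Tendsto (fun n => (B n).τ (p n i.1 * q n i.2)) (hyperfilter ℕ) (𝓝 m) := by
    intro i
    obtain ⟨m, hm, h1⟩ := (isCompact_Icc (a := (0 : ℝ)) (b := 1)).ultrafilter_le_nhds
      ((hyperfilter ℕ).map fun n => nrm (p n i.1 * q n i.2) ^ 2) (by
        rw [le_principal_iff]
        refine Ultrafilter.mem_map.mpr (univ_mem' (f := (hyperfilter ℕ : Filter ℕ)) fun n =>
          Set.mem_preimage.mpr ⟨sq_nonneg _, pow_le_one₀ (nrm_nonneg _) ?_⟩)
        simpa [(hE n).nrm_one] using (((bd_of_proj ((hp n).sa i.1) ((hp n).idem _)).mul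
          (bd_of_proj ((hq n).sa i.2) ((hq n).idem _))).2 1).1)
    refine ⟨m, hm.2, ((Complex.continuous_ofReal.tendsto m).comp h1).congr fun n => ?_⟩
    exact (tr_proj ((hp n).sa _) ((hp n).idem _) ((hq n).sa _) ((hq n).idem _)).symm
  choose m m1 hm using this
  have mz : ∀ i, (∀ n, p n i.1 * q n i.2 = 0) → m i = 0 := fun i hi => by
    have := hm i
    simp only [hi, map_zero, tendsto_const_nhds_iff] at this
    exact_mod_cast this.symm
  have ms : ∑ i, m i = 1 := by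
    have h1 := tendsto_finsetSum Finset.univ fun i _ => hm i
    simp only [← map_sum, Fintype.sum_prod_type, ← Finset.mul_sum, (hp _).sum,
      (hq _).sum, mul_one, (hE _).τ_one, tendsto_const_nhds_iff] at h1
    rw [Fintype.sum_prod_type]
    exact_mod_cast h1.symm
  set μ : ℝ := (Fintype.card (R ⊕ C) : ℝ)⁻¹ with hμ
  have hK : (0 : ℝ) < Fintype.card (R ⊕ C) := by exact_mod_cast Fintype.card_pos
  have hμ0 : 0 < μ := inv_pos.mpr hK
  have ht : ∀ i, 0 < μ ^ 2 - μ ^ 2 / 2 * m i := fun i => by nlinarith [m1 i, pow_pos hμ0 2]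
  have hsum : ∑ i, (μ ^ 2 - μ ^ 2 / 2 * m i) + μ ^ 2 / 2 = 1 := by
    rw [Finset.sum_sub_distrib, ← Finset.mul_sum, ms, Finset.sum_const, Finset.card_univ,
      Fintype.card_prod, nsmul_eq_mul, Nat.cast_mul, hμ]
    field_simp
    ring
  obtain ⟨A0, a0, hb, h1, a1, a2, a3, a4, hφ⟩ := exists_atoms (fun i => μ ^ 2 - μ ^ 2 / 2 * m i)
    (fun i => (ht i).le) (μ ^ 2 / 2) (by positivity)
  choose φ hφ1 hφ2 using fun n => hφ (B n) (hE n)
  obtain ⟨A, L, hA, hτ, hat, hL⟩ := bridge h A0 hb (by rw [h1]; exact_mod_cast hsum)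
    (hyperfilter ℕ) hyperfilter_le_cofinite
  let π : ∀ n, B n →⋆ₙₐ[ℂ] A := fun n => (L : A0 →⋆ₙₐ[ℂ] A).comp (φ n)
  have hπ : ∀ n x, A.τ (π n x) = (μ ^ 2 / 2 : ℝ) * (B n).τ x := fun n x => (hτ _).trans (hφ1 n x)
  have ha : IsPVM (∑ i, L (a0 i)) fun i => L (a0 i) :=
    ⟨fun i => by rw [← map_star, a1], fun i => by rw [← map_mul, a2, if_pos rfl],
      fun i j hij => by rw [← map_mul, a2, if_neg hij, map_zero], rfl⟩
  have hπ1 : ∀ n, π n 1 = 1 - ∑ i, L (a0 i) := by
    intro n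
    have k1 : π n 1 * ∑ i, L (a0 i) = 0 := by
      rw [Finset.mul_sum]
      exact Finset.sum_eq_zero fun i _ => (map_mul L (φ n 1) _).symm.trans (by rw [hφ2, map_zero])
    have k2 : star (π n 1) = π n 1 := by rw [← map_star, star_one]
    have k3 : π n 1 * π n 1 = π n 1 := by rw [← map_mul, one_mul]
    have k4 : (∑ i, L (a0 i)) * π n 1 = 0 := by
      rw [← k2, ← ha.unit_sa, ← star_mul, k1, star_zero]
    rw [eq_comm, ← sub_eq_zero]
    apply hA.faith
    have := nrm_sq' (1 - ∑ i, L (a0 i) - π n 1)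
    simp only [star_sub, star_one, k2, ha.unit_sa, sub_mul, mul_sub, one_mul, mul_one, k1, k3, k4,
      ha.unit_idem, sub_self, sub_zero, map_sub, hπ, map_sum, hτ, a3, hA.one,
      (hE n).τ_one] at this
    have h2 : (1 : ℝ) - ∑ i, (μ ^ 2 - μ ^ 2 / 2 * m i) - μ ^ 2 / 2 =
        nrm (1 - ∑ i, L (a0 i) - π n 1) ^ 2 := by exact_mod_cast this
    exact pow_eq_zero_iff two_ne_zero |>.mp (by linarith)
  obtain ⟨p', q', e1, e2, e3⟩ := core hA hL ha
    (fun i => hat _ (by rw [a2, if_pos rfl]) (a4 i))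
    (fun i hi => by
      have := nrm_sq' (L (a0 i))
      rw [ha.sa, ha.idem, hτ, a3, hi] at this
      exact (ht i).ne' (by simpa using Complex.ofReal_injective this))
    (fun k => by
      rw [hτ, a3, mz (k, k) (by rcases k with k | k <;> simp [p, q]), mul_zero, sub_zero])
    (p := fun n i => π n (p n i)) (q := fun n i => π n (q n i))
    (fun n => hπ1 n ▸ (hp n).map (π n)) (fun n => hπ1 n ▸ (hq n).map (π n)) (fun i j => by
      simp only [← map_mul, hπ, hτ, a3]
      convert ((hm (i, j)).const_mul ((μ ^ 2 / 2 : ℝ) : ℂ)).const_add _ using 2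
      rw [hμ]; push_cast; ring)
  have z : ∀ᶠ n in (hyperfilter ℕ : Filter ℕ), ∀ i j, m (i, j) = 0 → p' n i * q' n j = 0 := by
    filter_upwards [e1] with n hn i j h0
    have := hn.2.2 i j
    rw [hτ, a3, h0, tr_proj (hn.1.sa _) (hn.1.idem _) (hn.2.1.sa _) (hn.2.1.idem _)] at this
    have h2 : μ ^ 2 - μ ^ 2 / 2 * 0 + nrm (p' n i * q' n j) ^ 2 = μ ^ 2 := by
      apply Complex.ofReal_injective
      rw [Complex.ofReal_add, this, hμ]
      push_cast
      rfl
    exact hA.faith _ (pow_eq_zero_iff two_ne_zero |>.mp (by linarith))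
  refine hN A hA.faith (μ ^ 2 / 2) (by positivity) π hπ (fun _ => 1 - ∑ i, L (a0 i))
    (fun n r => p' n (.inl r)) (fun n s => q' n (.inr s)) ?_ (fun r => e2 (.inl r))
    (fun s => e3 (.inr s)) fun r s hn => z.mono fun n hz => hz _ _ ?_
  · filter_upwards [e1, z] with n hn hz
    refine ⟨hn.1.comp Sum.inl_injective ?_, hn.2.1.comp Sum.inr_injective ?_⟩
    · rintro (k | k) hk
      · exact absurd ⟨k, rfl⟩ hk
      · rw [← hn.1.mul_unit (.inr k), ← hn.2.1.sum, Finset.mul_sum]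
        exact Finset.sum_eq_zero fun j _ => hz _ _ (mz _ (by simp [p]))
    · rintro (k | k) hk
      · rw [← hn.2.1.unit_mul (.inl k), ← hn.1.sum, Finset.sum_mul]
        exact Finset.sum_eq_zero fun j _ => hz _ _ (mz _ (by simp [q]))
      · exact absurd ⟨k, rfl⟩ hk
  · have := tendsto_nhds_unique (hm (.inl r, .inr s)) (hn.tendsto_τ fun n => (hE n).nrm_one.le)
    exact_mod_cast this

end Pool.Agent.Lib.MP_64d6f1_an
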