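import Pool.Agent.Lib.MP_64d6f1_an.TAlg

/-! A rigid zero pattern for two projection valued measures. -/

open scoped ComplexConjugate

namespace Pool.Agent.Lib.MP_64d6f1_an

open TAlg

/-- Rows: points and parametrised parallelograms. -/
abbrev Row (E : Type) : Type := E ⊕ (E × E × E)

/-- Columns: a base column, a remainder column, and the edges. -/
abbrev Col (E : Type) : Type := Bool ⊕ Sym2 E

section comb

variable {E : Type} [AddCommGroup E] [DecidableEq E]

/-- Indicator of an equality. -/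
def ind (a b : E) : ℤ := if a = b then 1 else 0

/-- The sign function on a parallelogram. -/
def phi (a b t : E) : ℤ := ind t 0 - ind t a - ind t b + ind t (a + b)

/-- The integer vector attached to a directed edge. -/
def wv (x y : E) : Row E → ℤ
  | .inl v => ind v x - ind v y
  | .inr r => (ind (x + y) r.2.1 - ind (x + y) r.2.2) * phi r.2.1 r.2.2 (x + r.1)

/-- The pattern. -/
def adj : Row E → Col E → Prop
  | r, .inl true => ∃ v, r = .inl v
  | r, .inl false => ∃ v, r = .inr v
  | r, .inr s => ∃ x y, s = s(x, y) ∧ wv x y r ≠ 0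

variable (h2 : ∀ x : E, x + x = 0)
include h2

lemma ind_add (t a u : E) : ind (t + a) u = ind t (u + a) := by
  have : t + a = u ↔ t = u + a :=
    ⟨fun h => by rw [← h, add_assoc, h2, add_zero], fun h => by rw [h, add_assoc, h2, add_zero]⟩
  simp only [ind, this]

lemma phi_add_left (a b t : E) : phi a b (t + a) = - phi a b t := by
  simp only [phi, ind_add h2, zero_add, h2, add_comm b a, add_right_comm a b a]
  ring

lemma phi_add_right (a b t : E) : phi a b (t + b) = - phi a b t := by
  simp only [phi, ind_add h2, zero_add, h2, add_assoc, add_zero]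
  ring

lemma phi_flip {a b x y : E} (h : x + y = a ∨ x + y = b) (i : E) :
    phi a b (y + i) = - phi a b (x + i) := by
  have e : y + i = x + i + (x + y) := by
    rw [show x + i + (x + y) = y + i + (x + x) by abel, h2, add_zero]
  rcases h with h | h
  · rw [e, h, phi_add_left h2]
  · rw [e, h, phi_add_right h2]

omit h2 in
lemma wv_inr_ne {x y : E} {r : E × E × E} : wv x y (.inr r) ≠ 0 ↔
    (x + y = r.2.1 ∨ x + y = r.2.2) ∧ r.2.1 ≠ r.2.2 ∧ phi r.2.1 r.2.2 (x + r.1) ≠ 0 := by
  obtain ⟨i, a, b⟩ := r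
  simp only [wv, ind, ne_eq, mul_eq_zero, not_or]
  by_cases h1 : x + y = a <;> by_cases h3 : x + y = b
  · simp [← h1, ← h3]
  · subst h1; simp [h3]
  · subst h3; simp [h1, Ne.symm h1]
  · simp [h1, h3]

lemma wv_swap (x y : E) (r : Row E) : wv y x r = - wv x y r := by
  rcases r with v | ⟨i, a, b⟩
  · simp [wv]
  · simp only [wv, add_comm y x]
    by_cases h : x + y = a ∨ x + y = b
    · rw [phi_flip h2 h]; ring
    · simp only [not_or] at h
      simp [ind, h.1, h.2]

lemma adj_edge {r : Row E} {x y : E} : adj r (.inr s(x, y)) ↔ wv x y r ≠ 0 := by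
  refine ⟨?_, fun h => ⟨x, y, rfl, h⟩⟩
  rintro ⟨x', y', h, h'⟩
  rcases Sym2.eq_iff.mp h with ⟨rfl, rfl⟩ | ⟨rfl, rfl⟩
  · exact h'
  · rw [wv_swap h2]; exact neg_ne_zero.mpr h'

omit h2 [AddCommGroup E] in
lemma ind_sub_ne {v x y : E} (h : ind v x - ind v y ≠ 0) : v = x ∨ v = y := by
  by_contra hc
  simp only [not_or] at hc
  simp [ind, hc.1, hc.2] at h

omit h2 in
lemma adj_inl_edge {v : E} {s : Sym2 E} (h : adj (.inl v) (.inr s)) : ∃ u, s = s(v, u) := by
  obtain ⟨x, y, rfl, h⟩ := h
  rcases ind_sub_ne h with rfl | rfl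
  · exact ⟨y, rfl⟩
  · exact ⟨x, Sym2.eq_swap⟩

end comb

section pvm

variable {A : Type*} [Ring A] [StarRing A] {O : Type*} [Fintype O] {e : A} {P : O → A}

lemma IsPVM.unit_mul (h : IsPVM e P) (a : O) : e * P a = P a := by
  rw [← h.sum, Finset.sum_mul, Finset.sum_eq_single a (fun b _ hb => h.orth b a hb) (by simp),
    h.idem]

lemma IsPVM.mul_unit (h : IsPVM e P) (a : O) : P a * e = P a := by
  rw [← h.sum, Finset.mul_sum, Finset.sum_eq_single a (fun b _ hb => h.orth a b hb.symm) (by simp),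
    h.idem]

lemma IsPVM.unit_sa (h : IsPVM e P) : star e = e := by
  rw [← h.sum, star_sum]; simp only [h.sa]

lemma IsPVM.unit_idem (h : IsPVM e P) : e * e = e := by
  conv_lhs => rhs; rw [← h.sum]
  rw [Finset.mul_sum]; simp only [h.unit_mul, h.sum]

lemma IsPVM.sandwich (h : IsPVM e P) {q q' : A} (hq : q * e = q) (h0 : q * q' = 0)
    (S : Finset O) (hS : ∀ r, r ∉ S → q * P r = 0 ∨ P r * q' = 0) :
    q * (∑ r ∈ S, P r) * q' = 0 := by
  have : q * (∑ r, P r) * q' = 0 := by rw [h.sum, hq, h0]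
  rw [← this, Finset.mul_sum, Finset.mul_sum, Finset.sum_mul, Finset.sum_mul]
  refine Finset.sum_subset (Finset.subset_univ _) fun r _ hr => ?_
  rcases hS r hr with h1 | h1
  · rw [h1, zero_mul]
  · rw [mul_assoc, h1, mul_zero]

omit [StarRing A] in
lemma list_kill {ι : Type*} (F : ι → A) (c : A) (hc : ∀ t, c * F t = F t * c) (L : List ι) {t : ι}
    (ht : t ∈ L) (h0 : c * F t = 0) : c * (L.map F).prod = 0 := by
  induction L with
  | nil => simp at ht
  | cons s L ih =>
    rw [List.map_cons, List.prod_cons, ← mul_assoc]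
    rcases List.mem_cons.mp ht with rfl | ht
    · rw [h0, zero_mul]
    · rw [hc, mul_assoc, ih ht, mul_zero]

omit [StarRing A] in
lemma list_fix {ι : Type*} (F : ι → A) (v : A) (h : ∀ t, F t * v = v) (L : List ι) :
    (L.map F).prod * v = v := by
  induction L with
  | nil => simp
  | cons s L ih => rw [List.map_cons, List.prod_cons, mul_assoc, ih, h]

lemma list_fix_star {ι : Type*} (F : ι → A) (v : A) (h : ∀ t, star (F t) * v = v) (L : List ι) :
    star (L.map F).prod * v = v := by
  induction L with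
  | nil => simp
  | cons s L ih => rw [List.map_cons, List.prod_cons, star_mul, mul_assoc, h, ih]

omit [StarRing A] in
lemma list_comm {ι : Type*} (F : ι → A) (c : A) (hc : ∀ t, c * F t = F t * c) (L : List ι) :
    c * (L.map F).prod = (L.map F).prod * c := by
  induction L with
  | nil => simp
  | cons s L ih => rw [List.map_cons, List.prod_cons, ← mul_assoc, hc, mul_assoc, ih, mul_assoc]

end pvm

section exact

variable {E : Type} [AddCommGroup E] [DecidableEq E] [Fintype E] {A : Type*} [Ring A] [StarRing A]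

/-- An exact solution of the pattern. -/
structure Sol (e : A) (P : Row E → A) (Q : Col E → A) : Prop where
  h2 : ∀ x : E, x + x = 0
  hP : IsPVM e P
  hQ : IsPVM e Q
  hz : ∀ r c, ¬ adj r c → P r * Q c = 0

/-- The moduli at the base column. -/
def modB (P : Row E → A) (Q : Col E → A) (x : E) : A :=
  Q (.inl true) * P (.inl x) * Q (.inl true)

/-- The sum of the parallelogram rows through two edges. -/
noncomputable def cyc (P : Row E → A) (x y z : E) : A :=
  ∑ r ∈ Finset.univ.filter (fun r : E × E × E => wv x y (.inr r) ≠ 0 ∧ wv x z (.inr r) ≠ 0),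
    P (.inr r)

namespace Sol

variable {e : A} {P : Row E → A} {Q : Col E → A} (h : Sol e P Q)
include h

lemma hz' (r : Row E) (c : Col E) (hrc : ¬ adj r c) : Q c * P r = 0 := by
  rw [← h.hP.sa, ← h.hQ.sa, ← star_mul, h.hz r c hrc, star_zero]

lemma rows {c c' : Col E} (hc : c ≠ c') (S : Finset (Row E))
    (hS : ∀ r, adj r c → adj r c' → r ∈ S) : Q c * (∑ r ∈ S, P r) * Q c' = 0 := by
  refine h.hP.sandwich (h.hQ.mul_unit c) (h.hQ.orth _ _ hc) S fun r hr => ?_
  by_cases h1 : adj r c
  · exact Or.inr (h.hz _ _ fun h3 => hr (hS r h1 h3))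
  · exact Or.inl (h.hz' _ _ h1)

lemma cols {r r' : Row E} (hr : r ≠ r') (S : Finset (Col E))
    (hS : ∀ c, adj r c → adj r' c → c ∈ S) : P r * (∑ c ∈ S, Q c) * P r' = 0 := by
  refine h.hQ.sandwich (h.hP.mul_unit r) (h.hP.orth _ _ hr) S fun c hc => ?_
  by_cases h1 : adj r c
  · exact Or.inr (h.hz' _ _ fun h3 => hc (hS c h1 h3))
  · exact Or.inl (h.hz _ _ h1)

lemma sqA1 {x y : E} (hxy : x ≠ y) : Q (.inl true) * P (.inl x) * Q (.inr s(x, y)) =
    -(Q (.inl true) * P (.inl y) * Q (.inr s(x, y))) := by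
  have := h.rows (c := .inl true) (c' := .inr s(x, y)) (by simp) {.inl x, .inl y} (by
    rintro _ ⟨v, rfl⟩ hv
    rcases ind_sub_ne ((adj_edge h.h2).mp hv) with rfl | rfl <;> simp)
  rw [Finset.sum_pair (by simpa using hxy), mul_add, add_mul] at this
  exact eq_neg_of_add_eq_zero_left this

lemma sqA2 {x y : E} (hxy : x ≠ y) : P (.inl x) * Q (.inl true) * P (.inl y) =
    -(P (.inl x) * Q (.inr s(x, y)) * P (.inl y)) := by
  have := h.cols (r := .inl x) (r' := .inl y) (by simpa using hxy) {.inl true, .inr s(x, y)} (by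
    rintro (_ | s) h1 h3
    · rename_i b
      cases b
      · obtain ⟨v, hv⟩ := h1; simp at hv
      · simp
    · obtain ⟨u, rfl⟩ := adj_inl_edge h1
      rcases ind_sub_ne ((adj_edge h.h2).mp h3) with rfl | rfl
      · exact absurd rfl hxy
      · simp)
  rw [Finset.sum_pair (by simp), mul_add, add_mul] at this
  exact eq_neg_of_add_eq_zero_left this

lemma sqB1 {x y z : E} (hxy : x ≠ y) (hyz : y ≠ z) :
    Q (.inr s(x, y)) * P (.inl x) * Q (.inr s(x, z)) =
    -(Q (.inr s(x, y)) * cyc P x y z * Q (.inr s(x, z))) := by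
  have := h.rows (c := .inr s(x, y)) (c' := .inr s(x, z)) (by simp [hyz, hxy.symm])
    (insert (.inl x) ((Finset.univ.filter
      (fun r : E × E × E => wv x y (.inr r) ≠ 0 ∧ wv x z (.inr r) ≠ 0)).map
        Function.Embedding.inr)) (by
    rintro (v | r) h1 h3
    · rcases ind_sub_ne ((adj_edge h.h2).mp h1) with rfl | rfl
      · simp
      · rcases ind_sub_ne ((adj_edge h.h2).mp h3) with rfl | rfl
        · simp
        · exact absurd rfl hyz
    · simpa using ⟨(adj_edge h.h2).mp h1, (adj_edge h.h2).mp h3⟩)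
  rw [Finset.sum_insert (by simp), Finset.sum_map, mul_add, add_mul] at this
  exact eq_neg_of_add_eq_zero_left this

lemma sqB2 {x y z : E} (hxy : x ≠ y) (hyz : y ≠ z) :
    P (.inl x) * Q (.inr s(x, y)) * cyc P x y z =
    -(P (.inl x) * Q (.inr s(x, z)) * cyc P x y z) := by
  rw [cyc, Finset.mul_sum, Finset.mul_sum, ← Finset.sum_neg_distrib]
  refine Finset.sum_congr rfl fun r hr => ?_
  obtain ⟨h1, h3⟩ := (Finset.mem_filter.mp hr).2
  have := h.cols (r := .inl x) (r' := .inr r) (by simp) {.inr s(x, y), .inr s(x, z)} (by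
    rintro (_ | s) h4 h5
    · rename_i b
      cases b
      · obtain ⟨v, hv⟩ := h4; simp at hv
      · obtain ⟨v, hv⟩ := h5; simp at hv
    · obtain ⟨u, rfl⟩ := adj_inl_edge h4
      have h6 := (wv_inr_ne.mp ((adj_edge h.h2).mp h5)).1
      have h7 := (wv_inr_ne.mp h1).1
      have h8 := (wv_inr_ne.mp h3).1
      have : u = y ∨ u = z := by
        rcases h6 with h6 | h6 <;> rcases h7 with h7 | h7 <;> rcases h8 with h8 | h8 <;>
        first
        | exact Or.inl (add_left_cancel (h6.trans h7.symm))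
        | exact Or.inr (add_left_cancel (h6.trans h8.symm))
        | exact absurd (add_left_cancel (h7.trans h8.symm)) hyz
      rcases this with rfl | rfl <;> simp)
  rw [Finset.sum_pair (by simp [hyz, hxy.symm]), mul_add, add_mul] at this
  exact eq_neg_of_add_eq_zero_left this

omit h [StarRing A] in
lemma cyc_comm (x y z : E) : cyc P x y z = cyc P x z y := by
  simp only [cyc, and_comm]

lemma cyc_move (x y z : E) : cyc P x y z = cyc P y x (x + y + z) := by
  unfold cyc
  congr 1
  apply Finset.filter_congr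
  intro r _
  have e : y + (x + y + z) = x + z := by
    rw [show y + (x + y + z) = x + z + (y + y) by abel, h.h2, add_zero]
  rw [wv_swap h.h2 x y, neg_ne_zero]
  refine and_congr_right fun h1 => ?_
  rw [wv_inr_ne, wv_inr_ne, e, phi_flip h.h2 (wv_inr_ne.mp h1).1, neg_ne_zero]

lemma cyc_sa (x y z : E) : star (cyc P x y z) = cyc P x y z := by
  simp only [cyc, star_sum, h.hP.sa]

lemma step1 {x z : E} (hxz : x ≠ z) : Q (.inl true) * P (.inl z) * Q (.inl true) * P (.inl x) =
    Q (.inl true) * P (.inl x) * Q (.inr s(x, z)) * P (.inl x) := by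
  have h1 := h.sqA2 hxz.symm
  have h3 := h.sqA1 hxz
  rw [Sym2.eq_swap] at h1
  rw [h3, mul_assoc (Q _), mul_assoc (Q _), h1]
  simp only [mul_assoc, mul_neg, neg_mul]

lemma step4 {x z : E} (hxz : x ≠ z) : P (.inl x) * Q (.inl true) * P (.inl z) * Q (.inl true) =
    P (.inl x) * Q (.inr s(x, z)) * P (.inl x) * Q (.inl true) := by
  have := congrArg star (h.step1 hxz)
  simpa only [star_mul, h.hP.sa, h.hQ.sa, mul_assoc] using this

lemma step2 {x y z : E} (hxy : x ≠ y) (hxz : x ≠ z) (hyz : y ≠ z) :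
    P (.inl x) * Q (.inr s(x, z)) * P (.inl x) * Q (.inr s(x, y)) =
    P (.inl x) * Q (.inr s(x, y)) * cyc P x y z * Q (.inr s(x, y)) := by
  rw [h.sqB2 hxy hyz, mul_assoc (P _), mul_assoc (P _), h.sqB1 hxz hyz.symm, cyc_comm x z y]
  simp only [mul_assoc, mul_neg, neg_mul]

lemma step3 {x y z : E} (hxy : x ≠ y) (hxz : x ≠ z) (hyz : y ≠ z) :
    Q (.inr s(x, y)) * cyc P x y z * Q (.inr s(x, y)) * P (.inl x) =
    Q (.inr s(x, y)) * P (.inl x) * Q (.inr s(x, z)) * P (.inl x) := by
  have := congrArg star (h.step2 hxy hxz hyz)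
  simpa only [star_mul, h.hP.sa, h.hQ.sa, h.cyc_sa, mul_assoc] using this.symm

lemma modB_sa (x : E) : star (modB P Q x) = modB P Q x := by
  simp only [modB, star_mul, h.hP.sa, h.hQ.sa, mul_assoc]

lemma base_mul (x : E) : Q (.inl true) * modB P Q x = modB P Q x := by
  simp only [modB, ← mul_assoc, h.hQ.idem]

lemma mul_base (x : E) : modB P Q x * Q (.inl true) = modB P Q x := by
  simp only [modB, mul_assoc, h.hQ.idem]

lemma modB_mul (x y : E) : modB P Q x * modB P Q y =
    Q (.inl true) * P (.inl x) * Q (.inl true) * P (.inl y) * Q (.inl true) := by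
  simp only [modB, ← mul_assoc]
  rw [mul_assoc _ (Q _) (Q _), h.hQ.idem]

lemma modB_comm (x y : E) : modB P Q x * modB P Q y = modB P Q y * modB P Q x := by
  by_cases hxy : x = y
  · rw [hxy]
  have : star (modB P Q x * modB P Q y) = modB P Q x * modB P Q y := by
    rw [h.modB_mul, h.step1 (Ne.symm hxy)]
    simp only [star_mul, h.hP.sa, h.hQ.sa, mul_assoc]
  rw [← this, star_mul, h.modB_sa, h.modB_sa]

lemma modB_sum : ∑ x, modB P Q x = Q (.inl true) := by
  have : Q (.inl true) * (∑ r, P r) * Q (.inl true) = Q (.inl true) := by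
    rw [h.hP.sum, h.hQ.mul_unit, h.hQ.idem]
  rw [← this, Fintype.sum_sum_type, mul_add, add_mul, Finset.mul_sum, Finset.mul_sum,
    Finset.sum_mul, Finset.sum_mul, Finset.sum_eq_zero (f := fun r => _ * P (.inr r) * _), add_zero]
  · rfl
  · intro r _
    rw [h.hz' _ _ (by rintro ⟨v, hv⟩; simp at hv), zero_mul]

lemma monodromy {x y z : E} (hxy : x ≠ y) (hxz : x ≠ z) (hyz : y ≠ z) :
    modB P Q z * (modB P Q x * modB P Q y) = modB P Q x * modB P Q y * modB P Q (x + y + z) := by
  have hT : modB P Q x * modB P Q y =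
      -(Q (.inl true) * P (.inl x) * Q (.inr s(x, y)) * P (.inl y) * Q (.inl true)) := by
    rw [h.modB_mul, mul_assoc (Q _) (P _), mul_assoc (Q _), h.sqA2 hxy]
    simp only [mul_assoc, mul_neg, neg_mul]
  have e1 : ∀ a b : E, a + b + a = b := fun a b => by rw [add_right_comm, h.h2, zero_add]
  have hl1 : y ≠ x + y + z := fun e => hxz (by
    have := congrArg (fun t => y + t + x) e
    simp only [h.h2, zero_add] at this
    rw [this, show y + (x + y + z) + x = (x + (y + z + y) + x) by abel, e1, e1])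
  have hl2 : x ≠ x + y + z := fun e => hyz (by
    have := congrArg (fun t => x + t + y) e
    simp only [h.h2, zero_add] at this
    rw [this, show x + (x + y + z) + y = (x + (y + z + y) + x) by abel, e1, e1])
  have s3 := h.step3 hxy.symm hl1 hl2
  rw [← h.cyc_move, Sym2.eq_swap (a := y) (b := x)] at s3
  have s1 := h.step1 hxz
  have s2 := h.step2 hxy hxz hyz
  have s4 := h.step4 hl1
  rw [hT, mul_neg, neg_mul, neg_inj]
  calc modB P Q z * (Q (.inl true) * P (.inl x) * Q (.inr s(x, y)) * P (.inl y) * Q (.inl true))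
      = (Q (.inl true) * P (.inl z) * Q (.inl true) * P (.inl x)) * Q (.inr s(x, y)) *
          P (.inl y) * Q (.inl true) := by
        simp only [modB, ← mul_assoc]
        rw [mul_assoc _ (Q (.inl true)) (Q (.inl true)), h.hQ.idem]
    _ = Q (.inl true) * (P (.inl x) * Q (.inr s(x, z)) * P (.inl x) * Q (.inr s(x, y))) *
          P (.inl y) * Q (.inl true) := by rw [s1]; simp only [mul_assoc]
    _ = Q (.inl true) * P (.inl x) * (Q (.inr s(x, y)) * cyc P x y z * Q (.inr s(x, y)) *
          P (.inl y)) * Q (.inl true) := by rw [s2]; simp only [mul_assoc]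
    _ = Q (.inl true) * P (.inl x) * Q (.inr s(x, y)) * (P (.inl y) *
          Q (.inr s(y, x + y + z)) * P (.inl y) * Q (.inl true)) := by
        rw [s3]; simp only [mul_assoc]
    _ = _ := by
        rw [← s4]
        simp only [modB, ← mul_assoc]
        rw [mul_assoc _ (Q (.inl true)) (Q (.inl true)), h.hQ.idem]

lemma tri {x y z : E} (hxy : x ≠ y) (hxz : x ≠ z) (hyz : y ≠ z) :
    (modB P Q x - modB P Q y) * (modB P Q x * modB P Q y * modB P Q z) = 0 := by
  have h1 := h.monodromy hyz hxy.symm hxz.symm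
  have h3 := h.monodromy hxz hxy hyz.symm
  rw [show y + z + x = x + z + y by abel] at h1
  rw [sub_mul, sub_eq_zero]
  calc modB P Q x * (modB P Q x * modB P Q y * modB P Q z)
      = modB P Q x * (modB P Q y * modB P Q z * modB P Q (x + z + y)) := by
        rw [← h1, mul_assoc]
    _ = modB P Q y * (modB P Q x * modB P Q z * modB P Q (x + z + y)) := by
        simp only [← mul_assoc, h.modB_comm x y]
    _ = _ := by rw [← h3, h.modB_comm x y, mul_assoc]

end Sol

end exact

section proj

variable {E : Type} [AddCommGroup E] [DecidableEq E] [Fintype E] {A : TAlg}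

/-- A normalised product of three moduli. -/
noncomputable def blk (P : Row E → A) (Q : Col E → A) (t : E × E × E) : A :=
  ((Fintype.card E : ℂ) ^ 3) • (modB P Q t.1 * modB P Q t.2.1 * modB P Q t.2.2)

/-- The projection on which all moduli are equal. -/
noncomputable def zz (P : Row E → A) (Q : Col E → A) : A :=
  (Finset.univ.toList.map (blk P Q)).prod * Q (.inl true)

namespace Sol

variable {e : A} {P : Row E → A} {Q : Col E → A} (h : Sol e P Q)
include h

omit h [AddCommGroup E] [DecidableEq E] in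
lemma comm_blk {c : A} (hc : ∀ x, c * modB P Q x = modB P Q x * c) (t : E × E × E) :
    c * blk P Q t = blk P Q t * c := by
  simp only [blk, mul_smul_comm, smul_mul_assoc]
  congr 1
  rw [← mul_assoc, ← mul_assoc, hc, mul_assoc _ c, hc, mul_assoc, mul_assoc, hc]
  simp only [mul_assoc]

lemma blk_sa (t : E × E × E) : star (blk P Q t) = blk P Q t := by
  simp only [blk, star_smul, star_mul, h.modB_sa, star_pow, star_natCast]
  congr 1
  rw [h.modB_comm t.2.1, ← mul_assoc, h.modB_comm t.2.2, mul_assoc, h.modB_comm t.2.2, mul_assoc]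

lemma base_zz : Q (.inl true) * zz P Q = zz P Q := by
  rw [zz, ← mul_assoc, list_comm _ _ (comm_blk fun x => by rw [h.base_mul, h.mul_base]),
    mul_assoc, h.hQ.idem]

omit h [AddCommGroup E] [DecidableEq E] in
lemma blk_fix {v : A} (hv : ∀ x, (Fintype.card E : ℂ) • (modB P Q x * v) = v) (t : E × E × E) :
    blk P Q t * v = v := by
  have : blk P Q t * v = (Fintype.card E : ℂ) • (modB P Q t.1 * (Fintype.card E : ℂ) •
      (modB P Q t.2.1 * (Fintype.card E : ℂ) • (modB P Q t.2.2 * v))) := by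
    simp only [blk, mul_smul_comm, smul_mul_assoc, smul_smul, mul_assoc, pow_three]
  rw [this, hv, hv, hv]

lemma zz_fix {v : A} (h0 : Q (.inl true) * v = v)
    (hv : ∀ x, (Fintype.card E : ℂ) • (modB P Q x * v) = v) : zz P Q * v = v := by
  rw [zz, mul_assoc, h0, list_fix _ _ (blk_fix hv)]

variable (h3 : ∀ x y : E, ∃ w, x ≠ w ∧ y ≠ w)
include h3

lemma modB_zz (x : E) : (Fintype.card E : ℂ) • (modB P Q x * zz P Q) = zz P Q := by
  have h1 : ∀ y, modB P Q y * zz P Q = modB P Q x * zz P Q := by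
    intro y
    by_cases hxy : y = x
    · rw [hxy]
    obtain ⟨w, hw1, hw2⟩ := h3 y x
    rw [← sub_eq_zero, ← sub_mul, zz, ← mul_assoc,
      list_kill (blk P Q) (modB P Q y - modB P Q x)
        (comm_blk fun u => by rw [sub_mul, mul_sub, h.modB_comm y, h.modB_comm x]) _
        (t := (y, x, w)) (by simp) (by rw [blk, mul_smul_comm, h.tri hxy hw1 hw2, smul_zero]),
      zero_mul]
  conv_rhs => rw [← h.base_zz, ← h.modB_sum, Finset.sum_mul]
  simp only [h1, Finset.sum_const, Finset.card_univ, Nat.cast_smul_eq_nsmul]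

lemma zz_idem : zz P Q * zz P Q = zz P Q := h.zz_fix h.base_zz (h.modB_zz h3)

lemma zz_sa : star (zz P Q) = zz P Q := by
  have : star (zz P Q) * zz P Q = zz P Q := by
    conv_lhs => lhs; rw [zz, star_mul, h.hQ.sa]
    rw [mul_assoc, list_fix_star _ _ fun t => by rw [h.blk_sa, blk_fix (h.modB_zz h3)],
      h.base_zz]
  rw [← this, star_mul, star_star]

omit h3 in
lemma zz_max (hA : ∀ a : A, nrm a = 0 → a = 0) {v : A} (h0 : Q (.inl true) * v = v) {x y : E}
    (hxy : x ≠ y) (hx : (Fintype.card E : ℂ) • (modB P Q x * v) = v)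
    (hy : (Fintype.card E : ℂ) • (modB P Q y * v) = v) : zz P Q * v = v := by
  set m : ℂ := (Fintype.card E : ℂ) with hm
  let N : E → A := fun k => v - m • (modB P Q k * v)
  have h1 : ∀ k, modB P Q k * N k = 0 := by
    intro k
    by_cases hkx : k = x
    · simp only [N, hkx, hx, sub_self, mul_zero]
    by_cases hky : k = y
    · simp only [N, hky, hy, sub_self, mul_zero]
    have ht := h.tri (Ne.symm hkx) hxy hky
    have e1 : m • (m • (modB P Q x * modB P Q k * modB P Q y * v)) = modB P Q k * v := by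
      rw [h.modB_comm x, mul_assoc, mul_assoc, ← mul_smul_comm, ← mul_smul_comm _ (modB P Q x), hy,
        ← mul_smul_comm, hx]
    have e2 : (modB P Q x - modB P Q k) * (modB P Q k * v) = 0 := by
      rw [← e1, mul_smul_comm, mul_smul_comm, ← mul_assoc, ht, zero_mul, smul_zero, smul_zero]
    rw [sub_mul, ← mul_assoc, h.modB_comm x, mul_assoc, sub_eq_zero] at e2
    simp only [N, mul_sub, mul_smul_comm, ← e2]
    rw [← mul_smul_comm, hx, sub_self]
  have h4 : ∀ k, star (N k) * N k = star v * N k := by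
    intro k
    conv_lhs => lhs; simp only [N]
    rw [star_sub, sub_mul, star_smul, star_mul, h.modB_sa, smul_mul_assoc, mul_assoc, h1, mul_zero,
      smul_zero, sub_zero]
  have h5 : ∑ k, N k = 0 := by
    simp only [N, Finset.sum_sub_distrib, ← Finset.smul_sum, ← Finset.sum_mul, h.modB_sum, h0,
      Finset.sum_const, Finset.card_univ, hm, Nat.cast_smul_eq_nsmul, sub_self]
  have h6 : ∑ k, nrm (N k) ^ 2 = 0 := by
    simp only [nrm_sq, h4, ← Complex.re_sum, ← map_sum, ← Finset.mul_sum, h5, mul_zero, map_zero,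
      Complex.zero_re]
  refine h.zz_fix h0 fun k => ?_
  have := (Finset.sum_eq_zero_iff_of_nonneg fun k _ => sq_nonneg (nrm (N k))).mp h6 k
    (Finset.mem_univ k)
  exact (sub_eq_zero.mp (hA _ (pow_eq_zero_iff two_ne_zero |>.mp this))).symm

omit h3 in
lemma fine_zero {O : Type*} [Fintype O] {x y : E} (hxy : x ≠ y) {p p' : A} {q : O → A}
    (hp : p * P (.inl x) = p) (hp' : P (.inl y) * p' = p') (hq : ∑ a, q a = Q (.inr s(x, y)))
    (h0 : ∀ a, p * q a = 0 ∨ q a * p' = 0) :
    Q (.inl true) * p * Q (.inl true) * (Q (.inl true) * p' * Q (.inl true)) = 0 := by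
  have h1 : p * Q (.inr s(x, y)) * p' = 0 := by
    rw [← hq, Finset.mul_sum, Finset.sum_mul]
    refine Finset.sum_eq_zero fun a _ => ?_
    rcases h0 a with h1 | h1
    · rw [h1, zero_mul]
    · rw [mul_assoc, h1, mul_zero]
  have h4 : p * Q (.inl true) * p' = 0 := by
    rw [← hp, ← hp', mul_assoc p, mul_assoc p, ← mul_assoc _ _ p', h.sqA2 hxy]
    simp only [mul_neg, neg_mul, ← mul_assoc, hp]
    rw [mul_assoc _ _ p', hp', h1, neg_zero]
  calc _ = Q (.inl true) * (p * (Q (.inl true) * Q (.inl true)) * p') * Q (.inl true) := by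
        simp only [mul_assoc]
    _ = 0 := by rw [h.hQ.idem, h4, mul_zero, zero_mul]

lemma fine_pvm (hA : ∀ a : A, nrm a = 0 → a = 0) {O : Type*} [Fintype O] (K : E → O → A)
    (hsa : ∀ x a, star (K x a) = K x a) (hsum : ∀ x, ∑ a, K x a = modB P Q x)
    (hb : ∀ x a, Q (.inl true) * K x a = K x a) {x d d' : E} (h1 : x ≠ d) (h2 : x ≠ d')
    (h4 : d ≠ d') (S : Set E) (hx : x ∈ S) (hd : d ∈ S) (hd' : d' ∈ S)
    (h0 : ∀ u ∈ S, ∀ v ∈ S, u ≠ v → ∀ a b, a ≠ b → K u a * K v b = 0) :
    (∀ a, K x a * zz P Q = K d a * zz P Q) ∧ (∀ a, zz P Q * (K x a * zz P Q) = K x a * zz P Q) ∧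
      IsPVM (zz P Q) fun a => (Fintype.card E : ℂ) • (K x a * zz P Q) := by
  set m : ℂ := (Fintype.card E : ℂ) with hm
  have t1 : ∀ u ∈ S, ∀ v ∈ S, u ≠ v → ∀ a,
      m • (modB P Q u * (K v a * zz P Q)) = K u a * zz P Q := by
    intro u hu v hv huv a
    have e1 : modB P Q u * K v a = K u a * modB P Q v := by
      rw [← hsum, ← hsum, Finset.sum_mul, Finset.mul_sum,
        Finset.sum_eq_single a (fun b _ hb => h0 u hu v hv huv b a hb) (by simp),
        Finset.sum_eq_single a (fun b _ hb => h0 u hu v hv huv a b hb.symm) (by simp)]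
    rw [← mul_assoc, e1, mul_assoc, ← mul_smul_comm, h.modB_zz h3]
  have t2 : ∀ u ∈ S, ∀ v ∈ S, ∀ w ∈ S, u ≠ v → u ≠ w → v ≠ w → ∀ a,
      K u a * zz P Q = K v a * zz P Q := by
    intro u hu v hv w hw huv huw hvw a
    calc K u a * zz P Q = m • (modB P Q u * (m • (modB P Q v * (K w a * zz P Q)))) := by
          rw [t1 v hv w hw hvw, t1 u hu v hv huv]
      _ = m • (modB P Q v * (m • (modB P Q u * (K w a * zz P Q)))) := by
          simp only [mul_smul_comm, ← mul_assoc, h.modB_comm u v]
      _ = _ := by rw [t1 u hu w hw huw, t1 v hv u hu huv.symm]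
  have t3 : ∀ a, zz P Q * (K x a * zz P Q) = K x a * zz P Q := fun a =>
    h.zz_max hA (by rw [← mul_assoc, hb]) h4
      (by rw [t1 d hd x hx h1.symm, t2 x hx d hd d' hd' h1 h2 h4])
      (by rw [t1 d' hd' x hx h2.symm, t2 x hx d' hd' d hd h2 h1 h4.symm])
  have t4 : ∀ a b, a ≠ b → (m • (K x a * zz P Q)) * (m • (K x b * zz P Q)) = 0 := by
    intro a b hab
    rw [smul_mul_smul_comm, mul_assoc, t3, t2 x hx d hd d' hd' h1 h2 h4, ← mul_assoc,
      h0 x hx d hd h1 a b hab, zero_mul, smul_zero]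
  have t5 : ∑ a, m • (K x a * zz P Q) = zz P Q := by
    rw [← Finset.smul_sum, ← Finset.sum_mul, hsum, h.modB_zz h3]
  refine ⟨t2 x hx d hd d' hd' h1 h2 h4, t3, fun a => ?_, fun a => ?_, t4, t5⟩
  · rw [star_smul, ← t3, star_mul, star_mul, hsa, h.zz_sa h3, mul_assoc, hm, star_natCast]
  · have : (m • (K x a * zz P Q)) * ∑ b, m • (K x b * zz P Q) = m • (K x a * zz P Q) := by
      rw [t5, smul_mul_assoc, mul_assoc, h.zz_idem h3]
    rwa [Finset.mul_sum, Finset.sum_eq_single a (fun b _ hb => t4 a b hb.symm) (by simp)] at this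

end Sol

end proj

end Pool.Agent.Lib.MP_64d6f1_an
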