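import Pool.Agent.Lib.MP_64d6f1_an.HostAlg

/-! A matrix model for the rigid pattern. -/

open scoped ComplexConjugate
open Matrix

namespace Pool.Agent.Lib.MP_64d6f1_an

variable {E : Type} [AddCommGroup E] [DecidableEq E] [Fintype E]

omit [AddCommGroup E] in
lemma sum_ind_mul (u : E) (f : E → ℤ) : ∑ i, ind u i * f i = f u := by
  simp [ind]

omit [AddCommGroup E] [Fintype E] in
lemma ind_comm (u v : E) : ind u v = ind v u := by simp only [ind, eq_comm]

omit [Fintype E] in
lemma phi_comm (a b t : E) : phi a b t = phi b a t := by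
  simp only [phi, add_comm a b]; ring

section
variable (h2 : ∀ x : E, x + x = 0)
include h2

lemma sum_ind_add (x u : E) (f : E → ℤ) : ∑ i, ind (x + i) u * f i = f (u + x) := by
  rw [← sum_ind_mul (u + x) f]
  exact Finset.sum_congr rfl fun i _ => by rw [add_comm x, ind_add h2, ind_comm]

lemma phi_conv (a b x x' : E) :
    ∑ i, phi a b (x + i) * phi a b (x' + i) = 4 * phi a b (x + x') := by
  conv_lhs => enter [2, i]; rw [phi]
  simp only [sub_mul, add_mul, Finset.sum_add_distrib, Finset.sum_sub_distrib, sum_ind_add h2]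
  rw [show x' + (0 + x) = x + x' by abel, show x' + (a + x) = x + x' + a by abel,
    show x' + (b + x) = x + x' + b by abel, show x' + (a + b + x) = x + x' + a + b by abel,
    phi_add_right h2 a b (x + x' + a), phi_add_left h2, phi_add_right h2]
  ring

lemma sum_phi (d t : E) : ∑ b, phi d b t = Fintype.card E * (ind t 0 - ind t d) := by
  have h3 : ∑ b, ind t b = 1 := by simpa using sum_ind_mul t fun _ => 1
  have h4 : ∑ b, ind t (d + b) = 1 := by
    simpa [ind_comm t] using sum_ind_add h2 d t fun _ => 1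
  simp only [phi, Finset.sum_add_distrib, Finset.sum_sub_distrib, h3, h4, Finset.sum_const,
    Finset.card_univ, nsmul_eq_mul]
  ring

lemma inner_wv (x y x' y' : E) :
    8 * ∑ v, wv x y (.inl v) * wv x' y' (.inl v) + ∑ r, wv x y (.inr r) * wv x' y' (.inr r) =
      8 * (Fintype.card E * (ind (x + y) (x' + y') * (ind (x + x') 0 - ind (x + x') (x + y)))) := by
  have e1 : ∑ v, wv x y (.inl v) * wv x' y' (.inl v) = phi (x + y) (x' + y') (x + x') := by
    simp only [wv, sub_mul, Finset.sum_sub_distrib, ind_comm _ x, ind_comm _ y, sum_ind_mul, phi,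
      ind_add h2 x x', zero_add]
    rw [show x' + y' + x' = y' + (x' + x') by abel, h2, add_zero,
      show x + y + (x' + y') + x' = x + (y + y') + (x' + x') by abel, h2, add_zero]
    have k1 : ind x (x + y + x') = ind y x' := by
      rw [add_assoc, add_comm x, ← ind_add h2, h2, ← ind_add h2, zero_add, ind_comm]
    have k2 : ind x (x + (y + y')) = ind y y' := by
      rw [add_comm x, ← ind_add h2, h2, ← ind_add h2, zero_add, ind_comm]
    rw [k1, k2]
    simp only [ind_comm x, ind_comm y]
    ring
  have e2 : ∑ r, wv x y (.inr r) * wv x' y' (.inr r) = ∑ a, ∑ b,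
      (ind (x + y) a - ind (x + y) b) * (ind (x' + y') a - ind (x' + y') b) *
        (4 * phi a b (x + x')) := by
    rw [Fintype.sum_prod_type, Finset.sum_comm, Fintype.sum_prod_type]
    refine Finset.sum_congr rfl fun a _ => Finset.sum_congr rfl fun b _ => ?_
    rw [← phi_conv h2, Finset.mul_sum]
    exact Finset.sum_congr rfl fun i _ => by simp only [wv]; ring
  have e3 : ∀ d d' t : E, ∑ a, ∑ b, ind d a * (ind d' a * phi a b t) =
      ind d d' * (Fintype.card E * (ind t 0 - ind t d)) := by
    intro d d' t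
    simp only [← Finset.mul_sum, sum_ind_mul, sum_phi h2, ind_comm d']
  have e4 : ∀ d d' t : E, ∑ a, ∑ b, ind d a * (ind d' b * phi a b t) = phi d d' t := by
    intro d d' t
    simp only [← Finset.mul_sum, sum_ind_mul]
  have e5 : ∀ (d d' t : E), ∑ a, ∑ b, (ind d a - ind d b) * (ind d' a - ind d' b) *
      (4 * phi a b t) = 4 * (∑ a, ∑ b, ind d a * (ind d' a * phi a b t) +
      ∑ b, ∑ a, ind d b * (ind d' b * phi b a t) - ∑ a, ∑ b, ind d a * (ind d' b * phi a b t)
      - ∑ b, ∑ a, ind d b * (ind d' a * phi b a t)) := by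
    intro d d' t
    have c1 : ∑ b, ∑ a, ind d b * (ind d' b * phi b a t) =
        ∑ a, ∑ b, ind d b * (ind d' b * phi b a t) := Finset.sum_comm
    have c2 : ∑ b, ∑ a, ind d b * (ind d' a * phi b a t) =
        ∑ a, ∑ b, ind d b * (ind d' a * phi b a t) := Finset.sum_comm
    conv_rhs => enter [2, 1, 1, 2]; rw [c1]
    conv_rhs => enter [2, 2]; rw [c2]
    simp only [← Finset.sum_add_distrib, ← Finset.sum_sub_distrib, Finset.mul_sum]
    refine Finset.sum_congr rfl fun a _ => Finset.sum_congr rfl fun b _ => ?_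
    rw [phi_comm b a]; ring
  rw [e1, e2, e5, e3, e4]
  ring

end

/-- Scaling of the rows. -/
noncomputable def sc : Row E → ℝ
  | .inl _ => 1
  | .inr _ => (√8)⁻¹

/-- The vector attached to a directed edge. -/
noncomputable def wc (x y : E) (r : Row E) : ℂ := sc r * wv x y r

/-- The base vector. -/
def w0 : Row E → ℂ := Sum.elim 1 0

/-- The rank one operator `m⁻¹ w wᵀ`. -/
noncomputable def rk (w : Row E → ℂ) : Matrix (Row E) (Row E) ℂ :=
  (Fintype.card E : ℂ)⁻¹ • vecMulVec w w

omit [AddCommGroup E] [DecidableEq E] in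
lemma rk_mul (v w : Row E → ℂ) : rk v * rk w =
    ((Fintype.card E : ℂ)⁻¹ * (Fintype.card E : ℂ)⁻¹ * (v ⬝ᵥ w)) • vecMulVec v w := by
  ext i j
  simp only [rk, smul_mul_smul_comm, vecMulVec_mul_vecMulVec, Matrix.smul_apply, vecMulVec_apply,
    Pi.smul_apply, smul_eq_mul]
  ring

omit [DecidableEq E] in
lemma card_ne : (Fintype.card E : ℂ) ≠ 0 := by exact_mod_cast Fintype.card_ne_zero

omit [DecidableEq E] in
lemma rk_idem {v : Row E → ℂ} (h : v ⬝ᵥ v = Fintype.card E ∨ v = 0) : rk v * rk v = rk v := by
  rcases h with h | rfl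
  · rw [rk_mul, h, mul_assoc, inv_mul_cancel₀ card_ne, mul_one, rk]
  · simp [rk]

omit [AddCommGroup E] [DecidableEq E] in
lemma rk_sa {v : Row E → ℂ} (h : ∀ r, conj (v r) = v r) : star (rk v) = rk v := by
  ext i j
  simp [rk, vecMulVec_apply, h, mul_comm]

omit [Fintype E] in
lemma conj_wc (x y : E) (r : Row E) : conj (wc x y r) = wc x y r := by simp [wc]

omit [Fintype E] [AddCommGroup E] [DecidableEq E] in
lemma conj_w0 (r : Row E) : conj (w0 r) = w0 r := by rcases r with _ | _ <;> simp [w0]

variable (h2 : ∀ x : E, x + x = 0)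

/-- The edge projections. -/
noncomputable def QE : Sym2 E → Matrix (Row E) (Row E) ℂ :=
  Sym2.lift ⟨fun x y => rk (wc x y), fun x y => by
    ext i j
    simp [rk, vecMulVec_apply, wc, wv_swap h2 x y]⟩

/-- The column projections of the model. -/
noncomputable def QM : Col E → Matrix (Row E) (Row E) ℂ
  | .inl true => rk w0
  | .inl false => 1 - (rk w0 + ∑ s, QE h2 s)
  | .inr s => QE h2 s

/-- The row projections of the model. -/
def PM (r : Row E) : Matrix (Row E) (Row E) ℂ := Matrix.single r r 1

omit [AddCommGroup E] in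
lemma PM_pvm : IsPVM (1 : Matrix (Row E) (Row E) ℂ) PM where
  sa r := by simp [PM, star_eq_conjTranspose]
  idem r := by simp [PM]
  orth r r' h := by simp only [PM]; exact single_mul_single_of_ne _ _ _ _ h _
  sum := by
    ext i j
    simp only [PM, Matrix.sum_apply, Matrix.single_apply, Matrix.one_apply]
    by_cases h : i = j
    · subst h; simp
    · rw [if_neg h]
      exact Finset.sum_eq_zero fun r _ => if_neg fun h' => h (h'.1.symm.trans h'.2)

include h2 in
lemma dot_wc (x y x' y' : E) : wc x y ⬝ᵥ wc x' y' = Fintype.card E *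
    ((ind (x + y) (x' + y') * (ind (x + x') 0 - ind (x + x') (x + y)) : ℤ) : ℂ) := by
  have h := congrArg (fun t : ℤ => (t : ℂ)) (inner_wv h2 x y x' y')
  have h8 : (((√8)⁻¹ : ℝ) : ℂ) * ((√8)⁻¹ : ℝ) = 8⁻¹ := by
    rw [← Complex.ofReal_mul, ← mul_inv, Real.mul_self_sqrt (by norm_num)]
    simp
  have e : ∀ r, wc x y (.inr r) * wc x' y' (.inr r) =
      8⁻¹ * ((wv x y (.inr r) : ℂ) * wv x' y' (.inr r)) := fun r => by
    rw [← h8]; simp only [wc, sc]; ring
  simp only [dotProduct, Fintype.sum_sum_type, e, ← Finset.mul_sum]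
  simp only [wc, sc, Complex.ofReal_one, one_mul]
  push_cast at h ⊢
  linear_combination h / 8

lemma dot_w0 (x y : E) : w0 ⬝ᵥ wc x y = 0 := by
  simp [dotProduct, w0, wc, sc, wv, ind, Finset.sum_sub_distrib]

lemma QE_idem (s : Sym2 E) : QE h2 s * QE h2 s = QE h2 s := by
  induction s using Sym2.ind with
  | h x y =>
    apply rk_idem
    by_cases hxy : x = y
    · right
      ext r
      subst hxy
      have := wv_swap h2 x x r
      simp [wc, (show wv x x r = 0 by omega)]
    · left
      have : (0 : E) ≠ x + y := fun e => hxy (by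
        rw [← add_left_inj y, ← e, h2])
      simp [dot_wc h2, ind, h2, this]

lemma QE_orth {s t : Sym2 E} (hst : s ≠ t) : QE h2 s * QE h2 t = 0 := by
  induction s using Sym2.ind with
  | h x y =>
  induction t using Sym2.ind with
  | h x' y' =>
    have : ind (x + y) (x' + y') * (ind (x + x') 0 - ind (x + x') (x + y)) = 0 := by
      by_cases h : x + y = x' + y'
      · have h3 : x + x' ≠ 0 := fun e => hst (by
          have : x = x' := by rw [← add_left_inj x', e, h2]
          subst this
          rw [add_left_cancel h])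
        have h4 : x' ≠ y := fun e => hst (by
          subst e
          rw [add_comm x] at h
          rw [add_left_cancel h, Sym2.eq_swap])
        simp [ind, h3, h4]
      · simp [ind, h]
    change rk _ * rk _ = 0
    rw [rk_mul, dot_wc h2, this]
    simp

lemma base_QE (s : Sym2 E) : rk w0 * QE h2 s = 0 := by
  induction s using Sym2.ind with
  | h x y =>
    change rk _ * rk _ = 0
    rw [rk_mul, dot_w0]
    simp

lemma QE_sa (s : Sym2 E) : star (QE h2 s) = QE h2 s := by
  induction s using Sym2.ind with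
  | h x y => exact rk_sa (conj_wc x y)

omit [DecidableEq E] in
lemma base_idem : rk (w0 : Row E → ℂ) * rk w0 = rk w0 :=
  rk_idem (Or.inl (by simp [dotProduct, w0]))

lemma QM_pvm : IsPVM (1 : Matrix (Row E) (Row E) ℂ) (QM h2) := by
  have a0 : star (rk (w0 : Row E → ℂ)) = rk w0 := rk_sa conj_w0
  have a1 : ∀ s, QE h2 s * rk w0 = 0 := fun s => by
    rw [← QE_sa, ← a0, ← star_mul, base_QE, star_zero]
  have aT : star (rk w0 + ∑ s, QE h2 s) = rk w0 + ∑ s, QE h2 s := by
    simp only [star_add, star_sum, a0, QE_sa]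
  have a2 : (rk w0 + ∑ s, QE h2 s) * rk w0 = rk w0 := by
    simp [add_mul, Finset.sum_mul, a1, base_idem]
  have a3 : ∀ t, (rk w0 + ∑ s, QE h2 s) * QE h2 t = QE h2 t := fun t => by
    rw [add_mul, base_QE, zero_add, Finset.sum_mul,
      Finset.sum_eq_single t (fun s _ hs => QE_orth h2 hs) (by simp), QE_idem]
  have a4 : rk w0 * (rk w0 + ∑ s, QE h2 s) = rk w0 := by
    have := congrArg star a2
    rwa [star_mul, aT, a0] at this
  have a5 : ∀ t, QE h2 t * (rk w0 + ∑ s, QE h2 s) = QE h2 t := fun t => by
    rw [← QE_sa, ← aT, ← star_mul, a3]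
  have a6 : (rk w0 + ∑ s, QE h2 s) * (rk w0 + ∑ s, QE h2 s) = rk w0 + ∑ s, QE h2 s := by
    rw [mul_add, a2, Finset.mul_sum]; simp only [a3]
  refine ⟨?_, ?_, ?_, ?_⟩
  · rintro ((_ | _) | s)
    · simp only [QM, star_sub, star_one, aT]
    · exact a0
    · exact QE_sa h2 s
  · rintro ((_ | _) | s)
    · simp only [QM, sub_mul, mul_sub, one_mul, mul_one, a6, sub_self, sub_zero]
    · exact base_idem
    · exact QE_idem h2 s
  · rintro ((_ | _) | s) ((_ | _) | t) h
    · exact absurd rfl h
    · simp only [QM, sub_mul, one_mul, a2, sub_self]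
    · simp only [QM, sub_mul, one_mul, a3, sub_self]
    · simp only [QM, mul_sub, mul_one, a4, sub_self]
    · exact absurd rfl h
    · exact base_QE h2 t
    · simp only [QM, mul_sub, mul_one, a5, sub_self]
    · exact a1 s
    · exact QE_orth h2 fun e => h (by rw [e])
  · simp only [Fintype.sum_sum_type, QM, Fintype.sum_bool]
    abel

omit [AddCommGroup E] in
lemma PM_mul_eq_zero {r : Row E} {M : Matrix (Row E) (Row E) ℂ} (h : ∀ j, M r j = 0) :
    PM r * M = 0 := by
  ext i j
  by_cases hi : i = r
  · subst hi; simp [PM, h]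
  · simp [PM, Matrix.mul_apply, Matrix.single_apply, Ne.symm hi]

lemma PM_QM (r : Row E) (c : Col E) (h : ¬ adj r c) : PM r * QM h2 c = 0 := by
  apply PM_mul_eq_zero
  intro j
  rcases c with (_ | _) | s
  · rcases r with v | r
    swap
    · exact absurd ⟨r, rfl⟩ h
    have e1 : ∑ s, QE h2 s (.inl v) j = ∑ y, (Fintype.card E : ℂ)⁻¹ * wc v y j := by
      symm
      refine Fintype.sum_of_injective (fun y => s(v, y)) (fun y y' e => Sym2.congr_right.mp e) _ _
        (fun s hs => ?_) fun y => ?_
      · induction s using Sym2.ind with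
        | h a b =>
          have ha : v ≠ a := fun e => hs ⟨b, by rw [e]⟩
          have hb : v ≠ b := fun e => hs ⟨a, by rw [e, Sym2.eq_swap]⟩
          simp [QE, rk, vecMulVec_apply, wc, wv, ind, ha, hb]
      · by_cases hy : v = y
        · subst hy
          have := wv_swap h2 v v j
          simp [QE, rk, vecMulVec_apply, wc, (show wv v v j = 0 by omega)]
        · simp [QE, rk, vecMulVec_apply, wc, wv, ind, hy, sc]
    simp only [QM, Matrix.sub_apply, Matrix.add_apply, Matrix.sum_apply, e1, ← Finset.mul_sum]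
    have hm := card_ne (E := E)
    rcases j with u | ⟨i, a, b⟩
    · by_cases huv : u = v
      · subst huv
        simp [rk, vecMulVec_apply, w0, wc, sc, wv, ind]
        field_simp
        ring
      · simp [rk, vecMulVec_apply, w0, wc, sc, wv, ind, huv, Ne.symm huv]
    · have : ∑ y, wv v y (.inr (i, a, b)) = 0 := by
        simp only [wv, sub_mul, Finset.sum_sub_distrib, sum_ind_add h2, sub_self]
      simp only [wc, ← Finset.mul_sum, ← Int.cast_sum, this]
      simp [rk, vecMulVec_apply, w0]
  · rcases r with v | r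
    · exact absurd ⟨v, rfl⟩ h
    · simp [QM, rk, vecMulVec_apply, w0]
  · induction s using Sym2.ind with
    | h x y =>
      rw [adj_edge h2, not_not] at h
      simp [QM, QE, rk, vecMulVec_apply, wc, h]

lemma base_PM (x : E) : rk w0 * PM (.inl x) * rk w0 = (Fintype.card E : ℂ)⁻¹ • rk w0 := by
  ext i j
  simp [rk, PM, vecMulVec_apply, Matrix.mul_apply, Matrix.single_apply, w0, ite_and]
  ring

omit [DecidableEq E] in
lemma trace_base : (rk (w0 : Row E → ℂ)).trace = 1 := by
  simp [rk, trace_vecMulVec, dotProduct, w0]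

end Pool.Agent.Lib.MP_64d6f1_an
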