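import Pool.Agent.Lib.MP_64d6f1_an.Amp

/-! From relations between observables to zero patterns. -/

open scoped ComplexConjugate
open Filter Topology

namespace Pool.Agent.Lib.MP_64d6f1_an

open TAlg

section obs

variable {A : Type*} [Ring A] [StarRing A] [Algebra ℂ A] [StarModule ℂ A] {O : Type*} [Fintype O]

/-- The observable attached to a function on the outcomes. -/
noncomputable def obs (φ : O → ℂ) (Y : O → A) : A := ∑ a, φ a • Y a

variable {e : A} {Y : O → A}

omit [StarModule ℂ A] in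
lemma IsPVM.obs_mul_right (h : IsPVM e Y) (φ : O → ℂ) (a : O) : obs φ Y * Y a = φ a • Y a := by
  rw [obs, Finset.sum_mul, Finset.sum_eq_single a
    (fun b _ hb => by rw [smul_mul_assoc, h.orth b a hb, smul_zero]) (by simp), smul_mul_assoc,
    h.idem]

omit [StarModule ℂ A] in
lemma IsPVM.obs_mul_left (h : IsPVM e Y) (φ : O → ℂ) (a : O) : Y a * obs φ Y = φ a • Y a := by
  rw [obs, Finset.mul_sum, Finset.sum_eq_single a
    (fun b _ hb => by rw [mul_smul_comm, h.orth a b hb.symm, smul_zero]) (by simp), mul_smul_comm,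
    h.idem]

omit [StarModule ℂ A] in
lemma IsPVM.obs_mul (h : IsPVM e Y) (φ ψ : O → ℂ) : obs φ Y * obs ψ Y = obs (φ * ψ) Y := by
  conv_lhs => rhs; rw [obs]
  simp only [Finset.mul_sum, mul_smul_comm, h.obs_mul_right, smul_smul]
  simp only [obs, Pi.mul_apply, mul_comm]

omit [StarModule ℂ A] in
lemma IsPVM.obs_one (h : IsPVM e Y) : obs 1 Y = e := by simp [obs, h.sum]

lemma IsPVM.obs_star (h : IsPVM e Y) (φ : O → ℂ) : star (obs φ Y) = obs (star φ) Y := by
  simp [obs, star_sum, h.sa]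

omit [StarRing A] [StarModule ℂ A] in
lemma obs_lin (φ ψ : O → ℂ) (x y : ℂ) : x • obs φ Y + y • obs ψ Y = obs (x • φ + y • ψ) Y := by
  simp [obs, Finset.smul_sum, smul_smul, add_smul, Finset.sum_add_distrib]

omit [StarModule ℂ A] in
lemma obs_eq_of {O' : Type*} [Fintype O'] {Y' : O' → A} (h : IsPVM e Y) (h' : IsPVM e Y')
    {φ : O → ℂ} {ψ : O' → ℂ} (h0 : ∀ a b, φ a ≠ ψ b → Y a * Y' b = 0) : obs φ Y = obs ψ Y' := by
  have e1 : obs φ Y = ∑ a, ∑ b, φ a • (Y a * Y' b) := by
    simp only [← Finset.smul_sum, ← Finset.mul_sum, h'.sum, h.mul_unit, obs]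
  have e2 : obs ψ Y' = ∑ b, ∑ a, ψ b • (Y a * Y' b) := by
    simp only [← Finset.smul_sum, ← Finset.sum_mul, h.sum, h'.unit_mul, obs]
  rw [e1, e2, Finset.sum_comm]
  refine Finset.sum_congr rfl fun b _ => Finset.sum_congr rfl fun a _ => ?_
  by_cases hab : φ a = ψ b
  · rw [hab]
  · rw [h0 a b hab, smul_zero, smul_zero]

/-- Signs. -/
def sg : Bool → ℂ
  | true => 1
  | false => -1

/-- First sign. -/
def s1 (p : Bool × Bool) : ℂ := sg p.1

/-- Second sign. -/
def s2 (p : Bool × Bool) : ℂ := sg p.2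

lemma s1_sq : s1 * s1 = 1 := by ext ⟨a, b⟩; cases a <;> simp [s1, sg]

lemma s1_star : star s1 = s1 := by ext ⟨a, b⟩; cases a <;> simp [s1, sg]

/-- The joint spectral projections of two commuting symmetries. -/
noncomputable def pvm2 (a b : A) (p : Bool × Bool) : A :=
  (4 : ℂ)⁻¹ • ((1 + sg p.1 • a) * (1 + sg p.2 • b))

omit [StarRing A] [StarModule ℂ A] in
lemma obs_s1 (a b : A) : obs s1 (pvm2 a b) = a := by
  simp only [obs, Fintype.sum_prod_type, Fintype.sum_bool, s1, pvm2, sg, mul_add, add_mul, mul_one,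
    one_mul, smul_mul_smul_comm]
  module

omit [StarRing A] [StarModule ℂ A] in
lemma obs_s2 (a b : A) : obs s2 (pvm2 a b) = b := by
  simp only [obs, Fintype.sum_prod_type, Fintype.sum_bool, s2, pvm2, sg, mul_add, add_mul, mul_one,
    one_mul, smul_mul_smul_comm]
  module

lemma pvm2_pvm {a b : A} (ha : star a = a) (ha' : a * a = 1) (hb : star b = b) (hb' : b * b = 1)
    (h : a * b = b * a) : IsPVM 1 (pvm2 a b) := by
  have k : ∀ {c : A}, c * c = 1 → ∀ s t : Bool, (1 + sg s • c) * (1 + sg t • c) =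
      (if s = t then (2 : ℂ) else 0) • (1 + sg s • c) := by
    intro c hc s t
    simp only [mul_add, add_mul, mul_one, one_mul, smul_mul_smul_comm, hc]
    cases s <;> cases t <;> simp [sg] <;> module
  have hc : ∀ s t : Bool, (1 + sg s • a) * (1 + sg t • b) = (1 + sg t • b) * (1 + sg s • a) := by
    intro s t
    simp only [mul_add, add_mul, mul_one, one_mul, smul_mul_smul_comm, h, mul_comm (sg s)]
    abel
  have hm : ∀ p q : Bool × Bool, pvm2 a b p * pvm2 a b q =
      ((if p.1 = q.1 then (2 : ℂ) else 0) * (if p.2 = q.2 then (2 : ℂ) else 0) * 4⁻¹) •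
        pvm2 a b p := by
    intro p q
    simp only [pvm2, smul_mul_smul_comm]
    rw [mul_assoc, ← mul_assoc (1 + sg p.2 • b), ← hc, mul_assoc, k hb', ← mul_assoc, k ha',
      smul_mul_smul_comm, smul_smul, smul_smul]
    congr 1
    ring
  refine ⟨fun p => ?_, fun p => ?_, fun p q hpq => ?_, ?_⟩
  · have : ∀ s, star (sg s) = sg s := fun s => by cases s <;> simp [sg]
    simp only [pvm2, star_smul, star_mul, star_add, star_one, ha, hb, this, hc, star_inv₀,
      star_ofNat]
  · rw [hm, if_pos rfl, if_pos rfl]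
    norm_num
  · rw [hm]
    by_cases h1 : p.1 = q.1
    · rw [if_neg fun h2 => hpq (Prod.ext h1 h2)]; simp
    · rw [if_neg h1]; simp
  · simp only [Fintype.sum_prod_type, Fintype.sum_bool, pvm2, sg, mul_add, add_mul, mul_one,
      one_mul, smul_mul_smul_comm]
    module

end obs

/-- No exact solution of the relations between the given symmetries. -/
def ONonLift (l : Filter ℕ) (B : ℕ → TAlg) {Ω : Type} (o : ∀ n, Ω → B n) : Prop :=
  ∀ (A : TAlg) (c : ℝ) (_ : 0 < c) (π : ∀ n, B n →⋆ₙₐ[ℂ] A)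
    (_ : ∀ n x, A.τ (π n x) = c * (B n).τ x) (e : ℕ → A) (o' : ℕ → Ω → A),
    (∀ᶠ n in l, ∀ a, star (o' n a) = o' n a ∧ o' n a * o' n a = e n ∧ e n * o' n a = o' n a) →
    (∀ a, Ap l π (fun n => o' n a) fun n => o n a) →
    (∀ a b, (∀ n, o n a * o n b = o n b * o n a) → ∀ᶠ n in l, o' n a * o' n b = o' n b * o' n a) →
    (∀ a b c d (x y z w : ℂ), (∀ n, o n a * o n b = o n b * o n a) →
      (∀ n, o n c * o n d = o n d * o n c) →
      Null l (fun n => x • o n a + y • (o n a * o n b) - (z • o n c + w • (o n c * o n d))) →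
      ∀ᶠ n in l, x • o' n a + y • (o' n a * o' n b) = z • o' n c + w • (o' n c * o' n d)) → False

theorem nonLift_of_obs {l : Filter ℕ} {B : ℕ → TAlg} {Ω : Type} {o : ∀ n, Ω → B n}
    (h1 : ∀ n a, star (o n a) = o n a) (h2 : ∀ n a, o n a * o n a = 1) (hN : ONonLift l B o) :
    ∃ X : ∀ n, Ω × Ω → Bool × Bool → B n, (∀ n i, IsPVM 1 (X n i)) ∧ NonLift l B X := by
  classical
  let X : ∀ n, Ω × Ω → Bool × Bool → B n := fun n i =>
    if ∀ n, o n i.1 * o n i.2 = o n i.2 * o n i.1 then pvm2 (o n i.1) (o n i.2) else pvm2 1 1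
  have hX : ∀ n i, IsPVM 1 (X n i) := fun n i => by
    simp only [X]
    split_ifs with h
    · exact pvm2_pvm (h1 _ _) (h2 _ _) (h1 _ _) (h2 _ _) (h n)
    · exact pvm2_pvm (star_one _) (one_mul _) (star_one _) (one_mul _) rfl
  have hX' : ∀ a b, (∀ n, o n a * o n b = o n b * o n a) → ∀ n,
      X n (a, b) = pvm2 (o n a) (o n b) := fun a b h n => if_pos h
  refine ⟨X, hX, fun A hA c hc π hπ e Y hY hnear hz => ?_⟩
  have key : ∀ i j φ ψ, Null l (fun n => obs φ (X n i) - obs ψ (X n j)) →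
      ∀ᶠ n in l, obs φ (Y n i) = obs ψ (Y n j) := by
    intro i j φ ψ hn
    have : ∀ᶠ n in l, ∀ a b, φ a ≠ ψ b → Y n i a * Y n j b = 0 := by
      simp only [eventually_all]
      intro a b hab
      apply hz
      have hb : ∀ i a, Bdd l fun n => X n i a := fun i a =>
        ⟨1, Eventually.of_forall fun n => bd_of_proj ((hX n i).sa a) ((hX n i).idem a)⟩
      refine (((hn.mul_left (hb i a)).mul_right (hb j b)).smul (φ a - ψ b)⁻¹).congr
        (Eventually.of_forall fun n => ?_)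
      rw [mul_sub, sub_mul, (hX n i).obs_mul_left, mul_assoc, (hX n j).obs_mul_right,
        smul_mul_assoc, mul_smul_comm, ← sub_smul, smul_smul, inv_mul_cancel₀ (sub_ne_zero.mpr hab),
        one_smul]
    filter_upwards [this, hY] with n h0 hn
    exact obs_eq_of (hn i) (hn j) h0
  have k1 : ∀ a b, (∀ n, o n a * o n b = o n b * o n a) → ∀ᶠ n in l,
      obs s1 (Y n (a, a)) = obs s1 (Y n (a, b)) ∧ obs s1 (Y n (b, b)) = obs s2 (Y n (a, b)) := by
    intro a b h
    refine (key _ _ _ _ ?_).and (key _ _ _ _ ?_)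
    · simp only [hX' a b h, hX' a a fun _ => rfl, obs_s1, sub_self]
      exact null_zero
    · simp only [hX' a b h, hX' b b fun _ => rfl, obs_s1, obs_s2, sub_self]
      exact null_zero
  refine hN A c hc π hπ e (fun n a => obs s1 (Y n (a, a))) ?_ (fun a => ?_) (fun a b h => ?_)
    (fun a b c d x y z w h h' hn => ?_)
  · filter_upwards [hY] with n hn a
    refine ⟨?_, ?_, ?_⟩
    · rw [(hn _).obs_star, s1_star]
    · rw [(hn _).obs_mul, s1_sq, (hn _).obs_one]
    · rw [← (hn (a, a)).obs_one, (hn _).obs_mul, one_mul]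
  · refine (Ap.sum Finset.univ fun p _ => (Ap.of_proj (hnear (a, a) p)
      (hY.mono fun n hn => ⟨(hn _).sa p, (hn _).idem p⟩)
      fun n => ⟨(hX n _).sa p, (hX n _).idem p⟩).smul (s1 p)).congr fun n => ?_
    rw [hX' a a fun _ => rfl]
    exact obs_s1 _ _
  · filter_upwards [k1 a b h, hY] with n hk hn
    rw [hk.1, hk.2, (hn _).obs_mul, (hn _).obs_mul, mul_comm]
  · have := key (a, b) (c, d) (x • s1 + y • (s1 * s2)) (z • s1 + w • (s1 * s2)) (by
      refine hn.congr (Eventually.of_forall fun n => ?_)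
      rw [← obs_lin, ← obs_lin, ← (hX n _).obs_mul, ← (hX n _).obs_mul, hX' a b h, hX' c d h']
      simp only [obs_s1, obs_s2])
    filter_upwards [this, k1 a b h, k1 c d h', hY] with n h0 hk hk' hn
    rw [hk.1, hk.2, hk'.1, hk'.2, (hn _).obs_mul, (hn _).obs_mul, obs_lin, obs_lin, h0]

end Pool.Agent.Lib.MP_64d6f1_an
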