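import Pool.Agent.Lib.MP_64d6f1_an.JointCFC

/-! Burger's ping-pong argument on the two-torus. -/

open MeasureTheory Real

namespace Pool.Agent.Lib.MP_64d6f1_an

noncomputable instance circleMeas : MeasurableSpace Circle := borel Circle
instance circleBorel : BorelSpace Circle := ⟨rfl⟩

lemma real_preimage_le (μ : Measure T2) [IsFiniteMeasure μ] (T : C(T2, T2)) (δ : ℝ)
    (h : ∀ f : C(T2, ℝ), (∀ x, 0 ≤ f x ∧ f x ≤ 1) → ∫ x, f (T x) ∂μ ≤ ∫ x, f x ∂μ + δ)
    {S : Set T2} (hS : MeasurableSet S) : μ.real (T ⁻¹' S) ≤ μ.real S + δ := by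
  have hT : Measurable T := T.continuous.measurable
  let ν := μ.map T
  have hν : ν.real S = μ.real (T ⁻¹' S) := map_measureReal_apply hT hS
  rw [← hν]
  refine le_of_forall_pos_le_add fun ε hε => ?_
  obtain ⟨K, hKS, hK, hKν⟩ := hS.exists_isCompact_lt_add (μ := ν) (measure_ne_top _ _)
    (ε := ENNReal.ofReal (ε / 2)) (by simpa using hε)
  obtain ⟨V, hSV, hV, hVμ⟩ := S.exists_isOpen_le_add μ (ε := ENNReal.ofReal (ε / 2))
    (by simpa using hε)
  have h1 : ν.real S ≤ ν.real K + ε / 2 := by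
    have := ENNReal.toReal_mono (by finiteness) hKν.le
    rwa [ENNReal.toReal_add (by finiteness) (by finiteness),
      ENNReal.toReal_ofReal (by positivity)] at this
  have h2 : μ.real V ≤ μ.real S + ε / 2 := by
    have := ENNReal.toReal_mono (by finiteness) hVμ
    rwa [ENNReal.toReal_add (by finiteness) (by finiteness),
      ENNReal.toReal_ofReal (by positivity)] at this
  obtain ⟨f, hf1, hf2, hf3⟩ := exists_continuous_zero_one_of_isClosed hV.isClosed_compl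
    hK.isClosed (Set.disjoint_left.mpr fun x hx hxK => hx (hSV (hKS hxK)))
  have hint : ∀ (ρ : Measure T2) [IsFiniteMeasure ρ], Integrable f ρ := fun ρ _ =>
    f.continuous.integrable_of_hasCompactSupport (HasCompactSupport.of_compactSpace _)
  have h3 : ν.real K ≤ ∫ x, f x ∂ν := by
    rw [← integral_indicator_one hK.measurableSet]
    refine integral_mono ((integrable_const _).indicator hK.measurableSet) (hint ν) fun x => ?_
    by_cases hx : x ∈ K
    · simp [hx, hf2 hx]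
    · simp [hx, (hf3 x).1]
  have h4 : ∫ x, f x ∂μ ≤ μ.real V := by
    rw [← integral_indicator_one hV.measurableSet]
    refine integral_mono (hint μ) ((integrable_const _).indicator hV.measurableSet) fun x => ?_
    by_cases hx : x ∈ V
    · simp [hx, (hf3 x).2]
    · simp [hx, hf1 hx]
  have h5 : ∫ x, f x ∂ν = ∫ x, f (T x) ∂μ :=
    integral_map hT.aemeasurable f.continuous.aestronglyMeasurable
  have h6 := h f fun x => hf3 x
  linarith

/-- `(z, w) ↦ (z, z w)`. -/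
noncomputable def TA : C(T2, T2) := ⟨fun p => (p.1, p.1 * p.2), by fun_prop⟩
/-- `(z, w) ↦ (z, z⁻¹ w)`. -/
noncomputable def TA' : C(T2, T2) := ⟨fun p => (p.1, p.1⁻¹ * p.2), by fun_prop⟩
/-- `(z, w) ↦ (z w, w)`. -/
noncomputable def TB : C(T2, T2) := ⟨fun p => (p.1 * p.2, p.2), by fun_prop⟩
/-- `(z, w) ↦ (z w⁻¹, w)`. -/
noncomputable def TB' : C(T2, T2) := ⟨fun p => (p.1 * p.2⁻¹, p.2), by fun_prop⟩

/-- The argument of a point of the circle. -/
noncomputable def ar (z : Circle) : ℝ := Complex.arg z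

lemma measurable_ar : Measurable ar :=
  Complex.measurable_arg.comp (Continuous.measurable (f := fun z : Circle => (z : ℂ)) (by fun_prop))

lemma ar_mul {z w : Circle} (hz : |ar z| < π / 2) (hw : |ar w| < π / 2) :
    ar (z * w) = ar z + ar w := by
  unfold ar at *
  rw [Circle.coe_mul, Complex.arg_mul_eq_add_arg_iff z.coe_ne_zero w.coe_ne_zero]
  rw [abs_lt] at hz hw
  constructor <;> linarith [hz.1, hz.2, hw.1, hw.2]

lemma ar_inv {z : Circle} (hz : |ar z| < π / 2) : ar z⁻¹ = - ar z := by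
  unfold ar at *
  rw [Circle.coe_inv, Complex.arg_inv, if_neg]
  intro h
  rw [h, abs_of_pos pi_pos] at hz
  linarith [pi_pos]

lemma ar_eq_zero {z : Circle} (hz : ar z = 0) : z = 1 := by
  apply Circle.injective_arg
  simpa [ar] using hz

lemma two_set (μ : Measure T2) [IsFiniteMeasure μ] (δ : ℝ) (Q D A B : Set T2)
    (hA : MeasurableSet A) (hB : MeasurableSet B) (hAB : Disjoint A B) (hQ : A ∪ B ⊆ Q)
    (S S' : T2 → T2) (h1 : Q ∩ D ⊆ S ⁻¹' A) (h2 : Q ∩ D ⊆ S' ⁻¹' B)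
    (h3 : μ.real (S ⁻¹' A) ≤ μ.real A + δ) (h4 : μ.real (S' ⁻¹' B) ≤ μ.real B + δ) :
    μ.real (Q ∩ D) ≤ μ.real Dᶜ + 2 * δ := by
  have e1 : μ.real (Q ∩ D) ≤ μ.real (S ⁻¹' A) := measureReal_mono h1
  have e2 : μ.real (Q ∩ D) ≤ μ.real (S' ⁻¹' B) := measureReal_mono h2
  have e3 : μ.real (A ∪ B) = μ.real A + μ.real B := measureReal_union hAB hB
  have e4 : μ.real (A ∪ B) ≤ μ.real ((Q ∩ D) ∪ Dᶜ) := by
    refine measureReal_mono ?_
    intro x hx
    by_cases hD : x ∈ D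
    · exact Or.inl ⟨hQ hx, hD⟩
    · exact Or.inr hD
  have e5 : μ.real ((Q ∩ D) ∪ Dᶜ) ≤ μ.real (Q ∩ D) + μ.real Dᶜ := measureReal_union_le _ _
  have _ := hA
  linarith

theorem pingpong (μ : Measure T2) [IsFiniteMeasure μ] (δ : ℝ)
    (h : ∀ T ∈ ({TA, TA', TB, TB'} : Set C(T2, T2)), ∀ S : Set T2, MeasurableSet S →
      μ.real (T ⁻¹' S) ≤ μ.real S + δ) :
    μ.real {p : T2 | p ≠ (1, 1)} ≤
      3 * μ.real {p : T2 | |ar p.1| < π / 2 ∧ |ar p.2| < π / 2}ᶜ + 4 * δ := by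
  set D := {p : T2 | |ar p.1| < π / 2 ∧ |ar p.2| < π / 2} with hD
  have m1 : Measurable fun p : T2 => ar p.1 := measurable_ar.comp measurable_fst
  have m2 : Measurable fun p : T2 => ar p.2 := measurable_ar.comp measurable_snd
  let Q1 : Set T2 := {p | (0 < ar p.1 ∧ 0 ≤ ar p.2) ∨ (ar p.1 < 0 ∧ ar p.2 ≤ 0)}
  let Q2 : Set T2 := {p | (ar p.1 ≤ 0 ∧ 0 < ar p.2) ∨ (0 ≤ ar p.1 ∧ ar p.2 < 0)}
  let A1 : Set T2 := {p | (0 ≤ ar p.2 ∧ ar p.2 < ar p.1) ∨ (ar p.2 ≤ 0 ∧ ar p.1 < ar p.2)}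
  let B1 : Set T2 := {p | (0 < ar p.1 ∧ ar p.1 ≤ ar p.2) ∨ (ar p.1 < 0 ∧ ar p.2 ≤ ar p.1)}
  let A2 : Set T2 := {p | (0 < ar p.2 ∧ ar p.2 ≤ - ar p.1) ∨ (ar p.2 < 0 ∧ - ar p.1 ≤ ar p.2)}
  let B2 : Set T2 := {p | (ar p.1 ≤ 0 ∧ - ar p.1 < ar p.2) ∨ (0 ≤ ar p.1 ∧ ar p.2 < - ar p.1)}
  have mA1 : MeasurableSet A1 := by
    refine MeasurableSet.union (MeasurableSet.inter ?_ ?_) (MeasurableSet.inter ?_ ?_)
    · exact measurableSet_le measurable_const m2
    · exact measurableSet_lt m2 m1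
    · exact measurableSet_le m2 measurable_const
    · exact measurableSet_lt m1 m2
  have mB1 : MeasurableSet B1 := by
    refine MeasurableSet.union (MeasurableSet.inter ?_ ?_) (MeasurableSet.inter ?_ ?_)
    · exact measurableSet_lt measurable_const m1
    · exact measurableSet_le m1 m2
    · exact measurableSet_lt m1 measurable_const
    · exact measurableSet_le m2 m1
  have mA2 : MeasurableSet A2 := by
    refine MeasurableSet.union (MeasurableSet.inter ?_ ?_) (MeasurableSet.inter ?_ ?_)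
    · exact measurableSet_lt measurable_const m2
    · exact measurableSet_le m2 m1.neg
    · exact measurableSet_lt m2 measurable_const
    · exact measurableSet_le m1.neg m2
  have mB2 : MeasurableSet B2 := by
    refine MeasurableSet.union (MeasurableSet.inter ?_ ?_) (MeasurableSet.inter ?_ ?_)
    · exact measurableSet_le m1 measurable_const
    · exact measurableSet_lt m1.neg m2
    · exact measurableSet_le measurable_const m1
    · exact measurableSet_lt m2 m1.neg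
  have r1 : μ.real (Q1 ∩ D) ≤ μ.real Dᶜ + 2 * δ := by
    refine two_set μ δ Q1 D A1 B1 mA1 mB1 ?_ ?_ TB TA ?_ ?_ (h _ (by simp) _ mA1)
      (h _ (by simp) _ mB1)
    · rw [Set.disjoint_left]
      rintro p (⟨a, b⟩ | ⟨a, b⟩) (⟨c, d⟩ | ⟨c, d⟩) <;> linarith
    · rintro p ((⟨a, b⟩ | ⟨a, b⟩) | (⟨a, b⟩ | ⟨a, b⟩))
      · exact Or.inl ⟨by linarith, by linarith⟩
      · exact Or.inr ⟨by linarith, by linarith⟩
      · exact Or.inl ⟨by linarith, by linarith⟩
      · exact Or.inr ⟨by linarith, by linarith⟩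
    · rintro p ⟨hp, hp1, hp2⟩
      have e : ar (p.1 * p.2) = ar p.1 + ar p.2 := ar_mul hp1 hp2
      change (0 ≤ ar p.2 ∧ ar p.2 < ar (p.1 * p.2)) ∨ (ar p.2 ≤ 0 ∧ ar (p.1 * p.2) < ar p.2)
      rw [e]
      rcases hp with ⟨a, b⟩ | ⟨a, b⟩
      · exact Or.inl ⟨by linarith, by linarith⟩
      · exact Or.inr ⟨by linarith, by linarith⟩
    · rintro p ⟨hp, hp1, hp2⟩
      have e : ar (p.1 * p.2) = ar p.1 + ar p.2 := ar_mul hp1 hp2
      change (0 < ar p.1 ∧ ar p.1 ≤ ar (p.1 * p.2)) ∨ (ar p.1 < 0 ∧ ar (p.1 * p.2) ≤ ar p.1)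
      rw [e]
      rcases hp with ⟨a, b⟩ | ⟨a, b⟩
      · exact Or.inl ⟨by linarith, by linarith⟩
      · exact Or.inr ⟨by linarith, by linarith⟩
  have r2 : μ.real (Q2 ∩ D) ≤ μ.real Dᶜ + 2 * δ := by
    refine two_set μ δ Q2 D A2 B2 mA2 mB2 ?_ ?_ TB' TA' ?_ ?_ (h _ (by simp) _ mA2)
      (h _ (by simp) _ mB2)
    · rw [Set.disjoint_left]
      rintro p (⟨a, b⟩ | ⟨a, b⟩) (⟨c, d⟩ | ⟨c, d⟩) <;> linarith
    · rintro p ((⟨a, b⟩ | ⟨a, b⟩) | (⟨a, b⟩ | ⟨a, b⟩))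
      · exact Or.inl ⟨by linarith, by linarith⟩
      · exact Or.inr ⟨by linarith, by linarith⟩
      · exact Or.inl ⟨by linarith, by linarith⟩
      · exact Or.inr ⟨by linarith, by linarith⟩
    · rintro p ⟨hp, hp1, hp2⟩
      have e : ar (p.1 * p.2⁻¹) = ar p.1 - ar p.2 := by
        rw [ar_mul hp1 (by rw [ar_inv hp2, abs_neg]; exact hp2), ar_inv hp2]; ring
      change (0 < ar p.2 ∧ ar p.2 ≤ - ar (p.1 * p.2⁻¹)) ∨
        (ar p.2 < 0 ∧ - ar (p.1 * p.2⁻¹) ≤ ar p.2)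
      rw [e]
      rcases hp with ⟨a, b⟩ | ⟨a, b⟩
      · exact Or.inl ⟨by linarith, by linarith⟩
      · exact Or.inr ⟨by linarith, by linarith⟩
    · rintro p ⟨hp, hp1, hp2⟩
      have e : ar (p.1⁻¹ * p.2) = ar p.2 - ar p.1 := by
        rw [ar_mul (by rw [ar_inv hp1, abs_neg]; exact hp1) hp2, ar_inv hp1]; ring
      change (ar p.1 ≤ 0 ∧ - ar p.1 < ar (p.1⁻¹ * p.2)) ∨
        (0 ≤ ar p.1 ∧ ar (p.1⁻¹ * p.2) < - ar p.1)
      rw [e]
      rcases hp with ⟨a, b⟩ | ⟨a, b⟩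
      · exact Or.inl ⟨by linarith, by linarith⟩
      · exact Or.inr ⟨by linarith, by linarith⟩
  have r3 : {p : T2 | p ≠ (1, 1)} ⊆ ((Q1 ∩ D) ∪ (Q2 ∩ D)) ∪ Dᶜ := by
    intro p hp
    by_cases hpD : p ∈ D
    · left
      by_cases hQ1 : p ∈ Q1
      · exact Or.inl ⟨hQ1, hpD⟩
      · refine Or.inr ⟨?_, hpD⟩
        by_contra hQ2
        apply hp
        simp only [Q1, Q2, Set.mem_ofPred_eq, not_or, not_and, not_le, not_lt] at hQ1 hQ2
        have a1 : ar p.1 = 0 := by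
          rcases lt_trichotomy (ar p.1) 0 with a | a | a
          · linarith [hQ1.2 a, hQ2.1 a.le]
          · exact a
          · linarith [hQ1.1 a, hQ2.2 a.le]
        have a2 : ar p.2 = 0 := le_antisymm (hQ2.1 a1.le) (hQ2.2 a1.ge)
        exact Prod.ext (ar_eq_zero a1) (ar_eq_zero a2)
    · exact Or.inr hpD
  have r4 := measureReal_mono (μ := μ) r3
  have r5 := measureReal_union_le (μ := μ) ((Q1 ∩ D) ∪ (Q2 ∩ D)) Dᶜ
  have r6 := measureReal_union_le (μ := μ) (Q1 ∩ D) (Q2 ∩ D)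
  linarith

end Pool.Agent.Lib.MP_64d6f1_an
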