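import Pool.Agent.Lib.MP_64d6f1_an.Final

/-! Two by two blocks force exact zero patterns under four-independence. -/

open scoped ComplexConjugate
open Filter Topology

namespace Pool.Agent.Lib.MP_64d6f1_an

open TAlg

variable {A : TAlg}

lemma cen_τ (h1 : A.τ 1 = 1) (x : A) : A.τ (cen x) = 0 := by
  rw [cen, map_sub, Algebra.algebraMap_eq_smul_one, map_smul, h1, smul_eq_mul, mul_one, sub_self]

lemma cen_mul_τ (x y : A) : A.τ (cen x * y) = A.τ (x * y) - A.τ x * A.τ y := by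
  rw [cen, sub_mul, map_sub, Algebra.algebraMap_eq_smul_one, smul_mul_assoc, one_mul, map_smul,
    smul_eq_mul]

lemma cen_fc (Φ : CX →⋆ₐ[ℂ] A) (f : CX) :
    cen (Φ f) = Φ (f - algebraMap ℂ CX (A.τ (Φ f))) := by
  rw [map_sub, cen]
  congr 1
  exact (Φ.toAlgHom.commutes _).symm

lemma VN.cen_ext (hA : VN A) (Φ : CX →⋆ₐ[ℂ] A) (y : A)
    (h : ∀ e, A.τ (cen (Φ (fourier e)) * y) = 0) (f : CX) : A.τ (cen (Φ f) * y) = 0 := by
  rw [cen_mul_τ, hA.indep_aux Φ y (fun e => by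
    have := h e
    rwa [cen_mul_τ, sub_eq_zero] at this) f, sub_self]

/-- Vanishing of the monomial words of lengths two and four. -/
def Ind4 (Φ Ψ : CX →⋆ₐ[ℂ] A) : Prop :=
  (∀ e f, A.τ (cen (Φ (fourier e)) * cen (Ψ (fourier f))) = 0) ∧
    ∀ e f e' f', A.τ (cen (Φ (fourier e)) * (cen (Ψ (fourier f)) *
      (cen (Φ (fourier e')) * cen (Ψ (fourier f'))))) = 0

lemma VN.ind2 (hA : VN A) {Φ Ψ : CX →⋆ₐ[ℂ] A} (h : Ind4 Φ Ψ) (f g : CX) :
    A.τ (Φ f * Ψ g) = A.τ (Φ f) * A.τ (Ψ g) :=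
  hA.indep (fun e f => by
    have := h.1 e f
    rwa [cen_mul_τ, cen_τ hA.one, mul_zero, sub_zero, A.comm, cen_mul_τ, sub_eq_zero, A.comm,
      mul_comm] at this) f g

lemma cyc4 (a b c d : A) : A.τ (a * (b * (c * d))) = A.τ (b * (c * (d * a))) := by
  rw [A.comm]; simp only [mul_assoc]

lemma VN.ind4 (hA : VN A) {Φ Ψ : CX →⋆ₐ[ℂ] A} (h : Ind4 Φ Ψ) (f g f' g' : CX) :
    A.τ (cen (Φ f) * (cen (Ψ g) * (cen (Φ f') * cen (Ψ g')))) = 0 := by
  refine hA.cen_ext Φ _ (fun e => ?_) f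
  rw [cyc4]
  refine hA.cen_ext Ψ _ (fun e1 => ?_) g
  rw [cyc4]
  refine hA.cen_ext Φ _ (fun e2 => ?_) f'
  rw [cyc4]
  refine hA.cen_ext Ψ _ (fun e3 => ?_) g'
  rw [cyc4]
  exact h.2 _ _ _ _

lemma VN.four (hA : VN A) {Φ Ψ : CX →⋆ₐ[ℂ] A} (h : Ind4 Φ Ψ) (f g k : CX) :
    A.τ (Φ f * (cen (Ψ k) * (Φ g * cen (Ψ k)))) =
      A.τ (Φ f) * A.τ (Φ g) * A.τ (cen (Ψ k) * cen (Ψ k)) := by
  have h4 := hA.ind4 h f k g k
  have h2 : ∀ f, A.τ (Φ f * (cen (Ψ k) * cen (Ψ k))) =
      A.τ (Φ f) * A.τ (cen (Ψ k) * cen (Ψ k)) := fun f => by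
    rw [cen_fc, ← map_mul, hA.ind2 h]
  have h3 : A.τ (cen (Ψ k) * (cen (Φ g) * cen (Ψ k))) = 0 := by
    rw [A.comm, mul_assoc, cen_mul_τ, h2, sub_self]
  rw [cen_mul_τ, h3, mul_zero, sub_zero] at h4
  have e : Φ g = cen (Φ g) + A.τ (Φ g) • (1 : A) := by
    rw [cen, Algebra.algebraMap_eq_smul_one, sub_add_cancel]
  conv_lhs => rw [e]
  simp only [add_mul, mul_add, smul_mul_assoc, mul_smul_comm, one_mul, map_add, map_smul, h4, h2,
    smul_eq_mul]
  ring

lemma VN.ineq (hA : VN A) {Φ Ψ : CX →⋆ₐ[ℂ] A} (h : Ind4 Φ Ψ) {g : C(X1, ℝ)} (hg : ∀ x, 0 ≤ g x)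
    {k : CX} (hk : star (cen (Ψ k)) = cen (Ψ k)) {z : A} (z1 : star z = z) (z2 : z * z = z)
    (hc : ∀ x, x * z = z * x) (hz : Φ (cc g) * z = z) {x : ℝ} (hx : A.τ (Φ (cc g)) = x) :
    nrm (cen (Ψ k) * z) ^ 2 ≤ x ^ 2 * nrm (cen (Ψ k)) ^ 2 := by
  obtain ⟨c, c1, c2⟩ := fc_pos Φ hg
  have h4 := hA.four h (cc g) (cc g) k
  generalize cen (Ψ k) = T at *
  have e1 : nrm (c * T * c) ^ 2 = x ^ 2 * nrm T ^ 2 := by
    apply Complex.ofReal_injective
    have := nrm_sq' T
    rw [hk] at this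
    rw [← nrm_sq', star_mul, star_mul, c1, hk]
    push_cast at this ⊢
    rw [← this, pow_two, ← hx, ← h4, c2, A.comm]
    simp only [mul_assoc]
    rw [cyc4]
    simp only [mul_assoc]
    rw [A.comm]
    simp only [mul_assoc]
  have e2 : nrm (c * T * c * z) ^ 2 = nrm (T * z) ^ 2 := by
    apply Complex.ofReal_injective
    have k1 : c * (c * z) = z := by rw [← mul_assoc, ← c2, hz]
    have k2 : ∀ y, z * y = y * z := fun y => (hc y).symm
    have k3 : ∀ y, c * (c * (y * z)) = y * z := fun y => by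
      rw [hc y, ← mul_assoc c z, ← mul_assoc c, k1]
    have a1 : star (c * T * c * z) * (c * T * c * z) = c * (T * T * z) * c := by
      calc _ = z * (c * T * (c * (c * (T * c * z)))) := by
            simp only [star_mul, c1, hk, z1, mul_assoc]
        _ = _ := by
            rw [k3, k2]
            simp only [mul_assoc, z2]
            rw [hc c]
    rw [← nrm_sq', ← nrm_sq', a1, A.comm, k3, star_mul, hk, z1, mul_assoc z, k2]
    simp only [mul_assoc, z2]
  rw [← e1, ← e2]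
  exact pow_le_pow_left₀ (nrm_nonneg _) (by simpa using ((bd_of_proj z1 z2).2 (c * T * c)).2) 2

lemma half {P Q P' Q' w : A} (hc : ∀ x, x * w = w * x) (h1 : (P + P') * w = w)
    (h2 : (Q + Q') * w = w) (h3 : P * Q * w = 0) (h4 : P' * Q' * w = 0)
    (h5 : A.τ (Q' * w) = A.τ (P' * w)) : 2 * A.τ (P * Q' * w) = A.τ w := by
  have e1 : P * w = P * Q' * w := by
    conv_lhs => rw [← h2]
    rw [← mul_assoc, mul_add, add_mul, h3, zero_add]
  have e2 : Q' * w = P * Q' * w := by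
    conv_lhs => rw [hc, ← h1, mul_assoc, ← hc, ← mul_assoc]
    rw [add_mul, add_mul, h4, add_zero]
  conv_rhs => rw [← h1, add_mul, map_add, ← h5, e1, e2]
  ring

lemma VN.zero_of_tr (hA : VN A) {p q w : A} (hp : star p = p) (hp' : p * p = p) (hq : star q = q)
    (hq' : q * q = q) (w1 : star w = w) (w2 : w * w = w) (hc : ∀ x, x * w = w * x)
    (h : A.τ (p * q * w) = A.τ (p * q)) : p * q * (1 - w) = 0 := by
  have := tr_proj hp hp' (q := q * (1 - w)) (by
    rw [star_mul, star_sub, star_one, w1, hq, sub_mul, mul_sub, one_mul, mul_one, hc]) (by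
    simp only [mul_sub, sub_mul, mul_one]
    rw [hq', ← mul_assoc q q, hq', mul_assoc q w q, ← hc q, ← mul_assoc q q, hq', mul_assoc q w,
      ← mul_assoc w, ← hc q, mul_assoc q w, w2, ← mul_assoc, hq']
    simp)
  rw [← mul_assoc, mul_sub, mul_one, map_sub, h, sub_self] at this
  rw [mul_sub, mul_one]
  exact hA.faith _ (pow_eq_zero_iff two_ne_zero |>.mp (by exact_mod_cast this.symm))

theorem VN.exact_step (hA : VN A) {K : Type} [Fintype K] [Nonempty K] {Φ Ψ : CX →⋆ₐ[ℂ] A}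
    (h : Ind4 Φ Ψ) {z : K × K → A} {t : A} (hz : IsPVM t z) (hc : ∀ i x, x * z i = z i * x)
    (hd : ∀ k, A.τ (z (k, k)) = ((Fintype.card K : ℝ)⁻¹ ^ 2 : ℝ)) {b : K → C(X1, ℝ)}
    (b0 : ∀ i x, 0 ≤ b i x ∧ b i x ≤ 1) (b1 : ∀ i j, i ≠ j → ∀ x, b i x = 0 ∨ b j x = 0)
    (b3 : ∀ x, ∑ k, b k x ≤ 1) {g : C(X1, ℝ)} (hg : ∀ x, g x * g x ≤ 1)
    (f1 : ∀ k, Φ (cc (b k)) * z (k, k) = z (k, k))
    (f2 : ∀ i j, i ≠ j → (Φ (cc (b i)) + Φ (cc (b j))) * z (i, j) = z (i, j))
    (f3 : ∀ k, Ψ (cc g) * Ψ (cc g) * z (k, k) = z (k, k))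
    (f4 : ∀ k, A.τ (Ψ (cc g) * z (k, k)) = 0) :
    IsPVM 1 (fun k => Φ (cc (b k))) ∧ Ψ (cc g) * Ψ (cc g) = 1 ∧
      ∀ i j, A.τ (z (i, j)) + A.τ (z (j, i)) = 2 * ((Fintype.card K : ℝ)⁻¹ ^ 2 : ℝ) →
        Φ (cc (b i)) * (Ψ (cc g) * Φ (cc (b j)) * Ψ (cc g)) * (1 - t) = 0 := by
  classical
  set μ : ℝ := (Fintype.card K : ℝ)⁻¹ with hμ
  have hμ0 : 0 < μ := inv_pos.mpr (by exact_mod_cast Fintype.card_pos)
  have s1 : star (Ψ (cc g)) = Ψ (cc g) := by rw [← map_star]; congr 1; ext x; simp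
  obtain ⟨σ, hσ⟩ : ∃ σ : ℝ, A.τ (Ψ (cc g)) = σ :=
    ⟨_, (Complex.conj_eq_iff_re.mp (by rw [← A.herm, s1])).symm⟩
  have eT : cen (Ψ (cc g)) = Ψ (cc g) - (σ : ℂ) • 1 := by
    rw [cen, hσ, Algebra.algebraMap_eq_smul_one]
  have s2 : star (cen (Ψ (cc g))) = cen (Ψ (cc g)) := by
    rw [eT, star_sub, s1, star_smul, star_one]; simp
  have eg : cc (1 - g * g) = 1 - cc g * cc g := by ext x; simp
  obtain ⟨r, hr0, hr⟩ := fc_tr Ψ (g := 1 - g * g) fun x => by simpa using hg x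
  have hr' := hr
  rw [eg, map_sub, map_one, map_mul, map_sub, hA.one] at hr'
  have n1 : nrm (cen (Ψ (cc g))) ^ 2 = 1 - r - σ ^ 2 := by
    apply Complex.ofReal_injective
    rw [← nrm_sq', s2, cen_mul_τ, cen_τ hA.one, mul_zero, sub_zero, A.comm, cen_mul_τ, hσ]
    push_cast
    linear_combination -hr'
  have n2 : ∀ k, nrm (cen (Ψ (cc g)) * z (k, k)) ^ 2 = μ ^ 2 * (1 + σ ^ 2) := fun k => by
    apply Complex.ofReal_injective
    rw [← nrm_sq', star_mul, s2, hz.sa, ← hc, mul_assoc, ← mul_assoc (z _), ← hc, mul_assoc,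
      hz.idem, ← mul_assoc, eT]
    simp only [sub_mul, mul_sub, smul_mul_assoc, mul_smul_comm, one_mul, mul_one, map_sub,
      map_smul, f3, f4, hd, smul_eq_mul]
    push_cast
    ring
  have main : ∀ {g' : K → C(X1, ℝ)}, (∀ k x, 0 ≤ g' k x) → (∀ x, ∑ k, g' k x ≤ 1) →
      (∀ k, Φ (cc (g' k)) * z (k, k) = z (k, k)) →
      (∀ k, A.τ (Φ (cc (g' k))) = μ) ∧ r = 0 ∧ σ = 0 := by
    intro g' h0 h1 h2
    choose x hx0 hx using fun k => fc_tr Φ (h0 k)
    have sx : ∑ k, x k ≤ 1 := by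
      obtain ⟨r, hr, h⟩ := fc_tr Φ (g := 1 - ∑ k, g' k) fun z => by simpa using h1 z
      have e : cc (1 - ∑ k, g' k) = 1 - ∑ k, cc (g' k) := by ext z; simp
      rw [e, map_sub, map_one, map_sum, map_sub, map_sum, hA.one] at h
      simp only [hx] at h
      have : 1 - ∑ k, x k = r := by exact_mod_cast h
      linarith
    have hi := fun k => hA.ineq h (h0 k) s2 (hz.sa _) (hz.idem _) (hc _) (h2 k) (hx k)
    simp only [n1, n2] at hi
    have hm := fun k => (amgm hx0 hx0 sx sx (fun k => by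
      have := hi k
      nlinarith [mul_nonneg (sq_nonneg μ) (sq_nonneg σ), mul_nonneg (sq_nonneg (x k)) hr0,
        mul_nonneg (sq_nonneg (x k)) (sq_nonneg σ)]) k).1
    obtain ⟨k⟩ := ‹Nonempty K›
    have := hi k
    rw [hm k, ← hμ, mul_le_mul_iff_right₀ (pow_pos hμ0 2)] at this
    exact ⟨fun k => by rw [hx, hm], by nlinarith [sq_nonneg σ], by nlinarith [sq_nonneg σ]⟩
  have sq : ∀ k, cc (b k * b k) = cc (b k) * cc (b k) := fun k => by ext x; simp
  obtain ⟨t1, r0, σ0⟩ := main (fun k x => (b0 k x).1) b3 f1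
  obtain ⟨t2, -⟩ := main (g' := fun k => b k * b k) (fun k x => mul_self_nonneg _)
    (fun x => (Finset.sum_le_sum fun k _ => mul_le_of_le_one_left (b0 k x).1 (b0 k x).2).trans
      (b3 x)) (fun k => by rw [sq, map_mul, mul_assoc, f1, f1])
  have hP := hA.pvm_of_tr Φ b0 b1 b3 t1 t2
  have hS : Ψ (cc g) * Ψ (cc g) = 1 := by
    have := hA.fc_zero Ψ (g := 1 - g * g) (fun x => by simpa using hg x) (by rw [hr, r0]; simp)
    rwa [eg, map_sub, map_one, map_mul, sub_eq_zero, eq_comm] at this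
  refine ⟨hP, hS, ?_⟩
  have h4 := fun i j => hA.four h (cc (b i)) (cc (b j)) (cc g)
  simp only [eT, σ0, Complex.ofReal_zero, zero_smul, sub_zero, hS, t1, hA.one, mul_one,
    ← mul_assoc (Ψ _)] at h4
  obtain ⟨P, hPk⟩ : ∃ P : K → A, ∀ k, Φ (cc (b k)) = P k := ⟨_, fun _ => rfl⟩
  simp only [hPk] at hP h4 f1 f2 ⊢
  generalize Ψ (cc g) = S at *
  have q1 : ∀ j, star (S * P j * S) = S * P j * S := fun j => by
    rw [star_mul, star_mul, s1, hP.sa, mul_assoc]
  have q2 : ∀ j, S * P j * S * (S * P j * S) = S * P j * S := fun j => by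
    calc _ = S * (P j * (S * S) * P j) * S := by simp only [mul_assoc]
      _ = _ := by rw [hS, mul_one, hP.idem]
  have q3 : ∀ i x, S * x * S * z i = S * (x * z i) * S := fun i x => by
    rw [mul_assoc, hc]; simp only [mul_assoc]
  have q4 : ∀ i x, A.τ (S * x * S * z i) = A.τ (x * z i) := fun i x => by
    rw [q3, A.comm, ← mul_assoc, hS, one_mul]
  have q5 : ∀ i x, x * z i = z i → S * x * S * z i = z i := fun i x hx => by
    rw [q3, hx, hc, mul_assoc, hS, mul_one]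
  have d1 : ∀ i, P i * (S * P i * S) * (1 - z (i, i)) = 0 := fun i =>
    hA.zero_of_tr (hP.sa i) (hP.idem i) (q1 i) (q2 i) (hz.sa _) (hz.idem _) (hc _) (by
      rw [mul_assoc, q5 _ _ (f1 i), f1, hd, h4]; push_cast; ring)
  have d2 : ∀ i j, j ≠ (i, i) → P i * (S * P i * S) * z j = 0 := fun i j hj => by
    have := congrArg (· * z j) (d1 i)
    simpa only [mul_assoc, sub_mul, one_mul, hz.orth _ _ hj.symm, sub_zero, zero_mul] using this
  have ht : ∀ i, z i * (1 - t) = 0 := fun i => by rw [mul_sub, mul_one, hz.mul_unit, sub_self]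
  intro i j hij
  by_cases e : i = j
  · subst e
    have := congrArg (· * (1 - t)) (d1 i)
    simp only [zero_mul] at this
    rwa [mul_assoc, sub_mul, one_mul, ht, sub_zero] at this
  have hf : ∀ w, w ≠ (i, i) → w ≠ (j, j) → (P i + P j) * z w = z w →
      2 * A.τ (P i * (S * P j * S) * z w) = A.τ (z w) := fun w w1 w2 w3 =>
    half (Q := S * P i * S) (hc w) w3 (by rw [← add_mul, ← mul_add, q5 _ _ w3]) (d2 i w w1)
      (d2 j w w2) (q4 _ _)
  have e' : j ≠ i := Ne.symm e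
  have k1 := hf (i, j) (by simp [e']) (by simp [e]) (f2 i j e)
  have k2 := hf (j, i) (by simp [e']) (by simp [e]) (by rw [add_comm]; exact f2 j i e')
  have o1 : z (i, j) * z (j, i) = 0 := hz.orth _ _ (by simp [e])
  have o2 : z (j, i) * z (i, j) = 0 := hz.orth _ _ (by simp [e'])
  have := hA.zero_of_tr (hP.sa i) (hP.idem i) (q1 j) (q2 j) (w := z (i, j) + z (j, i))
    (by rw [star_add, hz.sa, hz.sa]) (by simp [add_mul, mul_add, o1, o2, hz.idem])
    (fun x => by rw [mul_add, add_mul, hc, hc]) (by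
      rw [mul_add, map_add, h4]
      push_cast at hij ⊢
      linear_combination (k1 + k2 + hij) / 2)
  have := congrArg (· * (1 - t)) this
  simp only [zero_mul] at this
  rwa [mul_assoc, sub_mul, one_mul, add_mul, ht, ht, add_zero, sub_zero] at this

lemma fd_bd {e s z : A} (e1 : star e = e) (e2 : e * e = e) (s1 : star s = s) (s2 : s * s = 1)
    (hes : s * e * s = 1 - e) (hc : ∀ x, x * z = z * x)
    (hm : ∀ x, ∃ c : ℂ, e * x * e * z = c • (e * z)) (h0 : nrm (e * z) ≠ 0) (z1 : star z = z)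
    (z2 : z * z = z) : ∃ C, ∀ x, Bd (x * z) (C * nrm (x * z)) := by
  have be := bd_of_proj e1 e2
  have bs : Bd s 1 := bd_of_pi (by rw [s1, s2, one_mul])
  have bz := be.mul (bd_of_proj z1 z2)
  have h1 : 0 < nrm (e * z) := lt_of_le_of_ne (nrm_nonneg _) h0.symm
  have k : ∀ x r, nrm (x * z) ≤ r → Bd (e * x * e * z) (r / nrm (e * z)) := fun x r hr => by
    obtain ⟨c, hx⟩ := hm x
    have : ‖c‖ * nrm (e * z) ≤ r := by
      rw [← nrm_smul, ← hx, mul_assoc, hc, ← mul_assoc, mul_assoc e x]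
      have a1 := (be.2 (e * (x * z))).2
      have a2 := (be.2 (x * z)).1
      linarith
    rw [hx]
    exact (bz.smul c).mono (by rw [le_div_iff₀ h1]; linarith)
  have l1 : ∀ x, nrm (s * x * z) ≤ nrm (x * z) := fun x => by
    rw [mul_assoc]; simpa using (bs.2 _).1
  have l2 : ∀ x, nrm (x * s * z) ≤ nrm (x * z) := fun x => by
    rw [mul_assoc, hc s, ← mul_assoc]; simpa using (bs.2 _).2
  refine ⟨4 / nrm (e * z), fun x => ?_⟩
  have e3 : e + s * e * s = 1 := by rw [hes, add_sub_cancel]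
  have : x * z = e * x * e * z + e * (x * s) * e * z * s + s * (e * (s * x) * e * z) +
      s * (e * (s * x * s) * e * z) * s := by
    calc x * z = (e + s * e * s) * x * (e + s * e * s) * z := by rw [e3, one_mul, mul_one]
      _ = _ := by simp only [add_mul, mul_add, mul_assoc, hc s]; abel
  have b := (((k x _ le_rfl).add ((k _ _ (l2 x)).mul bs)).add (bs.mul (k _ _ (l1 x)))).add
    ((bs.mul (k _ _ ((l2 (s * x)).trans (l1 x)))).mul bs)
  rw [← this] at b
  exact b.mono (le_of_eq (by ring))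

lemma fd_tr {e s z T : A} (e2 : e * e = e) (s2 : s * s = 1)
    (hes : s * e * s = 1 - e) (hc : ∀ x, x * z = z * x)
    (hm : ∀ x, ∃ c : ℂ, e * x * e * z = c • (e * z)) (z2 : z * z = z) (hT : T * T * z = z)
    (h0 : e * (T * s) * e * z ≠ 0) : A.τ (T * z) = 0 := by
  obtain ⟨a, ha⟩ := hm T
  obtain ⟨c, hc'⟩ := hm (T * s)
  obtain ⟨d, hd⟩ := hm (s * T * s)
  have e3 : e + s * e * s = 1 := by rw [hes, add_sub_cancel]
  have e4 : e * s * e = 0 := by
    have : e * s = s * (1 - e) := by rw [← hes, ← mul_assoc, ← mul_assoc, s2, one_mul]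
    rw [this, mul_assoc, sub_mul, one_mul, e2, sub_self, mul_zero]
  have pr : ∀ x y, e * x * e * z * (e * y * e * z) = e * x * e * y * e * z := fun x y => by
    rw [mul_assoc _ z, ← hc, mul_assoc _ z z, z2]
    simp only [← mul_assoc]
    rw [mul_assoc _ e e, e2]
  have ez : e * z * (e * z) = e * z := by simpa [e2] using pr 1 1
  have k1 : (a * c + c * d) • (e * z) = 0 := by
    calc _ = e * T * e * z * (e * (T * s) * e * z) +
          e * (T * s) * e * z * (e * (s * T * s) * e * z) := by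
          rw [ha, hc', hd, smul_mul_smul_comm, smul_mul_smul_comm, ez, add_smul]
      _ = e * T * (e + s * e * s) * T * s * e * z := by
          rw [pr, pr]; simp only [add_mul, mul_add, mul_assoc]
      _ = e * (T * T * z) * (s * e) := by
          rw [e3, mul_one, mul_assoc _ e z, mul_assoc _ s, ← mul_assoc s, hc (s * e)]
          simp only [mul_assoc]
      _ = 0 := by rw [hT, mul_assoc, ← hc, ← mul_assoc, ← mul_assoc, e4, zero_mul]
  have k2 : (a + d) • (e * z) = 0 := by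
    have c0 : c ≠ 0 := by rintro rfl; exact h0 (by rw [hc', zero_smul])
    have := congrArg (c⁻¹ • ·) k1
    simp only [smul_smul, smul_zero] at this
    rwa [show c⁻¹ * (a * c + c * d) = a + d by field_simp] at this
  have k3 : ∀ x, A.τ (e * x * e * z) = A.τ (x * e * z) := fun x => by
    rw [mul_assoc, mul_assoc, A.comm, mul_assoc, mul_assoc, ← hc e, ← mul_assoc e, e2, mul_assoc]
  calc A.τ (T * z) = A.τ (T * (e + s * e * s) * z) := by rw [e3, mul_one]
    _ = A.τ (e * T * e * z) + A.τ (e * (s * T * s) * e * z) := by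
        rw [k3, k3, mul_add, add_mul, map_add]
        congr 1
        rw [← mul_assoc, ← mul_assoc, mul_assoc _ s z, hc s, ← mul_assoc, A.comm]
        simp only [mul_assoc]
    _ = 0 := by rw [← map_add, ha, hd, ← add_smul, k2, map_zero]

lemma VN.fd_fix (hA : VN A) {l : Filter ℕ} {K : Type} [Fintype K] {θ : K → X1} {p : ℕ → K → A}
    (hp : ∀ n, IsPVM 1 (p n)) {Φ : ℕ → CX →⋆ₐ[ℂ] A}
    (h : Null (B := fun _ => A) l fun n => Φ n (fourier 1) - evalHom θ (hp n) (fourier 1))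
    {z : A} (hc : ∀ x, x * z = z * x) (z1 : star z = z) (z2 : z * z = z)
    (hb : ∃ C, ∀ x, Bd (x * z) (C * nrm (x * z))) {J : Set K} (hJ : ∀ n, ∀ k ∉ J, p n k * z = 0)
    {g : CX} (hg : ∀ k ∈ J, ∀ᶠ x in 𝓝 (θ k), g x = 0) : ∀ᶠ n in l, Φ n g * z = 0 := by
  obtain ⟨C, hb⟩ := hb
  obtain ⟨φ, h0, h1, -⟩ := exists_continuous_zero_one_of_isClosed
    ((Set.toFinite J).image θ).isClosed (isClosed_tsupport g) (by
      rw [Set.disjoint_left]
      rintro _ ⟨k, hk, rfl⟩
      exact notMem_tsupport_iff_eventuallyEq.mpr (hg k hk))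
  have e1 : cc φ * g = g := by
    ext x
    by_cases hx : g x = 0
    · simp [hx]
    · simp [h1 (subset_tsupport g hx)]
  have e2 : ∀ n, evalHom θ (hp n) (cc φ) * z = 0 := fun n => by
    change obs _ _ * z = 0
    rw [obs, Finset.sum_mul]
    refine Finset.sum_eq_zero fun k _ => ?_
    by_cases hk : k ∈ J
    · simp [h0 ⟨k, hk, rfl⟩]
    · rw [smul_mul_assoc, hJ n k hk, smul_zero]
  have h2 := (hA.null_fc h (cc φ)).mul_right (b := fun _ => z)
    ⟨1, Eventually.of_forall fun _ => bd_of_proj z1 z2⟩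
  simp only [Null, sub_mul, e2, sub_zero] at h2
  have h3 := h2.const_mul C
  rw [mul_zero] at h3
  filter_upwards [h3.eventually (gt_mem_nhds one_pos)] with n hn
  have e3 : Φ n (cc φ) * z * (Φ n g * z) = Φ n g * z := by
    rw [mul_assoc, ← hc, mul_assoc _ z, z2, ← mul_assoc, ← map_mul, e1]
  have := ((hb (Φ n (cc φ))).2 (Φ n g * z)).1
  rw [e3] at this
  exact hA.faith _ (by nlinarith [nrm_nonneg (Φ n g * z)])

/-- The two spectral projections of a symmetry. -/
noncomputable def sp (s : A) (b : Bool) : A := (2⁻¹ : ℂ) • (1 + if b then s else -s)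

lemma sp_pvm {s : A} (s1 : star s = s) (s2 : s * s = 1) : IsPVM 1 (sp s) := by
  refine ⟨?_, ?_, ?_, ?_⟩
  · rintro (_ | _) <;> simp [sp, s1]
  · rintro (_ | _) <;> simp [sp, add_mul, mul_add, s2, smul_smul] <;> module
  · rintro (_ | _) (_ | _) h
    · exact absurd rfl h
    · simp [sp, add_mul, mul_add, s2, smul_smul]
    · simp [sp, add_mul, mul_add, s2, smul_smul]
      abel
    · exact absurd rfl h
  · simp [sp]; module

lemma eval_sp {s : A} (s1 : star s = s) (s2 : s * s = 1) (θ : Bool → X1) (f : CX) :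
    evalHom θ (sp_pvm s1 s2) f =
      ((f (θ true) + f (θ false)) / 2) • 1 + ((f (θ true) - f (θ false)) / 2) • s := by
  change obs (fun i => f (θ i)) (sp s) = _
  simp [obs, sp]
  module

lemma bumps_near {K : Type} [DecidableEq K] {θ : K → X1} {b : K → C(X1, ℝ)}
    (b1 : ∀ i j, i ≠ j → ∀ x, b i x = 0 ∨ b j x = 0) (b2 : ∀ i, ∀ᶠ x in 𝓝 (θ i), b i x = 1)
    (k : K) : ∀ᶠ x in 𝓝 (θ k), ∀ j, b j x = if j = k then 1 else 0 :=
  (b2 k).mono fun x hx j => by
    split_ifs with h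
    · rw [h, hx]
    · exact (b1 j k h x).resolve_right (by rw [hx]; exact one_ne_zero)

theorem VN.core7 (hA : VN A) {l : Filter ℕ} {K : Type} [Fintype K] [Nonempty K] {e s t : A}
    (e1 : star e = e) (e2 : e * e = e) (s1 : star s = s) (s2 : s * s = 1)
    (hes : s * e * s = 1 - e) {z : K × K → A} (hz : IsPVM t z) (hc : ∀ i x, x * z i = z i * x)
    (hm : ∀ i x, ∃ c : ℂ, e * x * e * z i = c • (e * z i)) (h0 : ∀ i, nrm (e * z i) ≠ 0)
    (hd : ∀ k, A.τ (z (k, k)) = ((Fintype.card K : ℝ)⁻¹ ^ 2 : ℝ)) {p : ℕ → K → A}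
    (hp : ∀ n, IsPVM 1 (p n)) (hpz : ∀ n k i j, k ≠ i → k ≠ j → p n k * z (i, j) = 0)
    {θ : K → X1} (hθ : Function.Injective θ) {θ' : Bool → X1} (hθ' : Function.Injective θ')
    {Φ Ψ : ℕ → CX →⋆ₐ[ℂ] A}
    (c1 : Null (B := fun _ => A) l fun n => Φ n (fourier 1) - evalHom θ (hp n) (fourier 1))
    (c2 : Null (B := fun _ => A) l fun n => Ψ n (fourier 1) -
      evalHom θ' (sp_pvm s1 s2) (fourier 1)) (c3 : ∀ᶠ n in l, Ind4 (Φ n) (Ψ n)) :
    ∃ (P : ℕ → K → A) (S : ℕ → A), (∀ᶠ n in l, IsPVM 1 (P n) ∧ star (S n) = S n ∧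
      S n * S n = 1 ∧ ∀ i j, A.τ (z (i, j)) + A.τ (z (j, i)) =
        2 * ((Fintype.card K : ℝ)⁻¹ ^ 2 : ℝ) → P n i * (S n * P n j * S n) * (1 - t) = 0) ∧
      (∀ k, NB (B := fun _ => A) l (fun n => P n k) fun n => p n k) ∧
      NB (B := fun _ => A) l S fun _ => s := by
  classical
  obtain ⟨b, b0, b1, b2⟩ := exists_bumps hθ
  obtain ⟨b', b0', b1', b2'⟩ := exists_bumps hθ'
  have b3 : ∀ x, ∑ k, b k x ≤ 1 := fun x => by
    by_cases h : ∃ k, b k x ≠ 0
    · obtain ⟨k, hk⟩ := h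
      rw [Finset.sum_eq_single k (fun j _ hj => (b1 j k hj x).resolve_right hk) (by simp)]
      exact (b0 k x).2
    · simp only [not_exists, not_not] at h
      simp [h]
  have b4 := bumps_near b1 b2
  have b4' := bumps_near b1' b2'
  let g : C(X1, ℝ) := b' true - b' false
  have hg : ∀ x, g x * g x ≤ 1 := fun x => by
    have := b0' true x
    have := b0' false x
    simp only [g, ContinuousMap.sub_apply]
    nlinarith
  have fd := fun i => fd_bd e1 e2 s1 s2 hes (hc i) (hm i) (h0 i) (hz.sa i) (hz.idem i)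
  have bs : Bd s 1 := bd_of_pi (by rw [s1, s2, one_mul])
  have nS : NB (B := fun _ => A) l (fun n => Ψ n (cc g)) fun _ => s := by
    refine ⟨(hA.null_fc c2 (cc g)).congr (Eventually.of_forall fun n => ?_),
      ⟨_, Eventually.of_forall fun n => hA.bd _ _⟩, ⟨1, Eventually.of_forall fun n => bs⟩⟩
    rw [eval_sp s1 s2]
    simp [g, (b4' _).self_of_nhds]
  refine ⟨fun n k => Φ n (cc (b k)), fun n => Ψ n (cc g), ?_, fun k =>
    ⟨(hA.null_fc c1 (cc (b k))).congr (Eventually.of_forall fun n => ?_),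
      ⟨_, Eventually.of_forall fun n => hA.bd _ _⟩,
      ⟨1, Eventually.of_forall fun n => bd_of_proj ((hp n).sa _) ((hp n).idem _)⟩⟩, nS⟩
  swap
  · change _ - obs _ _ = _
    simp [obs, (b4 _).self_of_nhds]
  have f1 : ∀ᶠ n in l, ∀ k, Φ n (cc (b k)) * z (k, k) = z (k, k) := by
    rw [eventually_all]
    intro k
    filter_upwards [hA.fd_fix hp c1 (hc _) (hz.sa _) (hz.idem _) (fd (k, k)) (J := {k})
      (fun n j hj => hpz n j k k hj hj) (g := cc (b k) - 1) (by
        rintro _ rfl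
        exact (b2 _).mono fun x hx => by simp [hx])] with n hn
    rwa [map_sub, map_one, sub_mul, one_mul, sub_eq_zero] at hn
  have f2 : ∀ᶠ n in l, ∀ i j, i ≠ j →
      (Φ n (cc (b i)) + Φ n (cc (b j))) * z (i, j) = z (i, j) := by
    simp only [eventually_all]
    intro i j hij
    filter_upwards [hA.fd_fix hp c1 (hc _) (hz.sa _) (hz.idem _) (fd (i, j)) (J := {i, j})
      (fun n k hk => hpz n k i j (fun h => hk (Or.inl h)) fun h => hk (Or.inr h))
      (g := cc (b i) + cc (b j) - 1) (by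
        rintro _ (rfl | rfl) <;>
        exact (b4 _).mono fun x hx => by simp [hx, hij, hij.symm])] with n hn
    rwa [map_sub, map_one, sub_mul, one_mul, sub_eq_zero, map_add] at hn
  have f3 : ∀ᶠ n in l, ∀ k, Ψ n (cc g) * Ψ n (cc g) * z (k, k) = z (k, k) := by
    rw [eventually_all]
    intro k
    filter_upwards [hA.fd_fix (fun _ => sp_pvm s1 s2) c2 (hc _) (hz.sa _) (hz.idem _) (fd (k, k))
      (J := Set.univ) (fun n j hj => absurd trivial hj) (g := cc g * cc g - 1) (by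
        rintro (_ | _) - <;>
        exact (b4' _).mono fun x hx => by simp [g, hx])] with n hn
    rwa [map_sub, map_one, sub_mul, one_mul, sub_eq_zero, map_mul] at hn
  have f4 : ∀ᶠ n in l, ∀ k, e * (Ψ n (cc g) * s) * e * z (k, k) ≠ 0 := by
    rw [eventually_all]
    intro k
    have h1 := (nS.null.mul_left (a := fun _ => e)
      ⟨1, Eventually.of_forall fun _ => bd_of_proj e1 e2⟩).mul_right
      (b := fun _ => s * e * z (k, k)) ⟨_, Eventually.of_forall fun _ =>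
        (bs.mul (bd_of_proj e1 e2)).mul (bd_of_proj (hz.sa _) (hz.idem _))⟩
    filter_upwards [h1.eventually (gt_mem_nhds
      (lt_of_le_of_ne (nrm_nonneg _) (h0 (k, k)).symm))] with n hn h2
    have : e * (Ψ n (cc g) - s) * (s * e * z (k, k)) =
        e * (Ψ n (cc g) * s) * e * z (k, k) - e * (s * s) * e * z (k, k) := by
      simp only [mul_sub, sub_mul, mul_assoc]
    rw [this, h2, s2, mul_one, e2, zero_sub, nrm_neg] at hn
    exact lt_irrefl _ hn
  filter_upwards [f1, f2, f3, f4, c3] with n f1 f2 f3 f4 c3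
  obtain ⟨k1, k2, k3⟩ := hA.exact_step c3 hz hc hd b0 b1 b3 hg f1 f2 f3 fun k =>
    fd_tr e2 s2 hes (hc _) (hm _) (hz.idem _) (f3 k) (f4 k)
  exact ⟨k1, by rw [← map_star]; congr 1; ext x; simp, k2, k3⟩

lemma odd_tr {e s d : A} (e2 : e * e = e) (s2 : s * s = 1) (hes : s * e * s = 1 - e)
    (hd : d * e = e * d) : A.τ (d * s) = 0 := by
  have k1 : s * e = (1 - e) * s := by rw [← hes, mul_assoc, s2, mul_one]
  have k2 : A.τ (d * s * e) = 0 := by
    rw [← e2, ← mul_assoc, A.comm, ← mul_assoc, ← mul_assoc, ← hd, mul_assoc, mul_assoc, k1,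
      ← mul_assoc e, mul_sub, mul_one, e2, sub_self, zero_mul, mul_zero, map_zero]
  have k3 : A.τ (d * s * e) = A.τ (d * s) - A.τ (d * s * e) := by
    conv_lhs => rw [mul_assoc, k1, sub_mul, one_mul, mul_sub, map_sub, ← mul_assoc, hd,
      mul_assoc, A.comm e]
  rw [k2, sub_zero] at k3
  exact k3.symm

theorem words7 {l : Filter ℕ} {e s : A} (e2 : e * e = e) (s2 : s * s = 1)
    (hes : s * e * s = 1 - e) {a : ℤ → ℕ → A} (c : ℤ → ℂ) (hD : ∀ x n, a x n * e = e * a x n)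
    (t1 : ∀ x n, A.τ (a x n) = 0)
    (t2 : ∀ x y, Tendsto (fun n => A.τ (a x n * (s * (a y n * s)))) l (𝓝 0))
    (t3 : ∀ x y w, Tendsto (fun n => A.τ (a x n * (s * (a y n * (s * a w n))))) l (𝓝 0))
    (m : ℕ) (h1 : 1 ≤ m) (h7 : m ≤ 7) (r : ℕ) (f : Fin m → ℤ) :
    Tendsto (fun n => A.τ (List.ofFn fun i : Fin m =>
      if (i.val + r) % 2 = 0 then a (f i) n else c (f i) • s).prod) l (𝓝 0) := by
  have D2 : ∀ {x y : A}, x * e = e * x → y * e = e * y → x * y * e = e * (x * y) :=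
    fun {x y} hx hy => by rw [mul_assoc, hy, ← mul_assoc, hx, mul_assoc]
  have D3 : ∀ {x : A}, x * e = e * x → s * x * s * e = e * (s * x * s) := fun {x} hx => by
    have k1 : s * e = (1 - e) * s := by rw [← hes, mul_assoc, s2, mul_one]
    have k2 : e * s = s * (1 - e) := by rw [← hes, ← mul_assoc, ← mul_assoc, s2, one_mul]
    calc s * x * s * e = s * (x * (1 - e)) * s := by simp only [mul_assoc, k1]
      _ = s * ((1 - e) * x) * s := by rw [mul_sub, sub_mul, hx, one_mul, mul_one]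
      _ = _ := by simp only [← mul_assoc, k2]
  have o1 : ∀ {d : A}, d * e = e * d → A.τ (d * s) = 0 := fun hd => odd_tr e2 s2 hes hd
  have w1 : A.τ s = 0 := by simpa using o1 (d := 1) (by simp)
  have w2 : ∀ x n, A.τ (a x n * s) = 0 := fun x n => o1 (hD x n)
  have w2' : ∀ x n, A.τ (s * a x n) = 0 := fun x n => by rw [A.comm, w2]
  have w3 : ∀ x y n, A.τ (a x n * (s * a y n)) = 0 := fun x y n => by
    rw [← mul_assoc, A.comm, ← mul_assoc]; exact o1 (D2 (hD _ _) (hD _ _))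
  have w3' : ∀ x n, A.τ (s * (a x n * s)) = 0 := fun x n => by
    rw [A.comm, mul_assoc, s2, mul_one, t1]
  have w4 : ∀ x y n, A.τ (s * (a x n * (s * a y n))) = A.τ (a x n * (s * (a y n * s))) :=
    fun x y n => cyc4 _ _ _ _
  have w5 : ∀ x y n, A.τ (s * (a x n * (s * (a y n * s)))) = 0 := fun x y n => by
    simpa only [mul_assoc] using o1 (D2 (D3 (hD x n)) (hD y n))
  have w6 : ∀ x y w n, A.τ (a x n * (s * (a y n * (s * (a w n * s))))) = 0 := fun x y w n => by
    simpa only [mul_assoc] using o1 (D2 (D2 (hD x n) (D3 (hD y n))) (hD w n))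
  have w6' : ∀ x y w n, A.τ (s * (a x n * (s * (a y n * (s * a w n))))) = 0 := fun x y w n => by
    rw [A.comm]; simpa only [mul_assoc] using w6 x y w n
  have w7 : ∀ x y w v n, A.τ (a x n * (s * (a y n * (s * (a w n * (s * a v n)))))) = 0 :=
    fun x y w v n => by
      have := o1 (D2 (D2 (D2 (hD v n) (hD x n)) (D3 (hD y n))) (hD w n))
      rw [mul_assoc, mul_assoc, mul_assoc, A.comm] at this
      simpa only [mul_assoc] using this
  have w7' : ∀ x y w n, A.τ (s * (a x n * (s * (a y n * (s * (a w n * s)))))) =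
      A.τ (a x n * (s * (a y n * (s * a w n)))) := fun x y w n => by
    rw [A.comm]; simp only [mul_assoc, s2, mul_one]
  have k : ∀ (c : ℂ) (u : ℕ → ℂ), Tendsto u l (𝓝 0) → Tendsto (fun n => c * u n) l (𝓝 0) :=
    fun c u hu => by simpa using hu.const_mul c
  have z0 : Tendsto (fun _ : ℕ => (0 : ℂ)) l (𝓝 0) := tendsto_const_nhds
  have hr : (∀ j, (j + r) % 2 = j % 2) ∨ ∀ j, (j + r) % 2 = (j + 1) % 2 := by
    rcases Nat.mod_two_eq_zero_or_one r with h | h
    · exact Or.inl fun j => by omega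
    · exact Or.inr fun j => by omega
  rcases hr with hr | hr <;> interval_cases m <;>
    simp only [hr, List.ofFn_succ, List.ofFn_zero, List.prod_cons, List.prod_nil, mul_one,
      Fin.val_zero, Fin.val_succ, zero_add, Nat.reduceAdd, Nat.reduceMod, Nat.zero_mod,
      one_ne_zero, if_true, if_false, smul_mul_assoc, mul_smul_comm, map_smul, smul_eq_mul,
      t1, w1, w2, w2', w3, w3', w4, w5, w6, w6', w7, w7', mul_zero, z0] <;>
    (repeat with_reducible apply k) <;>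
    first
      | with_reducible exact t2 _ _
      | with_reducible exact t3 _ _ _

end Pool.Agent.Lib.MP_64d6f1_an
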