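import Pool.Agent.Lib.MP_64d6f1_an.Env

/-! The envelope of two by two matrices over a tracial algebra. -/

open scoped InnerProductSpace ComplexConjugate
open Filter Topology

namespace Pool.Agent.Lib.MP_64d6f1_an

namespace TAlg

theorem envelope2 (A : TAlg) (hb : ∀ a : A, ∃ C, Bd a C) :
    ∃ (N : VonNeumannAlgebra A.H) (ξ : A.H) (L : A →⋆ₐ[ℂ] (A.H →L[ℂ] A.H)),
      (∀ a, L a ∈ N) ∧ (∀ a, ⟪ξ, L a ξ⟫_ℂ = A.τ a) ∧
      (∀ x ∈ N, ∀ y ∈ N, ⟪ξ, (x * y) ξ⟫_ℂ = ⟪ξ, (y * x) ξ⟫_ℂ) ∧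
      (∀ x ∈ N, x ξ = 0 → x = 0) ∧
      (∀ a : A, (∀ b, b * a = a * b) → ∀ x ∈ N, x * L a = L a * x) ∧
      (∀ a : A, (∀ b, ∃ c : ℂ, a * b * a = c • a) →
        ∀ x ∈ N, ∃ c : ℂ, L a * x * L a = c • L a) := by
  let R : Set (A.H →L[ℂ] A.H) := Set.range fun a => rho a (hb a)
  let N : VonNeumannAlgebra A.H :=
    { toStarSubalgebra := StarSubalgebra.centralizer ℂ R
      centralizer_centralizer' := by
        change Set.centralizer (Set.centralizer
          (StarSubalgebra.centralizer ℂ R : Set (A.H →L[ℂ] A.H))) = _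
        rw [StarSubalgebra.coe_centralizer, Set.centralizer_centralizer_centralizer]
        rfl }
  have hN : ∀ x, x ∈ N ↔ ∀ a, rho a (hb a) * x = x * rho a (hb a) := by
    intro x
    change x ∈ StarSubalgebra.centralizer ℂ R ↔ _
    rw [StarSubalgebra.mem_centralizer_iff]
    constructor
    · intro h a
      exact (h _ ⟨a, rfl⟩).1
    · rintro h _ ⟨a, rfl⟩
      exact ⟨h a, by rw [star_rho a (hb a) (hb _)]; exact h _⟩
  let L : A →⋆ₐ[ℂ] (A.H →L[ℂ] A.H) :=
    { toFun := fun a => lam a (hb a)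
      map_one' := clm_ext fun x => by simp
      map_mul' := fun a b => clm_ext fun x => by simp [mul_assoc]
      map_zero' := clm_ext fun x => by simp [vec_zero]
      map_add' := fun a b => clm_ext fun x => by simp [add_mul, vec_add]
      commutes' := fun c => clm_ext fun x => by
        simp [Algebra.algebraMap_eq_smul_one, vec_smul]
      map_star' := fun a => (star_lam a (hb a) (hb _)).symm }
  have hL : ∀ a x, L a (vec x) = vec (a * x) := fun a x => lam_vec a (hb a) x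
  have hcomm : ∀ x ∈ N, ∀ a, x (vec a) = rho a (hb a) (x (vec 1)) := by
    intro x hx a
    have := congrArg (fun T : A.H →L[ℂ] A.H => T (vec 1)) ((hN x).mp hx a)
    simpa using this.symm
  have hJ : ∀ x ∈ N, star x (vec 1) = A.J (x (vec 1)) := by
    intro x hx
    apply eq_of_inner_vec
    intro a
    rw [ContinuousLinearMap.star_eq_adjoint, ContinuousLinearMap.adjoint_inner_left, hcomm x hx,
      ← ContinuousLinearMap.adjoint_inner_left, ← ContinuousLinearMap.star_eq_adjoint,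
      star_rho a (hb a) (hb _), rho_vec, one_mul, ← inner_J, J_vec, star_star]
  have hLN : ∀ a, L a ∈ N := fun a => (hN _).mpr fun b => clm_ext fun x => by
    simp [hL, mul_assoc]
  have hsep : ∀ x ∈ N, x (vec 1) = 0 → x = 0 := fun x hx h0 =>
    clm_ext fun a => by rw [hcomm x hx, h0]; simp
  refine ⟨N, vec 1, L, hLN, fun a => ?_, ?_, hsep, ?_, ?_⟩
  · rw [hL, inner_vec, star_one, one_mul, mul_one]
  · intro x hx y hy
    have key : ∀ x ∈ N, ∀ y ∈ N, ⟪vec 1, (x * y) (vec 1)⟫_ℂ =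
        ⟪star x (vec 1), y (vec 1)⟫_ℂ := by
      intro x _ y _
      rw [ContinuousLinearMap.star_eq_adjoint, ContinuousLinearMap.adjoint_inner_left]
      rfl
    rw [key x hx y hy, key y hy x hx, hJ x hx, ← inner_J (x (vec 1)), ← hJ _ (star_mem hy),
      star_star]
  · intro a ha x hx
    have hLR : L a = rho a (hb a) := clm_ext fun b => by rw [hL, rho_vec, ha]
    rw [hLR]
    exact ((hN x).mp hx a).symm
  · intro a ha x hx
    have hr : ∀ v, L a (rho a (hb a) v) ∈ Submodule.span ℂ {vec a} := by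
      refine vec_induction ?_ fun b => ?_
      · exact (Submodule.closed_of_finiteDimensional _).preimage
          ((L a).continuous.comp (rho a (hb a)).continuous)
      · obtain ⟨c, h1⟩ := ha b
        rw [rho_vec, hL, ← mul_assoc, h1, vec_smul]
        exact Submodule.smul_mem _ _ (Submodule.mem_span_singleton_self _)
    obtain ⟨c, hc⟩ := Submodule.mem_span_singleton.mp (hr (x (vec 1)))
    refine ⟨c, sub_eq_zero.mp (hsep _ (sub_mem (mul_mem (mul_mem (hLN a) hx) (hLN a))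
      (N.toStarSubalgebra.smul_mem (hLN a) c)) ?_)⟩
    simp only [sub_apply, mul_apply_eq_comp, smul_apply, hL, mul_one]
    rw [hcomm x hx a, ← hc, sub_self]

variable {m : Type} [Fintype m] [DecidableEq m] {B : TAlg}

lemma nrm_mat (y : mat m B) :
    nrm y ^ 2 = (Fintype.card m : ℝ)⁻¹ * ∑ i, ∑ j, nrm (y j i) ^ 2 := by
  apply Complex.ofReal_injective
  rw [← nrm_sq', mat_τ]
  push_cast
  congr 1
  refine Finset.sum_congr rfl fun i _ => ?_
  change B.τ ((star y * y : Matrix m m B) i i) = _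
  rw [Matrix.mul_apply, map_sum]
  refine Finset.sum_congr rfl fun j _ => ?_
  rw [Matrix.star_apply, nrm_sq']
  push_cast
  rfl

lemma kron_one_mul (x : B) (y : mat m B) (i j : m) :
    (kron (1 : Matrix m m ℂ) x * y) i j = x * y i j := by
  change ((Matrix.of fun a b => (1 : Matrix m m ℂ) a b • x) * y : Matrix m m B) i j = _
  simp [Matrix.mul_apply, Matrix.one_apply]

lemma mul_kron_one (x : B) (y : mat m B) (i j : m) :
    (y * kron (1 : Matrix m m ℂ) x) i j = y i j * x := by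
  change (y * (Matrix.of fun a b => (1 : Matrix m m ℂ) a b • x) : Matrix m m B) i j = _
  simp [Matrix.mul_apply, Matrix.one_apply]

lemma bd_kron_one {x : B} {C : ℝ} (h : Bd x C) : Bd (kron (1 : Matrix m m ℂ) x) C := by
  have k : ∀ y w : mat m B, (∀ i j, nrm (w i j) ≤ C * nrm (y i j)) → nrm w ≤ C * nrm y := by
    intro y w hw
    rw [← sq_le_sq₀ (nrm_nonneg _) (mul_nonneg h.1 (nrm_nonneg _)), mul_pow, nrm_mat, nrm_mat,
      mul_left_comm]
    refine mul_le_mul_of_nonneg_left ?_ (by positivity)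
    simp only [Finset.mul_sum, ← mul_pow]
    exact Finset.sum_le_sum fun i _ => Finset.sum_le_sum fun j _ =>
      pow_le_pow_left₀ (nrm_nonneg _) (hw j i) 2
  exact ⟨h.1, fun y => ⟨k y _ fun i j => by rw [kron_one_mul]; exact (h.2 _).1,
    k y _ fun i j => by rw [mul_kron_one]; exact (h.2 _).2⟩⟩

lemma mat_eq_sum (y : mat m B) : y = ∑ i, ∑ j, kron (Matrix.single i j 1) (y i j) := by
  apply Matrix.ext
  intro a b
  change y a b = (∑ i, ∑ j, Matrix.of fun a b => Matrix.single i j (1 : ℂ) a b • y i j :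
    Matrix m m B) a b
  simp [Matrix.sum_apply, Matrix.single_apply, ite_and]

lemma bd_mat (hb : ∀ a : B, ∃ C, Bd a C) (y : mat m B) : ∃ C, Bd y C := by
  have : Bdd (B := fun _ => mat m B) ⊤ fun _ => ∑ i, ∑ j, kron (Matrix.single i j 1) (y i j) := by
    refine Bdd.sum _ fun i _ => Bdd.sum _ fun j _ => ?_
    obtain ⟨C, hC⟩ := hb (y i j)
    have h1 : Bd (kron (Matrix.single i j (1 : ℂ)) (1 : B)) 1 := bd_of_pi (by
      rw [star_kron, kron_mul, kron_mul]
      simp [Matrix.star_eq_conjTranspose])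
    have h2 := h1.mul (bd_kron_one hC)
    rw [kron_mul, mul_one, one_mul] at h2
    exact ⟨_, Eventually.of_forall fun _ => h2⟩
  obtain ⟨C, hC⟩ := this
  exact ⟨C, by rw [mat_eq_sum y]; exact eventually_top.mp hC 0⟩

end TAlg

open TAlg

theorem env2 (A0 : TAlg) (hb : ∀ a : A0, ∃ C, Bd a C) (h1 : A0.τ 1 = 1) :
    ∃ (H : Type) (_ : NormedAddCommGroup H) (_ : InnerProductSpace ℂ H) (_ : CompleteSpace H)
      (N : VonNeumannAlgebra H) (ξ : H)
      (htr : ∀ x ∈ N, ∀ y ∈ N, ⟪ξ, (x * y) ξ⟫_ℂ = ⟪ξ, (y * x) ξ⟫_ℂ),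
      VN (vnT N ξ htr) ∧ ∃ (ι : A0 →⋆ₐ[ℂ] vnT N ξ htr) (e s : vnT N ξ htr),
        (∀ x, (vnT N ξ htr).τ (ι x) = A0.τ x) ∧ star e = e ∧ e * e = e ∧ star s = s ∧
        s * s = 1 ∧ s * e * s = 1 - e ∧ (∀ x, ι x * e = e * ι x) ∧ (∀ x, ι x * s = s * ι x) ∧
        ∀ a : A0, a * a = a → (∀ b, ∃ c : ℂ, a * b = c • a ∧ b * a = c • a) →
          (∀ x, x * ι a = ι a * x) ∧ ∀ x, ∃ c : ℂ, e * x * e * ι a = c • (e * ι a) := by
  obtain ⟨N, ξ, L, hLN, hLτ, htr, hf, hce, hat⟩ := envelope2 (mat (Fin 2) A0) (bd_mat hb)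
  let A := vnT N ξ htr
  have t1 : ∀ x : A0, (mat (Fin 2) A0).τ (kron 1 x) = A0.τ x := fun x => by
    rw [τ_kron]; simp
  have hA1 : ⟪ξ, (1 : (mat (Fin 2) A0).H →L[ℂ] (mat (Fin 2) A0).H) ξ⟫_ℂ = 1 := by
    rw [← map_one L, hLτ, ← kron_one_one, t1, h1]
  let L' : mat (Fin 2) A0 →⋆ₐ[ℂ] A := L.codRestrict N.toStarSubalgebra hLN
  let κ : A0 →⋆ₐ[ℂ] mat (Fin 2) A0 :=
    { toFun := kron 1
      map_one' := kron_one_one
      map_mul' := fun x y => by rw [kron_mul, one_mul]
      map_zero' := kron_zero_right _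
      map_add' := kron_add_right _
      commutes' := fun c => by
        rw [Algebra.algebraMap_eq_smul_one, Algebra.algebraMap_eq_smul_one, kron_smul_right,
          kron_one_one]
      map_star' := fun x => by rw [star_kron, star_one] }
  have hκ : ∀ x, κ x = kron 1 x := fun _ => rfl
  let E : Matrix (Fin 2) (Fin 2) ℂ := !![1, 0; 0, 0]
  let S : Matrix (Fin 2) (Fin 2) ℂ := !![0, 1; 1, 0]
  have E1 : star E = E := by ext i j; fin_cases i <;> fin_cases j <;> simp [E]
  have S1 : star S = S := by ext i j; fin_cases i <;> fin_cases j <;> simp [S]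
  have E2 : E * E = E := by ext i j; fin_cases i <;> fin_cases j <;> simp [E]
  have S2 : S * S = 1 := by ext i j; fin_cases i <;> fin_cases j <;> simp [S]
  have ES : S * E * S + E = 1 := by ext i j; fin_cases i <;> fin_cases j <;> simp [S, E]
  refine ⟨_, inferInstance, inferInstance, inferInstance, N, ξ, htr,
    ⟨fun a ha => ?_, hA1, fun Φ f => ?_⟩, L'.comp κ, L' (kron E 1), L' (kron S 1),
    fun x => (hLτ _).trans (t1 x), ?_, ?_, ?_, ?_, ?_, fun x => ?_, fun x => ?_,
    fun a ha h => ?_⟩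
  · rw [vnT_nrm, norm_eq_zero] at ha
    exact Subtype.ext (hf _ a.2 ha)
  · exact (vnT_bd (Φ f)).mono (norm_starAlgHom_le (N.toStarSubalgebra.subtype.comp Φ) f)
  · rw [← map_star, star_kron, E1, star_one]
  · rw [← map_mul, kron_mul, E2, one_mul]
  · rw [← map_star, star_kron, S1, star_one]
  · rw [← map_mul, kron_mul, S2, one_mul, kron_one_one, map_one]
  · rw [eq_sub_iff_add_eq, ← map_mul, ← map_mul, kron_mul, kron_mul, one_mul, one_mul, ← map_add,
      ← kron_add_left, ES, kron_one_one, map_one]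
  · rw [StarAlgHom.comp_apply, hκ, ← map_mul, ← map_mul, kron_mul, kron_mul]
    simp
  · rw [StarAlgHom.comp_apply, hκ, ← map_mul, ← map_mul, kron_mul, kron_mul]
    simp
  · have c1 : ∀ x : A, x * L' (κ a) = L' (κ a) * x := fun x =>
      Subtype.ext (hce (κ a) (fun b => Matrix.ext fun i j => by
        obtain ⟨c, h2, h3⟩ := h (b i j)
        rw [hκ, kron_one_mul, mul_kron_one, h2, h3]) x.1 x.2)
    refine ⟨c1, fun x => ?_⟩
    obtain ⟨c, hc⟩ := hat (kron E a) (fun b => by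
      obtain ⟨c, h2, -⟩ := h (b 0 0)
      refine ⟨c, Matrix.ext fun i j => ?_⟩
      change ((Matrix.of fun i j => E i j • a) * b * (Matrix.of fun i j => E i j • a) :
        Matrix (Fin 2) (Fin 2) A0) i j = c • E i j • a
      fin_cases i <;> fin_cases j <;> simp [E, Matrix.mul_apply, h2, ha]) x.1 x.2
    have hc' : L' (kron E a) * x * L' (kron E a) = c • L' (kron E a) := Subtype.ext hc
    have k1 : L' (kron E 1) * L' (κ a) = L' (kron E a) := by
      rw [← map_mul, hκ, kron_mul, mul_one, one_mul]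
    have k2 : L' (κ a) * L' (κ a) = L' (κ a) := by rw [← map_mul, ← map_mul, ha]
    refine ⟨c, ?_⟩
    rw [StarAlgHom.comp_apply, k1, ← hc', ← k1, mul_assoc (L' (kron E 1)) (L' (κ a)) x, ← c1,
      mul_assoc, mul_assoc, mul_assoc, mul_assoc, ← mul_assoc (L' (κ a)), ← c1,
      mul_assoc, k2]

end Pool.Agent.Lib.MP_64d6f1_an
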