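import Pool.Agent.Lib.MP_64d6f1_an.S7Core

/-! A seven-independent pair without four-independent lifts. -/

open scoped ComplexConjugate
open Filter Topology

namespace Pool.Agent.Lib.MP_64d6f1_an

open TAlg

section pvm

variable {A : Type*} [Ring A] [StarRing A] {K : Type*} [Fintype K]

lemma IsPVM.cut' {P : K → A} (h : IsPVM 1 P) {e : A} (h1 : star e = e) (h2 : e * e = e)
    (h3 : ∀ i, P i * e = e * P i) : IsPVM e fun i => P i * e := by
  have k : ∀ i j, P i * e * (P j * e) = P i * P j * e := fun i j => by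
    rw [mul_assoc, ← mul_assoc e, ← h3, mul_assoc, h2, mul_assoc]
  refine ⟨fun i => ?_, fun i => ?_, fun i j hij => ?_, ?_⟩
  · rw [star_mul, h1, h.sa, h3]
  · rw [k, h.idem]
  · rw [k, h.orth i j hij, zero_mul]
  · rw [← Finset.sum_mul, h.sum, one_mul]

lemma IsPVM.conj {P : K → A} (h : IsPVM 1 P) {s : A} (s1 : star s = s) (s2 : s * s = 1) :
    IsPVM 1 fun i => s * P i * s := by
  have k : ∀ i j, s * P i * s * (s * P j * s) = s * (P i * P j) * s := fun i j => by
    calc _ = s * (P i * (s * s) * P j) * s := by simp only [mul_assoc]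
      _ = _ := by rw [s2, mul_one]
  refine ⟨fun i => ?_, fun i => ?_, fun i j hij => ?_, ?_⟩
  · rw [star_mul, star_mul, s1, h.sa, mul_assoc]
  · rw [k, h.idem]
  · rw [k, h.orth i j hij, mul_zero, zero_mul]
  · rw [← Finset.sum_mul, ← Finset.mul_sum, h.sum, mul_one, s2]

lemma sum_pvm {R C : Type*} [Fintype R] [Fintype C] {d : A} {X Y : R ⊕ C → A} (hX : IsPVM d X)
    (hY : IsPVM d Y) (h1 : ∀ r r', X (.inl r) * Y (.inl r') = 0)
    (h2 : ∀ c c', X (.inr c) * Y (.inr c') = 0) :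
    IsPVM (∑ r, X (.inl r)) (fun r => X (.inl r)) ∧
      IsPVM (∑ r, X (.inl r)) fun c => Y (.inr c) := by
  refine ⟨⟨fun _ => hX.sa _, fun _ => hX.idem _, fun _ _ h => hX.orth _ _ (by simpa using h), rfl⟩,
    fun _ => hY.sa _, fun _ => hY.idem _, fun _ _ h => hY.orth _ _ (by simpa using h), ?_⟩
  have e1 : (∑ r, X (.inl r)) * d = ∑ r, X (.inl r) := by simp only [Finset.sum_mul, hX.mul_unit]
  have e2 : d * ∑ c, Y (.inr c) = ∑ c, Y (.inr c) := by simp only [Finset.mul_sum, hY.unit_mul]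
  rw [← hY.sum, Fintype.sum_sum_type, mul_add, Finset.sum_mul_sum] at e1
  rw [← hX.sum, Fintype.sum_sum_type, add_mul, Finset.sum_mul_sum _ _ fun c => X (.inr c)] at e2
  simp only [h1, h2, Finset.sum_const_zero, zero_add, add_zero] at e1 e2
  rw [← e2, e1]

end pvm

lemma aeval_evalHom {A : TAlg} {K : Type} [Fintype K] (θ : K → X1) {P : K → A} (h : IsPVM 1 P) :
    Polynomial.aeval (evalHom θ h (fourier 1))
      (∏ i, (Polynomial.X - Polynomial.C (fourier 1 (θ i)))) = 0 := by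
  have := Polynomial.aeval_algHom_apply (evalHom θ h).toAlgHom (fourier 1)
    (∏ i, (Polynomial.X - Polynomial.C (fourier 1 (θ i))))
  refine this.trans ?_
  change obs _ _ = 0
  refine Finset.sum_eq_zero fun k _ => ?_
  beta_reduce
  rw [map_prod, ContinuousMap.prod_apply, Finset.prod_eq_zero (Finset.mem_univ k) (by simp),
    zero_smul]

theorem main7 (l : Ultrafilter ℕ) (hl : (l : Filter ℕ) ≤ atTop) :
    ∃ A0 : TAlg, (∀ a : A0, ∃ C, Bd a C) ∧ A0.τ 1 = 1 ∧
      ∀ (A : TAlg) (L : A0 →⋆ₐ[ℂ] A) (e s : A), VN A → (∀ x, A.τ (L x) = A0.τ x) →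
        star e = e → e * e = e → star s = s → s * s = 1 → s * e * s = 1 - e →
        (∀ x, L x * e = e * L x) → (∀ x, L x * s = s * L x) →
        (∀ a : A0, a * a = a → (∀ b, ∃ c : ℂ, a * b = c • a ∧ b * a = c • a) →
          (∀ x, x * L a = L a * x) ∧ ∀ x, ∃ c : ℂ, e * x * e * L a = c • (e * L a)) →
        ∃ Φ Ψ : ℕ → CX →⋆ₐ[ℂ] A,
          (∃ p : Polynomial ℂ, p ≠ 0 ∧ ∀ n, Polynomial.aeval (Φ n (fourier 1)) p = 0 ∧
            Polynomial.aeval (Ψ n (fourier 1)) p = 0) ∧
          (∀ m, 1 ≤ m → m ≤ 7 → ∀ (r : ℕ) (f : Fin m → ℤ),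
            Tendsto (fun n => A.τ (List.ofFn fun i : Fin m => if (i.val + r) % 2 = 0 then
              cen (Φ n (fourier (f i))) else cen (Ψ n (fourier (f i)))).prod) l (𝓝 0)) ∧
          ∀ Φ' Ψ' : ℕ → CX →⋆ₐ[ℂ] A,
            Null (B := fun _ => A) l (fun n => Φ' n (fourier 1) - Φ n (fourier 1)) →
            Null (B := fun _ => A) l (fun n => Ψ' n (fourier 1) - Ψ n (fourier 1)) →
            ¬ ∀ᶠ n in (l : Filter ℕ), Ind4 (Φ' n) (Ψ' n) := by
  classical
  obtain ⟨B, R, C, _, _, P, Q, hE, hP, hQ, hN⟩ := target l hl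
  have : Nonempty (R ⊕ C) := by
    by_contra hR
    have : IsEmpty R := ⟨fun r => hR ⟨.inl r⟩⟩
    have h1 := (hE 0).τ_one
    rw [← (hP 0).sum] at h1
    simp at h1
  let p : ∀ n, R ⊕ C → B n := fun n => Sum.elim (P n) 0
  let q : ∀ n, R ⊕ C → B n := fun n => Sum.elim 0 (Q n)
  have hp : ∀ n, IsPVM 1 (p n) := fun n => (hP n).inl
  have hq : ∀ n, IsPVM 1 (q n) := fun n => (hQ n).inr
  have : ∀ i : (R ⊕ C) × (R ⊕ C), ∃ m : ℝ, m ≤ 1 ∧
      Tendsto (fun n => (B n).τ (p n i.1 * q n i.2)) l (𝓝 m) := by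
    intro i
    obtain ⟨m, hm, h1⟩ := (isCompact_Icc (a := (0 : ℝ)) (b := 1)).ultrafilter_le_nhds
      (l.map fun n => nrm (p n i.1 * q n i.2) ^ 2) (by
        rw [le_principal_iff]
        refine Ultrafilter.mem_map.mpr (univ_mem' (f := (l : Filter ℕ)) fun n =>
          Set.mem_preimage.mpr ⟨sq_nonneg _, pow_le_one₀ (nrm_nonneg _) ?_⟩)
        simpa [(hE n).nrm_one] using (((bd_of_proj ((hp n).sa i.1) ((hp n).idem _)).mul
          (bd_of_proj ((hq n).sa i.2) ((hq n).idem _))).2 1).1)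
    refine ⟨m, hm.2, ((Complex.continuous_ofReal.tendsto m).comp h1).congr fun n => ?_⟩
    exact (tr_proj ((hp n).sa _) ((hp n).idem _) ((hq n).sa _) ((hq n).idem _)).symm
  choose m m1 hm using this
  have mz : ∀ i, (∀ n, p n i.1 * q n i.2 = 0) → m i = 0 := fun i hi => by
    have := hm i
    simp only [hi, map_zero, tendsto_const_nhds_iff] at this
    exact_mod_cast this.symm
  have ms : ∑ i, m i = 1 := by
    have h1 := tendsto_finsetSum Finset.univ fun i _ => hm i
    simp only [← map_sum, Fintype.sum_prod_type, ← Finset.mul_sum, (hp _).sum,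
      (hq _).sum, mul_one, (hE _).τ_one, tendsto_const_nhds_iff] at h1
    rw [Fintype.sum_prod_type]
    exact_mod_cast h1.symm
  set μ : ℝ := (Fintype.card (R ⊕ C) : ℝ)⁻¹ with hμ
  have hK : (0 : ℝ) < Fintype.card (R ⊕ C) := by exact_mod_cast Fintype.card_pos
  have hμ0 : 0 < μ := inv_pos.mpr hK
  have ht : ∀ i, 0 < μ ^ 2 - μ ^ 2 / 2 * m i := fun i => by nlinarith [m1 i, pow_pos hμ0 2]
  have hsum : ∑ i, (μ ^ 2 - μ ^ 2 / 2 * m i) + μ ^ 2 / 2 = 1 := by
    rw [Finset.sum_sub_distrib, ← Finset.mul_sum, ms, Finset.sum_const, Finset.card_univ,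
      Fintype.card_prod, nsmul_eq_mul, Nat.cast_mul, hμ]
    field_simp
    ring
  obtain ⟨A0, a0, hb, h1, a1, a2, a3, a4, hφ⟩ := exists_atoms (fun i => μ ^ 2 - μ ^ 2 / 2 * m i)
    (fun i => (ht i).le) (μ ^ 2 / 2) (by positivity)
  choose φ hφ1 hφ2 using fun n => hφ (B n) (hE n)
  refine ⟨A0, hb, by rw [h1]; exact_mod_cast hsum,
    fun A L e s hA hτ e1 e2 s1 s2 hes Le Ls hat => ?_⟩
  let π : ∀ n, B n →⋆ₙₐ[ℂ] A := fun n => (L : A0 →⋆ₙₐ[ℂ] A).comp (φ n)
  have hπ : ∀ n x, A.τ (π n x) = (μ ^ 2 / 2 : ℝ) * (B n).τ x := fun n x => (hτ _).trans (hφ1 n x)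
  obtain ⟨t, ht'⟩ : ∃ t, t = ∑ i, L (a0 i) := ⟨_, rfl⟩
  have ha : IsPVM t fun i => L (a0 i) :=
    ⟨fun i => by rw [← map_star, a1], fun i => by rw [← map_mul, a2, if_pos rfl],
      fun i j hij => by rw [← map_mul, a2, if_neg hij, map_zero], ht'.symm⟩
  have hπa : ∀ n x i, π n x * L (a0 i) = 0 := fun n x i =>
    (map_mul L (φ n x) _).symm.trans (by rw [hφ2, map_zero])
  have hπ1 : ∀ n, π n 1 = 1 - t := by
    intro n
    have k1 : π n 1 * t = 0 := by
      rw [ht', Finset.mul_sum]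
      exact Finset.sum_eq_zero fun i _ => hπa n 1 i
    have k2 : star (π n 1) = π n 1 := by rw [← map_star, star_one]
    have k3 : π n 1 * π n 1 = π n 1 := by rw [← map_mul, one_mul]
    have k4 : t * π n 1 = 0 := by
      rw [← k2, ← ha.unit_sa, ← star_mul, k1, star_zero]
    have k5 : A.τ t = ∑ i, ((μ ^ 2 - μ ^ 2 / 2 * m i : ℝ) : ℂ) := by
      simp only [ht', map_sum, hτ, a3]
    rw [eq_comm, ← sub_eq_zero]
    apply hA.faith
    have := nrm_sq' (1 - t - π n 1)
    simp only [star_sub, star_one, k2, ha.unit_sa, sub_mul, mul_sub, one_mul, mul_one, k1, k3, k4,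
      ha.unit_idem, sub_self, sub_zero, map_sub, hπ, k5, hA.one, (hE n).τ_one] at this
    have h2 : (1 : ℝ) - ∑ i, (μ ^ 2 - μ ^ 2 / 2 * m i) - μ ^ 2 / 2 =
        nrm (1 - t - π n 1) ^ 2 := by exact_mod_cast this
    exact pow_eq_zero_iff two_ne_zero |>.mp (by linarith)
  have hat' := fun i => hat (a0 i) (by rw [a2, if_pos rfl]) (a4 i)
  have hc : ∀ i x, x * L (a0 i) = L (a0 i) * x := fun i => (hat' i).1
  have hd : ∀ x, x * (1 - t) = (1 - t) * x := fun x => by
    simp only [ht', mul_sub, sub_mul, mul_one, one_mul, Finset.mul_sum, Finset.sum_mul, hc]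
  have hp' : ∀ n, IsPVM (1 - t) fun i => π n (p n i) := fun n => hπ1 n ▸ (hp n).map (π n)
  have hq' : ∀ n, IsPVM (1 - t) fun i => π n (q n i) := fun n => hπ1 n ▸ (hq n).map (π n)
  have d1 : star (1 - t) = 1 - t := (hp' 0).unit_sa
  have d2 : (1 - t) * (1 - t) = 1 - t := (hp' 0).unit_idem
  have d3 : ∀ i, L (a0 i) * (1 - t) = 0 := fun i => by
    rw [mul_sub, mul_one, ha.mul_unit, sub_self]
  have haπ : ∀ n x i, L (a0 i) * π n x = 0 := fun n x i => by rw [← hc, hπa]
  have ha' : IsPVM t fun i : (R ⊕ C) × (R ⊕ C) => L (a0 i.swap) :=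
    ha.comp Prod.swap_injective fun k hk => absurd ⟨k.swap, rfl⟩ hk
  let X : ℕ → R ⊕ C → A0 := fun n i => ∑ j, a0 (i, j) + φ n (p n i)
  let Y : ℕ → R ⊕ C → A0 := fun n j => ∑ i, a0 (i, j) + φ n (q n j)
  have eX : ∀ n i, L (X n i) = ∑ j, L (a0 (i, j)) + π n (p n i) := fun n i => by
    simp only [X, map_add, map_sum]; rfl
  have eY : ∀ n j, L (Y n j) = ∑ i, L (a0 (i, j)) + π n (q n j) := fun n i => by
    simp only [Y, map_add, map_sum]; rfl
  have hX : ∀ n, IsPVM 1 fun i => L (X n i) := fun n => by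
    simpa only [eX, add_sub_cancel] using ha.coarse.add (hp' n) fun i j => by
      simp only [Finset.sum_mul, haπ, Finset.sum_const_zero]
  have hY : ∀ n, IsPVM 1 fun i => L (Y n i) := fun n => by
    simpa only [eY, add_sub_cancel, Prod.swap_prod_mk] using ha'.coarse.add (hq' n) fun i j => by
      simp only [Finset.sum_mul, haπ, Finset.sum_const_zero]
  have Xa : ∀ n k i j, k ≠ i → L (X n k) * L (a0 (i, j)) = 0 := fun n k i j h => by
    rw [eX, add_mul, hπa, add_zero, Finset.sum_mul]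
    exact Finset.sum_eq_zero fun r _ => ha.orth _ _ (by simp [h])
  have Ya : ∀ n k i j, k ≠ j → L (Y n k) * L (a0 (i, j)) = 0 := fun n k i j h => by
    rw [eY, add_mul, hπa, add_zero, Finset.sum_mul]
    exact Finset.sum_eq_zero fun r _ => ha.orth _ _ (by simp [h])
  have Xd : ∀ n i, L (X n i) * (1 - t) = π n (p n i) := fun n i => by
    simp only [eX, add_mul, Finset.sum_mul, d3, Finset.sum_const_zero, zero_add, (hp' n).mul_unit]
  have Yd : ∀ n i, L (Y n i) * (1 - t) = π n (q n i) := fun n i => by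
    simp only [eY, add_mul, Finset.sum_mul, d3, Finset.sum_const_zero, zero_add, (hq' n).mul_unit]
  have XY : ∀ n i j, L (X n i) * L (Y n j) = L (a0 (i, j)) + π n (p n i * q n j) := by
    intro n i j
    have k1 : (∑ r, L (a0 (i, r))) * ∑ r, L (a0 (r, j)) = L (a0 (i, j)) := by
      rw [Finset.mul_sum, Finset.sum_eq_single i _ (by simp), ha.mul_fine]
      intro r _ hr
      rw [Finset.sum_mul]
      exact Finset.sum_eq_zero fun r' _ => ha.orth _ _ (by simp [hr.symm])
    rw [eX, eY, add_mul, mul_add, mul_add, k1, map_mul]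
    simp only [Finset.sum_mul, Finset.mul_sum, haπ, hπa, Finset.sum_const_zero, add_zero, zero_add]
  have tXY : ∀ i j, Tendsto (fun n => A.τ (L (X n i * Y n j))) l
      (𝓝 ((Fintype.card (R ⊕ C) : ℂ)⁻¹ ^ 2)) := fun i j => by
    simp only [map_mul L, XY, map_add, hπ, hτ, a3]
    convert ((hm (i, j)).const_mul ((μ ^ 2 / 2 : ℝ) : ℂ)).const_add _ using 2
    rw [hμ]; push_cast; ring
  have f1 : star (1 - e) = 1 - e := by rw [star_sub, star_one, e1]
  have f2 : (1 - e) * (1 - e) = 1 - e := by rw [sub_mul, one_mul, mul_sub, mul_one, e2]; simp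
  have f3 : e * (1 - e) = 0 := by rw [mul_sub, mul_one, e2, sub_self]
  have f4 : (1 - e) * e = 0 := by rw [sub_mul, one_mul, e2, sub_self]
  have Lf : ∀ x, L x * (1 - e) = (1 - e) * L x := fun x => by
    rw [mul_sub, sub_mul, Le, one_mul, mul_one]
  have sLe : ∀ x, s * (L x * e) * s = L x * (1 - e) := fun x => by
    rw [← hes, ← mul_assoc, ← Ls]; simp only [mul_assoc]
  have sLf : ∀ x, s * (L x * (1 - e)) * s = L x * e := fun x => by
    rw [← sLe]
    calc _ = s * s * (L x * e) * (s * s) := by simp only [mul_assoc]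
      _ = _ := by rw [s2, one_mul, mul_one]
  have τf : ∀ x, A.τ (L x * (1 - e)) = A.τ (L x * e) := fun x => by
    rw [← sLe, A.comm, ← mul_assoc, s2, one_mul]
  have τe : ∀ x, A.τ (L x * e) = A.τ (L x) / 2 := fun x => by
    have := τf x
    rw [mul_sub, mul_one, map_sub] at this
    linear_combination -this / 2
  have mm : ∀ x y (u v : A), L y * u = u * L y → L x * u * (L y * v) = L (x * y) * (u * v) :=
    fun x y u v h => by rw [mul_assoc, ← mul_assoc u, ← h, map_mul]; simp only [mul_assoc]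
  let Z : ℕ → R ⊕ C → A := fun n i => L (X n i) * e + L (Y n i) * (1 - e)
  have hZ : ∀ n, IsPVM 1 (Z n) := fun n => by
    simpa using ((hX n).cut' e1 e2 fun _ => Le _).add ((hY n).cut' f1 f2 fun _ => Lf _)
      fun i j => by rw [mm _ _ _ _ (Le _), f3, mul_zero]
  have sZ : ∀ n i, s * Z n i * s = L (X n i) * (1 - e) + L (Y n i) * e := fun n i => by
    simp only [Z, mul_add s, add_mul, sLe, sLf]
  have hW := fun n => (hZ n).conj s1 s2
  have tZ : ∀ i j, Tendsto (fun n => A.τ (Z n i * (s * Z n j * s))) l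
      (𝓝 ((Fintype.card (R ⊕ C) : ℂ)⁻¹ ^ 2)) := fun i j => by
    have := ((tXY i j).div_const 2).add ((tXY j i).div_const 2)
    rw [add_halves] at this
    refine this.congr fun n => ?_
    simp only [sZ]
    simp only [Z, add_mul, mul_add, mm _ _ _ _ (Le _), mm _ _ _ _ (Lf _), e2, f2, f3, f4, mul_zero,
      zero_add, add_zero, map_add, τf, τe]
    rw [map_mul L (Y n i), A.comm (L (Y n i)), ← map_mul, add_comm]
  obtain ⟨θ, hθ⟩ := exists_points (R ⊕ C)
  obtain ⟨θ', hθ'⟩ := exists_points Bool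
  have τs : A.τ s = 0 := by simpa using odd_tr e2 s2 hes (d := 1) (by simp)
  refine ⟨fun n => evalHom θ (hZ n), fun _ => evalHom θ' (sp_pvm s1 s2),
    ⟨(∏ i, (Polynomial.X - Polynomial.C (fourier 1 (θ i)))) *
      ∏ i, (Polynomial.X - Polynomial.C (fourier 1 (θ' i))), mul_ne_zero
      (Finset.prod_ne_zero_iff.mpr fun _ _ => Polynomial.X_sub_C_ne_zero _)
      (Finset.prod_ne_zero_iff.mpr fun _ _ => Polynomial.X_sub_C_ne_zero _), fun n => ?_⟩,
    fun k h1 h7 r f => ?_, fun Φ Ψ c1 c2 c3 => ?_⟩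
  · simp only [map_mul, aeval_evalHom, zero_mul, mul_zero, and_self]
  · have k1 : ∀ f : CX, cen (evalHom θ' (sp_pvm s1 s2) f) =
        ((f (θ' true) - f (θ' false)) / 2) • s := fun f => by
      simp [eval_sp s1 s2, cen, τs, hA.one, Algebra.algebraMap_eq_smul_one]
    have k2 : ∀ n (g : R ⊕ C → ℂ), cen (obs g fun i => s * Z n i * s) =
        s * (cen (obs g (Z n)) * s) := fun n g => by
      have : (obs g fun i => s * Z n i * s) = s * (obs g (Z n) * s) := by
        simp only [obs, Finset.mul_sum, Finset.sum_mul, mul_assoc, smul_mul_assoc, mul_smul_comm]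
      rw [this, cen, cen, A.comm s, mul_assoc, s2, mul_one, sub_mul, mul_sub,
        Algebra.algebraMap_eq_smul_one, smul_mul_assoc, mul_smul_comm, one_mul, s2]
    simp only [k1]
    refine words7 e2 s2 hes (a := fun x n => cen (evalHom θ (hZ n) (fourier x)))
      (fun x => (fourier x (θ' true) - fourier x (θ' false)) / 2) (fun x n => ?_)
      (fun x n => cen_τ hA.one _) (fun x y => ?_) (fun x y w => ?_) k h1 h7 r f
    · change cen (obs (fun i => fourier x (θ i)) (Z n)) * e = e * cen (obs _ (Z n))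
      have : ∀ i, Z n i * e = e * Z n i := fun i => by
        simp only [Z, add_mul, mul_add, mul_assoc, e2, f4, ← mul_assoc e, ← Le, f3]
      simp only [cen, obs, sub_mul, mul_sub, Finset.sum_mul, Finset.mul_sum, smul_mul_assoc,
        mul_smul_comm, this, Algebra.commutes]
    · refine (three_indep hZ hW tZ (fun i => fourier x (θ i)) (fun i => fourier y (θ i))
        0).1.congr fun n => ?_
      rw [k2]; rfl
    · refine (three_indep hZ hW tZ (fun i => fourier x (θ i)) (fun i => fourier y (θ i))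
        fun i => fourier w (θ i)).2.congr fun n => ?_
      rw [k2, mul_assoc, mul_assoc]; rfl
  obtain ⟨P', S, g1, g2, g3⟩ := hA.core7 e1 e2 s1 s2 hes ha hc (fun i => (hat' i).2)
    (fun i hi => by
      have := nrm_sq' (e * L (a0 i))
      rw [hi, star_mul, e1, ha.sa, mul_assoc, ← mul_assoc e, e2, ← Le, ← mul_assoc, ha.idem, τe, hτ,
        a3] at this
      have h3 : (μ ^ 2 - μ ^ 2 / 2 * m i) / 2 = 0 ^ 2 := by exact_mod_cast this
      linarith [ht i])
    (fun k => by
      rw [hτ, a3, mz (k, k) (by rcases k with k | k <;> simp [p, q]), mul_zero, sub_zero])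
    hZ (fun n k i j h1 h2 => by
      simp only [Z, add_mul, mul_assoc, hc _ e, hc _ (1 - e)]
      simp only [← mul_assoc, Xa n k i j h1, Ya n k i j h2, zero_mul, add_zero]) hθ hθ' c1 c2 c3
  have z : ∀ᶠ n in (l : Filter ℕ), ∀ i j, m (i, j) = 0 → m (j, i) = 0 →
      P' n i * (1 - t) * (S n * P' n j * S n * (1 - t)) = 0 := by
    filter_upwards [g1] with n hn i j h1 h2
    rw [mul_assoc, ← hd, mul_assoc _ (1 - t), d2, ← mul_assoc]
    refine hn.2.2.2 i j ?_
    rw [hτ, hτ, a3, a3, h1, h2, ← hμ]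
    push_cast
    ring
  let π' : ∀ n, B n →⋆ₙₐ[ℂ] A := fun n =>
    { toFun := fun x => π n x * e
      map_smul' := fun c x => by rw [map_smul, smul_mul_assoc]; rfl
      map_zero' := by rw [map_zero, zero_mul]
      map_add' := fun x y => by rw [map_add, add_mul]
      map_mul' := fun x y => by
        rw [map_mul]
        exact ((mm (φ n x) (φ n y) e e (Le _)).trans (by rw [e2, map_mul]; rfl)).symm
      map_star' := fun x => by
        rw [star_mul, e1, ← map_star]
        exact Le _ }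
  have bd : Bdd (B := fun _ => A) l fun _ => 1 - t :=
    ⟨1, Eventually.of_forall fun _ => bd_of_proj d1 d2⟩
  have de : ∀ x y : A, x * y * (1 - t) = x * (1 - t) * y := fun x y => by
    rw [mul_assoc, hd y, mul_assoc]
  refine hN A hA.faith (μ ^ 2 / 4) (by positivity) π' (fun n x => ?_)
    (fun n => ∑ r, P' n (.inl r) * (1 - t)) (fun n r => P' n (.inl r) * (1 - t))
    (fun n c => S n * P' n (.inr c) * S n * (1 - t)) ?_ (fun r => ?_) (fun c => ?_)
    fun r c hn => z.mono fun n hz => hz _ _ ?_ (mz _ (by simp [p]))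
  · refine (τe (φ n x)).trans ?_
    rw [hτ, hφ1]
    push_cast
    ring
  · filter_upwards [g1, z] with n hn hz
    exact sum_pvm (hn.1.cut d1 d2 hd) ((hn.1.conj hn.2.1 hn.2.2.1).cut d1 d2 hd)
      (fun r r' => hz _ _ (mz _ (by simp [q])) (mz _ (by simp [q])))
      fun r r' => hz _ _ (mz _ (by simp [p])) (mz _ (by simp [p]))
  · refine ((g2 (.inl r)).null.mul_right bd).congr (Eventually.of_forall fun n => ?_)
    change _ = _ - π n (P n r) * e
    simp only [Z, sub_mul (P' _ _), add_mul, de _ e, de _ (1 - e), Xd, Yd]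
    simp [p, q]
  · refine (((g3.mul (g2 (.inr c))).mul g3).null.mul_right bd).congr
      (Eventually.of_forall fun n => ?_)
    change _ = _ - π n (Q n c) * e
    simp only [sZ, sub_mul (S _ * _ * _), add_mul, de _ e, de _ (1 - e), Xd, Yd]
    simp [p, q]
  · have := tendsto_nhds_unique (hm (.inl r, .inr c)) (hn.tendsto_τ fun n => (hE n).nrm_one.le)
    exact_mod_cast this

end Pool.Agent.Lib.MP_64d6f1_an
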