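import Mathlib

/-! Star algebras with a positive trace, the trace norm, and asymptotic calculus. -/

open scoped InnerProductSpace ComplexConjugate
open Filter Topology

namespace Pool.Agent.Lib.MP_64d6f1_an

/-- A complex star algebra with a positive hermitian trace. -/
structure TAlg where
  carrier : Type
  [ring : Ring carrier]
  [starRing : StarRing carrier]
  [alg : Algebra ℂ carrier]
  [starMod : StarModule ℂ carrier]
  τ : carrier →ₗ[ℂ] ℂ
  comm : ∀ a b, τ (a * b) = τ (b * a)
  herm : ∀ a, τ (star a) = conj (τ a)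
  pos : ∀ a, 0 ≤ (τ (star a * a)).re

instance : CoeSort TAlg Type := ⟨TAlg.carrier⟩

attribute [instance] TAlg.ring TAlg.starRing TAlg.alg TAlg.starMod

namespace TAlg

variable (A : TAlg)

/-- The algebra with the trace semi-inner product. -/
def L2 : Type := A.carrier

instance : AddCommGroup A.L2 := inferInstanceAs (AddCommGroup A.carrier)
instance : Module ℂ A.L2 := inferInstanceAs (Module ℂ A.carrier)

/-- The identity map to `L2`. -/
def toL2 : A.carrier ≃ₗ[ℂ] A.L2 := LinearEquiv.refl ℂ _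

/-- The semi-inner product. -/
noncomputable abbrev core : PreInnerProductSpace.Core ℂ A.L2 where
  inner a b := A.τ (star (A.toL2.symm a) * A.toL2.symm b)
  conj_inner_symm a b := by rw [← A.herm, star_mul, star_star]
  re_inner_nonneg a := A.pos _
  add_left _ _ _ := by rw [map_add, star_add, add_mul, map_add]
  smul_left := by simp

noncomputable instance : SeminormedAddCommGroup A.L2 :=
  InnerProductSpace.Core.toSeminormedAddCommGroup (c := A.core)

noncomputable instance : InnerProductSpace ℂ A.L2 := InnerProductSpace.ofCore A.core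

lemma inner_toL2 (a b : A) : ⟪A.toL2 a, A.toL2 b⟫_ℂ = A.τ (star a * b) := rfl

variable {A}

/-- The trace norm. -/
noncomputable def nrm (a : A) : ℝ := ‖A.toL2 a‖

lemma nrm_nonneg (a : A) : 0 ≤ nrm a := norm_nonneg _

lemma nrm_sq (a : A) : nrm a ^ 2 = (A.τ (star a * a)).re := by
  rw [nrm, ← inner_toL2, ← inner_self_eq_norm_sq (𝕜 := ℂ)]; rfl

lemma nrm_sq' (a : A) : A.τ (star a * a) = ((nrm a ^ 2 : ℝ) : ℂ) := by
  rw [nrm, ← inner_toL2, inner_self_eq_norm_sq_to_K]; norm_cast

lemma nrm_add_le (a b : A) : nrm (a + b) ≤ nrm a + nrm b := by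
  simp only [nrm, map_add]; exact norm_add_le _ _

lemma nrm_smul (c : ℂ) (a : A) : nrm (c • a) = ‖c‖ * nrm a := by
  simp only [nrm, map_smul]; exact norm_smul _ _

lemma nrm_neg (a : A) : nrm (-a) = nrm a := by
  simp only [nrm, map_neg]; exact norm_neg _

@[simp] lemma nrm_zero : nrm (0 : A) = 0 := by simp [nrm]

lemma nrm_sub_comm (a b : A) : nrm (a - b) = nrm (b - a) := by
  rw [← nrm_neg, neg_sub]

lemma nrm_sub_le (a b c : A) : nrm (a - c) ≤ nrm (a - b) + nrm (b - c) := by
  have := nrm_add_le (a - b) (b - c)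
  rwa [sub_add_sub_cancel] at this

lemma nrm_star (a : A) : nrm (star a) = nrm a := by
  rw [← sq_eq_sq₀ (nrm_nonneg _) (nrm_nonneg _), nrm_sq, nrm_sq, star_star, A.comm]

lemma norm_τ_le (a b : A) : ‖A.τ (star a * b)‖ ≤ nrm a * nrm b := by
  rw [← inner_toL2]; exact norm_inner_le_norm _ _

lemma norm_τ_le' (a : A) : ‖A.τ a‖ ≤ nrm (1 : A) * nrm a := by
  simpa using norm_τ_le 1 a

lemma nrm_mul_le_of_proj {a : A} (h : star a * a * (star a * a) = star a * a) (x : A) :
    nrm (a * x) ≤ nrm x := by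
  rw [← sq_le_sq₀ (nrm_nonneg _) (nrm_nonneg _), nrm_sq, nrm_sq]
  have h1 := A.pos ((1 - star a * a) * x)
  have h2 : star ((1 - star a * a) * x) * ((1 - star a * a) * x) =
      star x * x - star (a * x) * (a * x) := by
    have : (1 - star a * a) * (1 - star a * a) = 1 - star a * a := by
      rw [sub_mul, mul_sub, mul_sub, h]; simp
    rw [star_mul, star_sub, star_one, star_mul, star_star, mul_assoc, ← mul_assoc (1 - _), this,
      star_mul, sub_mul, mul_sub, one_mul]
    simp only [mul_assoc]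
  rw [h2, map_sub, Complex.sub_re] at h1
  linarith

lemma nrm_mul_unitary {u : A} (h : star u * u = 1) (x : A) : nrm (u * x) = nrm x := by
  rw [← sq_eq_sq₀ (nrm_nonneg _) (nrm_nonneg _), nrm_sq, nrm_sq, star_mul, mul_assoc,
    ← mul_assoc (star u), h, one_mul]

lemma nrm_mul_unitary' {u : A} (h : u * star u = 1) (x : A) : nrm (x * u) = nrm x := by
  rw [← nrm_star, star_mul, nrm_mul_unitary (by rw [star_star, h]), nrm_star]

/-- Left and right multiplication by `a` are bounded by `C`. -/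
def Bd (a : A) (C : ℝ) : Prop :=
  0 ≤ C ∧ ∀ x, nrm (a * x) ≤ C * nrm x ∧ nrm (x * a) ≤ C * nrm x

lemma Bd.star {a : A} {C : ℝ} (h : Bd a C) : Bd (star a) C := by
  refine ⟨h.1, fun x => ⟨?_, ?_⟩⟩
  · rw [← nrm_star, star_mul, star_star, ← nrm_star x]; exact (h.2 _).2
  · rw [← nrm_star, star_mul, star_star, ← nrm_star x]; exact (h.2 _).1

lemma Bd.add {a b : A} {C D : ℝ} (h : Bd a C) (h' : Bd b D) : Bd (a + b) (C + D) := by
  refine ⟨add_nonneg h.1 h'.1, fun x => ⟨?_, ?_⟩⟩
  · rw [add_mul, add_mul]; exact (nrm_add_le _ _).trans (add_le_add (h.2 x).1 (h'.2 x).1)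
  · rw [mul_add, add_mul]; exact (nrm_add_le _ _).trans (add_le_add (h.2 x).2 (h'.2 x).2)

lemma Bd.mul {a b : A} {C D : ℝ} (h : Bd a C) (h' : Bd b D) : Bd (a * b) (C * D) := by
  refine ⟨mul_nonneg h.1 h'.1, fun x => ⟨?_, ?_⟩⟩
  · rw [mul_assoc, mul_assoc]
    exact (h.2 _).1.trans (mul_le_mul_of_nonneg_left (h'.2 x).1 h.1)
  · rw [← mul_assoc, mul_comm C, mul_assoc D]
    exact (h'.2 _).2.trans (mul_le_mul_of_nonneg_left (h.2 x).2 h'.1)

lemma Bd.smul {a : A} {C : ℝ} (h : Bd a C) (c : ℂ) : Bd (c • a) (‖c‖ * C) := by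
  refine ⟨mul_nonneg (norm_nonneg _) h.1, fun x => ⟨?_, ?_⟩⟩
  · rw [smul_mul_assoc, nrm_smul, mul_assoc]
    exact mul_le_mul_of_nonneg_left (h.2 x).1 (norm_nonneg _)
  · rw [mul_smul_comm, nrm_smul, mul_assoc]
    exact mul_le_mul_of_nonneg_left (h.2 x).2 (norm_nonneg _)

lemma Bd.mono {a : A} {C D : ℝ} (h : Bd a C) (hCD : C ≤ D) : Bd a D :=
  ⟨h.1.trans hCD, fun x => ⟨(h.2 x).1.trans (mul_le_mul_of_nonneg_right hCD (nrm_nonneg _)),
    (h.2 x).2.trans (mul_le_mul_of_nonneg_right hCD (nrm_nonneg _))⟩⟩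

lemma bd_zero : Bd (0 : A) 0 := ⟨le_rfl, fun x => by simp⟩

lemma bd_of_pi {a : A} (h : a * star a * a = a) : Bd a 1 := by
  refine ⟨zero_le_one, fun x => ⟨?_, ?_⟩⟩
  · rw [one_mul]
    apply nrm_mul_le_of_proj
    rw [mul_assoc, ← mul_assoc a, h]
  · rw [one_mul, ← nrm_star, star_mul, ← nrm_star x]
    apply nrm_mul_le_of_proj
    rw [star_star, ← mul_assoc, h]

lemma bd_of_proj {a : A} (h1 : star a = a) (h2 : a * a = a) : Bd a 1 :=
  bd_of_pi (by rw [h1, h2, h2])

lemma bd_one : Bd (1 : A) 1 := bd_of_proj (star_one _) (one_mul _)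

section seq

variable {B : ℕ → TAlg} {l : Filter ℕ}

/-- Uniformly bounded sequences. -/
def Bdd (l : Filter ℕ) (a : ∀ n, B n) : Prop := ∃ C, ∀ᶠ n in l, Bd (a n) C

/-- Null sequences. -/
def Null (l : Filter ℕ) (a : ∀ n, B n) : Prop := Tendsto (fun n => nrm (a n)) l (𝓝 0)

/-- Bounded sequences that are asymptotically equal. -/
structure NB (l : Filter ℕ) (a b : ∀ n, B n) : Prop where
  null : Null l fun n => a n - b n
  bl : Bdd l a
  br : Bdd l b

lemma Bdd.add {a b : ∀ n, B n} (h : Bdd l a) (h' : Bdd l b) : Bdd l fun n => a n + b n := by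
  obtain ⟨C, h⟩ := h; obtain ⟨D, h'⟩ := h'
  exact ⟨C + D, (h.and h').mono fun n hn => hn.1.add hn.2⟩

lemma Bdd.mul {a b : ∀ n, B n} (h : Bdd l a) (h' : Bdd l b) : Bdd l fun n => a n * b n := by
  obtain ⟨C, h⟩ := h; obtain ⟨D, h'⟩ := h'
  exact ⟨C * D, (h.and h').mono fun n hn => hn.1.mul hn.2⟩

lemma Bdd.smul {a : ∀ n, B n} (h : Bdd l a) (c : ℂ) : Bdd l fun n => c • a n := by
  obtain ⟨C, h⟩ := h
  exact ⟨_, h.mono fun n hn => hn.smul c⟩

lemma Bdd.star {a : ∀ n, B n} (h : Bdd l a) : Bdd l fun n => star (a n) := by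
  obtain ⟨C, h⟩ := h
  exact ⟨_, h.mono fun n hn => hn.star⟩

lemma Bdd.congr {a b : ∀ n, B n} (h : Bdd l a) (e : ∀ᶠ n in l, a n = b n) : Bdd l b := by
  obtain ⟨C, h⟩ := h
  exact ⟨C, (h.and e).mono fun n hn => hn.2 ▸ hn.1⟩

lemma bdd_zero : Bdd l fun n => (0 : B n) := ⟨0, Eventually.of_forall fun _ => bd_zero⟩

lemma Bdd.sum {ι : Type*} (s : Finset ι) {a : ι → ∀ n, B n} (h : ∀ i ∈ s, Bdd l (a i)) :
    Bdd l fun n => ∑ i ∈ s, a i n := by
  classical
  induction s using Finset.induction_on with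
  | empty => simpa using bdd_zero
  | insert i s hi ih =>
    simp only [Finset.sum_insert hi]
    exact (h i (by simp)).add (ih fun j hj => h j (by simp [hj]))

lemma Null.of_le {a : ∀ n, B n} {f : ℕ → ℝ} (hf : Tendsto f l (𝓝 0))
    (h : ∀ᶠ n in l, nrm (a n) ≤ f n) : Null l a :=
  squeeze_zero' (Eventually.of_forall fun _ => nrm_nonneg _) h hf

lemma Null.congr {a b : ∀ n, B n} (h : Null l a) (e : ∀ᶠ n in l, a n = b n) : Null l b :=
  Tendsto.congr' (e.mono fun n hn => by simp [hn]) h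

lemma null_zero : Null l fun n => (0 : B n) := by simpa [Null] using tendsto_const_nhds

lemma Null.add {a b : ∀ n, B n} (h : Null l a) (h' : Null l b) : Null l fun n => a n + b n :=
  Null.of_le (by simpa using Tendsto.add h h') (Eventually.of_forall fun _ => nrm_add_le _ _)

lemma Null.smul {a : ∀ n, B n} (h : Null l a) (c : ℂ) : Null l fun n => c • a n := by
  simpa [Null, nrm_smul] using Tendsto.const_mul ‖c‖ h

lemma Null.neg {a : ∀ n, B n} (h : Null l a) : Null l fun n => - a n := by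
  simpa [Null, nrm_neg] using h

lemma Null.star {a : ∀ n, B n} (h : Null l a) : Null l fun n => star (a n) := by
  simpa [Null, nrm_star] using h

lemma Null.mul_left {a b : ∀ n, B n} (h : Null l b) (ha : Bdd l a) :
    Null l fun n => a n * b n := by
  obtain ⟨C, hC⟩ := ha
  exact Null.of_le (by simpa using Tendsto.const_mul C h) (hC.mono fun n hn => (hn.2 _).1)

lemma Null.mul_right {a b : ∀ n, B n} (h : Null l a) (hb : Bdd l b) :
    Null l fun n => a n * b n := by
  obtain ⟨C, hC⟩ := hb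
  exact Null.of_le (by simpa using Tendsto.const_mul C h) (hC.mono fun n hn => (hn.2 _).2)

lemma NB.refl {a : ∀ n, B n} (h : Bdd l a) : NB l a a := ⟨by simpa using null_zero, h, h⟩

lemma NB.symm {a b : ∀ n, B n} (h : NB l a b) : NB l b a :=
  ⟨by simpa using h.null.neg, h.br, h.bl⟩

lemma NB.trans {a b c : ∀ n, B n} (h : NB l a b) (h' : NB l b c) : NB l a c :=
  ⟨by simpa using h.null.add h'.null, h.bl, h'.br⟩

lemma NB.add {a b c d : ∀ n, B n} (h : NB l a b) (h' : NB l c d) :
    NB l (fun n => a n + c n) (fun n => b n + d n) :=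
  ⟨(h.null.add h'.null).congr (Eventually.of_forall fun n => by abel), h.bl.add h'.bl,
    h.br.add h'.br⟩

lemma NB.smul {a b : ∀ n, B n} (h : NB l a b) (c : ℂ) :
    NB l (fun n => c • a n) (fun n => c • b n) :=
  ⟨(h.null.smul c).congr (Eventually.of_forall fun _ => (smul_sub _ _ _)), h.bl.smul c, h.br.smul c⟩

lemma NB.sub {a b c d : ∀ n, B n} (h : NB l a b) (h' : NB l c d) :
    NB l (fun n => a n - c n) (fun n => b n - d n) := by
  simpa [sub_eq_add_neg] using h.add (h'.smul (-1))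

lemma NB.star {a b : ∀ n, B n} (h : NB l a b) :
    NB l (fun n => star (a n)) (fun n => star (b n)) :=
  ⟨h.null.star.congr (Eventually.of_forall fun _ => star_sub _ _), h.bl.star, h.br.star⟩

lemma NB.mul {a b c d : ∀ n, B n} (h : NB l a b) (h' : NB l c d) :
    NB l (fun n => a n * c n) (fun n => b n * d n) :=
  ⟨((h'.null.mul_left h.bl).add (h.null.mul_right h'.br)).congr
    (Eventually.of_forall fun n => by noncomm_ring), h.bl.mul h'.bl, h.br.mul h'.br⟩

lemma NB.congr {a b a' b' : ∀ n, B n} (h : NB l a b) (e : ∀ᶠ n in l, a n = a' n)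
    (e' : ∀ᶠ n in l, b n = b' n) : NB l a' b' :=
  ⟨h.null.congr ((e.and e').mono fun n hn => by rw [hn.1, hn.2]), h.bl.congr e, h.br.congr e'⟩

lemma NB.sum {ι : Type*} (s : Finset ι) {a b : ι → ∀ n, B n} (h : ∀ i ∈ s, NB l (a i) (b i)) :
    NB l (fun n => ∑ i ∈ s, a i n) (fun n => ∑ i ∈ s, b i n) := by
  classical
  induction s using Finset.induction_on with
  | empty => simpa using NB.refl bdd_zero
  | insert i s hi ih =>
    simp only [Finset.sum_insert hi]
    exact (h i (by simp)).add (ih fun j hj => h j (by simp [hj]))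

lemma Null.tendsto_τ {a : ∀ n, B n} (h : Null l a) {R : ℝ} (h1 : ∀ n, nrm (1 : B n) ≤ R) :
    Tendsto (fun n => (B n).τ (a n)) l (𝓝 0) := by
  rw [tendsto_zero_iff_norm_tendsto_zero]
  refine squeeze_zero (fun _ => norm_nonneg _) (fun n => (norm_τ_le' _).trans
    (mul_le_mul_of_nonneg_right (h1 n) (nrm_nonneg _))) ?_
  simpa using Tendsto.const_mul R h

end seq

/-- The complex numbers with the identity trace. -/
noncomputable abbrev cplx : TAlg where
  carrier := ℂ
  τ := LinearMap.id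
  comm a b := mul_comm a b
  herm _ := rfl
  pos a := by
    change 0 ≤ (conj a * a).re
    rw [← Complex.normSq_eq_conj_mul_self]; simpa using Complex.normSq_nonneg a

/-- Matrices over a tracial algebra with the normalised trace. -/
noncomputable abbrev mat (m : Type) [Fintype m] [DecidableEq m] (B : TAlg) : TAlg where
  carrier := Matrix m m B
  τ := ((Fintype.card m : ℂ)⁻¹ • B.τ) ∘ₗ Matrix.traceLinearMap m ℂ B
  comm a b := by
    simp only [LinearMap.comp_apply, Matrix.traceLinearMap_apply, LinearMap.smul_apply,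
      Matrix.trace, Matrix.diag, Matrix.mul_apply, map_sum]
    rw [Finset.sum_comm]
    simp only [B.comm (a _ _)]
  herm a := by
    simp [Matrix.trace, B.herm, Matrix.star_apply]
  pos a := by
    simp only [LinearMap.comp_apply, Matrix.traceLinearMap_apply, LinearMap.smul_apply,
      Matrix.trace, Matrix.diag, Matrix.mul_apply, map_sum, Matrix.star_apply, smul_eq_mul,
      Complex.re_sum]
    refine Finset.sum_nonneg fun i _ => Finset.sum_nonneg fun j _ => ?_
    rw [← Complex.ofReal_natCast, ← Complex.ofReal_inv, Complex.re_ofReal_mul]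
    exact mul_nonneg (by positivity) (B.pos _)

section kron

variable {m : Type} [Fintype m] [DecidableEq m] {B : TAlg}

lemma mat_τ (a : Matrix m m B) :
    (mat m B).τ a = (Fintype.card m : ℂ)⁻¹ * ∑ i, B.τ (a i i) := by
  simp [mat, Matrix.trace, Finset.mul_sum]

/-- The elementary tensor `E ⊗ x`. -/
def kron (E : Matrix m m ℂ) (x : B) : mat m B := Matrix.of fun a b => E a b • x

lemma kron_mul (E F : Matrix m m ℂ) (x y : B) : kron E x * kron F y = kron (E * F) (x * y) := by
  apply Matrix.ext; intro a b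
  change ((Matrix.of fun a b => E a b • x) * (Matrix.of fun a b => F a b • y)) a b = _
  simp [kron, Matrix.mul_apply, Finset.sum_smul, smul_smul, mul_comm]

lemma star_kron (E : Matrix m m ℂ) (x : B) : star (kron E x) = kron (star E) (star x) := by
  apply Matrix.ext; intro a b
  change star (E b a • x) = _
  simp [kron]

lemma kron_add_left (E F : Matrix m m ℂ) (x : B) : kron (E + F) x = kron E x + kron F x := by
  apply Matrix.ext; intro a b
  change _ = E a b • x + F a b • x
  simp [kron, add_smul]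

lemma kron_add_right (E : Matrix m m ℂ) (x y : B) : kron E (x + y) = kron E x + kron E y := by
  apply Matrix.ext; intro a b
  change _ = E a b • x + E a b • y
  simp [kron]

lemma kron_smul_left (c : ℂ) (E : Matrix m m ℂ) (x : B) : kron (c • E) x = c • kron E x := by
  apply Matrix.ext; intro a b
  change _ = c • E a b • x
  simp [kron, smul_smul]

lemma kron_smul_right (c : ℂ) (E : Matrix m m ℂ) (x : B) : kron E (c • x) = c • kron E x := by
  apply Matrix.ext; intro a b
  change _ = c • E a b • x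
  simp [kron, smul_smul, mul_comm]

@[simp] lemma kron_zero_left (x : B) : kron (0 : Matrix m m ℂ) x = 0 := by
  apply Matrix.ext; intro a b
  change (0 : ℂ) • x = 0
  simp

@[simp] lemma kron_zero_right (E : Matrix m m ℂ) : kron E (0 : B) = 0 := by
  apply Matrix.ext; intro a b
  change E a b • (0 : B) = 0
  simp

lemma kron_one_one : kron (1 : Matrix m m ℂ) (1 : B) = 1 := by
  apply Matrix.ext; intro a b
  change (1 : Matrix m m ℂ) a b • (1 : B) = (1 : Matrix m m B) a b
  by_cases h : a = b <;> simp [Matrix.one_apply, h]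

lemma kron_sum_left {ι : Type*} (s : Finset ι) (E : ι → Matrix m m ℂ) (x : B) :
    kron (∑ i ∈ s, E i) x = ∑ i ∈ s, kron (E i) x := by
  classical
  induction s using Finset.induction_on with
  | empty => simp
  | insert i s hi ih => simp [Finset.sum_insert hi, kron_add_left, ih]

lemma kron_sum_right {ι : Type*} (s : Finset ι) (E : Matrix m m ℂ) (x : ι → B) :
    kron E (∑ i ∈ s, x i) = ∑ i ∈ s, kron E (x i) := by
  classical
  induction s using Finset.induction_on with
  | empty => simp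
  | insert i s hi ih => simp [Finset.sum_insert hi, kron_add_right, ih]

lemma τ_kron (E : Matrix m m ℂ) (x : B) :
    (mat m B).τ (kron E x) = (Fintype.card m : ℂ)⁻¹ * E.trace * B.τ x := by
  rw [mat_τ]
  simp [kron, Matrix.trace, Finset.sum_mul, mul_assoc]

/-- The corner embedding `x ↦ E ⊗ x` for a projection `E`. -/
def kronHom (B : TAlg) (E : Matrix m m ℂ) (h1 : star E = E) (h2 : E * E = E) :
    B →⋆ₙₐ[ℂ] mat m B where
  toFun := kron E
  map_smul' c x := kron_smul_right c E x
  map_zero' := kron_zero_right E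
  map_add' := kron_add_right E
  map_mul' x y := by rw [kron_mul, h2]
  map_star' x := by rw [star_kron, h1]

end kron

/-- The algebra embeds unitally in a complex matrix algebra, preserving the trace. -/
def Emb (B : TAlg) : Prop :=
  ∃ (ι : Type) (_ : Fintype ι) (_ : DecidableEq ι) (_ : Nonempty ι)
    (φ : B →⋆ₐ[ℂ] mat ι cplx), ∀ x, (mat ι cplx).τ (φ x) = B.τ x

lemma emb_mat_cplx (ι : Type) [Fintype ι] [DecidableEq ι] [Nonempty ι] : Emb (mat ι cplx) :=
  ⟨ι, inferInstance, inferInstance, inferInstance, StarAlgHom.id ℂ _, fun _ => rfl⟩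

lemma Emb.τ_one {B : TAlg} (h : Emb B) : B.τ 1 = 1 := by
  obtain ⟨ι, _, _, _, φ, hφ⟩ := h
  rw [← hφ, map_one, ← kron_one_one, τ_kron, Matrix.trace_one]
  have : (Fintype.card ι : ℂ) ≠ 0 := by exact_mod_cast Fintype.card_ne_zero
  rw [inv_mul_cancel₀ this, one_mul]
  rfl

lemma Emb.nrm_one {B : TAlg} (h : Emb B) : nrm (1 : B) = 1 := by
  have := nrm_sq (1 : B)
  rw [star_one, one_mul, h.τ_one, Complex.one_re] at this
  nlinarith [nrm_nonneg (1 : B)]

lemma Emb.mat {B : TAlg} (h : Emb B) (m : Type) [Fintype m] [DecidableEq m] [Nonempty m] :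
    Emb (mat m B) := by
  obtain ⟨ι, _, _, _, φ, hφ⟩ := h
  let ψ : Matrix m m B →ₐ[ℂ] Matrix (m × ι) (m × ι) ℂ :=
    (Matrix.compAlgEquiv m ι ℂ ℂ).toAlgHom.comp (AlgHom.mapMatrix φ.toAlgHom)
  have hψ : ∀ (a : Matrix m m B) p q, ψ a p q = (φ (a p.1 q.1) : Matrix ι ι ℂ) p.2 q.2 :=
    fun _ _ _ => rfl
  refine ⟨m × ι, inferInstance, inferInstance, inferInstance, ⟨ψ, fun a => ?_⟩, fun a => ?_⟩
  · apply Matrix.ext; intro p q
    change ψ (star a) p q = star (ψ a q p)
    rw [hψ, hψ, Matrix.star_apply, map_star]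
    rfl
  · change (TAlg.mat (m × ι) cplx).τ (ψ a) = _
    rw [mat_τ, mat_τ]
    have h2 : ∀ x, B.τ x = (Fintype.card ι : ℂ)⁻¹ * ∑ y, (φ x : Matrix ι ι ℂ) y y :=
      fun x => (hφ x).symm.trans (mat_τ _)
    simp only [h2, Fintype.card_prod, Nat.cast_mul, mul_inv, Fintype.sum_prod_type,
      ← Finset.mul_sum, mul_assoc]
    rfl

end TAlg

/-- A projection valued measure with total mass `e`. -/
structure IsPVM {A O : Type*} [Ring A] [StarRing A] [Fintype O] (e : A) (P : O → A) : Prop where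
  sa : ∀ α, star (P α) = P α
  idem : ∀ α, P α * P α = P α
  orth : ∀ α β, α ≠ β → P α * P β = 0
  sum : ∑ α, P α = e

end Pool.Agent.Lib.MP_64d6f1_an
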